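import Pool.Agent.Lib.MP_7e9852_an.Spec

/-!
Module CAR: the lamp subalgebra is a Cartan subalgebra of the von Neumann algebra of the
lamplighter group.
-/

namespace MP7e

open scoped InnerProductSpace TensorProduct ENNReal
open Filter Topology Classical

noncomputable section

namespace Car

variable {H : Type} [Group H]

/-- the lamp elements -/
def lp (κ : H →₀ ZMod 2) : Lamp H := ⟨κ, 1⟩

theorem lp_mul (κ κ' : H →₀ ZMod 2) : lp κ * lp κ' = lp (κ + κ') := by
  apply Lamp.ext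
  · rw [Lamp.mul_lamp]
    show κ + shift 1 κ' = κ + κ'
    rw [shift_one]
  · rw [Lamp.mul_pos]
    show (1 : H) * 1 = 1
    rw [one_mul]

theorem lp_zero : lp (0 : H →₀ ZMod 2) = 1 := rfl

theorem lp_inv (κ : H →₀ ZMod 2) : (lp κ)⁻¹ = lp (-κ) := by
  rw [inv_eq_iff_mul_eq_one, lp_mul, add_neg_cancel, lp_zero]

theorem lp_comm (κ κ' : H →₀ ZMod 2) : lp κ * lp κ' = lp κ' * lp κ := by
  rw [lp_mul, lp_mul, add_comm]

/-- conjugates of lamps are lamps -/
theorem conj_lp (w : Lamp H) (κ : H →₀ ZMod 2) : w * lp κ = lp (shift w.pos κ) * w := by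
  apply Lamp.ext
  · rw [Lamp.mul_lamp, Lamp.mul_lamp]
    show w.lamp + shift w.pos κ = shift w.pos κ + shift 1 w.lamp
    rw [shift_one, add_comm]
  · rw [Lamp.mul_pos, Lamp.mul_pos]
    show w.pos * 1 = 1 * w.pos
    rw [one_mul, mul_one]

/-- the elements of the group von Neumann algebra commuting with the lamps -/
def CA (H : Type) [Group H] : VonNeumannAlgebra (L2 (Lamp H)) where
  toStarSubalgebra := StarSubalgebra.centralizer ℂ (Set.range (rho : Lamp H → Op (Lamp H)) ∪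
    Set.range (fun κ : H →₀ ZMod 2 => (lam (lp κ) : Op (Lamp H))))
  centralizer_centralizer' := by
    show Set.centralizer (Set.centralizer
      (StarSubalgebra.centralizer ℂ (Set.range (rho : Lamp H → Op (Lamp H)) ∪
    Set.range (fun κ : H →₀ ZMod 2 => (lam (lp κ) : Op (Lamp H)))) : Set (Op (Lamp H)))) =
      (StarSubalgebra.centralizer ℂ (Set.range (rho : Lamp H → Op (Lamp H)) ∪
    Set.range (fun κ : H →₀ ZMod 2 => (lam (lp κ) : Op (Lamp H)))) : Set (Op (Lamp H)))
    rw [StarSubalgebra.coe_centralizer]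
    exact Set.centralizer_centralizer_centralizer _

theorem mem_CA {T : Op (Lamp H)} :
    T ∈ CA H ↔ T ∈ LG (Lamp H) ∧ ∀ κ : H →₀ ZMod 2, T * lam (lp κ) = lam (lp κ) * T := by
  have h1 : T ∈ CA H ↔ T ∈ StarSubalgebra.centralizer ℂ (Set.range (rho : Lamp H → Op (Lamp H)) ∪
    Set.range (fun κ : H →₀ ZMod 2 => (lam (lp κ) : Op (Lamp H)))) := Iff.rfl
  rw [h1, StarSubalgebra.mem_centralizer_iff, mem_LG]
  constructor
  · intro h
    exact ⟨fun g => ((h (rho g) (Or.inl ⟨g, rfl⟩)).1).symm,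
      fun κ => ((h (lam (lp κ)) (Or.inr ⟨κ, rfl⟩)).1).symm⟩
  · rintro ⟨h, h'⟩ _ (⟨g, rfl⟩ | ⟨κ, rfl⟩)
    · refine ⟨(h g).symm, ?_⟩
      rw [star_rho]
      exact (h g⁻¹).symm
    · refine ⟨(h' κ).symm, ?_⟩
      show star (lam (lp κ)) * T = T * star (lam (lp κ))
      rw [star_lam, lp_inv]
      exact (h' (-κ)).symm

/-- the symbol is invariant under conjugation by lamps -/
theorem symb_inv {z : Op (Lamp H)} (hz : z ∈ CA H) (κ : H →₀ ZMod 2) (w : Lamp H) :
    (z (dl 1) : Lamp H → ℂ) ((lp κ)⁻¹ * w) = (z (dl 1) : Lamp H → ℂ) (w * (lp κ)⁻¹) := by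
  obtain ⟨h1, h2⟩ := mem_CA.1 hz
  have h3 := congrArg (fun S : Op (Lamp H) => (S (dl 1) : Lamp H → ℂ) w) (h2 κ)
  simp only [mulA, lam_dl, mul_one] at h3
  rw [LG_coeff h1, lam_apply] at h3
  exact h3.symm

/-- the symbol vanishes outside of the lamps -/
theorem symb_zero [Infinite H] {z : Op (Lamp H)} (hz : z ∈ CA H) (w : Lamp H) (hw : w.pos ≠ 1) :
    (z (dl 1) : Lamp H → ℂ) w = 0 := by
  by_contra hc
  set c := (z (dl 1) : Lamp H → ℂ) w with hcdef
  let u : H → Lamp H := fun x => (lp (Finsupp.single x 1))⁻¹ * (w * lp (Finsupp.single x 1))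
  have hu : ∀ x, (z (dl 1) : Lamp H → ℂ) (u x) = c := by
    intro x
    have := symb_inv hz (Finsupp.single x 1) (w * lp (Finsupp.single x 1))
    rw [mul_inv_cancel_right] at this
    exact this
  have hfin : {w' | (z (dl 1) : Lamp H → ℂ) w' = c}.Finite := by
    have h1 := (summable_normSq (z (dl 1))).tendsto_cofinite_zero
    have hpos : 0 < ‖c‖ ^ 2 := by
      have := norm_pos_iff.2 hc
      positivity
    have h2 := h1.eventually (gt_mem_nhds hpos)
    rw [Filter.eventually_cofinite] at h2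
    refine h2.subset ?_
    intro w' hw'
    have hw'' : (z (dl 1) : Lamp H → ℂ) w' = c := hw'
    simp [hw'']
  have hlamp : ∀ x, (u x).lamp x ≠ w.lamp x := by
    intro x
    have e : (u x).lamp = -(Finsupp.single x 1) + (w.lamp + shift w.pos (Finsupp.single x 1)) := by
      show ((lp (Finsupp.single x 1))⁻¹ * (w * lp (Finsupp.single x 1))).lamp = _
      rw [lp_inv, Lamp.mul_lamp, Lamp.mul_lamp]
      show -(Finsupp.single x 1) + shift 1 (w.lamp + shift w.pos (Finsupp.single x 1)) = _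
      rw [shift_one]
    rw [e]
    simp only [Finsupp.add_apply, Finsupp.neg_apply, shift_apply, Finsupp.single_eq_same]
    have h3 : x ≠ w.pos⁻¹ * x := by
      intro h
      apply hw
      have := mul_right_cancel (b := x) (a := (1 : H)) (c := w.pos⁻¹) (by rw [one_mul]; exact h)
      rw [← inv_eq_one]; exact this.symm
    rw [Finsupp.single_eq_of_ne (by first | exact h3 | exact h3.symm), add_zero]
    intro h
    have : (-1 : ZMod 2) = 0 := by
      have := add_eq_right.1 h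
      exact this
    exact absurd this (by decide)
  have hrange : (Set.range u).Finite := hfin.subset (by rintro _ ⟨x, rfl⟩; exact hu x)
  have huniv : (Set.univ : Set H) ⊆ ⋃ v ∈ Set.range u, ((v.lamp - w.lamp).support : Set H) := by
    intro x _
    simp only [Set.mem_iUnion, Finset.mem_coe, Finsupp.mem_support_iff, Finsupp.sub_apply]
    exact ⟨u x, ⟨x, rfl⟩, fun h => hlamp x (sub_eq_zero.1 h)⟩
  have : (Set.univ : Set H).Finite :=
    (hrange.biUnion fun v _ => Finset.finite_toSet _).subset huniv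
  exact Set.infinite_univ this

theorem prod_coeff {X : Type*} (z z' : Op X) (x w : X) :
    HasSum (fun v => (z (dl v) : X → ℂ) w * (z' (dl x) : X → ℂ) v) (((z * z') (dl x) : X → ℂ) w) := by
  have e1 : ((z * z') (dl x) : X → ℂ) w = ⟪(star z) (dl w), z' (dl x)⟫_ℂ := by
    rw [← inner_dl_left, mulA, ContinuousLinearMap.star_eq_adjoint,
      ContinuousLinearMap.adjoint_inner_left]
  rw [e1]
  have s1 := _root_.lp.hasSum_inner (𝕜 := ℂ) ((star z) (dl w)) (z' (dl x))
  have e : (fun v => ⟪((star z) (dl w) : X → ℂ) v, (z' (dl x) : X → ℂ) v⟫_ℂ) =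
      fun v => (z (dl v) : X → ℂ) w * (z' (dl x) : X → ℂ) v := by
    funext v
    rw [star_dl]
    simp only [RCLike.inner_apply, RCLike.star_def, Complex.conj_conj]
    ring
  rw [e] at s1
  exact s1

theorem CA_comm [Infinite H] {z z' : Op (Lamp H)} (hz : z ∈ CA H) (hz' : z' ∈ CA H) :
    z * z' = z' * z := by
  have h1 := (mem_CA.1 hz).1
  have h1' := (mem_CA.1 hz').1
  apply LG_ext (mul_mem h1 h1') (mul_mem h1' h1)
  apply Subtype.ext
  funext w
  have s1 := prod_coeff z z' 1 w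
  have s2 := prod_coeff z' z 1 w
  let e : Lamp H ≃ Lamp H := (Equiv.inv (Lamp H)).trans (Equiv.mulRight w)
  have he : ∀ v, e v = v⁻¹ * w := fun v => rfl
  have s3 := (Equiv.hasSum_iff e (f := fun v => (z' (dl v) : Lamp H → ℂ) w *
    (z (dl 1) : Lamp H → ℂ) v) (a := ((z' * z) (dl 1) : Lamp H → ℂ) w)).2 s2
  have e3 : ((fun v => (z' (dl v) : Lamp H → ℂ) w * (z (dl 1) : Lamp H → ℂ) v) ∘ e) =
      fun v => (z (dl v) : Lamp H → ℂ) w * (z' (dl 1) : Lamp H → ℂ) v := by
    funext v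
    simp only [Function.comp_apply, he]
    rw [LG_coeff h1' (v⁻¹ * w) w, LG_coeff h1 v w]
    have e4 : w * (v⁻¹ * w)⁻¹ = v := by group
    rw [e4]
    by_cases hv : v.pos = 1
    · obtain ⟨κ, hκ⟩ : ∃ κ, v = lp κ := ⟨v.lamp, Lamp.ext rfl hv⟩
      rw [hκ, symb_inv hz κ w, mul_comm]
    · rw [symb_zero hz' v hv, zero_mul, mul_zero]
  rw [e3] at s3
  exact s1.unique s3

theorem lam_lp_mem (κ : H →₀ ZMod 2) : lam (lp κ) ∈ CA H := by
  rw [mem_CA]
  refine ⟨lam_mem _, fun κ' => ?_⟩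
  rw [← lam_mul, ← lam_mul, lp_comm]

theorem conj_mem {a : Op (Lamp H)} (ha : a ∈ CA H) (w : Lamp H) :
    lam w * a * lam w⁻¹ ∈ CA H := by
  obtain ⟨h1, h2⟩ := mem_CA.1 ha
  rw [mem_CA]
  refine ⟨mul_mem (mul_mem (lam_mem _) h1) (lam_mem _), fun κ => ?_⟩
  have e1 : lam w⁻¹ * lam (lp κ) = lam (lp (shift w.pos⁻¹ κ)) * lam (w⁻¹ : Lamp H) := by
    rw [← lam_mul, ← lam_mul, conj_lp]
    rfl
  have e2 : lam w * lam (lp (shift w.pos⁻¹ κ)) = lam (lp κ) * lam w := by
    rw [← lam_mul, ← lam_mul, conj_lp, ← shift_mul, mul_inv_cancel, shift_one]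
  calc lam w * a * lam w⁻¹ * lam (lp κ) = lam w * a * (lam w⁻¹ * lam (lp κ)) := by
        simp only [mul_assoc]
    _ = lam w * (a * lam (lp (shift w.pos⁻¹ κ))) * lam w⁻¹ := by rw [e1]; simp only [mul_assoc]
    _ = (lam w * lam (lp (shift w.pos⁻¹ κ))) * a * lam w⁻¹ := by rw [h2]; simp only [mul_assoc]
    _ = lam (lp κ) * (lam w * a * lam w⁻¹) := by rw [e2]; simp only [mul_assoc]

theorem lam_normalizer (w : Lamp H) : lam w ∈ normalizer (LG (Lamp H)) (CA H) := by
  have hu : star (lam w) = lam w⁻¹ := star_lam w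
  have h1 : lam w⁻¹ * lam w = (1 : Op (Lamp H)) := by rw [← lam_mul, inv_mul_cancel, lam_one]
  have h2 : lam w * lam w⁻¹ = (1 : Op (Lamp H)) := by rw [← lam_mul, mul_inv_cancel, lam_one]
  refine ⟨lam_mem _, ?_, fun a => ⟨fun ha => ?_, fun ha => ?_⟩⟩
  · rw [Unitary.mem_iff, hu]
    exact ⟨h1, h2⟩
  · rw [hu]
    exact conj_mem ha w
  · rw [hu] at ha
    have h := conj_mem ha w⁻¹
    rw [inv_inv] at h
    have e : lam w⁻¹ * (lam w * a * lam w⁻¹) * lam w = a := by
      calc lam w⁻¹ * (lam w * a * lam w⁻¹) * lam w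
          = (lam w⁻¹ * lam w) * a * (lam w⁻¹ * lam w) := by simp only [mul_assoc]
        _ = a := by rw [h1, one_mul, mul_one]
    rwa [e] at h

theorem vnGen_norm : vnGen (normalizer (LG (Lamp H)) (CA H)) = LG (Lamp H) := by
  apply SetLike.ext
  intro x
  have hmem : x ∈ vnGen (normalizer (LG (Lamp H)) (CA H)) ↔ x ∈ StarSubalgebra.centralizer ℂ
    ((normalizer (LG (Lamp H)) (CA H)) ∪ star (normalizer (LG (Lamp H)) (CA H))).centralizer :=
    Iff.rfl
  rw [hmem, StarSubalgebra.mem_centralizer_iff]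
  constructor
  · intro h
    rw [mem_LG]
    intro g
    refine ((h (rho g) ?_).1).symm
    rw [Set.mem_centralizer_iff]
    rintro u (hu | hu)
    · exact mem_LG.1 hu.1 g
    · have h3 := mem_LG.1 hu.1 g⁻¹
      have h4 := congrArg star h3
      rw [star_mul, star_mul, star_star, star_rho, inv_inv] at h4
      exact h4.symm
  · intro hx T hT
    rw [Set.mem_centralizer_iff] at hT
    have hc : ∀ w : Lamp H, T * lam w = lam w * T := fun w =>
      (hT (lam w) (Or.inl (lam_normalizer w))).symm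
    have hcs : ∀ w : Lamp H, star T * lam w = lam w * star T := by
      intro w
      have h := congrArg star (hc w⁻¹)
      rw [star_mul, star_mul, star_lam, inv_inv] at h
      exact h.symm
    exact ⟨(LG_comm hx hc).symm, (LG_comm hx hcs).symm⟩

end Car

theorem specCar : SpecCar := by
  intro H _ _
  refine ⟨Car.CA H, fun x hx => (Car.mem_CA.1 hx).1, fun a ha b hb => Car.CA_comm ha hb, ?_,
    Car.vnGen_norm⟩
  intro x hx h
  exact Car.mem_CA.2 ⟨hx, fun κ => h _ (Car.lam_lp_mem κ)⟩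

end

end MP7e
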