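import Mathlib

/-!
Tracial von Neumann algebras, amenability, strong solidity, Cartan subalgebras,
tracial ultrapowers and existential embeddings.
-/

namespace MP7e

open scoped InnerProductSpace
open Filter Topology

noncomputable section

variable {K : Type*} [NormedAddCommGroup K] [InnerProductSpace ℂ K] [CompleteSpace K]
variable {L : Type*} [NormedAddCommGroup L] [InnerProductSpace ℂ L] [CompleteSpace L]

/-- A tracial von Neumann algebra `(M, τ)` in its standard representation on `L²(M, τ)`: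
a von Neumann algebra with a cyclic unit trace vector `Ω`; the trace is `τ(x) = ⟪Ω, x Ω⟫`.
(The trace is automatically faithful and normal.) -/
structure TracialVNA (K : Type*) [NormedAddCommGroup K] [InnerProductSpace ℂ K]
    [CompleteSpace K] where
  /-- the von Neumann algebra -/
  alg : VonNeumannAlgebra K
  /-- the trace vector -/
  Ω : K
  norm_Ω : ‖Ω‖ = 1
  trace_comm : ∀ x ∈ alg, ∀ y ∈ alg, ⟪Ω, (x * y) Ω⟫_ℂ = ⟪Ω, (y * x) Ω⟫_ℂ
  cyclic : Dense {ξ : K | ∃ x ∈ alg, ξ = x Ω}

/-- the trace -/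
def TracialVNA.τ (N : TracialVNA K) (x : K →L[ℂ] K) : ℂ := ⟪N.Ω, x N.Ω⟫_ℂ

/-- the elements of the algebra, as a type -/
abbrev TracialVNA.El (N : TracialVNA K) : Type _ := N.alg.toStarSubalgebra

/-- the von Neumann algebra generated by a set of operators: the double commutant of `S ∪ S*` -/
def vnGen (S : Set (K →L[ℂ] K)) : VonNeumannAlgebra K where
  toStarSubalgebra := StarSubalgebra.centralizer ℂ (S ∪ star S).centralizer
  centralizer_centralizer' := by
    show Set.centralizer (Set.centralizer (StarSubalgebra.centralizer ℂ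
      (S ∪ star S).centralizer : Set (K →L[ℂ] K))) =
      (StarSubalgebra.centralizer ℂ (S ∪ star S).centralizer : Set (K →L[ℂ] K))
    rw [StarSubalgebra.coe_centralizer]
    exact Set.centralizer_centralizer_centralizer _

/-- the normalizer `{u ∈ U(N) : u A u* = A}` of `A` in `N` -/
def normalizer (N A : VonNeumannAlgebra K) : Set (K →L[ℂ] K) :=
  {u | u ∈ N ∧ u ∈ unitary (K →L[ℂ] K) ∧ ∀ a, a ∈ A ↔ u * a * star u ∈ A}

/-- a state of `B(K)`: a linear functional with `φ(1) = 1` and `|φ(T)| ≤ ‖T‖` -/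
def IsState (φ : (K →L[ℂ] K) →ₗ[ℂ] ℂ) : Prop := φ 1 = 1 ∧ ∀ T, ‖φ T‖ ≤ ‖T‖

/-- A von Neumann subalgebra `A` of the tracial von Neumann algebra `N` is amenable: there is
an `A`-central state on `B(L²(N))` whose restriction to `N` is the trace. -/
def Amenable (N : TracialVNA K) (A : VonNeumannAlgebra K) : Prop :=
  ∃ φ : (K →L[ℂ] K) →ₗ[ℂ] ℂ, IsState φ ∧ (∀ x ∈ N.alg, φ x = N.τ x) ∧
    ∀ a ∈ A, ∀ T, φ (a * T) = φ (T * a)

/-- a projection -/
def IsProj (p : K →L[ℂ] K) : Prop := star p = p ∧ p * p = p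

/-- a von Neumann algebra is diffuse if it has no minimal projection -/
def Diffuse (A : VonNeumannAlgebra K) : Prop :=
  ∀ p ∈ A, IsProj p → p ≠ 0 → ∃ q ∈ A, IsProj q ∧ q * p = q ∧ q ≠ 0 ∧ q ≠ p

/-- strong solidity -/
def StronglySolid (N : TracialVNA K) : Prop :=
  ∀ A : VonNeumannAlgebra K, A ≤ N.alg → Diffuse A → Amenable N A →
    Amenable N (vnGen (normalizer N.alg A))

/-- a II₁ factor: an infinite dimensional tracial von Neumann algebra with trivial center -/
def IsII1Factor (N : TracialVNA K) : Prop :=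
  (∀ x ∈ N.alg, (∀ y ∈ N.alg, x * y = y * x) → ∃ c : ℂ, x = c • 1) ∧ ¬ FiniteDimensional ℂ K

/-- a Cartan subalgebra: a maximal abelian subalgebra whose normalizer generates -/
def IsCartan (M : TracialVNA K) (A : VonNeumannAlgebra K) : Prop :=
  A ≤ M.alg ∧ (∀ a ∈ A, ∀ b ∈ A, a * b = b * a) ∧
    (∀ x ∈ M.alg, (∀ a ∈ A, x * a = a * x) → x ∈ A) ∧
    vnGen (normalizer M.alg A) = M.alg

/-- `x_n` and `y_n` define the same element of the ultrapower -/
def UEq (N : TracialVNA K) (U : Ultrafilter ℕ) (x y : ℕ → N.El) : Prop :=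
  Tendsto (fun n => ‖((x n : K →L[ℂ] K) - (y n : K →L[ℂ] K)) N.Ω‖) U (𝓝 0)

/-- `N ⊂ M` (through `ι`) is existential along `U`, in terms of representing sequences:
there is a unital trace preserving `*`-homomorphism `θ` from `M` to the ultrapower of `N`
(bounded sequences modulo sequences tending to `0` in `2`-norm along `U`) whose
restriction to `N` is the diagonal embedding. -/
def ExistentialLift (N : TracialVNA K) (M : TracialVNA L) (ι : N.El →⋆ₐ[ℂ] M.El)
    (U : Ultrafilter ℕ) : Prop :=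
  ∃ θ : M.El → ℕ → N.El,
    (∀ z, ∃ C : ℝ, ∀ n, ‖(θ z n : K →L[ℂ] K)‖ ≤ C) ∧
    (∀ z w, UEq N U (θ (z + w)) (fun n => θ z n + θ w n)) ∧
    (∀ z w, UEq N U (θ (z * w)) (fun n => θ z n * θ w n)) ∧
    (∀ (c : ℂ) z, UEq N U (θ (c • z)) (fun n => c • θ z n)) ∧
    (∀ z, UEq N U (θ (star z)) (fun n => star (θ z n))) ∧
    (∀ z, Tendsto (fun n => N.τ (θ z n : K →L[ℂ] K)) U (𝓝 (M.τ (z : L →L[ℂ] L)))) ∧
    ∀ x : N.El, UEq N U (θ (ι x)) (fun _ => x)

end

end MP7e
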