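import Pool.Agent.Lib.MP_7e9852_an.Spec

section
/-!
Module GEN: a state extending the trace and central for a set is central for the von Neumann
algebra generated by the set.
-/
namespace MP7e

open scoped InnerProductSpace
open Filter Topology

noncomputable section

namespace Gen

variable {K : Type*} [NormedAddCommGroup K] [InnerProductSpace ℂ K] [CompleteSpace K]

/-! ### states are positive -/

variable {φ : (K →L[ℂ] K) →ₗ[ℂ] ℂ}

theorem norm_one_le : ‖(1 : K →L[ℂ] K)‖ ≤ 1 := ContinuousLinearMap.norm_id_le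

theorem state_real (hφ : IsState φ) {T : K →L[ℂ] K} (hT : star T = T) : (φ T).im = 0 := by
  have key : ∀ s : ℝ, ((φ T).im + s) ^ 2 ≤ ‖T‖ ^ 2 + s ^ 2 := by
    intro s
    set A : K →L[ℂ] K := T + ((s : ℂ) * Complex.I) • 1 with hA
    have h1 : star A * A = T * T + ((s ^ 2 : ℝ) : ℂ) • (1 : K →L[ℂ] K) := by
      rw [hA, star_add, star_smul, hT, star_one, add_mul, mul_add, mul_add, smul_mul_assoc,
        smul_mul_assoc, mul_smul_comm, mul_smul_comm, mul_one, one_mul, one_mul, smul_smul]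
      have e1 : star ((s : ℂ) * Complex.I) = -((s : ℂ) * Complex.I) := by
        simp
      have e2 : star ((s : ℂ) * Complex.I) * ((s : ℂ) * Complex.I) = ((s ^ 2 : ℝ) : ℂ) := by
        rw [e1]
        push_cast
        linear_combination (-(s : ℂ) ^ 2) * Complex.I_mul_I
      rw [e2, e1, neg_smul]
      abel
    have h2 : ‖A‖ ^ 2 ≤ ‖T‖ ^ 2 + s ^ 2 := by
      have e1 : ‖A‖ ^ 2 = ‖star A * A‖ := by
        rw [CStarRing.norm_star_mul_self, sq]
      rw [e1, h1]
      calc _ ≤ ‖T * T‖ + ‖((s ^ 2 : ℝ) : ℂ) • (1 : K →L[ℂ] K)‖ := norm_add_le _ _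
        _ ≤ ‖T‖ * ‖T‖ + s ^ 2 * 1 := by
            refine add_le_add (norm_mul_le _ _) ?_
            rw [norm_smul, Complex.norm_real, Real.norm_of_nonneg (sq_nonneg s)]
            exact mul_le_mul_of_nonneg_left norm_one_le (sq_nonneg s)
        _ = _ := by ring
    have h3 : φ A = φ T + (s : ℂ) * Complex.I := by
      rw [hA, map_add, map_smul, hφ.1, smul_eq_mul, mul_one]
    have h4 : ‖φ A‖ ≤ ‖A‖ := hφ.2 A
    have h5 : ((φ T).im + s) ^ 2 ≤ ‖φ A‖ ^ 2 := by
      rw [h3, Complex.sq_norm, Complex.normSq_apply]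
      have e1 : (φ T + (s : ℂ) * Complex.I).im = (φ T).im + s := by simp
      rw [e1]
      nlinarith [sq_nonneg (φ T + (s : ℂ) * Complex.I).re]
    calc _ ≤ ‖φ A‖ ^ 2 := h5
      _ ≤ ‖A‖ ^ 2 := pow_le_pow_left₀ (norm_nonneg _) h4 2
      _ ≤ _ := h2
  by_contra hb
  have h := key ((‖T‖ ^ 2 + 1) / (2 * (φ T).im))
  have e : 2 * (φ T).im * ((‖T‖ ^ 2 + 1) / (2 * (φ T).im)) = ‖T‖ ^ 2 + 1 := by
    field_simp
  nlinarith [sq_nonneg (φ T).im]

theorem state_star (hφ : IsState φ) (T : K →L[ℂ] K) : φ (star T) = star (φ T) := by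
  have h1 := state_real hφ (T := T + star T) (by rw [star_add, star_star, add_comm])
  have h2 := state_real hφ (T := Complex.I • (T - star T)) (by
    rw [star_smul, star_sub, star_star]
    simp only [RCLike.star_def, Complex.conj_I, neg_smul, smul_sub]
    abel)
  rw [map_add, Complex.add_im] at h1
  rw [map_smul, map_sub, smul_eq_mul] at h2
  simp only [Complex.mul_im, Complex.I_re, Complex.I_im, zero_mul, one_mul, zero_add,
    Complex.sub_re] at h2
  apply Complex.ext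
  · show _ = (φ T).re
    linarith
  · show _ = -(φ T).im
    linarith

theorem state_pos (hφ : IsState φ) (B : K →L[ℂ] K) : 0 ≤ (φ (star B * B)).re := by
  set P := star B * B with hP
  have h0 : 0 ≤ P := star_mul_self_nonneg B
  have hsa : IsSelfAdjoint P := IsSelfAdjoint.of_nonneg h0
  have h1 : P ≤ algebraMap ℝ (K →L[ℂ] K) ‖P‖ := IsSelfAdjoint.le_algebraMap_norm_self hsa
  have h2 : ‖algebraMap ℝ (K →L[ℂ] K) ‖P‖ - P‖ ≤ ‖algebraMap ℝ (K →L[ℂ] K) ‖P‖‖ :=
    CStarAlgebra.norm_le_norm_of_nonneg_of_le (sub_nonneg.2 h1) (sub_le_self _ h0)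
  have h3 : ‖algebraMap ℝ (K →L[ℂ] K) ‖P‖‖ ≤ ‖P‖ := by
    rw [Algebra.algebraMap_eq_smul_one, norm_smul, norm_norm]
    calc ‖P‖ * ‖(1 : K →L[ℂ] K)‖ ≤ ‖P‖ * 1 :=
          mul_le_mul_of_nonneg_left norm_one_le (norm_nonneg _)
      _ = _ := mul_one _
  have h4 := (hφ.2 (algebraMap ℝ (K →L[ℂ] K) ‖P‖ - P)).trans (h2.trans h3)
  have h5 : φ (algebraMap ℝ (K →L[ℂ] K) ‖P‖ - P) = (‖P‖ : ℂ) - φ P := by
    have e : algebraMap ℝ (K →L[ℂ] K) ‖P‖ = ((‖P‖ : ℝ) : ℂ) • (1 : K →L[ℂ] K) := by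
      rw [Algebra.algebraMap_eq_smul_one, Complex.coe_smul]
    rw [map_sub, e, map_smul, hφ.1, smul_eq_mul, mul_one]
  rw [h5] at h4
  have h6 := (Complex.abs_re_le_norm ((‖P‖ : ℂ) - φ P)).trans h4
  rw [Complex.sub_re, Complex.ofReal_re] at h6
  have := (abs_le.1 h6).2
  linarith

/-- Cauchy-Schwarz for states -/
theorem state_cs (hφ : IsState φ) (A B : K →L[ℂ] K) :
    ‖φ (star A * B)‖ ^ 2 ≤ (φ (star A * A)).re * (φ (star B * B)).re := by
  let c : PreInnerProductSpace.Core ℂ (K →L[ℂ] K) :=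
    { inner := fun A B => φ (star A * B)
      conj_inner_symm := fun x y => by
        show star (φ (star y * x)) = φ (star x * y)
        rw [← state_star hφ, star_mul, star_star]
      re_inner_nonneg := fun x => state_pos hφ x
      add_left := fun x y z => by
        show φ (star (x + y) * z) = φ (star x * z) + φ (star y * z)
        rw [star_add, add_mul, map_add]
      smul_left := fun x y r => by
        show φ (star (r • x) * y) = star r * φ (star x * y)
        rw [star_smul, smul_mul_assoc, map_smul, smul_eq_mul] }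
  have h := InnerProductSpace.Core.inner_mul_inner_self_le (c := c) A B
  have e1 : ‖φ (star B * A)‖ = ‖φ (star A * B)‖ := by
    have : φ (star B * A) = star (φ (star A * B)) := by
      rw [← state_star hφ, star_mul, star_star]
    rw [this, norm_star]
  have h' : ‖φ (star A * B)‖ * ‖φ (star B * A)‖ ≤
      (φ (star A * A)).re * (φ (star B * B)).re := h
  rw [e1] at h'
  rw [sq]
  exact h'

/-! ### estimates for elements of the tracial algebra -/

theorem tau_star_mul (N : TracialVNA K) (y : K →L[ℂ] K) :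
    N.τ (star y * y) = ((‖y N.Ω‖ ^ 2 : ℝ) : ℂ) := by
  unfold TracialVNA.τ
  rw [mul_apply_eq_comp, ContinuousLinearMap.star_eq_adjoint,
    ContinuousLinearMap.adjoint_inner_right, inner_self_eq_norm_sq_to_K]
  norm_cast

theorem norm_star_Ω (N : TracialVNA K) {y : K →L[ℂ] K} (hy : y ∈ N.alg) :
    ‖(star y) N.Ω‖ = ‖y N.Ω‖ := by
  have h1 := tau_star_mul N y
  have h2 := tau_star_mul N (star y)
  have h3 : N.τ (star y * y) = N.τ (y * star y) := N.trace_comm _ (star_mem hy) _ hy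
  rw [star_star, ← h3, h1] at h2
  have h4 : ‖y N.Ω‖ ^ 2 = ‖(star y) N.Ω‖ ^ 2 := by exact_mod_cast h2
  exact ((sq_eq_sq₀ (norm_nonneg _) (norm_nonneg _)).1 h4).symm

theorem est_right (N : TracialVNA K) (hφ : IsState φ) (hτ : ∀ x ∈ N.alg, φ x = N.τ x)
    {y : K →L[ℂ] K} (hy : y ∈ N.alg) (T : K →L[ℂ] K) : ‖φ (T * y)‖ ≤ ‖T‖ * ‖y N.Ω‖ := by
  have h := state_cs hφ (star T) y
  rw [star_star, hτ _ (mul_mem (star_mem hy) hy), tau_star_mul, Complex.ofReal_re] at h
  have h1 : (φ (T * star T)).re ≤ ‖T‖ ^ 2 := by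
    calc (φ (T * star T)).re ≤ ‖φ (T * star T)‖ := Complex.re_le_norm _
      _ ≤ ‖T * star T‖ := hφ.2 _
      _ ≤ ‖T‖ * ‖star T‖ := norm_mul_le _ _
      _ = ‖T‖ ^ 2 := by rw [norm_star, sq]
  have h2 : ‖φ (T * y)‖ ^ 2 ≤ (‖T‖ * ‖y N.Ω‖) ^ 2 := by
    calc _ ≤ (φ (T * star T)).re * ‖y N.Ω‖ ^ 2 := h
      _ ≤ ‖T‖ ^ 2 * ‖y N.Ω‖ ^ 2 := mul_le_mul_of_nonneg_right h1 (sq_nonneg _)
      _ = _ := by ring
  exact (sq_le_sq₀ (norm_nonneg _) (by positivity)).1 h2

theorem est_left (N : TracialVNA K) (hφ : IsState φ) (hτ : ∀ x ∈ N.alg, φ x = N.τ x)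
    {y : K →L[ℂ] K} (hy : y ∈ N.alg) (T : K →L[ℂ] K) : ‖φ (y * T)‖ ≤ ‖T‖ * ‖y N.Ω‖ := by
  have h := est_right N hφ hτ (star_mem hy) (star T)
  have e : φ (star T * star y) = star (φ (y * T)) := by
    rw [← state_star hφ, star_mul]
  rwa [e, norm_star, norm_star, norm_star_Ω N hy] at h

/-! ### the generated algebra -/

theorem vnGen_mem {S : Set (K →L[ℂ] K)} {x : K →L[ℂ] K} :
    x ∈ vnGen S ↔ ∀ c ∈ (S ∪ star S).centralizer, c * x = x * c ∧ star c * x = x * star c := by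
  show x ∈ StarSubalgebra.centralizer ℂ (S ∪ star S).centralizer ↔ _
  rw [StarSubalgebra.mem_centralizer_iff]

theorem vnGen_le (N : VonNeumannAlgebra K) {S : Set (K →L[ℂ] K)} (hS : ∀ s ∈ S, s ∈ N) :
    vnGen S ≤ N := by
  intro x hx
  rw [vnGen_mem] at hx
  have h1 : x ∈ Set.centralizer (Set.centralizer (N : Set (K →L[ℂ] K))) := by
    intro c hc
    refine (hx c ?_).1
    rintro s (hs | hs)
    · exact hc s (hS s hs)
    · exact hc s (by simpa using star_mem (hS _ hs))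
  rw [N.centralizer_centralizer] at h1
  exact h1

/-- the star algebra generated by `S` as an algebra generated by `S ∪ star S` -/
abbrev A0 (S : Set (K →L[ℂ] K)) : Subalgebra ℂ (K →L[ℂ] K) := Algebra.adjoin ℂ (S ∪ star S)

theorem A0_star {S : Set (K →L[ℂ] K)} {x : K →L[ℂ] K} (hx : x ∈ A0 S) : star x ∈ A0 S := by
  have h : (StarAlgebra.adjoin ℂ S).toSubalgebra = A0 S := StarAlgebra.adjoin_toSubalgebra ℂ S
  rw [← h] at hx ⊢
  exact star_mem (S := StarSubalgebra ℂ (K →L[ℂ] K)) (s := StarAlgebra.adjoin ℂ S) hx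

/-- the orbit of `Ω` -/
def V (N : TracialVNA K) (S : Set (K →L[ℂ] K)) : Submodule ℂ K :=
  (Submodule.map (ContinuousLinearMap.apply ℂ K N.Ω : (K →L[ℂ] K) →L[ℂ] K).toLinearMap
    (Subalgebra.toSubmodule (A0 S))).topologicalClosure

theorem V_mem_closure (N : TracialVNA K) (S : Set (K →L[ℂ] K)) {v : K} (hv : v ∈ V N S) :
    ∀ ε > 0, ∃ a ∈ A0 S, ‖v - a N.Ω‖ < ε := by
  intro ε hε
  have h : v ∈ closure ((Submodule.map
    (ContinuousLinearMap.apply ℂ K N.Ω : (K →L[ℂ] K) →L[ℂ] K).toLinearMap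
    (Subalgebra.toSubmodule (A0 S)) : Submodule ℂ K) : Set K) := hv
  rw [Metric.mem_closure_iff] at h
  obtain ⟨_, ⟨a, ha, rfl⟩, hd⟩ := h ε hε
  exact ⟨a, ha, by rw [← dist_eq_norm]; exact hd⟩

theorem V_base (N : TracialVNA K) (S : Set (K →L[ℂ] K)) {a : K →L[ℂ] K} (ha : a ∈ A0 S) :
    a N.Ω ∈ V N S :=
  Submodule.le_topologicalClosure _ ⟨a, ha, rfl⟩

theorem V_inv (N : TracialVNA K) (S : Set (K →L[ℂ] K)) {a : K →L[ℂ] K} (ha : a ∈ A0 S) {v : K}
    (hv : v ∈ V N S) : a v ∈ V N S := by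
  have hcl : IsClosed (V N S : Set K) := Submodule.isClosed_topologicalClosure _
  have h : v ∈ closure ((Submodule.map
    (ContinuousLinearMap.apply ℂ K N.Ω : (K →L[ℂ] K) →L[ℂ] K).toLinearMap
    (Subalgebra.toSubmodule (A0 S)) : Submodule ℂ K) : Set K) := hv
  refine closure_minimal ?_ (hcl.preimage a.continuous) h
  rintro _ ⟨b, hb, rfl⟩
  exact V_base N S (mul_mem ha hb)

/-- elements of the von Neumann algebra are approximated on `Ω` by the algebra -/
theorem approx (N : TracialVNA K) {S : Set (K →L[ℂ] K)} {x : K →L[ℂ] K} (hx : x ∈ vnGen S) :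
    ∀ ε > 0, ∃ a ∈ A0 S, ‖(x - a) N.Ω‖ < ε := by
  have hcl : IsClosed (V N S : Set K) := Submodule.isClosed_topologicalClosure _
  have : CompleteSpace (V N S) := hcl.completeSpace_coe
  set p : K →L[ℂ] K := (V N S).starProjection with hp
  have hinv : ∀ a ∈ A0 S, ∀ w, w ∈ (V N S)ᗮ → a w ∈ (V N S)ᗮ := by
    intro a ha w hw
    rw [Submodule.mem_orthogonal] at hw ⊢
    intro u hu
    have h1 := hw _ (V_inv N S (A0_star ha) hu)
    rwa [ContinuousLinearMap.star_eq_adjoint, ContinuousLinearMap.adjoint_inner_left] at h1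
  have hcomm : ∀ a ∈ A0 S, a * p = p * a := by
    intro a ha
    ext v : 1
    show a (p v) = p (a v)
    have h1 : a v = a (p v) + a (v - p v) := by rw [← map_add, add_sub_cancel]
    have h2 : p (a (p v)) = a (p v) := by
      rw [hp, Submodule.starProjection_eq_self_iff]
      exact V_inv N S ha (Submodule.starProjection_apply_mem _ _)
    have h3 : p (a (v - p v)) = 0 := by
      rw [hp, Submodule.starProjection_apply_eq_zero_iff]
      exact hinv a ha _ (Submodule.sub_starProjection_mem_orthogonal _)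
    rw [h1, map_add, h2, h3, add_zero]
  have hpc : p ∈ (S ∪ star S).centralizer := by
    intro s hs
    exact hcomm s (Algebra.subset_adjoin hs)
  have hxp := ((vnGen_mem.1 hx) p hpc).1
  have hΩ : p N.Ω = N.Ω := by
    rw [hp, Submodule.starProjection_eq_self_iff]
    have := V_base N S (one_mem (A0 S))
    simpa using this
  have hxΩ : x N.Ω ∈ V N S := by
    have h1 : p (x N.Ω) = x N.Ω := by
      have h2 := congrArg (fun T : K →L[ℂ] K => T N.Ω) hxp
      have h3 : p (x N.Ω) = x (p N.Ω) := h2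
      rw [h3, hΩ]
    rw [hp, Submodule.starProjection_eq_self_iff] at h1
    exact h1
  intro ε hε
  obtain ⟨a, ha, h⟩ := V_mem_closure N S hxΩ ε hε
  exact ⟨a, ha, by simpa using h⟩

end Gen

/-- module GEN -/
theorem specGen : SpecGen := by
  intro K _ _ _ N φ hφ hτ S hS h1 h2
  have hle : vnGen S ≤ N.alg := Gen.vnGen_le N.alg hS
  refine ⟨hle, ?_⟩
  have hA : ∀ a ∈ Gen.A0 S, ∀ T, φ (a * T) = φ (T * a) := by
    intro a ha
    induction ha using Algebra.adjoin_induction with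
    | mem s hs =>
      rcases hs with hs | hs
      · exact h1 s hs
      · have := h2 (star s) hs
        simpa using this
    | algebraMap c =>
      intro T
      rw [Algebra.algebraMap_eq_smul_one, smul_mul_assoc, mul_smul_comm, one_mul, mul_one]
    | add a b _ _ ha hb =>
      intro T
      rw [add_mul, mul_add, map_add, map_add, ha, hb]
    | mul a b _ _ ha hb =>
      intro T
      rw [mul_assoc, ha, mul_assoc, hb, mul_assoc]
  have hAN : ∀ a ∈ Gen.A0 S, a ∈ N.alg := by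
    intro a ha
    have h : Gen.A0 S ≤ N.alg.toStarSubalgebra.toSubalgebra := by
      refine Algebra.adjoin_le ?_
      rintro s (hs | hs)
      · exact hS s hs
      · have h3 : star (star s) ∈ N.alg := star_mem (hS _ hs)
        rw [star_star] at h3
        exact h3
    exact h ha
  intro x hx T
  have hxN : x ∈ N.alg := hle hx
  have key : ∀ ε > 0, ‖φ (x * T) - φ (T * x)‖ ≤ 2 * ‖T‖ * ε := by
    intro ε hε
    obtain ⟨a, ha, hax⟩ := Gen.approx N hx ε hε
    have hy : x - a ∈ N.alg := sub_mem hxN (hAN a ha)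
    have e1 := Gen.est_left N hφ hτ hy T
    have e2 := Gen.est_right N hφ hτ hy T
    have e3 : φ (x * T) - φ (T * x) = φ ((x - a) * T) - φ (T * (x - a)) := by
      rw [sub_mul, mul_sub, map_sub, map_sub, hA a ha T]
      ring
    rw [e3]
    calc _ ≤ ‖φ ((x - a) * T)‖ + ‖φ (T * (x - a))‖ := norm_sub_le _ _
      _ ≤ ‖T‖ * ‖(x - a) N.Ω‖ + ‖T‖ * ‖(x - a) N.Ω‖ := add_le_add e1 e2
      _ ≤ ‖T‖ * ε + ‖T‖ * ε := by gcongr
      _ = _ := by ring
  have h0 : ‖φ (x * T) - φ (T * x)‖ ≤ 0 := by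
    refine le_of_forall_pos_le_add fun δ hδ => ?_
    have := key (δ / (2 * ‖T‖ + 1)) (by positivity)
    refine this.trans ?_
    rw [zero_add, mul_div_assoc', div_le_iff₀ (by positivity)]
    nlinarith [norm_nonneg T]
  exact sub_eq_zero.1 (norm_le_zero_iff.1 h0)

end

end MP7e
end

section
/-!
Module AU: adding a normalizing unitary keeps amenability.
-/
namespace MP7e

open scoped InnerProductSpace
open Filter Topology Classical

noncomputable section

namespace Au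

variable {K : Type*} [NormedAddCommGroup K] [InnerProductSpace ℂ K] [CompleteSpace K]

/-- bounded sequences have limits along the hyperfilter -/
theorem exists_lim {f : ℕ → ℂ} {C : ℝ} (hf : ∀ n, ‖f n‖ ≤ C) :
    ∃ l, Tendsto f (hyperfilter ℕ : Filter ℕ) (𝓝 l) := by
  have hc : IsCompact (Metric.closedBall (0 : ℂ) C) := isCompact_closedBall _ _
  obtain ⟨l, _, hl⟩ := hc.ultrafilter_le_nhds ((hyperfilter ℕ).map f) (by
    rw [Filter.le_principal_iff]
    show f ⁻¹' (Metric.closedBall (0 : ℂ) C) ∈ hyperfilter ℕ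
    filter_upwards with n
    simpa using hf n)
  exact ⟨l, hl⟩

theorem hyper_le_atTop : (hyperfilter ℕ : Filter ℕ) ≤ atTop := Nat.hyperfilter_le_atTop

/-- the averages -/
def av (φ : (K →L[ℂ] K) →ₗ[ℂ] ℂ) (u : K →L[ℂ] K) (T : K →L[ℂ] K) (n : ℕ) : ℂ :=
  ((n : ℂ) + 1)⁻¹ * ∑ k ∈ Finset.range (n + 1), φ (star u ^ k * T * u ^ k)

theorem norm_unitary_le {u : K →L[ℂ] K} (hu : u ∈ unitary (K →L[ℂ] K)) : ‖u‖ ≤ 1 := by
  have h : ‖star u * u‖ ≤ 1 := by
    rw [(Unitary.mem_iff.1 hu).1]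
    exact Gen.norm_one_le
  rw [CStarRing.norm_star_mul_self] at h
  nlinarith [norm_nonneg u]

theorem norm_conj_le {u : K →L[ℂ] K} (hu : u ∈ unitary (K →L[ℂ] K)) (T : K →L[ℂ] K) (k : ℕ) :
    ‖star u ^ k * T * u ^ k‖ ≤ ‖T‖ := by
  have h1 : ‖u ^ k‖ ≤ 1 := norm_unitary_le (pow_mem hu k)
  have h2 : ‖star u ^ k‖ ≤ 1 := norm_unitary_le (pow_mem (Unitary.star_mem hu) k)
  calc _ ≤ ‖star u ^ k * T‖ * ‖u ^ k‖ := norm_mul_le _ _
    _ ≤ (‖star u ^ k‖ * ‖T‖) * ‖u ^ k‖ :=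
        mul_le_mul_of_nonneg_right (norm_mul_le _ _) (norm_nonneg _)
    _ ≤ (1 * ‖T‖) * 1 := by gcongr
    _ = _ := by ring

variable {φ : (K →L[ℂ] K) →ₗ[ℂ] ℂ}

theorem norm_av_le (hφ : IsState φ) {u : K →L[ℂ] K} (hu : u ∈ unitary (K →L[ℂ] K))
    (T : K →L[ℂ] K) (n : ℕ) : ‖av φ u T n‖ ≤ ‖T‖ := by
  unfold av
  have h1 : ‖∑ k ∈ Finset.range (n + 1), φ (star u ^ k * T * u ^ k)‖ ≤ (n + 1) * ‖T‖ := by
    calc _ ≤ ∑ k ∈ Finset.range (n + 1), ‖φ (star u ^ k * T * u ^ k)‖ := norm_sum_le _ _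
      _ ≤ ∑ _k ∈ Finset.range (n + 1), ‖T‖ :=
          Finset.sum_le_sum fun k _ => (hφ.2 _).trans (norm_conj_le hu T k)
      _ = _ := by simp
  have h2 : ‖((n : ℂ) + 1)⁻¹‖ = ((n : ℝ) + 1)⁻¹ := by
    rw [norm_inv]
    congr 1
    have : ((n : ℂ) + 1) = (((n : ℝ) + 1 : ℝ) : ℂ) := by push_cast; ring
    rw [this, Complex.norm_real, Real.norm_of_nonneg (by positivity)]
  rw [norm_mul, h2]
  calc _ ≤ ((n : ℝ) + 1)⁻¹ * ((n + 1) * ‖T‖) := by gcongr
    _ = ‖T‖ := by field_simp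

theorem ne0 (n : ℕ) : ((n : ℂ) + 1) ≠ 0 := by exact_mod_cast Nat.succ_ne_zero n

/-- the limit of the averages -/
def lm (φ : (K →L[ℂ] K) →ₗ[ℂ] ℂ) (u T : K →L[ℂ] K) : ℂ :=
  if h : ∃ l, Tendsto (av φ u T) (hyperfilter ℕ : Filter ℕ) (𝓝 l) then h.choose else 0

theorem lm_spec (hφ : IsState φ) {u : K →L[ℂ] K} (hu : u ∈ unitary (K →L[ℂ] K))
    (T : K →L[ℂ] K) : Tendsto (av φ u T) (hyperfilter ℕ : Filter ℕ) (𝓝 (lm φ u T)) := by
  have h : ∃ l, Tendsto (av φ u T) (hyperfilter ℕ : Filter ℕ) (𝓝 l) :=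
    exists_lim (norm_av_le hφ hu T)
  unfold lm
  rw [dif_pos h]
  exact h.choose_spec

theorem lm_eq (hφ : IsState φ) {u : K →L[ℂ] K} (hu : u ∈ unitary (K →L[ℂ] K))
    (T : K →L[ℂ] K) {l : ℂ} (h : Tendsto (av φ u T) (hyperfilter ℕ : Filter ℕ) (𝓝 l)) :
    lm φ u T = l := tendsto_nhds_unique (lm_spec hφ hu T) h

theorem av_add (u S T : K →L[ℂ] K) (n : ℕ) :
    av φ u (S + T) n = av φ u S n + av φ u T n := by
  unfold av
  rw [← mul_add, ← Finset.sum_add_distrib]
  congr 1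
  refine Finset.sum_congr rfl fun k _ => ?_
  rw [mul_add, add_mul, map_add]

theorem av_smul (c : ℂ) (u T : K →L[ℂ] K) (n : ℕ) : av φ u (c • T) n = c * av φ u T n := by
  unfold av
  rw [mul_left_comm c]
  congr 1
  rw [Finset.mul_sum]
  refine Finset.sum_congr rfl fun k _ => ?_
  rw [mul_smul_comm, smul_mul_assoc, map_smul, smul_eq_mul]

/-- the limit as a linear functional -/
def lim (hφ : IsState φ) {u : K →L[ℂ] K} (hu : u ∈ unitary (K →L[ℂ] K)) :
    (K →L[ℂ] K) →ₗ[ℂ] ℂ where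
  toFun := lm φ u
  map_add' S T := by
    refine lm_eq hφ hu _ ?_
    have := (lm_spec hφ hu S).add (lm_spec hφ hu T)
    refine this.congr fun n => ?_
    exact (av_add u S T n).symm
  map_smul' c T := by
    refine lm_eq hφ hu _ ?_
    have := (lm_spec hφ hu T).const_mul c
    refine this.congr fun n => ?_
    exact (av_smul c u T n).symm

theorem lim_const (hφ : IsState φ) {u : K →L[ℂ] K} (hu : u ∈ unitary (K →L[ℂ] K))
    {T : K →L[ℂ] K} {c : ℂ} (h : ∀ k, φ (star u ^ k * T * u ^ k) = c) : lim hφ hu T = c := by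
  refine lm_eq hφ hu T ?_
  refine tendsto_const_nhds.congr fun n => ?_
  unfold av
  simp only [h, Finset.sum_const, Finset.card_range, nsmul_eq_mul]
  push_cast
  rw [← mul_assoc, inv_mul_cancel₀ (ne0 n), one_mul]

theorem lim_congr (hφ : IsState φ) {u : K →L[ℂ] K} (hu : u ∈ unitary (K →L[ℂ] K))
    {S T : K →L[ℂ] K} (h : ∀ k, φ (star u ^ k * S * u ^ k) = φ (star u ^ k * T * u ^ k)) :
    lim hφ hu S = lim hφ hu T := by
  refine lm_eq hφ hu S ?_
  refine (lm_spec hφ hu T).congr fun n => ?_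
  unfold av
  simp only [h]

theorem uk (hu' : ∀ u : K →L[ℂ] K, u ∈ unitary (K →L[ℂ] K) → star u * u = 1)
    {u : K →L[ℂ] K} (hu : u ∈ unitary (K →L[ℂ] K)) (k : ℕ) : star u ^ k * u ^ k = 1 := by
  have := hu' (u ^ k) (pow_mem hu k)
  rwa [star_pow] at this

theorem uk1 {u : K →L[ℂ] K} (hu : u ∈ unitary (K →L[ℂ] K)) (k : ℕ) : star u ^ k * u ^ k = 1 :=
  uk (fun _ h => (Unitary.mem_iff.1 h).1) hu k

theorem uk2 {u : K →L[ℂ] K} (hu : u ∈ unitary (K →L[ℂ] K)) (k : ℕ) : u ^ k * star u ^ k = 1 := by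
  have := uk1 (Unitary.star_mem hu) k
  rwa [star_star] at this

theorem lim_state (hφ : IsState φ) {u : K →L[ℂ] K} (hu : u ∈ unitary (K →L[ℂ] K)) :
    IsState (lim hφ hu) := by
  refine ⟨lim_const hφ hu fun k => ?_, fun T => ?_⟩
  · rw [mul_one, uk1 hu, hφ.1]
  · exact le_of_tendsto (lm_spec hφ hu T).norm (Eventually.of_forall fun n => norm_av_le hφ hu T n)

/-- invariance -/
theorem lim_inv (hφ : IsState φ) {u : K →L[ℂ] K} (hu : u ∈ unitary (K →L[ℂ] K))
    (T : K →L[ℂ] K) : lim hφ hu (star u * T * u) = lim hφ hu T := by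
  refine lm_eq hφ hu (star u * T * u) ?_
  have h1 : ∀ n, av φ u (star u * T * u) n = av φ u T n +
      ((n : ℂ) + 1)⁻¹ * (φ (star u ^ (n + 1) * T * u ^ (n + 1)) - φ T) := by
    intro n
    unfold av
    rw [← mul_add]
    congr 1
    have e1 : ∀ k, φ (star u ^ k * (star u * T * u) * u ^ k) =
        φ (star u ^ (k + 1) * T * u ^ (k + 1)) := by
      intro k
      congr 1
      rw [pow_succ (star u), pow_succ' u]
      simp only [mul_assoc]
    simp only [e1]
    rw [Finset.sum_range_succ, Finset.sum_range_succ' (fun k => φ (star u ^ k * T * u ^ k))]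
    simp only [pow_zero, one_mul, mul_one]
    ring
  have h2 : Tendsto (fun n : ℕ => ((n : ℂ) + 1)⁻¹ *
      (φ (star u ^ (n + 1) * T * u ^ (n + 1)) - φ T)) atTop (𝓝 0) := by
    rw [tendsto_zero_iff_norm_tendsto_zero]
    have h3 : Tendsto (fun n : ℕ => ((n : ℝ) + 1)⁻¹ * (2 * ‖T‖)) atTop (𝓝 0) := by
      have h4 : Tendsto (fun n : ℕ => ((n : ℝ) + 1)⁻¹) atTop (𝓝 0) := by
        have := tendsto_one_div_add_atTop_nhds_zero_nat (𝕜 := ℝ)
        simpa using this
      have := h4.mul_const (2 * ‖T‖)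
      simpa using this
    refine squeeze_zero (fun _ => norm_nonneg _) (fun n => ?_) h3
    rw [norm_mul]
    have h5 : ‖((n : ℂ) + 1)⁻¹‖ = ((n : ℝ) + 1)⁻¹ := by
      rw [norm_inv]
      congr 1
      have : ((n : ℂ) + 1) = (((n : ℝ) + 1 : ℝ) : ℂ) := by push_cast; ring
      rw [this, Complex.norm_real, Real.norm_of_nonneg (by positivity)]
    rw [h5]
    have h6 : ‖φ (star u ^ (n + 1) * T * u ^ (n + 1)) - φ T‖ ≤ 2 * ‖T‖ := by
      calc _ ≤ ‖φ (star u ^ (n + 1) * T * u ^ (n + 1))‖ + ‖φ T‖ := norm_sub_le _ _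
        _ ≤ ‖T‖ + ‖T‖ := add_le_add ((hφ.2 _).trans (norm_conj_le hu T _)) (hφ.2 T)
        _ = _ := by ring
    gcongr
  have h3 := (lm_spec hφ hu T).add (h2.mono_left hyper_le_atTop)
  rw [add_zero] at h3
  exact h3.congr fun n => (h1 n).symm

end Au

/-- module AU -/
theorem specAU : SpecAU := by
  intro K _ _ _ N A hA hAm u hu
  obtain ⟨φ, hφ, hφτ, hφc⟩ := hAm
  obtain ⟨huN, huu, hun⟩ := hu
  have hu1 : star u * u = 1 := (Unitary.mem_iff.1 huu).1
  have hu2 : u * star u = 1 := (Unitary.mem_iff.1 huu).2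
  -- conjugation by powers of `u` preserves `A`
  have hconj : ∀ k, ∀ a ∈ A, star u ^ k * a * u ^ k ∈ A := by
    intro k
    induction k with
    | zero => intro a ha; simpa using ha
    | succ k ih =>
      intro a ha
      have h1 : star u * a * u ∈ A := by
        rw [hun]
        have : u * (star u * a * u) * star u = (u * star u) * a * (u * star u) := by
          simp only [mul_assoc]
        rw [this, hu2, one_mul, mul_one]
        exact ha
      have h2 := ih _ h1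
      rw [pow_succ (star u), pow_succ' u]
      have e : star u ^ k * star u * a * (u * u ^ k) = star u ^ k * (star u * a * u) * u ^ k := by
        simp only [mul_assoc]
      rw [e]
      exact h2
  set ψ := Au.lim hφ huu with hψ
  have hst : IsState ψ := Au.lim_state hφ huu
  have hτ : ∀ x ∈ N.alg, ψ x = N.τ x := by
    intro x hx
    refine Au.lim_const hφ huu fun k => ?_
    have hk : u ^ k ∈ N.alg := pow_mem huN k
    have hk' : star u ^ k ∈ N.alg := pow_mem (star_mem huN) k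
    rw [hφτ _ (mul_mem (mul_mem hk' hx) hk)]
    show ⟪N.Ω, ((star u ^ k * x) * u ^ k) N.Ω⟫_ℂ = ⟪N.Ω, x N.Ω⟫_ℂ
    rw [N.trace_comm _ (mul_mem hk' hx) _ hk, ← mul_assoc, Au.uk2 huu, one_mul]
  have hcA : ∀ a ∈ A, ∀ T, ψ (a * T) = ψ (T * a) := by
    intro a ha T
    refine Au.lim_congr hφ huu fun k => ?_
    have e1 : star u ^ k * (a * T) * u ^ k =
        (star u ^ k * a * u ^ k) * (star u ^ k * T * u ^ k) := by
      calc _ = star u ^ k * a * 1 * T * u ^ k := by simp only [mul_assoc, one_mul]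
        _ = star u ^ k * a * (u ^ k * star u ^ k) * T * u ^ k := by rw [Au.uk2 huu]
        _ = _ := by simp only [mul_assoc]
    have e2 : star u ^ k * (T * a) * u ^ k =
        (star u ^ k * T * u ^ k) * (star u ^ k * a * u ^ k) := by
      calc _ = star u ^ k * T * 1 * a * u ^ k := by simp only [mul_assoc, one_mul]
        _ = star u ^ k * T * (u ^ k * star u ^ k) * a * u ^ k := by rw [Au.uk2 huu]
        _ = _ := by simp only [mul_assoc]
    rw [e1, e2]
    exact hφc _ (hconj k a ha) _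
  have hcu : ∀ T, ψ (u * T) = ψ (T * u) := by
    intro T
    have h := Au.lim_inv hφ huu (u * T)
    rw [← mul_assoc, hu1, one_mul] at h
    exact h.symm
  have hcus : ∀ T, ψ (star u * T) = ψ (T * star u) := by
    intro T
    have h := Au.lim_inv hφ huu (T * star u)
    rw [mul_assoc, mul_assoc, hu1, mul_one] at h
    exact h
  have hS : ∀ s ∈ ((A : Set (K →L[ℂ] K)) ∪ {u}), s ∈ N.alg := by
    rintro s (hs | hs)
    · exact hA hs
    · rw [Set.mem_singleton_iff] at hs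
      rw [hs]
      exact huN
  have hgen := specGen K N ψ hst hτ ((A : Set (K →L[ℂ] K)) ∪ {u}) hS
    (by
      rintro s (hs | hs) T
      · exact hcA s hs T
      · rw [Set.mem_singleton_iff] at hs
        rw [hs]
        exact hcu T)
    (by
      rintro s (hs | hs) T
      · exact hcA (star s) (star_mem (s := A) hs) T
      · rw [Set.mem_singleton_iff] at hs
        rw [hs]
        exact hcus T)
  exact ⟨ψ, hst, hτ, hgen.2⟩

end

end MP7e
end

section
/-!
Word length in free groups and tree groups: common initial segments, the tree inequality.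
-/
namespace MP7e.Tree

open FreeGroup

section Free

variable {E : Type*} [DecidableEq E]

/-- the decomposition at the longest common initial segment -/
theorem lcp {α : Type*} (u v : List α) :
    ∃ P A B : List α, u = P ++ A ∧ v = P ++ B ∧ ∀ a ∈ A.head?, ∀ b ∈ B.head?, a ≠ b := by
  classical
  induction u generalizing v with
  | nil => exact ⟨[], [], v, rfl, rfl, by simp⟩
  | cons x u ih =>
    cases v with
    | nil => exact ⟨[], x :: u, [], rfl, rfl, by simp⟩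
    | cons y v =>
      by_cases h : x = y
      · subst h
        obtain ⟨P, A, B, h1, h2, h3⟩ := ih v
        exact ⟨x :: P, A, B, by simp [h1], by simp [h2], h3⟩
      · refine ⟨[], x :: u, y :: v, rfl, rfl, ?_⟩
        intro a ha b hb
        simp only [List.head?_cons, Option.mem_def, Option.some.injEq] at ha hb
        subst ha; subst hb; exact h

theorem isReduced_invRev {L : List (E × Bool)} (h : IsReduced L) : IsReduced (invRev L) := by
  have h1 : reduce L = L := h.reduce_eq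
  apply IsReduced.of_reduce_eq
  rw [reduce_invRev, h1]

theorem isReduced_junction {A B : List (E × Bool)} (hA : IsReduced A) (hB : IsReduced B)
    (h : ∀ a ∈ A.head?, ∀ b ∈ B.head?, a ≠ b) : IsReduced (invRev A ++ B) := by
  unfold FreeGroup.IsReduced
  rw [List.isChain_append]
  refine ⟨isReduced_invRev hA, hB, ?_⟩
  intro x hx y hy hxy
  have e : (invRev A).getLast? = A.head?.map (fun g : E × Bool => (g.1, !g.2)) := by
    unfold invRev
    rw [List.getLast?_reverse, List.head?_map]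
  rw [e] at hx
  simp only [Option.mem_def, Option.map_eq_some_iff] at hx
  obtain ⟨a, ha, rfl⟩ := hx
  have h1 := h a ha y hy
  simp only at hxy ⊢
  rcases a with ⟨a1, a2⟩
  rcases y with ⟨y1, y2⟩
  simp only at hxy
  subst hxy
  have h2 : a2 ≠ y2 := fun h => h1 (by rw [h])
  cases a2 <;> cases y2 <;> simp_all

theorem norm_of_reduced {L : List (E × Bool)} (h : IsReduced L) :
    (FreeGroup.mk L).norm = L.length := by
  unfold FreeGroup.norm
  rw [toWord_mk, h.reduce_eq]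

/-- the distance of two elements in terms of the longest common initial segment -/
theorem norm_inv_mul {u v : FreeGroup E} {P A B : List (E × Bool)} (hu : u.toWord = P ++ A)
    (hv : v.toWord = P ++ B) (h : ∀ a ∈ A.head?, ∀ b ∈ B.head?, a ≠ b) :
    (u⁻¹ * v).norm = A.length + B.length := by
  have hu' : FreeGroup.IsReduced u.toWord := isReduced_toWord
  have hv' : FreeGroup.IsReduced v.toWord := isReduced_toWord
  have hA : FreeGroup.IsReduced A := by
    rw [hu] at hu'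
    exact (List.isChain_append.1 hu').2.1
  have hB : FreeGroup.IsReduced B := by
    rw [hv] at hv'
    exact (List.isChain_append.1 hv').2.1
  have e1 : u = FreeGroup.mk P * FreeGroup.mk A := by
    rw [FreeGroup.mul_mk, ← hu, mk_toWord]
  have e2 : v = FreeGroup.mk P * FreeGroup.mk B := by
    rw [FreeGroup.mul_mk, ← hv, mk_toWord]
  have e3 : u⁻¹ * v = FreeGroup.mk (invRev A ++ B) := by
    rw [e1, e2, mul_inv_rev, mul_assoc, inv_mul_cancel_left, FreeGroup.inv_mk, FreeGroup.mul_mk]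
  rw [e3, norm_of_reduced (isReduced_junction hA hB h)]
  simp

/-- the words of `u` and `v` have different first letters -/
def HD (u v : FreeGroup E) : Prop := ∀ a ∈ u.toWord.head?, ∀ b ∈ v.toWord.head?, a ≠ b

theorem norm_eq_add_iff (u v : FreeGroup E) : (u⁻¹ * v).norm = u.norm + v.norm ↔ HD u v := by
  constructor
  · intro h
    obtain ⟨P, A, B, h1, h2, h3⟩ := lcp u.toWord v.toWord
    rw [norm_inv_mul h1 h2 h3] at h
    unfold FreeGroup.norm at h
    rw [h1, h2, List.length_append, List.length_append] at h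
    have hP : P = [] := by
      apply List.eq_nil_of_length_eq_zero
      omega
    subst hP
    unfold HD
    rw [h1, h2]
    simpa using h3
  · intro h
    have := norm_inv_mul (u := u) (v := v) (P := []) (A := u.toWord) (B := v.toWord) rfl rfl h
    rw [this]; rfl

theorem HD.trans_or {x y z : FreeGroup E} (h : HD x y) : HD x z ∨ HD z y := by
  by_contra hc
  unfold HD at hc
  push Not at hc
  obtain ⟨⟨a, ha, b, hb, hab⟩, ⟨c, hc1, d, hd, hcd⟩⟩ := hc
  subst hab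
  subst hcd
  have : a = c := by
    rw [Option.mem_def] at hb hc1
    rw [hb] at hc1
    simpa using hc1
  subst this
  exact h a ha a hd rfl

/-- a permutation of the generators preserves the length -/
theorem norm_map {E' : Type*} [DecidableEq E'] (f : E → E') (hf : Function.Injective f)
    (u : FreeGroup E) : (FreeGroup.map f u).norm = u.norm := by
  have e : FreeGroup.map f u =
      FreeGroup.mk (u.toWord.map fun x : E × Bool => (f x.1, x.2)) := by
    conv_lhs => rw [← mk_toWord (x := u)]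
    rfl
  rw [e, norm_of_reduced, List.length_map]
  · rfl
  · have h : IsReduced u.toWord := isReduced_toWord
    unfold FreeGroup.IsReduced at h ⊢
    rw [List.isChain_map]
    refine h.imp ?_
    intro a b hab h1
    exact hab (hf h1)

end Free

/-! ### Tree groups -/

section TG

open Classical

variable {Γ : Type} [Group Γ] (t : TreeGroup Γ)

theorem len_inv_mul (x y : Γ) : t.len (x⁻¹ * y) = ((t.w x)⁻¹ * t.w y).norm := by
  have h := t.cocycle x (x⁻¹ * y)
  rw [mul_inv_cancel_left] at h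
  have h2 : FreeGroup.map (t.act x) (t.w (x⁻¹ * y)) = (t.w x)⁻¹ * t.w y := by
    rw [h, inv_mul_cancel_left]
  rw [← h2, norm_map _ (t.act x).injective]
  rfl

theorem w_one : t.w 1 = 1 := by
  have h := t.cocycle 1 1
  have h0 : t.act 1 = 1 := t.act.map_one
  rw [mul_one, h0] at h
  have e : (FreeGroup.map ((1 : Equiv.Perm t.E) : t.E → t.E)) (t.w 1) = t.w 1 := by
    have : ((1 : Equiv.Perm t.E) : t.E → t.E) = id := rfl
    rw [this, FreeGroup.map.id]
  rw [e] at h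
  exact (left_eq_mul.mp h)

theorem len_one : t.len 1 = 0 := by
  unfold TreeGroup.len
  rw [w_one, FreeGroup.norm_one]

theorem len_inv (x : Γ) : t.len x⁻¹ = t.len x := by
  have h := len_inv_mul t x 1
  rw [mul_one, w_one, mul_one, FreeGroup.norm_inv_eq] at h
  exact h

/-- the tree inequality -/
theorem tree_or {X Y : Γ} (h : t.len (X⁻¹ * Y) = t.len X + t.len Y) (Z : Γ) :
    t.len (X⁻¹ * Z) = t.len X + t.len Z ∨ t.len (Z⁻¹ * Y) = t.len Z + t.len Y := by
  rw [len_inv_mul] at h ⊢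
  rw [len_inv_mul]
  have h1 := (norm_eq_add_iff _ _).1 h
  rcases h1.trans_or (z := t.w Z) with h2 | h2
  · exact Or.inl ((norm_eq_add_iff _ _).2 h2)
  · exact Or.inr ((norm_eq_add_iff _ _).2 h2)

end TG

end MP7e.Tree
end

section
/-!
The field of unit vectors for an almost malnormal subgroup acting properly on a tree.
-/
namespace MP7e.BIm

open FreeGroup Filter Topology Classical
open scoped InnerProductSpace

noncomputable section

/-! ### Normalized indicators of finite sets -/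

section NV

variable {H : Type} [Group H]

/-- the normalized indicator of a finite set -/
def nv (A : Finset H) : L2 H := ((Real.sqrt A.card)⁻¹ : ℂ) • ∑ h ∈ A, dl h

theorem inner_nv (A B : Finset H) :
    ⟪nv A, nv B⟫_ℂ =
      (((Real.sqrt A.card)⁻¹ * (Real.sqrt B.card)⁻¹ * ((A ∩ B).card : ℝ) : ℝ) : ℂ) := by
  unfold nv
  have e : ⟪∑ h ∈ A, dl h, ∑ h ∈ B, dl h⟫_ℂ = (((A ∩ B).card : ℝ) : ℂ) := by
    rw [sum_inner]
    have e1 : ∀ i ∈ A, ⟪dl i, ∑ h ∈ B, dl h⟫_ℂ = if i ∈ B then (1 : ℂ) else 0 := by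
      intro i _
      rw [inner_sum]
      simp only [inner_dl_dl]
      rw [Finset.sum_ite_eq]
    rw [Finset.sum_congr rfl e1, Finset.sum_ite_mem, Finset.sum_const, nsmul_eq_mul, mul_one]
    push_cast
    rfl
  rw [inner_smul_left, inner_smul_right, e]
  push_cast
  simp only [map_inv₀, Complex.conj_ofReal]
  ring

theorem norm_nv {A : Finset H} (hA : A.Nonempty) : ‖nv A‖ = 1 := by
  have h := inner_nv A A
  rw [inner_self_eq_norm_sq_to_K, Finset.inter_self] at h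
  have hc : (0 : ℝ) < A.card := by exact_mod_cast hA.card_pos
  have h2 : ‖nv A‖ ^ 2 = (Real.sqrt A.card)⁻¹ * (Real.sqrt A.card)⁻¹ * (A.card : ℝ) := by
    apply Complex.ofReal_injective
    rw [Complex.ofReal_pow]
    exact h
  rw [← mul_inv, Real.mul_self_sqrt hc.le, inv_mul_cancel₀ hc.ne'] at h2
  nlinarith [norm_nonneg (nv A)]

theorem lam_nv (s : H) (A : Finset H) : lam s (nv A) = nv (A.image (s * ·)) := by
  have hinj : Function.Injective (s * · : H → H) := mul_right_injective s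
  unfold nv
  rw [map_smul, map_sum, Finset.card_image_of_injective _ hinj,
    Finset.sum_image fun a _ b _ h => hinj h]
  simp only [lam_dl]

theorem normSq_nv_sub {A B : Finset H} (hA : A.Nonempty) (hB : B.Nonempty) {C : ℕ}
    (h1 : (A \ B).card ≤ C) (h2 : (B \ A).card ≤ C) :
    ‖nv A - nv B‖ ^ 2 ≤ 2 * C / B.card := by
  have ha : (0 : ℝ) < A.card := by exact_mod_cast hA.card_pos
  have hb : (0 : ℝ) < B.card := by exact_mod_cast hB.card_pos
  have e := @norm_sub_sq ℂ (L2 H) _ _ _ (nv A) (nv B)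
  rw [norm_nv hA, norm_nv hB, inner_nv] at e
  have e' : ‖nv A - nv B‖ ^ 2 =
      2 - 2 * ((Real.sqrt A.card)⁻¹ * (Real.sqrt B.card)⁻¹ * ((A ∩ B).card : ℝ)) := by
    rw [e]
    have : RCLike.re ((((Real.sqrt A.card)⁻¹ * (Real.sqrt B.card)⁻¹ *
        ((A ∩ B).card : ℝ) : ℝ) : ℂ)) =
        (Real.sqrt A.card)⁻¹ * (Real.sqrt B.card)⁻¹ * ((A ∩ B).card : ℝ) := Complex.ofReal_re _
    rw [this]; ring
  rw [e']
  set I : ℝ := ((A ∩ B).card : ℝ) with hI
  have hI0 : 0 ≤ I := Nat.cast_nonneg _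
  have c1 : (A.card : ℝ) ≤ I + C := by
    have := Finset.card_sdiff_add_card_inter A B
    have h3 : A.card ≤ (A ∩ B).card + C := by omega
    rw [hI]; exact_mod_cast h3
  have c2 : (B.card : ℝ) ≤ I + C := by
    have := Finset.card_sdiff_add_card_inter B A
    rw [Finset.inter_comm] at this
    have h3 : B.card ≤ (A ∩ B).card + C := by omega
    rw [hI]; exact_mod_cast h3
  -- the maximum of the two cardinalities
  set M : ℝ := max A.card B.card with hM
  have hM0 : 0 < M := lt_max_of_lt_left ha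
  have hAM : (A.card : ℝ) ≤ M := le_max_left _ _
  have hBM : (B.card : ℝ) ≤ M := le_max_right _ _
  have hMC : M ≤ I + C := max_le c1 c2
  have s1 : Real.sqrt A.card * Real.sqrt B.card ≤ M := by
    calc Real.sqrt A.card * Real.sqrt B.card ≤ Real.sqrt M * Real.sqrt M := by
          gcongr
      _ = M := Real.mul_self_sqrt hM0.le
  have s0 : 0 < Real.sqrt A.card * Real.sqrt B.card := by positivity
  have s2 : 1 - C / M ≤ (Real.sqrt A.card)⁻¹ * (Real.sqrt B.card)⁻¹ * I := by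
    rw [← mul_inv]
    have s3 : M⁻¹ ≤ (Real.sqrt A.card * Real.sqrt B.card)⁻¹ := inv_anti₀ s0 s1
    have s4 : 1 - C / M = (M - C) * M⁻¹ := by field_simp
    rw [s4]
    calc (M - C) * M⁻¹ ≤ I * M⁻¹ := by
          apply mul_le_mul_of_nonneg_right _ (by positivity); linarith
      _ ≤ I * (Real.sqrt A.card * Real.sqrt B.card)⁻¹ := mul_le_mul_of_nonneg_left s3 hI0
      _ = _ := mul_comm _ _
  have s5 : (C : ℝ) / M ≤ C / B.card := div_le_div_of_nonneg_left (Nat.cast_nonneg _) hb hBM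
  have s6 : 2 * (C : ℝ) / B.card = 2 * (C / B.card) := by ring
  rw [s6]
  linarith

end NV

/-! ### Geodesics in a tree group -/

section Geo

variable {Γ : Type} [Group Γ] (t : TreeGroup Γ)

theorem fin_seg (g : Γ) : {h : Γ | t.len h + t.len (h⁻¹ * g) = t.len g}.Finite :=
  (t.proper (t.len g)).subset fun h hh => by
    have h1 : t.len h + t.len (h⁻¹ * g) = t.len g := hh
    show (t.w h).norm ≤ t.len g
    have : (t.w h).norm = t.len h := rfl
    omega

/-- the elements on the geodesic from `1` to `g` -/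
def seg (g : Γ) : Finset Γ := (fin_seg t g).toFinset

theorem mem_seg {g h : Γ} : h ∈ seg t g ↔ t.len h + t.len (h⁻¹ * g) = t.len g := by
  unfold seg
  rw [Set.Finite.mem_toFinset]
  rfl

theorem exists_len (g : Γ) {i : ℕ} (hi : i ≤ t.len g) : ∃ h ∈ seg t g, t.len h = i := by
  obtain ⟨h, hh⟩ := t.pref g ((t.w g).toWord.take i) (List.take_prefix _ _)
  have hl : (t.w g).toWord.length = t.len g := rfl
  have h1 : t.len h = i := by
    show (t.w h).toWord.length = i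
    rw [hh, List.length_take, hl]
    omega
  refine ⟨h, ?_, h1⟩
  rw [mem_seg, h1, Tree.len_inv_mul]
  have e := Tree.norm_inv_mul (u := t.w h) (v := t.w g) (P := (t.w g).toWord.take i) (A := [])
    (B := (t.w g).toWord.drop i) (by rw [hh, List.append_nil])
    (List.take_append_drop _ _).symm (by simp)
  rw [e, List.length_drop, hl]
  simp only [List.length_nil]
  omega

theorem len_lt_card (g : Γ) : t.len g < (seg t g).card := by
  have h1 : Finset.range (t.len g + 1) ⊆ (seg t g).image t.len := by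
    intro i hi
    rw [Finset.mem_range] at hi
    obtain ⟨h, hh, hl⟩ := exists_len t g (i := i) (by omega)
    exact Finset.mem_image.2 ⟨h, hh, hl⟩
  have h2 := Finset.card_le_card h1
  rw [Finset.card_range] at h2
  exact lt_of_lt_of_le (Nat.lt_succ_self _) (h2.trans Finset.card_image_le)

theorem seg_nonempty (g : Γ) : (seg t g).Nonempty :=
  Finset.card_pos.1 (by have := len_lt_card t g; omega)

/-- a point on `[x, y]` lies on `[x, z]` or on `[z, y]` -/
theorem tree_incl {p x y z : Γ} (h : t.len (x⁻¹ * p) + t.len (p⁻¹ * y) = t.len (x⁻¹ * y)) :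
    t.len (x⁻¹ * p) + t.len (p⁻¹ * z) = t.len (x⁻¹ * z) ∨
      t.len (z⁻¹ * p) + t.len (p⁻¹ * y) = t.len (z⁻¹ * y) := by
  have e1 : ∀ a b : Γ, (p⁻¹ * a)⁻¹ * (p⁻¹ * b) = a⁻¹ * b := fun a b => by group
  have e2 : ∀ a : Γ, t.len (p⁻¹ * a) = t.len (a⁻¹ * p) := fun a => by
    rw [← Tree.len_inv]; congr 1; group
  have h' : t.len ((p⁻¹ * x)⁻¹ * (p⁻¹ * y)) = t.len (p⁻¹ * x) + t.len (p⁻¹ * y) := by
    rw [e1, e2 x]; exact h.symm
  rcases Tree.tree_or t h' (p⁻¹ * z) with h2 | h2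
  · left
    rw [e1, e2 x] at h2
    exact h2.symm
  · right
    rw [e1, e2 z] at h2
    exact h2.symm

/-- translates of geodesics -/
theorem mem_image_seg {s g x : Γ} :
    x ∈ (seg t g).image (s * ·) ↔
      t.len (s⁻¹ * x) + t.len (x⁻¹ * (s * g)) = t.len (s⁻¹ * (s * g)) := by
  rw [Finset.mem_image]
  constructor
  · rintro ⟨h, hh, rfl⟩
    rw [mem_seg] at hh
    have e1 : s⁻¹ * (s * h) = h := by group
    have e2 : (s * h)⁻¹ * (s * g) = h⁻¹ * g := by group
    have e3 : s⁻¹ * (s * g) = g := by group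
    simp only [e1, e2, e3]
    exact hh
  · intro h
    refine ⟨s⁻¹ * x, ?_, by group⟩
    rw [mem_seg]
    have e2 : (s⁻¹ * x)⁻¹ * g = x⁻¹ * (s * g) := by group
    have e3 : s⁻¹ * (s * g) = g := by group
    rw [e3] at h
    rw [e2]
    exact h

theorem image_sdiff (s g u : Γ) :
    ((seg t g).image (s * ·)) \ seg t (s * g * u) ⊆
      ((seg t s⁻¹).image (s * ·)) ∪ ((seg t u⁻¹).image ((s * g * u) * ·)) := by
  intro x hx
  rw [Finset.mem_sdiff, mem_image_seg] at hx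
  obtain ⟨h1, h2⟩ := hx
  rw [mem_seg] at h2
  rw [Finset.mem_union, mem_image_seg, mem_image_seg]
  rcases tree_incl t (z := 1) h1 with h3 | h3
  · left
    have e : s * s⁻¹ = 1 := by group
    rw [e]
    exact h3
  · right
    rcases tree_incl t (z := s * g * u) h3 with h4 | h4
    · exfalso
      apply h2
      rw [inv_one, one_mul, one_mul] at h4
      exact h4
    · have e : s * g * u * u⁻¹ = s * g := by group
      rw [e]
      exact h4

theorem sdiff_image (s g u : Γ) :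
    seg t (s * g * u) \ ((seg t g).image (s * ·)) ⊆
      seg t s ∪ ((seg t u).image ((s * g) * ·)) := by
  intro x hx
  rw [Finset.mem_sdiff, mem_image_seg] at hx
  obtain ⟨h1, h2⟩ := hx
  rw [mem_seg] at h1
  rw [Finset.mem_union, mem_image_seg, mem_seg]
  have h1' : t.len ((1 : Γ)⁻¹ * x) + t.len (x⁻¹ * (s * g * u)) =
      t.len ((1 : Γ)⁻¹ * (s * g * u)) := by
    rw [inv_one, one_mul, one_mul]; exact h1
  rcases tree_incl t (z := s) h1' with h3 | h3
  · left
    rw [inv_one, one_mul, one_mul] at h3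
    exact h3
  · right
    rcases tree_incl t (z := s * g) h3 with h4 | h4
    · exact absurd h4 h2
    · exact h4

theorem card_sdiff_le (s g u : Γ) :
    (((seg t g).image (s * ·)) \ seg t (s * g * u)).card ≤
      (seg t s⁻¹).card + (seg t u⁻¹).card + (seg t s).card + (seg t u).card := by
  have h := Finset.card_le_card (image_sdiff t s g u)
  have h2 := h.trans (Finset.card_union_le _ _)
  have h3 : ((seg t s⁻¹).image (s * ·)).card ≤ (seg t s⁻¹).card := Finset.card_image_le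
  have h4 : ((seg t u⁻¹).image ((s * g * u) * ·)).card ≤ (seg t u⁻¹).card :=
    Finset.card_image_le
  omega

theorem card_sdiff_le' (s g u : Γ) :
    (seg t (s * g * u) \ ((seg t g).image (s * ·))).card ≤
      (seg t s⁻¹).card + (seg t u⁻¹).card + (seg t s).card + (seg t u).card := by
  have h := Finset.card_le_card (sdiff_image t s g u)
  have h2 := h.trans (Finset.card_union_le _ _)
  have h4 : ((seg t u).image ((s * g) * ·)).card ≤ (seg t u).card := Finset.card_image_le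
  omega

theorem card_sdiff_le_inst (i : DecidableEq Γ) (s g u : Γ) :
    ((@Finset.image _ _ i (s * ·) (seg t g)) \ seg t (s * g * u)).card ≤
      (seg t s⁻¹).card + (seg t u⁻¹).card + (seg t s).card + (seg t u).card := by
  have h : i = fun a b => propDecidable (a = b) := Subsingleton.elim _ _
  subst h
  exact card_sdiff_le t s g u

theorem card_sdiff_le_inst' (i : DecidableEq Γ) (s g u : Γ) :
    (seg t (s * g * u) \ (@Finset.image _ _ i (s * ·) (seg t g))).card ≤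
      (seg t s⁻¹).card + (seg t u⁻¹).card + (seg t s).card + (seg t u).card := by
  have h : i = fun a b => propDecidable (a = b) := Subsingleton.elim _ _
  subst h
  exact card_sdiff_le' t s g u

end Geo

/-! ### Double cosets -/

section DC

variable {H : Type} [Group H] (K : Subgroup H)

/-- the double coset relation -/
def dr : Setoid H where
  r x y := ∃ a ∈ K, ∃ b ∈ K, y = a * x * b
  iseqv := by
    refine ⟨fun x => ⟨1, K.one_mem, 1, K.one_mem, by simp⟩, ?_, ?_⟩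
    · rintro x y ⟨a, ha, b, hb, rfl⟩
      exact ⟨a⁻¹, K.inv_mem ha, b⁻¹, K.inv_mem hb, by group⟩
    · rintro x y z ⟨a, ha, b, hb, rfl⟩ ⟨c, hc, d, hd, rfl⟩
      exact ⟨c * a, K.mul_mem hc ha, b * d, K.mul_mem hb hd, by group⟩

/-- the representative of the double coset -/
def rp (g : H) : H := (Quotient.mk (dr K) g).out

theorem rp_spec (g : H) : ∃ a ∈ K, ∃ b ∈ K, g = a * rp K g * b := by
  have h : (dr K).r (rp K g) g := Quotient.exact (Quotient.out_eq (Quotient.mk (dr K) g))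
  exact h

theorem rp_eq {g s u : H} (hs : s ∈ K) (hu : u ∈ K) : rp K (s * g * u) = rp K g := by
  unfold rp
  congr 1
  apply Quotient.sound
  exact ⟨s⁻¹, K.inv_mem hs, u⁻¹, K.inv_mem hu, by group⟩

theorem rp_notMem {g : H} (hg : g ∉ K) : rp K g ∉ K := by
  intro h
  obtain ⟨a, ha, b, hb, e⟩ := rp_spec K g
  apply hg
  rw [e]
  exact K.mul_mem (K.mul_mem ha h) hb

/-- the elements `h` of `K` with `h⁻¹ g ∈ ρ K` -/
def Ds (g : H) : Set H := {h | h ∈ K ∧ (rp K g)⁻¹ * (h⁻¹ * g) ∈ K}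

theorem Ds_nonempty (g : H) : (Ds K g).Nonempty := by
  obtain ⟨a, ha, b, hb, e⟩ := rp_spec K g
  refine ⟨a, ha, ?_⟩
  have key : ∀ ρ : H, g = a * ρ * b → ρ⁻¹ * (a⁻¹ * g) = b := by
    rintro ρ rfl
    group
  rw [key _ e]
  exact hb

theorem Ds_finite (hmal : ∀ x, x ∉ K → {g | g ∈ K ∧ x⁻¹ * g * x ∈ K}.Finite) {g : H}
    (hg : g ∉ K) : (Ds K g).Finite := by
  obtain ⟨h0, h0K, h0g⟩ := Ds_nonempty K g
  refine ((hmal _ (rp_notMem K hg)).image (h0 * ·)).subset ?_
  rintro h ⟨hK, hgK⟩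
  refine ⟨h0⁻¹ * h, ⟨K.mul_mem (K.inv_mem h0K) hK, ?_⟩, by group⟩
  have e : (rp K g)⁻¹ * (h0⁻¹ * h) * rp K g =
      (rp K g)⁻¹ * (h0⁻¹ * g) * ((rp K g)⁻¹ * (h⁻¹ * g))⁻¹ := by group
  rw [e]
  exact K.mul_mem h0g (K.inv_mem hgK)

theorem Ds_mul {g s u : H} (hs : s ∈ K) (hu : u ∈ K) :
    Ds K (s * g * u) = (s * ·) '' Ds K g := by
  ext h
  unfold Ds
  rw [rp_eq K hs hu, Set.mem_image]
  constructor
  · rintro ⟨hK, hgK⟩
    refine ⟨s⁻¹ * h, ⟨K.mul_mem (K.inv_mem hs) hK, ?_⟩, by group⟩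
    have e : (rp K g)⁻¹ * ((s⁻¹ * h)⁻¹ * g) = (rp K g)⁻¹ * (h⁻¹ * (s * g * u)) * u⁻¹ := by
      group
    rw [e]
    exact K.mul_mem hgK (K.inv_mem hu)
  · rintro ⟨x, ⟨hK, hgK⟩, rfl⟩
    refine ⟨K.mul_mem hs hK, ?_⟩
    have e : (rp K g)⁻¹ * ((s * x)⁻¹ * (s * g * u)) = (rp K g)⁻¹ * (x⁻¹ * g) * u := by group
    rw [e]
    exact K.mul_mem hgK hu

/-- a finite set as a finset -/
def fs (S : Set H) : Finset H := if h : S.Finite then h.toFinset else ∅

theorem coe_fs {S : Set H} (h : S.Finite) : (fs S : Set H) = S := by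
  unfold fs
  rw [dif_pos h, Set.Finite.coe_toFinset]

theorem fs_image {S : Set H} (h : S.Finite) (s : H) :
    fs ((s * ·) '' S) = (fs S).image (s * ·) := by
  apply Finset.coe_injective
  rw [coe_fs (h.image _), Finset.coe_image, coe_fs h]

variable (t : TreeGroup K)

/-- the supports of the vectors -/
def Sp (g : H) : Finset H :=
  if h : g ∈ K then (seg t ⟨g, h⟩).image (fun k : K => (k : H)) else fs (Ds K g)

theorem Sp_nonempty (hmal : ∀ x, x ∉ K → {g | g ∈ K ∧ x⁻¹ * g * x ∈ K}.Finite) (g : H) :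
    (Sp K t g).Nonempty := by
  unfold Sp
  split_ifs with h
  · exact (seg_nonempty t _).image _
  · rw [← Finset.coe_nonempty, coe_fs (Ds_finite K hmal h)]
    exact Ds_nonempty K g

theorem mul_mem_iff' {g s u : H} (hs : s ∈ K) (hu : u ∈ K) : s * g * u ∈ K ↔ g ∈ K := by
  constructor
  · intro h
    have e : g = s⁻¹ * (s * g * u) * u⁻¹ := by group
    rw [e]
    exact K.mul_mem (K.mul_mem (K.inv_mem hs) h) (K.inv_mem hu)
  · intro h
    exact K.mul_mem (K.mul_mem hs h) hu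

theorem Sp_out (hmal : ∀ x, x ∉ K → {g | g ∈ K ∧ x⁻¹ * g * x ∈ K}.Finite) {g s u : H}
    (hs : s ∈ K) (hu : u ∈ K) (hg : g ∉ K) :
    Sp K t (s * g * u) = (Sp K t g).image (s * ·) := by
  unfold Sp
  rw [dif_neg (fun h => hg ((mul_mem_iff' K hs hu).1 h)), dif_neg hg, Ds_mul K hs hu,
    fs_image (Ds_finite K hmal hg)]

theorem image_sdiff_val (A B : Finset K) :
    (A.image (fun k : K => (k : H))) \ (B.image (fun k : K => (k : H))) =
      (A \ B).image (fun k : K => (k : H)) :=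
  (Finset.image_sdiff _ _ Subtype.val_injective).symm

theorem Sp_in {g s u : H} (hs : s ∈ K) (hu : u ∈ K) (hg : g ∈ K) :
    ∃ C : ℕ, C = (seg t (⟨s, hs⟩ : K)⁻¹).card + (seg t (⟨u, hu⟩ : K)⁻¹).card +
        (seg t ⟨s, hs⟩).card + (seg t ⟨u, hu⟩).card ∧
      (((Sp K t g).image (s * ·)) \ Sp K t (s * g * u)).card ≤ C ∧
      (Sp K t (s * g * u) \ ((Sp K t g).image (s * ·))).card ≤ C ∧
      t.len ((⟨s, hs⟩ : K) * ⟨g, hg⟩ * ⟨u, hu⟩) < (Sp K t (s * g * u)).card := by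
  refine ⟨_, rfl, ?_⟩
  have hgu : s * g * u ∈ K := (mul_mem_iff' K hs hu).2 hg
  have e1 : Sp K t (s * g * u) =
      (seg t ((⟨s, hs⟩ : K) * ⟨g, hg⟩ * ⟨u, hu⟩)).image (fun k : K => (k : H)) := by
    unfold Sp
    rw [dif_pos hgu]
    rfl
  have e2 : (Sp K t g).image (s * ·) =
      ((seg t ⟨g, hg⟩).image ((⟨s, hs⟩ : K) * ·)).image (fun k : K => (k : H)) := by
    unfold Sp
    rw [dif_pos hg, Finset.image_image, Finset.image_image]
    rfl
  have hinj : Function.Injective (fun k : K => (k : H)) := Subtype.val_injective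
  rw [e1, e2, image_sdiff_val, image_sdiff_val, Finset.card_image_of_injective _ hinj,
    Finset.card_image_of_injective _ hinj, Finset.card_image_of_injective _ hinj]
  refine ⟨?_, ?_, len_lt_card t _⟩
  · exact card_sdiff_le_inst t _ (⟨s, hs⟩ : K) ⟨g, hg⟩ ⟨u, hu⟩
  · exact card_sdiff_le_inst' t _ (⟨s, hs⟩ : K) ⟨g, hg⟩ ⟨u, hu⟩

end DC

end

end MP7e.BIm

namespace MP7e

open Filter Topology Classical BIm

theorem specBI : SpecBI := by
  intro H _ K t hmal
  refine ⟨fun g => nv (Sp K t g), fun g => norm_nv (Sp_nonempty K t hmal g), ?_⟩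
  intro s hs u hu
  set C : ℕ := (seg t (⟨s, hs⟩ : K)⁻¹).card + (seg t (⟨u, hu⟩ : K)⁻¹).card +
        (seg t ⟨s, hs⟩).card + (seg t ⟨u, hu⟩).card with hC
  rw [Metric.tendsto_nhds]
  intro ε hε
  obtain ⟨n, hn⟩ := exists_nat_gt (2 * C / ε ^ 2)
  rw [eventually_cofinite]
  refine ((t.proper n).image (fun k : K => s⁻¹ * (k : H) * u⁻¹)).subset ?_
  intro g hg
  simp only [Set.mem_ofPred_eq, dist_zero_right, norm_norm, not_lt] at hg
  by_cases hgK : g ∈ K
  · obtain ⟨C', hC', h1, h2, h3⟩ := Sp_in K t hs hu hgK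
    rw [← hC] at hC'
    subst hC'
    refine ⟨(⟨s, hs⟩ : K) * ⟨g, hgK⟩ * ⟨u, hu⟩, ?_, ?_⟩
    · show t.len _ ≤ n
      by_contra hlt
      push Not at hlt
      have hne1 : ((Sp K t g).image (s * ·)).Nonempty := (Sp_nonempty K t hmal g).image _
      have h4 := normSq_nv_sub hne1 (Sp_nonempty K t hmal (s * g * u)) h1 h2
      rw [← lam_nv] at h4
      have hcard : (n : ℝ) < ((Sp K t (s * g * u)).card : ℝ) := by
        exact_mod_cast lt_trans hlt h3
      have hpos : (0 : ℝ) < ((Sp K t (s * g * u)).card : ℝ) :=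
        lt_of_le_of_lt (Nat.cast_nonneg n) hcard
      have h5 : ε ^ 2 ≤ ‖lam s (nv (Sp K t g)) - nv (Sp K t (s * g * u))‖ ^ 2 := by
        gcongr
      have h6 : ε ^ 2 * ((Sp K t (s * g * u)).card : ℝ) ≤ 2 * C := by
        have := h5.trans h4
        rwa [le_div_iff₀ hpos] at this
      have h7 : 2 * (C : ℝ) < ε ^ 2 * n := by
        rw [div_lt_iff₀ (by positivity)] at hn
        linarith
      have h8 : ε ^ 2 * (n : ℝ) ≤ ε ^ 2 * ((Sp K t (s * g * u)).card : ℝ) := by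
        gcongr
      linarith
    · show s⁻¹ * (s * g * u) * u⁻¹ = g
      group
  · exfalso
    rw [lam_nv, ← Sp_out K t hmal hs hu hgK, sub_self, norm_zero] at hg
    linarith

end MP7e
end

section
/-!
Module DIFF: a diffuse von Neumann algebra has finite partitions of unity of small trace.
-/
namespace MP7e

open scoped InnerProductSpace
open Filter Topology

noncomputable section

namespace Diff

variable {K : Type*} [NormedAddCommGroup K] [InnerProductSpace ℂ K] [CompleteSpace K]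

omit [CompleteSpace K] in
theorem mulK (S T : K →L[ℂ] K) (v : K) : (S * T) v = S (T v) := rfl

theorem inner_star (T : K →L[ℂ] K) (a b : K) : ⟪a, T b⟫_ℂ = ⟪(star T) a, b⟫_ℂ := by
  rw [ContinuousLinearMap.star_eq_adjoint, ContinuousLinearMap.adjoint_inner_left]

omit [CompleteSpace K] in
theorem inner_self_sq (v : K) : ⟪v, v⟫_ℂ = ((‖v‖ ^ 2 : ℝ) : ℂ) := by
  rw [inner_self_eq_norm_sq_to_K]; norm_cast

theorem proj_inner {p : K →L[ℂ] K} (hp : IsProj p) (v : K) :
    ⟪v, p v⟫_ℂ = ((‖p v‖ ^ 2 : ℝ) : ℂ) := by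
  have h : p v = p (p v) := by rw [← mulK, hp.2]
  rw [h, inner_star, hp.1, inner_self_sq, ← h]

theorem proj_right {p q : K →L[ℂ] K} (hp : IsProj p) (hq : IsProj q) (h : q * p = q) :
    p * q = q := by
  have h2 := congrArg star h
  rwa [star_mul, hp.1, hq.1] at h2

theorem proj_sub {p q : K →L[ℂ] K} (hp : IsProj p) (hq : IsProj q) (h : q * p = q) :
    IsProj (p - q) := by
  refine ⟨by rw [star_sub, hp.1, hq.1], ?_⟩
  rw [sub_mul, mul_sub, mul_sub, hp.2, hq.2, h, proj_right hp hq h]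
  abel

theorem proj_normsq {p q : K →L[ℂ] K} (hp : IsProj p) (hq : IsProj q) (h : q * p = q) (v : K) :
    ‖(p - q) v‖ ^ 2 = ‖p v‖ ^ 2 - ‖q v‖ ^ 2 := by
  have h1 := proj_inner (proj_sub hp hq h) v
  have h2 : ⟪v, (p - q) v⟫_ℂ = ⟪v, p v⟫_ℂ - ⟪v, q v⟫_ℂ := by
    rw [_root_.sub_apply, inner_sub_right]
  rw [h2, proj_inner hp, proj_inner hq] at h1
  exact_mod_cast h1.symm

theorem proj_norm_le {p q : K →L[ℂ] K} (hp : IsProj p) (hq : IsProj q) (h : q * p = q) (v : K) :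
    ‖q v‖ ^ 2 ≤ ‖p v‖ ^ 2 := by
  have := proj_normsq hp hq h v
  nlinarith [sq_nonneg ‖(p - q) v‖]

/-- the trace vector is separating -/
theorem faithful (N : TracialVNA K) {x : K →L[ℂ] K} (hx : x ∈ N.alg) (h0 : x N.Ω = 0) :
    x = 0 := by
  have key : ∀ y ∈ N.alg, x (y N.Ω) = 0 := by
    intro y hy
    have hxs : star x ∈ N.alg := star_mem hx
    have hys : star y ∈ N.alg := star_mem hy
    have e1 : ⟪x (y N.Ω), x (y N.Ω)⟫_ℂ = ⟪N.Ω, (star y * (star x * x * y)) N.Ω⟫_ℂ := by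
      rw [mulK, inner_star (star y), star_star, mulK, mulK, inner_star (star x), star_star]
    have e2 : ⟪N.Ω, (star y * (star x * x * y)) N.Ω⟫_ℂ =
        ⟪N.Ω, ((star x * x * y) * star y) N.Ω⟫_ℂ :=
      N.trace_comm _ hys _ (mul_mem (mul_mem hxs hx) hy)
    have e3 : ⟪N.Ω, ((star x * x) * (y * star y)) N.Ω⟫_ℂ =
        ⟪N.Ω, ((y * star y) * (star x * x)) N.Ω⟫_ℂ :=
      N.trace_comm _ (mul_mem hxs hx) _ (mul_mem hy hys)
    have e4 : ((y * star y) * (star x * x)) N.Ω = 0 := by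
      rw [mulK, mulK, mulK, h0, map_zero, map_zero, map_zero]
    rw [← mul_assoc] at e3
    rw [e2, e3, e4, inner_zero_right] at e1
    exact inner_self_eq_zero.1 e1
  apply ContinuousLinearMap.ext
  intro v
  have hd := N.cyclic
  have hc : Set.EqOn (fun v => x v) (fun _ => 0) {ξ : K | ∃ x ∈ N.alg, ξ = x N.Ω} := by
    rintro _ ⟨y, hy, rfl⟩
    exact key y hy
  exact congrFun (Continuous.ext_on hd x.continuous continuous_const hc) v

/-- limits of decreasing sequences of projections -/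
theorem limit_proj (A : VonNeumannAlgebra K) (p : ℕ → K →L[ℂ] K) (hA : ∀ n, p n ∈ A)
    (hp : ∀ n, IsProj (p n)) (hdec : ∀ n, p (n + 1) * p n = p (n + 1)) :
    ∃ P ∈ A, IsProj P ∧ (∀ n, P * p n = P) ∧ ∀ v, Tendsto (fun n => p n v) atTop (𝓝 (P v)) := by
  have hdec2 : ∀ m n, n ≤ m → p m * p n = p m := by
    intro m n h
    induction m, h using Nat.le_induction with
    | base => exact (hp n).2
    | succ k hk ih =>
      calc p (k + 1) * p n = (p (k + 1) * p k) * p n := by rw [hdec]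
        _ = p (k + 1) := by rw [mul_assoc, ih, hdec]
  have hcauchy : ∀ v, CauchySeq (fun n => p n v) := by
    intro v
    have hanti : Antitone (fun n => ‖p n v‖ ^ 2) := by
      apply antitone_nat_of_succ_le
      intro n
      exact proj_norm_le (hp n) (hp (n + 1)) (hdec n) v
    have hlim : ∃ l, Tendsto (fun n => ‖p n v‖ ^ 2) atTop (𝓝 l) :=
      ⟨_, tendsto_atTop_ciInf hanti ⟨0, by rintro _ ⟨n, rfl⟩; positivity⟩⟩
    obtain ⟨l, hl⟩ := hlim
    have hc := hl.cauchySeq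
    rw [Metric.cauchySeq_iff'] at hc ⊢
    intro ε hε
    obtain ⟨N, hN⟩ := hc (ε ^ 2) (by positivity)
    refine ⟨N, fun n hn => ?_⟩
    have h1 := hN n hn
    rw [Real.dist_eq] at h1
    have h2 := proj_normsq (hp N) (hp n) (hdec2 n N hn) v
    have h3 : ‖p N v‖ ^ 2 - ‖p n v‖ ^ 2 < ε ^ 2 := by
      have := (abs_lt.1 h1).1
      linarith
    rw [← h2] at h3
    rw [dist_comm, dist_eq_norm]
    have h4 : ‖p N v - p n v‖ ^ 2 < ε ^ 2 := h3
    exact (sq_lt_sq₀ (norm_nonneg _) hε.le).1 h4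
  choose f hf using fun v => cauchySeq_tendsto_of_complete (hcauchy v)
  have hf' : Tendsto (fun n x => p n x) atTop (𝓝 f) := tendsto_pi_nhds.2 hf
  let P : K →L[ℂ] K := continuousLinearMapOfTendsto (g := p) (f := f) hf'
  have hP : ∀ v, Tendsto (fun n => p n v) atTop (𝓝 (P v)) := hf
  have hstar : star P = P := by
    rw [ContinuousLinearMap.star_eq_adjoint, eq_comm, ContinuousLinearMap.eq_adjoint_iff]
    intro a b
    have t1 : Tendsto (fun n => ⟪p n a, b⟫_ℂ) atTop (𝓝 ⟪P a, b⟫_ℂ) :=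
      (hP a).inner tendsto_const_nhds
    have t2 : Tendsto (fun n => ⟪a, p n b⟫_ℂ) atTop (𝓝 ⟪a, P b⟫_ℂ) :=
      tendsto_const_nhds.inner (hP b)
    have e : (fun n => ⟪p n a, b⟫_ℂ) = fun n => ⟪a, p n b⟫_ℂ := by
      funext n
      rw [inner_star (p n), (hp n).1]
    rw [e] at t1
    exact tendsto_nhds_unique t1 t2
  have hPp : ∀ n, P * p n = P := by
    intro n
    apply ContinuousLinearMap.ext
    intro v
    rw [mulK]
    have t1 := hP (p n v)
    have t2 := hP v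
    refine tendsto_nhds_unique (t1.congr' ?_) t2
    filter_upwards [eventually_ge_atTop n] with m hm
    rw [← mulK, hdec2 m n hm]
  have hPA : P ∈ A := by
    rw [← VonNeumannAlgebra.commutant_commutant A, VonNeumannAlgebra.mem_commutant_iff]
    intro g hg
    rw [VonNeumannAlgebra.mem_commutant_iff] at hg
    apply ContinuousLinearMap.ext
    intro v
    rw [mulK, mulK]
    have t1 : Tendsto (fun n => g (p n v)) atTop (𝓝 (g (P v))) :=
      (g.continuous.tendsto _).comp (hP v)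
    have t2 := hP (g v)
    have e : (fun n => g (p n v)) = fun n => p n (g v) := by
      funext n
      rw [← mulK, ← mulK, hg _ (hA n)]
    rw [e] at t1
    exact tendsto_nhds_unique t1 t2
  refine ⟨P, hPA, ⟨hstar, ?_⟩, hPp, hP⟩
  apply ContinuousLinearMap.ext
  intro v
  rw [mulK]
  have t1 : Tendsto (fun n => P (p n v)) atTop (𝓝 (P (P v))) :=
    (P.continuous.tendsto _).comp (hP v)
  have e : (fun n => P (p n v)) = fun _ => P v := by
    funext n
    rw [← mulK, hPp]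
  rw [e] at t1
  exact tendsto_nhds_unique t1 tendsto_const_nhds

/-- orthogonality, in both orders -/
def Orth (p q : K →L[ℂ] K) : Prop := p * q = 0 ∧ q * p = 0

/-- `p` is a finite orthogonal sum of projections of `A` of trace at most `ε` -/
def Part (N : TracialVNA K) (A : VonNeumannAlgebra K) (ε : ℝ) (p : K →L[ℂ] K) : Prop :=
  ∃ l : List (K →L[ℂ] K), (∀ q ∈ l, q ∈ A ∧ IsProj q ∧ q * p = q ∧ ‖q N.Ω‖ ^ 2 ≤ ε) ∧
    l.Pairwise Orth ∧ l.sum = p

theorem Part.append {N : TracialVNA K} {A : VonNeumannAlgebra K} {ε : ℝ} {p q : K →L[ℂ] K}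
    (hp : IsProj p) (hq : IsProj q) (h : q * p = q) (h1 : Part N A ε q)
    (h2 : Part N A ε (p - q)) : Part N A ε p := by
  obtain ⟨l1, a1, b1, c1⟩ := h1
  obtain ⟨l2, a2, b2, c2⟩ := h2
  have hpq := proj_right hp hq h
  refine ⟨l1 ++ l2, ?_, ?_, ?_⟩
  · intro e he
    rw [List.mem_append] at he
    rcases he with he | he
    · obtain ⟨u1, u2, u3, u4⟩ := a1 e he
      refine ⟨u1, u2, ?_, u4⟩
      calc e * p = (e * q) * p := by rw [u3]
        _ = e := by rw [mul_assoc, h, u3]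
    · obtain ⟨u1, u2, u3, u4⟩ := a2 e he
      refine ⟨u1, u2, ?_, u4⟩
      calc e * p = (e * (p - q)) * p := by rw [u3]
        _ = e * (p - q) := by rw [mul_assoc, sub_mul, hp.2, h]
        _ = e := u3
  · rw [List.pairwise_append]
    refine ⟨b1, b2, ?_⟩
    intro e he e' he'
    obtain ⟨-, u2, u3, -⟩ := a1 e he
    obtain ⟨-, v2, v3, -⟩ := a2 e' he'
    have u5 := proj_right hq u2 u3
    have v5 := proj_right (proj_sub hp hq h) v2 v3
    have z1 : q * (p - q) = 0 := by rw [mul_sub, h, hq.2, sub_self]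
    have z2 : (p - q) * q = 0 := by rw [sub_mul, hpq, hq.2, sub_self]
    constructor
    · calc e * e' = (e * q) * ((p - q) * e') := by rw [u3, v5]
        _ = e * (q * (p - q)) * e' := by simp only [mul_assoc]
        _ = 0 := by rw [z1, mul_zero, zero_mul]
    · calc e' * e = (e' * (p - q)) * (q * e) := by rw [v3, u5]
        _ = e' * ((p - q) * q) * e := by simp only [mul_assoc]
        _ = 0 := by rw [z2, mul_zero, zero_mul]
  · rw [List.sum_append, c1, c2, add_sub_cancel]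

theorem Part.self {N : TracialVNA K} {A : VonNeumannAlgebra K} {ε : ℝ} {p : K →L[ℂ] K}
    (hA : p ∈ A) (hp : IsProj p) (h : ‖p N.Ω‖ ^ 2 ≤ ε) : Part N A ε p :=
  ⟨[p], by simpa using ⟨hA, hp, hp.2, h⟩, by simp, by simp⟩

theorem isProj_zero : IsProj (0 : K →L[ℂ] K) := ⟨star_zero _, by simp⟩

/-- the main step: a projection is a finite sum of subprojections of at most half the trace -/
theorem exists_seq (N : TracialVNA K) (A : VonNeumannAlgebra K) (hAN : A ≤ N.alg)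
    (hd : Diffuse A) (p : K →L[ℂ] K) (hpA : p ∈ A) (hp : IsProj p) (δ : ℝ) (hδ : 0 < δ) :
    ∃ (r : ℕ → K →L[ℂ] K), r 0 = p ∧ (∀ n, r n ∈ A ∧ IsProj (r n)) ∧
      (∀ n, r (n + 1) * r n = r (n + 1)) ∧
      (∀ n, ‖(r n - r (n + 1)) N.Ω‖ ^ 2 ≤ ‖p N.Ω‖ ^ 2 / 2) ∧
      ∃ n, ‖r n N.Ω‖ ^ 2 ≤ δ := by
  classical
  set R : (K →L[ℂ] K) → Set ℝ := fun p => {t | ∃ q ∈ A, IsProj q ∧ q * p = q ∧
    ‖q N.Ω‖ ^ 2 ≤ ‖p N.Ω‖ ^ 2 / 2 ∧ t = ‖q N.Ω‖ ^ 2} with hR
  have hne : ∀ p, (R p).Nonempty := fun p =>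
    ⟨0, 0, zero_mem _, isProj_zero, by simp, by simp; positivity, by simp⟩
  have hbdd : ∀ p, BddAbove (R p) := fun p => ⟨‖p N.Ω‖ ^ 2 / 2, by
    rintro _ ⟨q, -, -, -, h, rfl⟩; exact h⟩
  have hs0 : ∀ p, 0 ≤ sSup (R p) := fun p =>
    le_csSup (hbdd p) ⟨0, zero_mem _, isProj_zero, by simp, by simp; positivity, by simp⟩
  have hq : ∀ p, ∃ q ∈ A, IsProj q ∧ q * p = q ∧ ‖q N.Ω‖ ^ 2 ≤ ‖p N.Ω‖ ^ 2 / 2 ∧
      sSup (R p) / 2 ≤ ‖q N.Ω‖ ^ 2 := by
    intro p
    rcases (hs0 p).eq_or_lt with h | h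
    · refine ⟨0, zero_mem _, isProj_zero, by simp, by simp; positivity, ?_⟩
      rw [← h]; simp
    · obtain ⟨t, ⟨q, h1, h2, h3, h4, rfl⟩, ht⟩ :=
        exists_lt_of_lt_csSup (hne p) (show sSup (R p) / 2 < sSup (R p) by linarith)
      exact ⟨q, h1, h2, h3, h4, ht.le⟩
  choose g g1 g2 g3 g4 g5 using hq
  obtain ⟨r, r0, rs⟩ : ∃ r : ℕ → K →L[ℂ] K, r 0 = p ∧ ∀ n, r (n + 1) = r n - g (r n) :=
    ⟨fun n => Nat.rec p (fun _ s => s - g s) n, rfl, fun n => rfl⟩
  have hrp : ∀ n, r n ∈ A ∧ IsProj (r n) := by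
    intro n
    induction n with
    | zero => rw [r0]; exact ⟨hpA, hp⟩
    | succ n ih =>
      rw [rs]
      exact ⟨sub_mem ih.1 (g1 _), proj_sub ih.2 (g2 _) (g3 _)⟩
  have hdec : ∀ n, r (n + 1) * r n = r (n + 1) := by
    intro n
    rw [rs, sub_mul, (hrp n).2.2, g3]
  have hdiff : ∀ n, r n - r (n + 1) = g (r n) := by
    intro n; rw [rs]; abel
  have htr : ∀ n, ‖r (n + 1) N.Ω‖ ^ 2 = ‖r n N.Ω‖ ^ 2 - ‖g (r n) N.Ω‖ ^ 2 := by
    intro n
    rw [rs]
    exact proj_normsq (hrp n).2 (g2 _) (g3 _) _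
  have hle : ∀ n, ‖r n N.Ω‖ ^ 2 ≤ ‖p N.Ω‖ ^ 2 := by
    intro n
    induction n with
    | zero => rw [r0]
    | succ n ih => rw [htr]; nlinarith [sq_nonneg ‖g (r n) N.Ω‖]
  refine ⟨r, r0, hrp, hdec, ?_, ?_⟩
  · intro n
    rw [hdiff]
    exact (g4 _).trans (by have := hle n; linarith)
  · obtain ⟨P, hPA, hP, hPr, hlim⟩ := limit_proj A r (fun n => (hrp n).1) (fun n => (hrp n).2) hdec
    have hlim2 : Tendsto (fun n => ‖r n N.Ω‖ ^ 2) atTop (𝓝 (‖P N.Ω‖ ^ 2)) :=
      ((hlim N.Ω).norm).pow 2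
    have hP0 : P = 0 := by
      by_contra hne0
      obtain ⟨q, hqA, hqp, hqP, hq0, hq1⟩ := hd P hPA hP hne0
      -- one of `q`, `P - q` has at most half of the trace
      have hex : ∃ e ∈ A, IsProj e ∧ e * P = e ∧ e ≠ 0 ∧ ‖e N.Ω‖ ^ 2 ≤ ‖P N.Ω‖ ^ 2 / 2 := by
        by_cases hh : ‖q N.Ω‖ ^ 2 ≤ ‖P N.Ω‖ ^ 2 / 2
        · exact ⟨q, hqA, hqp, hqP, hq0, hh⟩
        · refine ⟨P - q, sub_mem hPA hqA, proj_sub hP hqp hqP, ?_, ?_, ?_⟩
          · rw [sub_mul, hP.2, hqP]
          · intro h0; exact hq1 (sub_eq_zero.1 h0).symm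
          · rw [proj_normsq hP hqp hqP]; linarith [not_le.1 hh]
      obtain ⟨e, heA, hep, heP, he0, heh⟩ := hex
      have het : 0 < ‖e N.Ω‖ ^ 2 := by
        have : e N.Ω ≠ 0 := fun h0 => he0 (faithful N (hAN heA) h0)
        have := norm_pos_iff.2 this
        positivity
      have hPle : ∀ n, ‖P N.Ω‖ ^ 2 ≤ ‖r n N.Ω‖ ^ 2 := fun n =>
        proj_norm_le (hrp n).2 hP (hPr n) _
      have hmem : ∀ n, ‖e N.Ω‖ ^ 2 ≤ sSup (R (r n)) := by
        intro n
        apply le_csSup (hbdd _)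
        refine ⟨e, heA, hep, ?_, ?_, rfl⟩
        · calc e * r n = (e * P) * r n := by rw [heP]
            _ = e := by rw [mul_assoc, hPr, heP]
        · have := hPle n; linarith
      have hstep : ∀ n, ‖e N.Ω‖ ^ 2 / 2 ≤ ‖r n N.Ω‖ ^ 2 - ‖r (n + 1) N.Ω‖ ^ 2 := by
        intro n
        rw [htr]
        have h1 := g5 (r n)
        have h2 := hmem n
        linarith
      have hz : Tendsto (fun n => ‖r n N.Ω‖ ^ 2 - ‖r (n + 1) N.Ω‖ ^ 2) atTop
          (𝓝 (‖P N.Ω‖ ^ 2 - ‖P N.Ω‖ ^ 2)) :=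
        hlim2.sub (hlim2.comp (tendsto_add_atTop_nat 1))
      rw [sub_self] at hz
      have := ge_of_tendsto' hz hstep
      linarith
    rw [hP0] at hlim2
    have hlim3 : Tendsto (fun n => ‖r n N.Ω‖ ^ 2) atTop (𝓝 0) := by
      simpa using hlim2
    exact ((hlim3.eventually (gt_mem_nhds hδ)).exists).imp fun n hn => hn.le

theorem main (N : TracialVNA K) (A : VonNeumannAlgebra K) (hAN : A ≤ N.alg)
    (hd : Diffuse A) (ε : ℝ) (hε : 0 < ε) :
    ∀ (n : ℕ) (p : K →L[ℂ] K), p ∈ A → IsProj p → ‖p N.Ω‖ ^ 2 ≤ 2 ^ n * ε → Part N A ε p := by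
  intro n
  induction n with
  | zero =>
    intro p hpA hp h
    exact Part.self hpA hp (by simpa using h)
  | succ n ih =>
    intro p hpA hp h
    obtain ⟨r, r0, hr, hdec, hsmall, m, hm⟩ :=
      exists_seq N A hAN hd p hpA hp (2 ^ n * ε) (by positivity)
    have key : ∀ k ≤ m, Part N A ε (r (m - k)) := by
      intro k
      induction k with
      | zero =>
        intro _
        exact ih _ (hr _).1 (hr _).2 hm
      | succ k ihk =>
        intro hk
        have e : m - (k + 1) + 1 = m - k := by omega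
        set j := m - (k + 1) with hj
        have h1 : Part N A ε (r (j + 1)) := by rw [e]; exact ihk (by omega)
        refine Part.append (hr j).2 (hr (j + 1)).2 (hdec j) h1 ?_
        refine ih _ (sub_mem (hr j).1 (hr (j + 1)).1) (proj_sub (hr j).2 (hr (j + 1)).2 (hdec j)) ?_
        refine (hsmall j).trans ?_
        rw [pow_succ (2 : ℝ)] at h
        linarith
    have := key m le_rfl
    rwa [Nat.sub_self, r0] at this

end Diff

theorem specDiff : SpecDiff := by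
  intro K _ _ _ N A hAN hd ε hε
  obtain ⟨n, hn⟩ : ∃ n : ℕ, 1 ≤ 2 ^ n * ε := by
    obtain ⟨n, hn⟩ := pow_unbounded_of_one_lt (1 / ε) (show (1 : ℝ) < 2 by norm_num)
    refine ⟨n, ?_⟩
    rw [div_lt_iff₀ hε] at hn
    exact hn.le
  have h1 : Diff.Part N A ε 1 := by
    refine Diff.main N A hAN hd ε hε n 1 (one_mem _) ⟨star_one _, one_mul _⟩ ?_
    have : ‖(1 : K →L[ℂ] K) N.Ω‖ = 1 := N.norm_Ω
    rw [this]; simpa using hn
  obtain ⟨l, h1, h2, h3⟩ := h1
  refine ⟨l.length, fun i => l.get i, ?_, ?_, ?_, ?_⟩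
  · intro i
    have := h1 _ (List.get_mem l i)
    exact ⟨this.1, this.2.1⟩
  · intro i j hij
    rw [List.pairwise_iff_get] at h2
    rcases lt_or_gt_of_ne hij with h | h
    · exact (h2 i j h).1
    · exact (h2 j i h).2
  · rw [← h3]
    conv_rhs => rw [← List.ofFn_get l]
    rw [List.sum_ofFn]
  · intro i
    exact (h1 _ (List.get_mem l i)).2.2.2

end

end MP7e
end

section
/-!
Group von Neumann algebras of products; the algebra `TA`.
-/
namespace MP7e

open scoped InnerProductSpace TensorProduct ENNReal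
open Filter Topology Classical

noncomputable section

variable {G H : Type*} [Group G] [Group H] {X Y : Type*}

theorem lam_prod (s : G) (t : H) : lam (s, t) = op2 (lam s) (lam t) := by
  apply clm_ext
  rintro ⟨x, y⟩
  rw [lam_dl, dl_prod x y, op2_tens, lam_dl, lam_dl, ← dl_prod]
  rfl

theorem rho_prod (s : G) (t : H) : rho (s, t) = op2 (rho s) (rho t) := by
  apply clm_ext
  rintro ⟨x, y⟩
  rw [rho_dl, dl_prod x y, op2_tens, rho_dl, rho_dl, ← dl_prod]
  rfl

theorem op2_mem_LG {x : Op G} {y : Op H} (hx : x ∈ LG G) (hy : y ∈ LG H) :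
    op2 x y ∈ LG (G × H) := by
  rw [mem_LG]
  rintro ⟨s, t⟩
  rw [rho_prod, ← op2_mul, ← op2_mul, mem_LG.1 hx, mem_LG.1 hy]

theorem cjOp_op2 (T : Op X) (S : Op Y) : cjOp (op2 T S) = op2 (cjOp T) (cjOp S) := by
  apply clm_ext
  rintro ⟨x, y⟩
  rw [cjOp_apply, cj_dl, dl_prod, op2_tens, op2_tens, cj_tens, cjOp_apply, cjOp_apply, cj_dl,
    cj_dl]

theorem perm_inv_prod :
    perm (Equiv.inv (G × H)) = op2 (perm (Equiv.inv G)) (perm (Equiv.inv H)) := by
  apply clm_ext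
  rintro ⟨x, y⟩
  rw [perm_dl, dl_prod x y, op2_tens, perm_dl, perm_dl, ← dl_prod]
  rfl

theorem rgt_op2 (x : Op G) (y : Op H) : rgt (op2 x y) = op2 (rgt x) (rgt y) := by
  unfold rgt
  rw [op2_star, cjOp_op2, perm_inv_prod, ← op2_mul, ← op2_mul]

theorem adOp_op2 (x : Op G) (y : Op H) : adOp (op2 x y) = op2 (adOp x) (adOp y) := by
  unfold adOp
  rw [op2_star, rgt_op2, ← op2_mul]

theorem opL_eq (T : Op X) : opL X Y T = op2 T 1 := rfl

theorem opR_eq (T : Op Y) : opR X Y T = op2 1 T := rfl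

theorem one_mem_LG : (1 : Op G) ∈ LG G := one_mem _

theorem rgt_opL (x : Op G) : rgt (opL G H x) = opL G H (rgt x) := by
  rw [opL_eq, opL_eq, rgt_op2, rgt_one]

theorem opL_mem_LG {x : Op G} (hx : x ∈ LG G) : opL G H x ∈ LG (G × H) :=
  op2_mem_LG hx one_mem_LG

theorem isClosed_LG : IsClosed (LG G : Set (Op G)) := by
  have h : (LG G : Set (Op G)) = (Set.range (rho : G → Op G) ∪ star (Set.range rho)).centralizer :=
    rfl
  rw [h]
  exact Set.isClosed_centralizer _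

theorem smul_mem_LG (c : ℂ) {x : Op G} (hx : x ∈ LG G) : c • x ∈ LG G :=
  (LG G).toStarSubalgebra.toSubalgebra.smul_mem hx c

/-! ### The algebra `TA` -/

variable {Γ : Type} [Group Γ]

theorem op2_mem_TA {Q : VonNeumannAlgebra (L2 Γ)} {x b : Op Γ} (hx : x ∈ LG Γ) (hb : b ∈ Q) :
    op2 x (cjOp b) ∈ TA Γ Q :=
  StarSubalgebra.le_topologicalClosure _ (StarAlgebra.subset_adjoin ℂ _ ⟨x, hx, b, hb, rfl⟩)

theorem opL_mem_TA {Q : VonNeumannAlgebra (L2 Γ)} {x : Op Γ} (hx : x ∈ LG Γ) :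
    opL Γ Γ x ∈ TA Γ Q := by
  have h := op2_mem_TA (Q := Q) hx (one_mem Q)
  rwa [cjOp_one] at h

theorem isClosed_TA (Q : VonNeumannAlgebra (L2 Γ)) : IsClosed (TA Γ Q : Set (Op (Γ × Γ))) :=
  StarSubalgebra.isClosed_topologicalClosure _

theorem TA_le_of {Q : VonNeumannAlgebra (L2 Γ)} {S : StarSubalgebra ℂ (Op (Γ × Γ))}
    (hS : IsClosed (S : Set (Op (Γ × Γ))))
    (h : ∀ x ∈ LG Γ, ∀ b ∈ Q, op2 x (cjOp b) ∈ S) : TA Γ Q ≤ S := by
  apply StarSubalgebra.topologicalClosure_minimal _ hS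
  rw [StarAlgebra.adjoin_le_iff]
  rintro _ ⟨x, hx, b, hb, rfl⟩
  exact h x hx b hb

theorem TA_mono {Q Q' : VonNeumannAlgebra (L2 Γ)} (h : Q ≤ Q') : TA Γ Q ≤ TA Γ Q' :=
  TA_le_of (isClosed_TA Q') fun _ hx _ hb => op2_mem_TA hx (h hb)

theorem TA_le_LG {Q : VonNeumannAlgebra (L2 Γ)} (hQ : Q ≤ LG Γ) :
    TA Γ Q ≤ (LG (Γ × Γ)).toStarSubalgebra :=
  TA_le_of isClosed_LG fun _ hx _ hb => op2_mem_LG hx (cjOp_mem (hQ hb))

theorem mem_LG_of_TA {Q : VonNeumannAlgebra (L2 Γ)} (hQ : Q ≤ LG Γ) {z : Op (Γ × Γ)}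
    (hz : z ∈ TA Γ Q) : z ∈ LG (Γ × Γ) := TA_le_LG hQ hz

/-- the elements mapped into `S` by conjugation with a unitary -/
def conjSub {K : Type*} [NormedAddCommGroup K] [InnerProductSpace ℂ K] [CompleteSpace K]
    (W : K →L[ℂ] K) (hW : star W * W = 1) (hW' : W * star W = 1)
    (S : StarSubalgebra ℂ (K →L[ℂ] K)) : StarSubalgebra ℂ (K →L[ℂ] K) where
  carrier := {z | W * z * star W ∈ S}
  mul_mem' := by
    intro a b ha hb
    have h : W * (a * b) * star W = (W * a * star W) * (W * b * star W) := by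
      calc W * (a * b) * star W = W * a * 1 * b * star W := by simp only [mul_assoc, one_mul]
        _ = W * a * (star W * W) * b * star W := by rw [hW]
        _ = _ := by simp only [mul_assoc]
    show W * (a * b) * star W ∈ S
    rw [h]
    exact mul_mem ha hb
  one_mem' := by
    show W * 1 * star W ∈ S
    rw [mul_one, hW']
    exact one_mem S
  add_mem' := by
    intro a b ha hb
    show W * (a + b) * star W ∈ S
    rw [mul_add, add_mul]
    exact add_mem ha hb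
  zero_mem' := by
    show W * 0 * star W ∈ S
    rw [mul_zero, zero_mul]
    exact zero_mem S
  algebraMap_mem' := by
    intro c
    show W * (algebraMap ℂ _ c) * star W ∈ S
    rw [← Algebra.commutes, mul_assoc, hW', mul_one]
    exact algebraMap_mem S c
  star_mem' := by
    intro a ha
    show W * star a * star W ∈ S
    have h : W * star a * star W = star (W * a * star W) := by
      rw [star_mul, star_mul, star_star, mul_assoc]
    rw [h]
    exact star_mem ha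

theorem mem_conjSub {K : Type*} [NormedAddCommGroup K] [InnerProductSpace ℂ K]
    [CompleteSpace K] {W : K →L[ℂ] K} {hW : star W * W = 1} {hW' : W * star W = 1}
    {S : StarSubalgebra ℂ (K →L[ℂ] K)} {z : K →L[ℂ] K} :
    z ∈ conjSub W hW hW' S ↔ W * z * star W ∈ S := Iff.rfl

theorem isClosed_conjSub {K : Type*} [NormedAddCommGroup K] [InnerProductSpace ℂ K]
    [CompleteSpace K] (W : K →L[ℂ] K) (hW : star W * W = 1) (hW' : W * star W = 1)
    (S : StarSubalgebra ℂ (K →L[ℂ] K)) (hS : IsClosed (S : Set (K →L[ℂ] K))) :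
    IsClosed (conjSub W hW hW' S : Set (K →L[ℂ] K)) := by
  have h : (conjSub W hW hW' S : Set (K →L[ℂ] K)) = (fun z => W * z * star W) ⁻¹' S := rfl
  rw [h]
  exact hS.preimage (by fun_prop)

theorem unitary_op2 {Γ : Type*} {u : Op Γ} (hu : u ∈ unitary (Op Γ)) :
    op2 u (cjOp u) ∈ unitary (Op (Γ × Γ)) := by
  rw [Unitary.mem_iff] at hu ⊢
  rw [op2_star, ← cjOp_star, ← op2_mul, ← op2_mul, ← cjOp_mul, ← cjOp_mul, hu.1, hu.2, cjOp_one,
    op2_one]
  exact ⟨rfl, rfl⟩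

/-- conjugation by a normalizing unitary preserves `TA` -/
theorem TA_conj {Q : VonNeumannAlgebra (L2 Γ)} {u : Op Γ} (hu : u ∈ normalizer (LG Γ) Q)
    {z : Op (Γ × Γ)} (hz : z ∈ TA Γ Q) :
    op2 u (cjOp u) * z * star (op2 u (cjOp u)) ∈ TA Γ Q := by
  have hW := Unitary.mem_iff.1 (unitary_op2 hu.2.1)
  have h : TA Γ Q ≤ conjSub (op2 u (cjOp u)) hW.1 hW.2 (TA Γ Q) := by
    apply TA_le_of (isClosed_conjSub _ _ _ _ (isClosed_TA Q))
    intro x hx b hb
    rw [mem_conjSub, op2_star, ← cjOp_star, ← op2_mul, ← op2_mul, ← cjOp_mul, ← cjOp_mul]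
    exact op2_mem_TA (mul_mem (mul_mem hu.1 hx) (star_mem hu.1)) ((hu.2.2 b).1 hb)
  exact mem_conjSub.1 (h hz)

theorem normalizer_star {K : Type*} [NormedAddCommGroup K] [InnerProductSpace ℂ K]
    [CompleteSpace K] {N A : VonNeumannAlgebra K} {u : K →L[ℂ] K} (hu : u ∈ normalizer N A) :
    star u ∈ normalizer N A := by
  obtain ⟨h1, h2, h3⟩ := hu
  have h2' := Unitary.mem_iff.1 h2
  refine ⟨star_mem h1, Unitary.star_mem h2, fun a => ?_⟩
  rw [h3 (star u * a * star (star u)), star_star]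
  have : u * (star u * a * u) * star u = a := by
    calc u * (star u * a * u) * star u = (u * star u) * a * (u * star u) := by
          simp only [mul_assoc]
      _ = a := by rw [h2'.2, one_mul, mul_one]
  rw [this]

end

end MP7e
end

section
/-!
EXI, part 1: the trace preserving embedding of `L(H)` into `L(Lamp H)`.
-/
namespace MP7e.Exi

open MP7e
open scoped InnerProductSpace
open Filter Topology Classical

noncomputable section

variable {H : Type} [Group H]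

/-- coordinates of `Lamp H` in which left translations by `H` act on the first factor only -/
def eL (H : Type) [Group H] : Lamp H ≃ H × (H →₀ ZMod 2) where
  toFun w := (w.pos, shift w.pos⁻¹ w.lamp)
  invFun p := ⟨shift p.1 p.2, p.1⟩
  left_inv w := by
    apply Lamp.ext
    · show shift w.pos (shift w.pos⁻¹ w.lamp) = w.lamp
      rw [← shift_mul, mul_inv_cancel, shift_one]
    · rfl
  right_inv p := by
    apply Prod.ext
    · rfl
    · show shift p.1⁻¹ (shift p.1 p.2) = p.2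
      rw [← shift_mul, inv_mul_cancel, shift_one]

/-- the action of right multiplication on the second coordinate -/
def piR (w : Lamp H) : (H →₀ ZMod 2) ≃ (H →₀ ZMod 2) where
  toFun n := shift w.pos⁻¹ (n + w.lamp)
  invFun n := shift w.pos n - w.lamp
  left_inv n := by
    show shift w.pos (shift w.pos⁻¹ (n + w.lamp)) - w.lamp = n
    rw [← shift_mul, mul_inv_cancel, shift_one, add_sub_cancel_right]
  right_inv n := by
    show shift w.pos⁻¹ (shift w.pos n - w.lamp + w.lamp) = n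
    rw [sub_add_cancel, ← shift_mul, inv_mul_cancel, shift_one]

theorem eL_mul (x w : Lamp H) :
    eL H (x * w) = ((eL H x).1 * w.pos, piR w (eL H x).2) := by
  apply Prod.ext
  · rfl
  · show shift (x.pos * w.pos)⁻¹ (x.lamp + shift x.pos w.lamp) =
      shift w.pos⁻¹ (shift x.pos⁻¹ x.lamp + w.lamp)
    rw [mul_inv_rev, shift_mul, shift_add x.pos⁻¹, ← shift_mul x.pos⁻¹, inv_mul_cancel, shift_one]

theorem perm_perm_symm {X Y : Type*} (e : X ≃ Y) (f : L2 Y) : perm e (perm e.symm f) = f := by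
  apply Subtype.ext; funext y; simp

theorem perm_symm_perm {X Y : Type*} (e : X ≃ Y) (f : L2 X) : perm e.symm (perm e f) = f := by
  apply Subtype.ext; funext y; simp

/-- transport of operators -/
def cjm (T : Op (H × (H →₀ ZMod 2))) : Op (Lamp H) :=
  (perm (eL H).symm ∘L T) ∘L perm (eL H)

theorem cjm_apply (T : Op (H × (H →₀ ZMod 2))) (f : L2 (Lamp H)) :
    cjm T f = perm (eL H).symm (T (perm (eL H) f)) := rfl

theorem cjm_one : cjm (1 : Op (H × (H →₀ ZMod 2))) = 1 := by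
  apply ContinuousLinearMap.ext; intro f
  rw [cjm_apply]
  exact perm_symm_perm _ _

theorem cjm_mul (S T : Op (H × (H →₀ ZMod 2))) : cjm (S * T) = cjm S * cjm T := by
  apply ContinuousLinearMap.ext; intro f
  rw [mulA, cjm_apply, cjm_apply, cjm_apply, perm_perm_symm, mulA]

theorem cjm_add (S T : Op (H × (H →₀ ZMod 2))) : cjm (S + T) = cjm S + cjm T := by
  apply ContinuousLinearMap.ext; intro f
  show cjm (S + T) f = cjm S f + cjm T f
  rw [cjm_apply, cjm_apply, cjm_apply]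
  show perm (eL H).symm (S _ + T _) = _
  rw [map_add]

theorem cjm_smul (c : ℂ) (T : Op (H × (H →₀ ZMod 2))) : cjm (c • T) = c • cjm T := by
  apply ContinuousLinearMap.ext; intro f
  show cjm (c • T) f = c • cjm T f
  rw [cjm_apply, cjm_apply]
  show perm (eL H).symm (c • T _) = _
  rw [map_smul]

theorem cjm_star (T : Op (H × (H →₀ ZMod 2))) : cjm (star T) = star (cjm T) := by
  rw [ContinuousLinearMap.star_eq_adjoint, ContinuousLinearMap.star_eq_adjoint]
  unfold cjm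
  rw [ContinuousLinearMap.adjoint_comp, ContinuousLinearMap.adjoint_comp, perm_adjoint,
    perm_adjoint, Equiv.symm_symm]
  rfl

/-- right translations are product operators in the coordinates -/
theorem rho_eq_cjm (w : Lamp H) :
    rho w⁻¹ = cjm (op2 (rho w.pos⁻¹) (perm (piR w))) := by
  apply clm_ext
  intro x
  rw [rho_dl, inv_inv, cjm_apply, perm_dl]
  rw [show dl (eL H x) = dl ((eL H x).1, (eL H x).2) from rfl, dl_prod, op2_tens, rho_dl, perm_dl,
    inv_inv, ← dl_prod, ← eL_mul, perm_dl, Equiv.symm_apply_apply]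

theorem cjm_mem {x : Op H} (hx : x ∈ LG H) : cjm (opL H (H →₀ ZMod 2) x) ∈ LG (Lamp H) := by
  rw [mem_LG]
  intro w
  have h := rho_eq_cjm w⁻¹
  rw [inv_inv] at h
  rw [h, ← cjm_mul, ← cjm_mul]
  congr 1
  show op2 x 1 * _ = _ * op2 x 1
  rw [← op2_mul, ← op2_mul, mem_LG.1 hx, one_mul, mul_one]

/-- the embedding of `L(H)` -/
def iota (H : Type) [Group H] : (LGt H).El →⋆ₐ[ℂ] (LGt (Lamp H)).El where
  toFun x := ⟨cjm (opL H (H →₀ ZMod 2) (x : Op H)), cjm_mem x.2⟩
  map_one' := by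
    apply Subtype.ext
    show cjm (opL H (H →₀ ZMod 2) 1) = 1
    rw [map_one, cjm_one]
  map_mul' x y := by
    apply Subtype.ext
    show cjm (opL H (H →₀ ZMod 2) ((x : Op H) * (y : Op H))) = _
    rw [map_mul, cjm_mul]
    rfl
  map_zero' := by
    apply Subtype.ext
    show cjm (opL H (H →₀ ZMod 2) 0) = 0
    rw [map_zero]
    have h := cjm_smul (0 : ℂ) (0 : Op (H × (H →₀ ZMod 2)))
    simpa using h
  map_add' x y := by
    apply Subtype.ext
    show cjm (opL H (H →₀ ZMod 2) ((x : Op H) + (y : Op H))) = _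
    rw [map_add, cjm_add]
    rfl
  commutes' c := by
    apply Subtype.ext
    show cjm (opL H (H →₀ ZMod 2) (algebraMap ℂ (Op H) c)) = algebraMap ℂ (Op (Lamp H)) c
    rw [AlgHomClass.commutes, Algebra.algebraMap_eq_smul_one, Algebra.algebraMap_eq_smul_one,
      cjm_smul, cjm_one]
  map_star' x := by
    apply Subtype.ext
    show cjm (opL H (H →₀ ZMod 2) (star (x : Op H))) = star (cjm (opL H (H →₀ ZMod 2) (x : Op H)))
    rw [map_star, cjm_star]

theorem iota_coe (x : (LGt H).El) :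
    ((iota H x : (LGt (Lamp H)).El) : Op (Lamp H)) = cjm (opL H (H →₀ ZMod 2) (x : Op H)) := rfl

theorem eL_one : eL H 1 = (1, 0) := by
  apply Prod.ext
  · rfl
  · show shift (1 : H)⁻¹ (0 : H →₀ ZMod 2) = 0
    exact shift_zero _

/-- the vector of `iota x` -/
theorem iota_dl (x : Op H) :
    cjm (opL H (H →₀ ZMod 2) x) (dl 1) = perm (eL H).symm (tens (x (dl 1)) (dl 0)) := by
  rw [cjm_apply, perm_dl, eL_one, dl_prod, opL_tens]

theorem norm_iota_dl (x : Op H) :
    ‖cjm (opL H (H →₀ ZMod 2) x) (dl 1)‖ = ‖x (dl 1)‖ := by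
  rw [iota_dl, norm_perm, norm_tens, norm_dl, mul_one]

theorem iota_tau (x : (LGt H).El) :
    (LGt (Lamp H)).τ ((iota H x : (LGt (Lamp H)).El) : Op (Lamp H)) = (LGt H).τ (x : Op H) := by
  rw [LGt_τ, LGt_τ, iota_coe]
  unfold tr
  rw [iota_dl, perm_apply, Equiv.symm_symm, eL_one, tens_apply, dl_self, mul_one]

/-- the image of a left translation -/
theorem iota_lam (h : H) :
    cjm (opL H (H →₀ ZMod 2) (lam h)) = lam (⟨0, h⟩ : Lamp H) := by
  apply clm_ext
  intro x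
  rw [cjm_apply, perm_dl, show dl (eL H x) = dl ((eL H x).1, (eL H x).2) from rfl, dl_prod,
    opL_tens, lam_dl, ← dl_prod, perm_dl, lam_dl]
  congr 1
  rw [Equiv.symm_apply_eq]
  apply Prod.ext
  · rfl
  · show shift x.pos⁻¹ x.lamp = shift (h * x.pos)⁻¹ (0 + shift h x.lamp)
    rw [zero_add, mul_inv_rev, shift_mul, ← shift_mul h⁻¹, inv_mul_cancel, shift_one]

end

end MP7e.Exi
end

section
/-!
EXI, part 2: polynomial pairs and approximable pairs.
-/
namespace MP7e.Exi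

open MP7e
open scoped InnerProductSpace
open Filter Topology Classical

noncomputable section

variable {H : Type} [Group H]

/-- the asymptotic homomorphism from the lamplighter group to `H` -/
def th (β : ℕ → (H →₀ ZMod 2) → H) (k : ℕ) (w : Lamp H) : H := β k w.lamp * w.pos

theorem beta_zero {β : ℕ → (H →₀ ZMod 2) → H} (hβ : LampApprox H β) :
    ∀ᶠ k in atTop, β k 0 = 1 := by
  filter_upwards [hβ.1 0 0] with k hk
  rw [add_zero] at hk
  exact (mul_eq_left.1 hk.symm)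

theorem th_mul {β : ℕ → (H →₀ ZMod 2) → H} (hβ : LampApprox H β) (w w' : Lamp H) :
    ∀ᶠ k in atTop, th β k (w * w') = th β k w * th β k w' := by
  filter_upwards [hβ.1 w.lamp (shift w.pos w'.lamp), hβ.2.1 w.pos w'.lamp] with k h1 h2
  unfold th
  rw [Lamp.mul_lamp, Lamp.mul_pos, h1, ← h2]
  group

theorem th_pos {β : ℕ → (H →₀ ZMod 2) → H} (hβ : LampApprox H β) (h : H) :
    ∀ᶠ k in atTop, th β k ⟨0, h⟩ = h := by
  filter_upwards [beta_zero hβ] with k h1
  unfold th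
  rw [h1, one_mul]

theorem th_one {β : ℕ → (H →₀ ZMod 2) → H} (hβ : LampApprox H β) :
    ∀ᶠ k in atTop, th β k 1 = 1 := th_pos hβ 1

theorem th_ne {β : ℕ → (H →₀ ZMod 2) → H} (hβ : LampApprox H β) (w : Lamp H) (hw : w ≠ 1) :
    ∀ᶠ k in atTop, th β k w ≠ 1 := by
  by_cases h0 : w.lamp = 0
  · filter_upwards [beta_zero hβ] with k h1
    unfold th
    rw [h0, h1, one_mul]
    intro h2
    apply hw
    apply Lamp.ext
    · exact h0
    · exact h2
  · filter_upwards [hβ.2.2 w.lamp h0 w.pos⁻¹] with k h1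
    unfold th
    intro h2
    exact h1 (mul_eq_one_iff_eq_inv.1 h2)

theorem th_inv {β : ℕ → (H →₀ ZMod 2) → H} (hβ : LampApprox H β) (w : Lamp H) :
    ∀ᶠ k in atTop, th β k w⁻¹ = (th β k w)⁻¹ := by
  filter_upwards [th_mul hβ w⁻¹ w, th_one hβ] with k h1 h2
  rw [inv_mul_cancel, h2] at h1
  exact mul_eq_one_iff_eq_inv.1 h1.symm

/-- polynomial pairs -/
inductive PP (β : ℕ → (H →₀ ZMod 2) → H) : Op (Lamp H) → (ℕ → Op H) → Prop
  | lam (w : Lamp H) : PP β (MP7e.lam w) (fun k => MP7e.lam (th β k w))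
  | add {z z' : Op (Lamp H)} {y y' : ℕ → Op H} :
      PP β z y → PP β z' y' → PP β (z + z') (fun k => y k + y' k)
  | smul (c : ℂ) {z : Op (Lamp H)} {y : ℕ → Op H} : PP β z y → PP β (c • z) (fun k => c • y k)
  | cong {z : Op (Lamp H)} {y y' : ℕ → Op H} :
      PP β z y → (∀ᶠ k in atTop, y' k = y k) → PP β z y'

theorem smul_mem_LG {G : Type*} [Group G] (c : ℂ) {x : Op G} (hx : x ∈ LG G) : c • x ∈ LG G :=
  (LG G).toStarSubalgebra.toSubalgebra.smul_mem hx c

theorem norm_lam_le {G : Type*} [Group G] (g : G) : ‖(lam g : Op G)‖ ≤ 1 := by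
  apply ContinuousLinearMap.opNorm_le_bound _ zero_le_one
  intro f
  rw [norm_lam_apply, one_mul]

theorem PP.mem {β : ℕ → (H →₀ ZMod 2) → H} {z : Op (Lamp H)} {y : ℕ → Op H} (h : PP β z y) :
    z ∈ LG (Lamp H) ∧ ∀ᶠ k in atTop, y k ∈ LG H := by
  induction h with
  | lam w => exact ⟨lam_mem w, Eventually.of_forall fun k => lam_mem _⟩
  | add _ _ h1 h2 =>
    refine ⟨add_mem h1.1 h2.1, ?_⟩
    filter_upwards [h1.2, h2.2] with k a b
    exact add_mem a b
  | smul c _ h1 =>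
    refine ⟨smul_mem_LG c h1.1, ?_⟩
    filter_upwards [h1.2] with k a
    exact smul_mem_LG c a
  | cong _ he h1 =>
    refine ⟨h1.1, ?_⟩
    filter_upwards [h1.2, he] with k a b
    rwa [b]

theorem PP.bdd {β : ℕ → (H →₀ ZMod 2) → H} {z : Op (Lamp H)} {y : ℕ → Op H} (h : PP β z y) :
    ∃ C : ℝ, 0 ≤ C ∧ ‖z‖ ≤ C ∧ ∀ᶠ k in atTop, ‖y k‖ ≤ C := by
  induction h with
  | lam w => exact ⟨1, zero_le_one, norm_lam_le _, Eventually.of_forall fun k => norm_lam_le _⟩
  | add _ _ h1 h2 =>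
    obtain ⟨C, hC, h1z, h1y⟩ := h1
    obtain ⟨C', hC', h2z, h2y⟩ := h2
    refine ⟨C + C', by positivity, (norm_add_le _ _).trans (by linarith), ?_⟩
    filter_upwards [h1y, h2y] with k a b
    exact (norm_add_le _ _).trans (by linarith)
  | smul c _ h1 =>
    obtain ⟨C, hC, h1z, h1y⟩ := h1
    refine ⟨‖c‖ * C, by positivity, ?_, ?_⟩
    · rw [norm_smul]; gcongr
    · filter_upwards [h1y] with k a
      rw [norm_smul]; gcongr
  | cong _ he h1 =>
    obtain ⟨C, hC, h1z, h1y⟩ := h1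
    refine ⟨C, hC, h1z, ?_⟩
    filter_upwards [h1y, he] with k a b
    rwa [b]

theorem PP.star {β : ℕ → (H →₀ ZMod 2) → H} (hβ : LampApprox H β) {z : Op (Lamp H)}
    {y : ℕ → Op H} (h : PP β z y) : PP β (star z) (fun k => star (y k)) := by
  induction h with
  | lam w =>
    rw [star_lam]
    refine PP.cong (PP.lam w⁻¹) ?_
    filter_upwards [th_inv hβ w] with k hk
    rw [hk, star_lam]
  | add _ _ h1 h2 =>
    rw [star_add]
    refine PP.cong (PP.add h1 h2) ?_
    filter_upwards with k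
    rw [star_add]
  | smul c _ h1 =>
    rw [star_smul]
    refine PP.cong (PP.smul (Star.star c) h1) ?_
    filter_upwards with k
    rw [star_smul]
  | cong _ he h1 =>
    refine PP.cong h1 ?_
    filter_upwards [he] with k hk
    rw [hk]

theorem PP.mul {β : ℕ → (H →₀ ZMod 2) → H} (hβ : LampApprox H β) {z z' : Op (Lamp H)}
    {y y' : ℕ → Op H} (h : PP β z y) (h' : PP β z' y') :
    PP β (z * z') (fun k => y k * y' k) := by
  induction h with
  | lam w =>
    induction h' with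
    | lam w' =>
      rw [← lam_mul]
      refine PP.cong (PP.lam (w * w')) ?_
      filter_upwards [th_mul hβ w w'] with k hk
      rw [hk, lam_mul]
    | add _ _ h1 h2 =>
      rw [mul_add]
      refine PP.cong (PP.add h1 h2) ?_
      filter_upwards with k
      rw [mul_add]
    | smul c _ h1 =>
      rw [mul_smul_comm]
      refine PP.cong (PP.smul c h1) ?_
      filter_upwards with k
      rw [mul_smul_comm]
    | cong _ he h1 =>
      refine PP.cong h1 ?_
      filter_upwards [he] with k hk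
      rw [hk]
  | add _ _ h1 h2 =>
    rw [add_mul]
    refine PP.cong (PP.add h1 h2) ?_
    filter_upwards with k
    rw [add_mul]
  | smul c _ h1 =>
    rw [smul_mul_assoc]
    refine PP.cong (PP.smul c h1) ?_
    filter_upwards with k
    rw [smul_mul_assoc]
  | cong _ he h1 =>
    refine PP.cong h1 ?_
    filter_upwards [he] with k hk
    rw [hk]

theorem PP.tr {β : ℕ → (H →₀ ZMod 2) → H} (hβ : LampApprox H β) {z : Op (Lamp H)}
    {y : ℕ → Op H} (h : PP β z y) : ∀ᶠ k in atTop, tr (y k) = tr z := by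
  induction h with
  | lam w =>
    by_cases hw : w = 1
    · filter_upwards [th_one hβ] with k hk
      rw [hw, hk, lam_one, lam_one, tr_one, tr_one]
    · filter_upwards [th_ne hβ w hw] with k hk
      unfold MP7e.tr
      rw [lam_dl, lam_dl, mul_one, mul_one, dl_ne (Ne.symm hk), dl_ne (Ne.symm hw)]
  | add _ _ h1 h2 =>
    filter_upwards [h1, h2] with k a b
    rw [tr_add, tr_add, a, b]
  | smul c _ h1 =>
    filter_upwards [h1] with k a
    rw [tr_smul, tr_smul, a]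
  | cong _ he h1 =>
    filter_upwards [h1, he] with k a b
    rw [b, a]

theorem PP.norm2 {β : ℕ → (H →₀ ZMod 2) → H} (hβ : LampApprox H β) {z : Op (Lamp H)}
    {y : ℕ → Op H} (h : PP β z y) : ∀ᶠ k in atTop, ‖y k (dl 1)‖ = ‖z (dl 1)‖ := by
  filter_upwards [((h.star hβ).mul hβ h).tr hβ] with k hk
  rw [tr_star_mul_self, tr_star_mul_self] at hk
  have h3 : ‖y k (dl 1)‖ ^ 2 = ‖z (dl 1)‖ ^ 2 := by exact_mod_cast hk
  exact (sq_eq_sq₀ (norm_nonneg _) (norm_nonneg _)).1 h3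

theorem PP.zero (β : ℕ → (H →₀ ZMod 2) → H) : PP β 0 (fun _ => 0) := by
  have h := PP.smul 0 (PP.lam (β := β) 1)
  rw [zero_smul] at h
  refine PP.cong h ?_
  filter_upwards with k
  rw [zero_smul]

theorem PP.neg {β : ℕ → (H →₀ ZMod 2) → H} {z : Op (Lamp H)} {y : ℕ → Op H} (h : PP β z y) :
    PP β (-z) (fun k => -y k) := by
  have h := PP.smul (-1) h
  rw [neg_one_smul] at h
  refine PP.cong h ?_
  filter_upwards with k
  rw [neg_one_smul]

theorem PP.sub {β : ℕ → (H →₀ ZMod 2) → H} {z z' : Op (Lamp H)} {y y' : ℕ → Op H}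
    (h : PP β z y) (h' : PP β z' y') : PP β (z - z') (fun k => y k - y' k) := by
  have h := PP.add h (PP.neg h')
  rw [← sub_eq_add_neg] at h
  refine PP.cong h ?_
  filter_upwards with k
  rw [sub_eq_add_neg]

theorem PP.sum {β : ℕ → (H →₀ ZMod 2) → H} {ι : Type*} (s : Finset ι) (z : ι → Op (Lamp H))
    (y : ι → ℕ → Op H) (h : ∀ i, PP β (z i) (y i)) :
    PP β (∑ i ∈ s, z i) (fun k => ∑ i ∈ s, y i k) := by
  induction s using Finset.induction_on with
  | empty => simpa using PP.zero β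
  | insert a s ha ih =>
    rw [Finset.sum_insert ha]
    refine PP.cong (PP.add (h a) ih) ?_
    filter_upwards with k
    rw [Finset.sum_insert ha]

theorem PP.fix {β : ℕ → (H →₀ ZMod 2) → H} {z : Op (Lamp H)} {y : ℕ → Op H} (h : PP β z y) :
    ∃ y', PP β z y' ∧ ∀ k, y' k ∈ LG H := by
  refine ⟨fun k => if y k ∈ LG H then y k else 0, PP.cong h ?_, ?_⟩
  · filter_upwards [h.mem.2] with k hk
    rw [if_pos hk]
  · intro k
    show (if y k ∈ LG H then y k else 0) ∈ LG H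
    by_cases hk : y k ∈ LG H
    · rw [if_pos hk]; exact hk
    · rw [if_neg hk]; exact zero_mem _

/-- finite sums of translations approximate in `2`-norm -/
theorem approx_sum {G : Type*} [Group G] (x : Op G) (ε : ℝ) (hε : 0 < ε) :
    ∃ s : Finset G, ‖(x - ∑ g ∈ s, ((x (dl 1) : G → ℂ) g) • lam g) (dl 1)‖ ≤ ε := by
  have h := hasSum_dl (x (dl 1))
  have h2 := (Metric.tendsto_nhds.1 h ε hε).exists
  obtain ⟨s, hs⟩ := h2
  refine ⟨s, ?_⟩
  rw [dist_comm, dist_eq_norm] at hs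
  have e : (x - ∑ g ∈ s, ((x (dl 1) : G → ℂ) g) • lam g) (dl 1) =
      x (dl 1) - ∑ g ∈ s, ((x (dl 1) : G → ℂ) g) • dl g := by
    show x (dl 1) - (∑ g ∈ s, ((x (dl 1) : G → ℂ) g) • lam g) (dl 1) = _
    congr 1
    rw [ContinuousLinearMap.sum_apply]
    refine Finset.sum_congr rfl fun g _ => ?_
    show ((x (dl 1) : G → ℂ) g) • (lam g (dl 1)) = _
    rw [lam_dl, mul_one]
  rw [e]
  exact hs.le

theorem PP.approx (β : ℕ → (H →₀ ZMod 2) → H) (z : Op (Lamp H)) (ε : ℝ) (hε : 0 < ε) :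
    ∃ p x, PP β p x ∧ ‖(z - p) (dl 1)‖ ≤ ε := by
  obtain ⟨s, hs⟩ := approx_sum z ε hε
  exact ⟨_, _, PP.sum s _ _ (fun w => PP.smul ((z (dl 1) : Lamp H → ℂ) w) (PP.lam w)), hs⟩

/-- approximable pairs -/
def Ap (β : ℕ → (H →₀ ZMod 2) → H) (z : Op (Lamp H)) (y : ℕ → Op H) : Prop :=
  ∀ ε : ℝ, 0 < ε → ∃ p x, PP β p x ∧ ‖(z - p) (dl 1)‖ ≤ ε ∧
    ∀ᶠ k in atTop, ‖(y k - x k) (dl 1)‖ ≤ ε

theorem PP.ap {β : ℕ → (H →₀ ZMod 2) → H} {z : Op (Lamp H)} {y : ℕ → Op H} (h : PP β z y) :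
    Ap β z y := by
  intro ε hε
  refine ⟨z, y, h, ?_, ?_⟩
  · rw [sub_self]; simpa using hε.le
  · filter_upwards with k
    rw [sub_self]; simpa using hε.le

theorem Ap.add {β : ℕ → (H →₀ ZMod 2) → H} {z z' : Op (Lamp H)} {y y' : ℕ → Op H}
    (h : Ap β z y) (h' : Ap β z' y') : Ap β (z + z') (fun k => y k + y' k) := by
  intro ε hε
  obtain ⟨p, x, hp, h1, h2⟩ := h (ε / 2) (by positivity)
  obtain ⟨p', x', hp', h1', h2'⟩ := h' (ε / 2) (by positivity)
  refine ⟨p + p', _, PP.add hp hp', ?_, ?_⟩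
  · have e : (z + z' - (p + p')) (dl 1) = (z - p) (dl 1) + (z' - p') (dl 1) := by
      rw [← ContinuousLinearMap.add_apply]; congr 1; abel
    rw [e]
    exact (norm_add_le _ _).trans (by linarith)
  · filter_upwards [h2, h2'] with k a b
    have e : (y k + y' k - (x k + x' k)) (dl 1) = (y k - x k) (dl 1) + (y' k - x' k) (dl 1) := by
      rw [← ContinuousLinearMap.add_apply]; congr 1; abel
    rw [e]
    exact (norm_add_le _ _).trans (by linarith)

theorem Ap.smul {β : ℕ → (H →₀ ZMod 2) → H} (c : ℂ) {z : Op (Lamp H)} {y : ℕ → Op H}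
    (h : Ap β z y) : Ap β (c • z) (fun k => c • y k) := by
  intro ε hε
  obtain ⟨p, x, hp, h1, h2⟩ := h (ε / (‖c‖ + 1)) (by positivity)
  have hc : ‖c‖ * (ε / (‖c‖ + 1)) ≤ ε := by
    rw [mul_div_assoc', div_le_iff₀ (by positivity)]
    nlinarith [norm_nonneg c]
  refine ⟨c • p, _, PP.smul c hp, ?_, ?_⟩
  · rw [← smul_sub, ContinuousLinearMap.smul_apply, norm_smul]
    exact (mul_le_mul_of_nonneg_left h1 (norm_nonneg _)).trans hc
  · filter_upwards [h2] with k a
    rw [← smul_sub, ContinuousLinearMap.smul_apply, norm_smul]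
    exact (mul_le_mul_of_nonneg_left a (norm_nonneg _)).trans hc

theorem Ap.star {β : ℕ → (H →₀ ZMod 2) → H} (hβ : LampApprox H β) {z : Op (Lamp H)}
    {y : ℕ → Op H} (hz : z ∈ LG (Lamp H)) (hy : ∀ᶠ k in atTop, y k ∈ LG H) (h : Ap β z y) :
    Ap β (star z) (fun k => star (y k)) := by
  intro ε hε
  obtain ⟨p, x, hp, h1, h2⟩ := h ε hε
  refine ⟨_, _, hp.star hβ, ?_, ?_⟩
  · rw [← star_sub, norm2_star (sub_mem hz hp.mem.1)]
    exact h1
  · filter_upwards [h2, hy, hp.mem.2] with k a b c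
    rw [← star_sub, norm2_star (sub_mem b c)]
    exact a

theorem Ap.mul {β : ℕ → (H →₀ ZMod 2) → H} (hβ : LampApprox H β) {z z' : Op (Lamp H)}
    {y y' : ℕ → Op H} (hz : z ∈ LG (Lamp H)) (hy : ∀ᶠ k in atTop, y k ∈ LG H)
    {C : ℝ} (hC : ∀ᶠ k in atTop, ‖y k‖ ≤ C) (h : Ap β z y) (h' : Ap β z' y') :
    Ap β (z * z') (fun k => y k * y' k) := by
  intro ε hε
  have hC0 : 0 ≤ C := by
    obtain ⟨k, hk⟩ := hC.exists
    exact (norm_nonneg _).trans hk
  obtain ⟨p', x', hp', h1', h2'⟩ := h' (ε / 2 / (‖z‖ + C + 1)) (by positivity)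
  obtain ⟨D, hD, hDz, hDy⟩ := hp'.bdd
  obtain ⟨p, x, hp, h1, h2⟩ := h (ε / 2 / (D + 1)) (by positivity)
  have hε1 : ‖z‖ * (ε / 2 / (‖z‖ + C + 1)) ≤ ε / 2 := by
    rw [mul_div_assoc', div_le_iff₀ (by positivity)]
    nlinarith [norm_nonneg z]
  have hε2 : C * (ε / 2 / (‖z‖ + C + 1)) ≤ ε / 2 := by
    rw [mul_div_assoc', div_le_iff₀ (by positivity)]
    nlinarith [norm_nonneg z]
  have hε3 : D * (ε / 2 / (D + 1)) ≤ ε / 2 := by
    rw [mul_div_assoc', div_le_iff₀ (by positivity)]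
    nlinarith
  refine ⟨_, _, hp.mul hβ hp', ?_, ?_⟩
  · have e : (z * z' - p * p') (dl 1) = (z * (z' - p')) (dl 1) + ((z - p) * p') (dl 1) := by
      rw [← ContinuousLinearMap.add_apply]; congr 1; noncomm_ring
    rw [e]
    refine (norm_add_le _ _).trans ?_
    have a1 := norm2_mul_le_left z (z' - p')
    have a2 := norm2_mul_le_right (sub_mem hz hp.mem.1) hp'.mem.1
    have b1 : ‖z‖ * ‖(z' - p') (dl 1)‖ ≤ ‖z‖ * (ε / 2 / (‖z‖ + C + 1)) := by gcongr
    have b2 : ‖p'‖ * ‖(z - p) (dl 1)‖ ≤ D * (ε / 2 / (D + 1)) := by gcongr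
    linarith
  · filter_upwards [h2, h2', hy, hC, hp.mem.2, hp'.mem.2, hDy] with k a a' b c d d' f
    have e : (y k * y' k - x k * x' k) (dl 1) =
        (y k * (y' k - x' k)) (dl 1) + ((y k - x k) * x' k) (dl 1) := by
      rw [← ContinuousLinearMap.add_apply]; congr 1; noncomm_ring
    rw [e]
    refine (norm_add_le _ _).trans ?_
    have a1 := norm2_mul_le_left (y k) (y' k - x' k)
    have a2 := norm2_mul_le_right (sub_mem b d) d'
    have b1 : ‖y k‖ * ‖(y' k - x' k) (dl 1)‖ ≤ C * (ε / 2 / (‖z‖ + C + 1)) := by gcongr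
    have b2 : ‖x' k‖ * ‖(y k - x k) (dl 1)‖ ≤ D * (ε / 2 / (D + 1)) := by gcongr
    linarith

theorem Ap.sub {β : ℕ → (H →₀ ZMod 2) → H} {z z' : Op (Lamp H)} {y y' : ℕ → Op H}
    (h : Ap β z y) (h' : Ap β z' y') : Ap β (z - z') (fun k => y k - y' k) := by
  have h := Ap.add h (Ap.smul (-1) h')
  rw [neg_one_smul, ← sub_eq_add_neg] at h
  have e : (fun k => y k + (-1 : ℂ) • y' k) = fun k => y k - y' k := by
    funext k
    rw [neg_one_smul, sub_eq_add_neg]
  rwa [e] at h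

/-- eventual control of the `2`-norm -/
theorem Ap.norm_le {β : ℕ → (H →₀ ZMod 2) → H} (hβ : LampApprox H β) {z : Op (Lamp H)}
    {y : ℕ → Op H} (h : Ap β z y) (ε : ℝ) (hε : 0 < ε) :
    ∀ᶠ k in atTop, ‖y k (dl 1)‖ ≤ ‖z (dl 1)‖ + ε := by
  obtain ⟨p, x, hp, h1, h2⟩ := h (ε / 2) (by positivity)
  filter_upwards [h2, hp.norm2 hβ] with k a b
  have e1 : y k (dl 1) = (y k - x k) (dl 1) + x k (dl 1) := by
    rw [← ContinuousLinearMap.add_apply, sub_add_cancel]
  have e2 : p (dl 1) = z (dl 1) - (z - p) (dl 1) := by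
    rw [← ContinuousLinearMap.sub_apply, sub_sub_cancel]
  have n1 : ‖y k (dl 1)‖ ≤ ‖(y k - x k) (dl 1)‖ + ‖x k (dl 1)‖ := by
    rw [e1]; exact norm_add_le _ _
  have n2 : ‖p (dl 1)‖ ≤ ‖z (dl 1)‖ + ‖(z - p) (dl 1)‖ := by
    rw [e2]; exact norm_sub_le _ _
  linarith

theorem Ap.uniq {β : ℕ → (H →₀ ZMod 2) → H} (hβ : LampApprox H β) {z : Op (Lamp H)}
    {y y' : ℕ → Op H} (h : Ap β z y) (h' : Ap β z y') :
    Tendsto (fun k => ‖(y k - y' k) (dl 1)‖) atTop (𝓝 0) := by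
  rw [Metric.tendsto_nhds]
  intro ε hε
  filter_upwards [(Ap.sub h h').norm_le hβ (ε / 2) (by positivity)] with k hk
  rw [dist_zero_right, norm_norm]
  rw [sub_self] at hk
  simp only [ContinuousLinearMap.zero_apply, norm_zero, zero_add] at hk
  linarith

theorem norm_tr_le2 {G : Type*} [Group G] (T : Op G) : ‖tr T‖ ≤ ‖T (dl 1)‖ := by
  rw [tr_eq_inner]
  have h := norm_inner_le_norm (𝕜 := ℂ) (dl (1 : G)) (T (dl 1))
  rwa [norm_dl, one_mul] at h

theorem tr_sub {G : Type*} [Group G] (S T : Op G) : tr (S - T) = tr S - tr T := rfl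

theorem Ap.tr {β : ℕ → (H →₀ ZMod 2) → H} (hβ : LampApprox H β) {z : Op (Lamp H)}
    {y : ℕ → Op H} (h : Ap β z y) : Tendsto (fun k => tr (y k)) atTop (𝓝 (tr z)) := by
  rw [Metric.tendsto_nhds]
  intro ε hε
  obtain ⟨p, x, hp, h1, h2⟩ := h (ε / 4) (by positivity)
  filter_upwards [h2, hp.tr hβ] with k a b
  rw [dist_eq_norm]
  have e : MP7e.tr (y k) - MP7e.tr z = MP7e.tr (y k - x k) - MP7e.tr (z - p) := by
    rw [tr_sub, tr_sub, b]; ring
  rw [e]
  have n1 := norm_tr_le2 (y k - x k)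
  have n2 := norm_tr_le2 (z - p)
  have n3 := norm_sub_le (MP7e.tr (y k - x k)) (MP7e.tr (z - p))
  linarith

/-- transport of operators as a linear map -/
def cjmL (H : Type) [Group H] : Op (H × (H →₀ ZMod 2)) →ₗ[ℂ] Op (Lamp H) where
  toFun := cjm
  map_add' := cjm_add
  map_smul' := cjm_smul

/-- constants -/
theorem Ap.iota {β : ℕ → (H →₀ ZMod 2) → H} (hβ : LampApprox H β) (x : Op H) :
    Ap β (cjm (opL H (H →₀ ZMod 2) x)) (fun _ => x) := by
  intro ε hε
  obtain ⟨s, hs⟩ := approx_sum x ε hε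
  refine ⟨∑ g ∈ s, ((x (dl 1) : H → ℂ) g) • lam (⟨0, g⟩ : Lamp H),
    fun _ => ∑ g ∈ s, ((x (dl 1) : H → ℂ) g) • lam g, ?_, ?_, ?_⟩
  · refine PP.sum s _ (fun g _ => ((x (dl 1) : H → ℂ) g) • lam g) (fun g => ?_)
    refine PP.cong (PP.smul _ (PP.lam _)) ?_
    filter_upwards [th_pos hβ g] with k hk
    rw [hk]
  · have e : cjm (opL H (H →₀ ZMod 2) x) - ∑ g ∈ s, ((x (dl 1) : H → ℂ) g) • lam (⟨0, g⟩ : Lamp H) =
        cjm (opL H (H →₀ ZMod 2) (x - ∑ g ∈ s, ((x (dl 1) : H → ℂ) g) • lam g)) := by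
      have hm : ∀ a : Op H, cjm (opL H (H →₀ ZMod 2) a) =
          (((cjmL H).comp (opL H (H →₀ ZMod 2)).toAlgHom.toLinearMap) a) := fun _ => rfl
      rw [hm, hm, map_sub, map_sum]
      congr 1
      refine Finset.sum_congr rfl fun g _ => ?_
      rw [map_smul, ← hm, iota_lam]
    rw [e, norm_iota_dl]
    exact hs
  · filter_upwards with k
    exact hs

end

end MP7e.Exi
end

section
/-!
EXI, part 3: resolvents and the existence of bounded approximating sequences.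
-/
namespace MP7e.Exi

open MP7e
open scoped InnerProductSpace
open Filter Topology Classical

noncomputable section

variable {H : Type} [Group H]

/-! ### Resolvents -/

section Res

variable {G : Type*} [Group G]

theorem res_bound {x : Op G} (hx : star x = x) (f : L2 G) :
    ‖f‖ ≤ ‖(x + Complex.I • (1 : Op G)) f‖ := by
  have h1 : star (⟪f, x f⟫_ℂ) = ⟪f, x f⟫_ℂ := by
    have h2 : ⟪f, (star x) f⟫_ℂ = ⟪x f, f⟫_ℂ := by
      rw [ContinuousLinearMap.star_eq_adjoint, ContinuousLinearMap.adjoint_inner_right]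
    rw [hx] at h2
    rw [h2]
    show (starRingEnd ℂ) (⟪x f, f⟫_ℂ) = _
    rw [inner_conj_symm]
    exact h2
  have h3 : (⟪f, x f⟫_ℂ).im = 0 := by
    have := congrArg Complex.im h1
    simp only [Complex.star_def, Complex.conj_im] at this
    linarith
  have h4 : ⟪f, (x + Complex.I • (1 : Op G)) f⟫_ℂ =
      ⟪f, x f⟫_ℂ + Complex.I * ((‖f‖ : ℂ) ^ 2) := by
    show ⟪f, x f + Complex.I • f⟫_ℂ = _
    rw [inner_add_right, inner_smul_right, inner_self_eq_norm_sq_to_K]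
    rfl
  have h5 : (⟪f, (x + Complex.I • (1 : Op G)) f⟫_ℂ).im = ‖f‖ ^ 2 := by
    rw [h4, Complex.add_im, h3, zero_add, ← Complex.ofReal_pow, Complex.I_mul_im,
      Complex.ofReal_re]
  have h6 : ‖f‖ ^ 2 ≤ ‖f‖ * ‖(x + Complex.I • (1 : Op G)) f‖ := by
    rw [← h5]
    exact (Complex.im_le_norm _).trans (norm_inner_le_norm _ _)
  by_cases h7 : ‖f‖ = 0
  · rw [h7]; exact norm_nonneg _
  · have h8 : 0 < ‖f‖ := lt_of_le_of_ne (norm_nonneg _) (Ne.symm h7)
    rw [sq] at h6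
    exact le_of_mul_le_mul_left h6 h8

theorem exists_res {x : Op G} (hx : star x = x) :
    ∃ R : Op G, R * (x + Complex.I • (1 : Op G)) = 1 ∧ (x + Complex.I • (1 : Op G)) * R = 1 ∧
      ‖R‖ ≤ 1 := by
  have hsa : IsSelfAdjoint x := hx
  have h1 : (-Complex.I) ∉ spectrum ℂ x := by
    intro h
    have h2 := hsa.im_eq_zero_of_mem_spectrum h
    simp at h2
  rw [spectrum.notMem_iff] at h1
  have h2 : IsUnit (x + Complex.I • (1 : Op G)) := by
    have e : x + Complex.I • (1 : Op G) = -(algebraMap ℂ (Op G) (-Complex.I) - x) := by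
      rw [Algebra.algebraMap_eq_smul_one, neg_smul]; abel
    rw [e]
    exact h1.neg
  obtain ⟨u, hu⟩ := h2
  refine ⟨(↑u⁻¹ : Op G), ?_, ?_, ?_⟩
  · rw [← hu, Units.inv_mul]
  · rw [← hu, Units.mul_inv]
  · apply ContinuousLinearMap.opNorm_le_bound _ zero_le_one
    intro f
    rw [one_mul]
    have h3 := res_bound hx ((↑u⁻¹ : Op G) f)
    rwa [← hu, ← mulA, Units.mul_inv] at h3

/-- the resolvent at `-i` -/
def res (x : Op G) : Op G := if h : star x = x then Classical.choose (exists_res h) else 0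

theorem res_spec {x : Op G} (hx : star x = x) :
    res x * (x + Complex.I • (1 : Op G)) = 1 ∧ (x + Complex.I • (1 : Op G)) * res x = 1 ∧
      ‖res x‖ ≤ 1 := by
  unfold res
  rw [dif_pos hx]
  exact Classical.choose_spec (exists_res hx)

theorem res_mem {x : Op G} (hx : star x = x) (hm : x ∈ LG G) : res x ∈ LG G := by
  obtain ⟨h1, h2, -⟩ := res_spec hx
  rw [mem_LG]
  intro g
  have h3 : (x + Complex.I • (1 : Op G)) * rho g = rho g * (x + Complex.I • (1 : Op G)) := by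
    rw [add_mul, mul_add, mem_LG.1 hm g, smul_mul_assoc, mul_smul_comm, one_mul, mul_one]
  calc res x * rho g = res x * (rho g * ((x + Complex.I • (1 : Op G)) * res x)) := by
        rw [h2, mul_one]
    _ = res x * (rho g * (x + Complex.I • (1 : Op G))) * res x := by simp only [mul_assoc]
    _ = (res x * (x + Complex.I • (1 : Op G))) * rho g * res x := by
        rw [← h3]; simp only [mul_assoc]
    _ = rho g * res x := by rw [h1, one_mul]

theorem res_sub {a b : Op G} (ha : star a = a) (hb : star b = b) (ham : a ∈ LG G)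
    (hbm : b ∈ LG G) : ‖(res a - res b) (dl 1)‖ ≤ ‖(a - b) (dl 1)‖ := by
  obtain ⟨a1, a2, a3⟩ := res_spec ha
  obtain ⟨b1, b2, b3⟩ := res_spec hb
  have e : res a - res b = -(res a * ((a - b) * res b)) := by
    have e1 : a - b = (a + Complex.I • (1 : Op G)) - (b + Complex.I • (1 : Op G)) := by abel
    rw [e1, sub_mul, b2, mul_sub, ← mul_assoc, a1, one_mul, mul_one]
    abel
  have e2 : ‖(res a - res b) (dl 1)‖ = ‖(res a * ((a - b) * res b)) (dl 1)‖ := by
    rw [e]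
    show ‖-((res a * ((a - b) * res b)) (dl 1))‖ = _
    rw [norm_neg]
  rw [e2]
  calc ‖(res a * ((a - b) * res b)) (dl 1)‖ ≤ ‖res a‖ * ‖((a - b) * res b) (dl 1)‖ :=
        norm2_mul_le_left _ _
    _ ≤ 1 * ‖((a - b) * res b) (dl 1)‖ := by gcongr
    _ = ‖((a - b) * res b) (dl 1)‖ := one_mul _
    _ ≤ ‖res b‖ * ‖(a - b) (dl 1)‖ := norm2_mul_le_right (sub_mem ham hbm) (res_mem hb hbm)
    _ ≤ 1 * ‖(a - b) (dl 1)‖ := by gcongr
    _ = _ := one_mul _

/-- the inverse of `h ↦ 2 h (1 + h²)⁻¹` on self-adjoint contractions -/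
theorem exists_inv_fun {E : Type*} [NormedAddCommGroup E] [InnerProductSpace ℂ E]
    [CompleteSpace E] {z : E →L[ℂ] E} (hz : star z = z) (hn : ‖z‖ ≤ 1) :
    ∃ h : E →L[ℂ] E, star h = h ∧ z * (h * h + 1) = h + h ∧
      ∀ b, z * b = b * z → h * b = b * h := by
  have hsa : IsSelfAdjoint z := hz
  let g : ℝ → ℝ := fun t => t / (1 + Real.sqrt (1 - t ^ 2))
  have hpos : ∀ t : ℝ, 0 < 1 + Real.sqrt (1 - t ^ 2) := fun t => by positivity
  have hgc : Continuous g := by
    apply Continuous.div continuous_id (by fun_prop)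
    intro t
    exact (hpos t).ne'
  let h : E →L[ℂ] E := cfc g z
  have hh : star h = h := (cfc_predicate g z : IsSelfAdjoint (cfc g z))
  have hspec : ∀ t ∈ spectrum ℝ z, |t| ≤ 1 := by
    intro t ht
    have h1 := spectrum.norm_le_norm_mul_of_mem ht
    have h2 : ‖(1 : E →L[ℂ] E)‖ ≤ 1 := ContinuousLinearMap.norm_id_le
    rw [Real.norm_eq_abs] at h1
    calc |t| ≤ ‖z‖ * ‖(1 : E →L[ℂ] E)‖ := h1
      _ ≤ 1 * 1 := by gcongr
      _ = 1 := one_mul 1
  have key : z * (h * h + 1) = h + h := by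
    have e1 : h + h = cfc (fun t => g t + g t) z := by
      rw [cfc_add z g g hgc.continuousOn hgc.continuousOn]
    have e2 : h * h = cfc (fun t => g t * g t) z := by
      rw [cfc_mul g g z hgc.continuousOn hgc.continuousOn]
    have e3 : h * h + 1 = cfc (fun t => g t * g t + 1) z := by
      rw [cfc_add z (fun t => g t * g t) (fun _ => 1) (hgc.mul hgc).continuousOn
        continuousOn_const, ← e2, cfc_const_one ℝ z]
    have e4 : z * (h * h + 1) = cfc (fun t => t * (g t * g t + 1)) z := by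
      rw [cfc_mul (fun t => t) (fun t => g t * g t + 1) z continuousOn_id
        ((hgc.mul hgc).add continuous_const).continuousOn, ← e3, cfc_id' ℝ z]
    rw [e4, e1]
    apply cfc_congr
    intro t ht
    have ht1 := hspec t ht
    have hs : Real.sqrt (1 - t ^ 2) ^ 2 = 1 - t ^ 2 := by
      apply Real.sq_sqrt
      have := abs_le.1 ht1
      nlinarith
    show t * (t / (1 + Real.sqrt (1 - t ^ 2)) * (t / (1 + Real.sqrt (1 - t ^ 2))) + 1) =
      t / (1 + Real.sqrt (1 - t ^ 2)) + t / (1 + Real.sqrt (1 - t ^ 2))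
    have hp := (hpos t).ne'
    generalize Real.sqrt (1 - t ^ 2) = c at hs hp ⊢
    field_simp
    linear_combination t * hs
  refine ⟨h, hh, key, fun b hb => ?_⟩
  have : Commute z b := hb
  exact this.cfc_real g

/-- a self-adjoint contraction is the sum of a resolvent and its adjoint -/
theorem exists_eq_res {z : Op G} (hz : star z = z) (hzm : z ∈ LG G) (hn : ‖z‖ ≤ 1) :
    ∃ h : Op G, star h = h ∧ h ∈ LG G ∧ z = res h + star (res h) := by
  obtain ⟨h, hh, key, hc⟩ := exists_inv_fun hz hn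
  have hhm : h ∈ LG G := by
    rw [mem_LG]
    intro w
    exact hc _ (mem_LG.1 hzm w)
  have hcomm : h * z = z * h := hc z rfl
  obtain ⟨r1, r2, r3⟩ := res_spec hh
  refine ⟨h, hh, hhm, ?_⟩
  have s1 : (h - Complex.I • (1 : Op G)) * star (res h) = 1 := by
    have := congrArg star r1
    rw [star_mul, star_add, star_smul, hh, star_one] at this
    rw [← this, sub_eq_add_neg, ← neg_smul]
    congr 3
    exact Complex.conj_I.symm
  have e1 : (h + Complex.I • (1 : Op G)) * z * (h - Complex.I • (1 : Op G)) = h + h := by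
    rw [← key]
    have e2 : (h + Complex.I • (1 : Op G)) * z = z * (h + Complex.I • (1 : Op G)) := by
      rw [add_mul, mul_add, hcomm, smul_mul_assoc, mul_smul_comm, one_mul, mul_one]
    rw [e2, mul_assoc]
    congr 1
    rw [add_mul, mul_sub, mul_sub, mul_smul_comm, smul_mul_assoc, smul_mul_assoc, mul_smul_comm,
      mul_one, one_mul, mul_one, smul_smul, Complex.I_mul_I, neg_one_smul]
    abel
  have e2 : h + h = (h - Complex.I • (1 : Op G)) + (h + Complex.I • (1 : Op G)) := by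
    abel
  calc z = (res h * (h + Complex.I • (1 : Op G))) * z *
        ((h - Complex.I • (1 : Op G)) * star (res h)) := by rw [r1, s1, one_mul, mul_one]
    _ = res h * ((h + Complex.I • (1 : Op G)) * z * (h - Complex.I • (1 : Op G))) *
        star (res h) := by simp only [mul_assoc]
    _ = res h * ((h - Complex.I • (1 : Op G)) + (h + Complex.I • (1 : Op G))) *
        star (res h) := by rw [e1, e2]
    _ = res h * ((h - Complex.I • (1 : Op G)) * star (res h)) +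
        (res h * (h + Complex.I • (1 : Op G))) * star (res h) := by
        rw [mul_add, add_mul]; simp only [mul_assoc]
    _ = res h + star (res h) := by rw [s1, r1, mul_one, one_mul]

end Res

/-! ### Inverses -/

theorem PP.one {β : ℕ → (H →₀ ZMod 2) → H} (hβ : LampApprox H β) :
    PP β 1 (fun _ => 1) := by
  have h := PP.lam (β := β) 1
  rw [lam_one] at h
  refine PP.cong h ?_
  filter_upwards [th_one hβ] with k hk
  rw [hk, lam_one]

theorem Ap.inv {β : ℕ → (H →₀ ZMod 2) → H} (hβ : LampApprox H β) {z z' : Op (Lamp H)}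
    {y y' : ℕ → Op H} (hz : z ∈ LG (Lamp H)) (hy : ∀ᶠ k in atTop, y k ∈ LG H)
    {C : ℝ} (hC : ∀ᶠ k in atTop, ‖y k‖ ≤ C) (h : Ap β z y) (h1 : z * z' = 1)
    (h2 : ∀ᶠ k in atTop, y' k * y k = 1) (h3 : ∀ᶠ k in atTop, ‖y' k‖ ≤ 1) : Ap β z' y' := by
  intro ε hε
  obtain ⟨w, v, hw, hd⟩ := PP.approx β z' (ε / 2 / (‖z‖ + 1)) (by positivity)
  have hε1 : ‖z‖ * (ε / 2 / (‖z‖ + 1)) ≤ ε / 2 := by
    rw [mul_div_assoc', div_le_iff₀ (by positivity)]
    nlinarith [norm_nonneg z]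
  have hε2 : ε / 2 / (‖z‖ + 1) ≤ ε := by
    rw [div_le_iff₀ (by positivity)]
    nlinarith [norm_nonneg z]
  refine ⟨w, v, hw, hd.trans hε2, ?_⟩
  have h4 := (Ap.sub (PP.one hβ).ap (Ap.mul hβ hz hy hC h hw.ap)).norm_le hβ (ε / 2)
    (by positivity)
  have h5 : ‖(1 - z * w) (dl 1)‖ ≤ ε / 2 := by
    rw [← h1, ← mul_sub]
    refine (norm2_mul_le_left z (z' - w)).trans ?_
    exact (mul_le_mul_of_nonneg_left hd (norm_nonneg _)).trans hε1
  filter_upwards [h4, h2, h3] with k a b c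
  have e : y' k - v k = y' k * (1 - y k * v k) := by
    rw [mul_sub, mul_one, ← mul_assoc, b, one_mul]
  rw [e]
  refine (norm2_mul_le_left _ _).trans ?_
  calc ‖y' k‖ * ‖(1 - y k * v k) (dl 1)‖ ≤ 1 * ‖(1 - y k * v k) (dl 1)‖ := by gcongr
    _ ≤ ε := by rw [one_mul]; linarith

/-! ### The diagonal sequence -/

theorem diag {β : ℕ → (H →₀ ZMod 2) → H} (hβ : LampApprox H β) {z : Op (Lamp H)} {C : ℝ}
    (h : ∀ ε : ℝ, 0 < ε → ∃ z' y', Ap β z' y' ∧ ‖(z - z') (dl 1)‖ ≤ ε ∧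
      (∀ k, y' k ∈ LG H) ∧ ∀ k, ‖y' k‖ ≤ C) :
    ∃ y, Ap β z y ∧ (∀ k, y k ∈ LG H) ∧ ∀ k, ‖y k‖ ≤ C := by
  have h' : ∀ j : ℕ, ∃ z' y', Ap β z' y' ∧ ‖(z - z') (dl 1)‖ ≤ 1 / ((j : ℝ) + 1) ∧
      (∀ k, y' k ∈ LG H) ∧ ∀ k, ‖y' k‖ ≤ C := fun j => h _ (by positivity)
  choose z' y' hAp hd hm hb using h'
  let P : ℕ → ℕ → Prop := fun k m => ∀ i ∈ Finset.range (m + 1),
    ‖(y' i k - y' m k) (dl 1)‖ ≤ 2 / ((i : ℝ) + 1) + 2 / ((m : ℝ) + 1)
  have hP : ∀ m, ∀ᶠ k in atTop, P k m := by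
    intro m
    rw [Filter.eventually_all_finset]
    intro i _
    have h1 := (Ap.sub (hAp i) (hAp m)).norm_le hβ (1 / ((i : ℝ) + 1) + 1 / ((m : ℝ) + 1))
      (by positivity)
    filter_upwards [h1] with k hk
    have e : (z' i - z' m) (dl 1) = (z - z' m) (dl 1) - (z - z' i) (dl 1) := by
      show (z' i) (dl 1) - (z' m) (dl 1) =
        (z (dl 1) - (z' m) (dl 1)) - (z (dl 1) - (z' i) (dl 1))
      abel
    have h2 : ‖(z' i - z' m) (dl 1)‖ ≤ 1 / ((m : ℝ) + 1) + 1 / ((i : ℝ) + 1) := by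
      rw [e]
      exact (norm_sub_le _ _).trans (add_le_add (hd m) (hd i))
    calc ‖(y' i k - y' m k) (dl 1)‖ ≤ ‖(z' i - z' m) (dl 1)‖ +
          (1 / ((i : ℝ) + 1) + 1 / ((m : ℝ) + 1)) := hk
      _ ≤ (1 / ((m : ℝ) + 1) + 1 / ((i : ℝ) + 1)) +
          (1 / ((i : ℝ) + 1) + 1 / ((m : ℝ) + 1)) := by gcongr
      _ = 2 / ((i : ℝ) + 1) + 2 / ((m : ℝ) + 1) := by ring
  let n : ℕ → ℕ := fun k => Nat.findGreatest (P k) k
  have key : ∀ i, ∀ᶠ k in atTop, ‖(y' (n k) k - y' i k) (dl 1)‖ ≤ 4 / ((i : ℝ) + 1) := by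
    intro i
    filter_upwards [hP i, eventually_ge_atTop i] with k h1 h2
    have h3 : i ≤ n k := Nat.le_findGreatest h2 h1
    have h4 : P k (n k) := Nat.findGreatest_spec (P := P k) h2 h1
    have h5 := h4 i (Finset.mem_range.2 (Nat.lt_succ_of_le h3))
    have e : ‖(y' (n k) k - y' i k) (dl 1)‖ = ‖(y' i k - y' (n k) k) (dl 1)‖ := by
      rw [← norm_neg]
      congr 1
      show -((y' (n k) k) (dl 1) - (y' i k) (dl 1)) = (y' i k) (dl 1) - (y' (n k) k) (dl 1)
      abel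
    rw [e]
    have h6 : (2 : ℝ) / ((n k : ℝ) + 1) ≤ 2 / ((i : ℝ) + 1) := by
      have : (i : ℝ) ≤ (n k : ℝ) := by exact_mod_cast h3
      gcongr
    calc _ ≤ _ := h5
      _ ≤ 2 / ((i : ℝ) + 1) + 2 / ((i : ℝ) + 1) := by gcongr
      _ = 4 / ((i : ℝ) + 1) := by ring
  refine ⟨fun k => y' (n k) k, ?_, fun k => hm _ _, fun k => hb _ _⟩
  intro ε hε
  obtain ⟨i, hi⟩ := exists_nat_one_div_lt (show (0 : ℝ) < ε / 8 by positivity)
  obtain ⟨p, x, hp, h1, h2⟩ := hAp i (ε / 2) (by positivity)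
  refine ⟨p, x, hp, ?_, ?_⟩
  · have e : (z - p) (dl 1) = (z - z' i) (dl 1) + (z' i - p) (dl 1) := by
      show z (dl 1) - p (dl 1) = (z (dl 1) - (z' i) (dl 1)) + ((z' i) (dl 1) - p (dl 1))
      abel
    rw [e]
    refine (norm_add_le _ _).trans ?_
    have := hd i
    linarith
  · filter_upwards [key i, h2] with k a b
    have e : (y' (n k) k - x k) (dl 1) =
        (y' (n k) k - y' i k) (dl 1) + (y' i k - x k) (dl 1) := by
      show (y' (n k) k) (dl 1) - (x k) (dl 1) =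
        ((y' (n k) k) (dl 1) - (y' i k) (dl 1)) + ((y' i k) (dl 1) - (x k) (dl 1))
      abel
    show ‖(y' (n k) k - x k) (dl 1)‖ ≤ ε
    rw [e]
    refine (norm_add_le _ _).trans ?_
    have h4 : (4 : ℝ) / ((i : ℝ) + 1) = 4 * (1 / ((i : ℝ) + 1)) := by ring
    rw [h4] at a
    linarith

theorem exists_seq_res {β : ℕ → (H →₀ ZMod 2) → H} (hβ : LampApprox H β) {h : Op (Lamp H)}
    (hh : star h = h) (hm : h ∈ LG (Lamp H)) :
    ∃ y, Ap β (res h) y ∧ (∀ k, y k ∈ LG H) ∧ ∀ k, ‖y k‖ ≤ 1 := by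
  apply diag hβ
  intro ε hε
  obtain ⟨p, x0, hp0, hd⟩ := PP.approx β h ε hε
  obtain ⟨x, hp, hx⟩ := hp0.fix
  have hq : PP β ((2⁻¹ : ℂ) • (p + star p)) (fun k => (2⁻¹ : ℂ) • (x k + star (x k))) :=
    PP.smul _ (PP.add hp (hp.star hβ))
  have hsa : ∀ {X : Type} (T : Op X), star ((2⁻¹ : ℂ) • (T + star T)) =
      (2⁻¹ : ℂ) • (T + star T) := by
    intro X T
    rw [star_smul, star_add, star_star, add_comm (star T) T]
    congr 1
    simp
  set q := (2⁻¹ : ℂ) • (p + star p) with hqdef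
  have hqs : star q = q := hsa p
  have hqm : q ∈ LG (Lamp H) := hq.mem.1
  have hxs : ∀ k, star ((2⁻¹ : ℂ) • (x k + star (x k))) = (2⁻¹ : ℂ) • (x k + star (x k)) :=
    fun k => hsa _
  have hxm : ∀ k, (2⁻¹ : ℂ) • (x k + star (x k)) ∈ LG H :=
    fun k => smul_mem_LG _ (add_mem (hx k) (star_mem (hx k)))
  have hd2 : ‖(h - q) (dl 1)‖ ≤ ε := by
    have e : h - q = (2⁻¹ : ℂ) • ((h - p) + star (h - p)) := by
      rw [star_sub, hh, hqdef]
      have : h = (2⁻¹ : ℂ) • (h + h) := by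
        rw [← two_smul ℂ h, smul_smul]; norm_num
      conv_lhs => rw [this]
      rw [← smul_sub]
      congr 1
      abel
    rw [e]
    show ‖(2⁻¹ : ℂ) • ((h - p) (dl 1) + (star (h - p)) (dl 1))‖ ≤ ε
    rw [norm_smul]
    have h1 := norm_add_le ((h - p) (dl 1)) ((star (h - p)) (dl 1))
    rw [norm2_star (sub_mem hm hp.mem.1)] at h1
    have h2 : ‖(2⁻¹ : ℂ)‖ = 2⁻¹ := by simp
    rw [h2]
    linarith
  have hPI : PP β (q + Complex.I • (1 : Op (Lamp H)))
      (fun k => (2⁻¹ : ℂ) • (x k + star (x k)) + Complex.I • (1 : Op H)) :=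
    PP.add hq (PP.smul _ (PP.one hβ))
  obtain ⟨C, hC, hC1, hC2⟩ := hPI.bdd
  refine ⟨res q, fun k => res ((2⁻¹ : ℂ) • (x k + star (x k))), ?_, ?_, ?_, ?_⟩
  · refine Ap.inv hβ hPI.mem.1 hPI.mem.2 hC2 hPI.ap (res_spec hqs).2.1 ?_ ?_
    · filter_upwards with k
      exact (res_spec (hxs k)).1
    · filter_upwards with k
      exact (res_spec (hxs k)).2.2
  · exact (res_sub hh hqs hm hqm).trans hd2
  · intro k
    exact res_mem (hxs k) (hxm k)
  · intro k
    exact (res_spec (hxs k)).2.2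

theorem exists_seq_sa {β : ℕ → (H →₀ ZMod 2) → H} (hβ : LampApprox H β) {z : Op (Lamp H)}
    (hz : star z = z) (hm : z ∈ LG (Lamp H)) (hn : ‖z‖ ≤ 1) :
    ∃ y, Ap β z y ∧ (∀ k, y k ∈ LG H) ∧ ∀ k, ‖y k‖ ≤ 2 := by
  obtain ⟨h, hh, hhm, he⟩ := exists_eq_res hz hm hn
  obtain ⟨y, hy, hym, hyb⟩ := exists_seq_res hβ hh hhm
  refine ⟨fun k => y k + star (y k), ?_, ?_, ?_⟩
  · rw [he]
    exact Ap.add hy (Ap.star hβ (res_mem hh hhm) (Eventually.of_forall hym) hy)
  · intro k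
    exact add_mem (hym k) (star_mem (hym k))
  · intro k
    refine (norm_add_le _ _).trans ?_
    rw [norm_starOp]
    have := hyb k
    linarith

/-- every element of `L(Lamp H)` has a bounded approximating sequence -/
theorem exists_seq {β : ℕ → (H →₀ ZMod 2) → H} (hβ : LampApprox H β) (z : Op (Lamp H))
    (hm : z ∈ LG (Lamp H)) :
    ∃ y : ℕ → Op H, Ap β z y ∧ (∀ k, y k ∈ LG H) ∧ ∃ C : ℝ, ∀ k, ‖y k‖ ≤ C := by
  let r : ℝ := ‖z‖ + 1
  have hr : 0 < r := by positivity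
  let a : Op (Lamp H) := ((2 * r : ℝ) : ℂ)⁻¹ • (z + star z)
  let b : Op (Lamp H) := ((2 * r : ℝ) : ℂ)⁻¹ • (Complex.I • (star z - z))
  have hs : star (((2 * r : ℝ) : ℂ)⁻¹) = ((2 * r : ℝ) : ℂ)⁻¹ := by
    rw [← Complex.ofReal_inv]
    exact Complex.conj_ofReal _
  have hnr : ‖((2 * r : ℝ) : ℂ)⁻¹‖ = (2 * r)⁻¹ := by
    rw [← Complex.ofReal_inv, Complex.norm_real, Real.norm_of_nonneg (by positivity)]
  have ha : star a = a := by
    show star (((2 * r : ℝ) : ℂ)⁻¹ • (z + star z)) = ((2 * r : ℝ) : ℂ)⁻¹ • (z + star z)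
    rw [star_smul, hs, star_add, star_star, add_comm]
  have hb : star b = b := by
    show star (((2 * r : ℝ) : ℂ)⁻¹ • (Complex.I • (star z - z))) =
      ((2 * r : ℝ) : ℂ)⁻¹ • (Complex.I • (star z - z))
    rw [star_smul, hs, star_smul, star_sub, star_star]
    congr 1
    rw [show star Complex.I = -Complex.I from Complex.conj_I, neg_smul, ← smul_neg, neg_sub]
  have ham : a ∈ LG (Lamp H) := smul_mem_LG _ (add_mem hm (star_mem hm))
  have hbm : b ∈ LG (Lamp H) := smul_mem_LG _ (smul_mem_LG _ (sub_mem (star_mem hm) hm))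
  have han : ‖a‖ ≤ 1 := by
    show ‖((2 * r : ℝ) : ℂ)⁻¹ • (z + star z)‖ ≤ 1
    rw [norm_smul, hnr]
    have h1 := norm_add_le z (star z)
    rw [norm_starOp] at h1
    rw [inv_mul_le_iff₀ (by positivity)]
    show ‖z + star z‖ ≤ 2 * (‖z‖ + 1) * 1
    linarith
  have hbn : ‖b‖ ≤ 1 := by
    show ‖((2 * r : ℝ) : ℂ)⁻¹ • (Complex.I • (star z - z))‖ ≤ 1
    rw [norm_smul, hnr, norm_smul, Complex.norm_I, one_mul]
    have h1 := norm_sub_le (star z) z
    rw [norm_starOp] at h1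
    rw [inv_mul_le_iff₀ (by positivity)]
    show ‖star z - z‖ ≤ 2 * (‖z‖ + 1) * 1
    linarith
  have hzab : z = (r : ℂ) • a + ((r : ℂ) * Complex.I) • b := by
    show z = (r : ℂ) • (((2 * r : ℝ) : ℂ)⁻¹ • (z + star z)) +
      ((r : ℂ) * Complex.I) • (((2 * r : ℝ) : ℂ)⁻¹ • (Complex.I • (star z - z)))
    have hrc : (r : ℂ) ≠ 0 := by exact_mod_cast hr.ne'
    have c1 : (r : ℂ) * ((2 * r : ℝ) : ℂ)⁻¹ = 2⁻¹ := by
      rw [Complex.ofReal_mul]
      field_simp
      norm_num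
    have c2 : ((r : ℂ) * Complex.I) * ((2 * r : ℝ) : ℂ)⁻¹ * Complex.I = -2⁻¹ := by
      calc ((r : ℂ) * Complex.I) * ((2 * r : ℝ) : ℂ)⁻¹ * Complex.I =
          ((r : ℂ) * ((2 * r : ℝ) : ℂ)⁻¹) * (Complex.I * Complex.I) := by ring
        _ = -2⁻¹ := by rw [c1, Complex.I_mul_I]; ring
    rw [smul_smul, smul_smul, smul_smul, c1, c2, neg_smul, ← smul_neg, ← smul_add, neg_sub]
    have : z + star z + (z - star z) = (2 : ℂ) • z := by rw [two_smul]; abel
    rw [this, smul_smul]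
    norm_num
  obtain ⟨y1, h1, m1, b1⟩ := exists_seq_sa hβ ha ham han
  obtain ⟨y2, h2, m2, b2⟩ := exists_seq_sa hβ hb hbm hbn
  refine ⟨fun k => (r : ℂ) • y1 k + ((r : ℂ) * Complex.I) • y2 k, ?_, ?_, ?_⟩
  · rw [hzab]
    exact Ap.add (Ap.smul _ h1) (Ap.smul _ h2)
  · intro k
    exact add_mem (smul_mem_LG _ (m1 k)) (smul_mem_LG _ (m2 k))
  · refine ⟨‖(r : ℂ)‖ * 2 + ‖(r : ℂ) * Complex.I‖ * 2, fun k => ?_⟩
    refine (norm_add_le _ _).trans ?_
    rw [norm_smul, norm_smul]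
    have := b1 k
    have := b2 k
    gcongr

end

end MP7e.Exi
end

section
/-!
EXI: `L(H) ⊂ L(Z/2 ≀ H)` is existential.
-/
namespace MP7e.Exi

open MP7e
open scoped InnerProductSpace
open Filter Topology Classical

noncomputable section

variable {H : Type} [Group H]

/-- the statement for a fixed group -/
theorem exi {β : ℕ → (H →₀ ZMod 2) → H} (hβ : LampApprox H β) (U : Ultrafilter ℕ)
    (hU : (U : Filter ℕ) ≤ atTop) : ExistentialLift (LGt H) (LGt (Lamp H)) (iota H) U := by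
  have hex : ∀ z : (LGt (Lamp H)).El, ∃ y : ℕ → (LGt H).El,
      Ap β (z : Op (Lamp H)) (fun k => (y k : Op H)) ∧ ∃ C : ℝ, ∀ k, ‖(y k : Op H)‖ ≤ C := by
    intro z
    obtain ⟨y, h1, h2, h3⟩ := exists_seq hβ (z : Op (Lamp H)) z.2
    exact ⟨fun k => ⟨y k, h2 k⟩, h1, h3⟩
  choose θ hθ hC using hex
  have hueq : ∀ (z : Op (Lamp H)) (x y : ℕ → (LGt H).El), Ap β z (fun k => (x k : Op H)) →
      Ap β z (fun k => (y k : Op H)) → UEq (LGt H) U x y := by
    intro z x y hx hy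
    exact (Ap.uniq hβ hx hy).mono_left hU
  refine ⟨θ, hC, ?_, ?_, ?_, ?_, ?_, ?_⟩
  · intro z w
    exact hueq _ _ _ (hθ (z + w)) (Ap.add (hθ z) (hθ w))
  · intro z w
    obtain ⟨C, hCz⟩ := hC z
    exact hueq _ _ _ (hθ (z * w)) (Ap.mul hβ z.2 (Eventually.of_forall fun k => (θ z k).2)
      (Eventually.of_forall hCz) (hθ z) (hθ w))
  · intro c z
    exact hueq _ _ _ (hθ (c • z)) (Ap.smul c (hθ z))
  · intro z
    exact hueq _ _ _ (hθ (star z)) (Ap.star hβ z.2 (Eventually.of_forall fun k => (θ z k).2) (hθ z))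
  · intro z
    have h := ((hθ z).tr hβ).mono_left hU
    rw [LGt_τ]
    refine h.congr fun k => ?_
    rw [LGt_τ]
  · intro x
    exact hueq _ _ _ (hθ (iota H x)) (Ap.iota hβ (x : Op H))

end

end MP7e.Exi

namespace MP7e

/-- EXI: `L(H) ⊂ L(Z/2 ≀ H)` is existential -/
theorem specExi : SpecExi := by
  intro H _ β hβ
  exact ⟨Exi.iota H, Exi.iota_tau, fun U hU => Exi.exi hβ U hU⟩

end MP7e
end

section
/-!
Module FAC: the group von Neumann algebra of an infinite group with infinite conjugacy classes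
is a factor of type II₁.
-/
namespace MP7e

open scoped InnerProductSpace TensorProduct ENNReal
open Filter Topology Classical

noncomputable section

namespace Fac

theorem zero_of_const {X : Type*} (f : L2 X) (c : ℂ) (S : Set X) (hS : S.Infinite)
    (h : ∀ x ∈ S, f x = c) : c = 0 := by
  by_contra hc
  have h1 := (summable_normSq f).tendsto_cofinite_zero
  have hpos : 0 < ‖c‖ ^ 2 := by positivity
  have h2 : ∀ᶠ x in cofinite, ‖f x‖ ^ 2 < ‖c‖ ^ 2 := h1.eventually (gt_mem_nhds hpos)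
  rw [eventually_cofinite] at h2
  apply hS
  refine h2.subset ?_
  intro x hx
  show ¬ ‖f x‖ ^ 2 < ‖c‖ ^ 2
  rw [h x hx]
  exact lt_irrefl _

theorem coeff_conj {G : Type*} [Group G] {x : Op G} (hx : x ∈ LG G)
    (hc : ∀ g, x * lam g = lam g * x) (g h : G) :
    (x (dl 1) : G → ℂ) (h * g * h⁻¹) = (x (dl 1) : G → ℂ) g := by
  have h2 := congrArg (fun R : Op G => R (dl 1)) (hc h)
  simp only [mulA, lam_dl, mul_one] at h2
  have h3 : (x (dl h) : G → ℂ) (h * g) = (lam h (x (dl 1)) : G → ℂ) (h * g) := by rw [h2]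
  rw [LG_coeff hx h, lam_apply, inv_mul_cancel_left] at h3
  exact h3

end Fac

open Fac

theorem specFac : SpecFac := by
  intro G _ hicc hinf
  refine ⟨?_, ?_⟩
  · intro x hx hcomm
    have hc : ∀ g, x * lam g = lam g * x := fun g => hcomm _ (lam_mem g)
    refine ⟨(x (dl 1) : G → ℂ) 1, ?_⟩
    have hone : (1 : Op G) ∈ LG G := one_mem _
    have hs : ((x (dl 1) : G → ℂ) 1) • (1 : Op G) ∈ LG G :=
      (LG G).toStarSubalgebra.toSubalgebra.smul_mem hone _
    refine LG_ext hx hs ?_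
    apply Subtype.ext
    funext g
    show (x (dl 1) : G → ℂ) g = (((x (dl 1) : G → ℂ) 1) • (dl 1 : L2 G) : L2 G) g
    rw [lp.coeFn_smul, Pi.smul_apply, smul_eq_mul]
    by_cases hg : g = 1
    · subst hg
      rw [dl_self, mul_one]
    · rw [dl_ne hg, mul_zero]
      refine zero_of_const (x (dl 1)) _ _ (hicc g hg) ?_
      rintro _ ⟨y, rfl⟩
      exact coeff_conj hx hc g y
  · intro hfin
    have ho : Orthonormal ℂ (dl : G → L2 G) := by
      rw [orthonormal_iff_ite]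
      intro i j
      exact inner_dl_dl i j
    have := ho.linearIndependent.finite
    exact hinf.not_finite this

end

end MP7e
end

section
/-!
Module PS2: the Powers-Stormer inequality in a C*-algebra with trace.
-/
namespace MP7e.PS2

open scoped InnerProductSpace
open ContinuousLinearMap

noncomputable section

/-- an odd continuous function with `|f| ≤ 1` and `t f(t) ≥ |t| - δ` -/
def fd (δ t : ℝ) : ℝ := t / (|t| + δ)

theorem fd_cont {δ : ℝ} (hδ : 0 < δ) : Continuous (fd δ) := by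
  unfold fd
  refine Continuous.div continuous_id (by fun_prop) ?_
  intro t
  have := abs_nonneg t
  positivity

theorem fd_abs_le {δ : ℝ} (hδ : 0 < δ) (t : ℝ) : |fd δ t| ≤ 1 := by
  unfold fd
  have h0 := abs_nonneg t
  rw [abs_div, abs_of_pos (show 0 < |t| + δ by positivity), div_le_one (by positivity)]
  linarith

theorem fd_mul {δ : ℝ} (hδ : 0 < δ) (t : ℝ) : |t| - δ ≤ fd δ t * t := by
  unfold fd
  have h0 := abs_nonneg t
  rw [div_mul_eq_mul_div, le_div_iff₀ (by positivity)]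
  have h1 : |t| * |t| = t * t := abs_mul_abs_self t
  nlinarith

variable {K : Type*} [NormedAddCommGroup K] [InnerProductSpace ℂ K] [CompleteSpace K]

/-- the approximate sign of a selfadjoint operator -/
theorem exists_sign (e : K →L[ℂ] K) (he : IsSelfAdjoint e) {δ : ℝ} (hδ : 0 < δ) :
    ∃ s : K →L[ℂ] K, s = cfc (fd δ) e ∧ IsSelfAdjoint s ∧ ‖s‖ ≤ 1 ∧ s * e = e * s ∧
      (s * e - e + algebraMap ℝ (K →L[ℂ] K) δ).IsPositive ∧
      (s * e + e + algebraMap ℝ (K →L[ℂ] K) δ).IsPositive := by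
  have hc : ∀ S : Set ℝ, ContinuousOn (fd δ) S := fun S => (fd_cont hδ).continuousOn
  have hmul : cfc (fd δ) e * e = cfc (fun t => fd δ t * t) e := by
    rw [cfc_mul (fd δ) (fun t => t) e (hc _) continuousOn_id, cfc_id' ℝ e]
  have hcm : ContinuousOn (fun t => fd δ t * t) (spectrum ℝ e) :=
    (hc _).mul continuousOn_id
  refine ⟨cfc (fd δ) e, rfl, cfc_predicate _ _, ?_, ?_, ?_, ?_⟩
  · apply norm_cfc_le (by norm_num)
    intro x _
    exact fd_abs_le hδ x
  · have h := (cfc_commute_cfc (fd δ) (fun x => x) e).eq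
    rw [cfc_id' ℝ e] at h
    exact h
  · rw [← nonneg_iff_isPositive, hmul]
    have h1 : cfc (fun t => fd δ t * t) e - e + algebraMap ℝ (K →L[ℂ] K) δ =
        cfc (fun t => fd δ t * t - t + δ) e := by
      rw [cfc_add_const δ (fun t => fd δ t * t - t) e (hcm.sub continuousOn_id),
        cfc_sub (fun t => fd δ t * t) (fun t => t) e hcm continuousOn_id, cfc_id' ℝ e]
    rw [h1]
    apply cfc_nonneg
    intro x _
    have := fd_mul hδ x
    have := le_abs_self x
    linarith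
  · rw [← nonneg_iff_isPositive, hmul]
    have h1 : cfc (fun t => fd δ t * t) e + e + algebraMap ℝ (K →L[ℂ] K) δ =
        cfc (fun t => fd δ t * t + t + δ) e := by
      rw [cfc_add_const δ (fun t => fd δ t * t + t) e (hcm.add continuousOn_id),
        cfc_add e (fun t => fd δ t * t) (fun t => t) hcm continuousOn_id, cfc_id' ℝ e]
    rw [h1]
    apply cfc_nonneg
    intro x _
    have := fd_mul hδ x
    have := neg_abs_le x
    linarith

/-- positivity of `x ↦ τ(c x)` -/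
theorem tau_mul_nonneg (B : StarSubalgebra ℂ (K →L[ℂ] K)) (Ω : K)
    (hB : IsClosed (B : Set (K →L[ℂ] K)))
    (htr : ∀ x ∈ B, ∀ y ∈ B, ⟪Ω, (x * y) Ω⟫_ℂ = ⟪Ω, (y * x) Ω⟫_ℂ)
    {c p : K →L[ℂ] K} (hc : c ∈ B) (hp : p ∈ B) (hcp : c.IsPositive) (hpp : p.IsPositive) :
    0 ≤ (⟪Ω, (c * p) Ω⟫_ℂ).re := by
  have hc0 : 0 ≤ c := (nonneg_iff_isPositive c).2 hcp
  have hcs : IsSelfAdjoint c := hcp.isSelfAdjoint
  set r := cfc Real.sqrt c with hr
  have hrs : IsSelfAdjoint r := cfc_predicate _ _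
  have hrr : r * r = c := by
    rw [hr, ← cfc_mul Real.sqrt Real.sqrt c (by fun_prop) (by fun_prop)]
    conv_rhs => rw [← cfc_id' ℝ c]
    apply cfc_congr
    intro x hx
    exact Real.mul_self_sqrt (spectrum_nonneg_of_nonneg hc0 hx)
  have hrB : r ∈ B := by
    have : IsClosed (B : Set (K →L[ℂ] K)) := hB
    exact cfc_mem (𝕜 := ℝ) (𝕜' := ℂ) (s := B) Real.sqrt hc
  have h1 : ⟪Ω, (c * p) Ω⟫_ℂ = ⟪r Ω, p (r Ω)⟫_ℂ := by
    rw [← hrr, mul_assoc, htr r hrB (r * p) (B.mul_mem hrB hp), mul_assoc]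
    show ⟪Ω, r (p (r Ω))⟫_ℂ = _
    have h2 : ⟪r Ω, p (r Ω)⟫_ℂ = ⟪Ω, (adjoint r) (p (r Ω))⟫_ℂ :=
      (adjoint_inner_right r _ _).symm
    rw [h2]
    rw [IsSelfAdjoint.adjoint_eq hrs]
  rw [h1]
  exact hpp.re_inner_nonneg_right _

theorem main (B : StarSubalgebra ℂ (K →L[ℂ] K)) (Ω : K)
    (hB : IsClosed (B : Set (K →L[ℂ] K)))
    (htr : ∀ x ∈ B, ∀ y ∈ B, ⟪Ω, (x * y) Ω⟫_ℂ = ⟪Ω, (y * x) Ω⟫_ℂ)
    (c : K →L[ℂ] K) (hc : c ∈ B) (d : K →L[ℂ] K) (hd : d ∈ B) (hcp : c.IsPositive)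
    (hdp : d.IsPositive) (η : ℝ) (hη : 0 ≤ η)
    (h : ∀ z ∈ B, ‖⟪Ω, (z * (c * c)) Ω⟫_ℂ - ⟪Ω, (z * (d * d)) Ω⟫_ℂ‖ ≤ η * ‖z‖) :
    ‖c Ω - d Ω‖ ^ 2 ≤ η := by
  have hcs : IsSelfAdjoint c := hcp.isSelfAdjoint
  have hds : IsSelfAdjoint d := hdp.isSelfAdjoint
  set e := c - d with he
  have hes : IsSelfAdjoint e := hcs.sub hds
  have heB : e ∈ B := B.sub_mem hc hd
  set τ : (K →L[ℂ] K) →ₗ[ℂ] ℂ :=
    { toFun := fun x => ⟪Ω, x Ω⟫_ℂ
      map_add' := fun x y => by rw [add_apply, inner_add_right]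
      map_smul' := fun a x => by rw [smul_apply, inner_smul_right]; rfl } with hτ
  have hτa : ∀ x, τ x = ⟪Ω, x Ω⟫_ℂ := fun x => rfl
  have hτc : ∀ x ∈ B, ∀ y ∈ B, τ (x * y) = τ (y * x) := htr
  -- the norm as a trace
  have h1 : ‖c Ω - d Ω‖ ^ 2 = (τ (e * e)).re := by
    have h2 : τ (e * e) = ⟪e Ω, e Ω⟫_ℂ := by
      show ⟪Ω, e (e Ω)⟫_ℂ = _
      have h3 : ⟪e Ω, e Ω⟫_ℂ = ⟪Ω, (adjoint e) (e Ω)⟫_ℂ := (adjoint_inner_right e _ _).symm
      rw [h3, IsSelfAdjoint.adjoint_eq hes]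
    rw [h2, inner_self_eq_norm_sq_to_K]
    have : c Ω - d Ω = e Ω := by rw [he, sub_apply]
    rw [this]
    norm_cast
  apply le_of_forall_pos_le_add
  intro ε hε
  set C := |(τ (c + d)).re| with hC
  set δ := ε / (C + 1) with hδ
  have hCn : 0 ≤ C := abs_nonneg _
  have hδ0 : 0 < δ := by positivity
  obtain ⟨s, hs, hss, hs1, hse, hp1, hp2⟩ := exists_sign e hes hδ0
  have hsB : s ∈ B := by
    have : IsClosed (B : Set (K →L[ℂ] K)) := hB
    rw [hs]
    exact cfc_mem (𝕜 := ℝ) (𝕜' := ℂ) (s := B) (fd δ) heB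
  have haB : algebraMap ℝ (K →L[ℂ] K) δ ∈ B := by
    have : algebraMap ℝ (K →L[ℂ] K) δ = algebraMap ℂ (K →L[ℂ] K) (δ : ℂ) := by
      rw [Algebra.algebraMap_eq_smul_one, Algebra.algebraMap_eq_smul_one]
      ext x
      simp
    rw [this]
    exact B.algebraMap_mem _
  have hseB : s * e ∈ B := B.mul_mem hsB heB
  have k1 := tau_mul_nonneg B Ω hB htr hc (B.add_mem (B.sub_mem hseB heB) haB) hcp hp1
  have k2 := tau_mul_nonneg B Ω hB htr hd (B.add_mem (B.add_mem hseB heB) haB) hdp hp2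
  rw [← hτa] at k1 k2
  have haδ : ∀ x : K →L[ℂ] K, x * algebraMap ℝ (K →L[ℂ] K) δ = (δ : ℂ) • x := by
    intro x
    rw [Algebra.algebraMap_eq_smul_one]
    ext y
    simp
  rw [mul_add, mul_sub, map_add, map_sub, haδ, map_smul, Complex.add_re, Complex.sub_re,
    smul_eq_mul, Complex.re_ofReal_mul] at k1
  rw [mul_add, mul_add, map_add, map_add, haδ, map_smul, Complex.add_re, Complex.add_re,
    smul_eq_mul, Complex.re_ofReal_mul] at k2
  -- the difference of squares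
  have k3 : τ (s * (c * c)) - τ (s * (d * d)) = τ (c * (s * e)) + τ (d * (s * e)) := by
    have e1 : (2 : ℂ) • (s * (c * c) - s * (d * d)) = s * ((c + d) * e) + s * (e * (c + d)) := by
      rw [he, two_smul]
      noncomm_ring
    have e2 : τ (s * ((c + d) * e)) = τ (c * (s * e)) + τ (d * (s * e)) := by
      rw [hτc s hsB _ (B.mul_mem (B.add_mem hc hd) heB), mul_assoc, ← hse, add_mul, map_add]
    have e3 : τ (s * (e * (c + d))) = τ (c * (s * e)) + τ (d * (s * e)) := by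
      rw [← mul_assoc, hτc _ hseB _ (B.add_mem hc hd), add_mul, map_add]
    have e4 := congrArg τ e1
    rw [map_smul, map_sub, map_add, e2, e3, smul_eq_mul] at e4
    linear_combination e4 / 2
  have k4 := h s hsB
  rw [← hτa, ← hτa, k3] at k4
  have k5 : (τ (c * (s * e)) + τ (d * (s * e))).re ≤ η := by
    refine (Complex.re_le_norm _).trans (k4.trans ?_)
    calc η * ‖s‖ ≤ η * 1 := by gcongr
      _ = η := mul_one _
  rw [Complex.add_re] at k5
  have k6 : (τ (e * e)).re = (τ (c * e)).re - (τ (d * e)).re := by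
    conv_lhs => rw [he, ← he]
    rw [← Complex.sub_re, ← map_sub, ← sub_mul]
  have k7 : (τ (c + d)).re ≤ C := le_abs_self _
  rw [map_add, Complex.add_re] at k7
  have k8 : δ * ((τ c).re + (τ d).re) ≤ ε := by
    calc δ * ((τ c).re + (τ d).re) ≤ δ * (C + 1) :=
          mul_le_mul_of_nonneg_left (by linarith) hδ0.le
      _ = ε := by rw [hδ]; field_simp
  rw [h1, k6]
  nlinarith

end

end MP7e.PS2

open scoped InnerProductSpace in
/-- module PS2 (with the hypothesis `0 ≤ η`, which is automatic if `K` is nontrivial) -/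
theorem MP7e.specPS2' : ∀ (K : Type) [NormedAddCommGroup K] [InnerProductSpace ℂ K]
    [CompleteSpace K] (B : StarSubalgebra ℂ (K →L[ℂ] K)) (Ω : K),
    IsClosed (B : Set (K →L[ℂ] K)) →
    (∀ x ∈ B, ∀ y ∈ B, ⟪Ω, (x * y) Ω⟫_ℂ = ⟪Ω, (y * x) Ω⟫_ℂ) →
    ∀ c ∈ B, ∀ d ∈ B, c.IsPositive → d.IsPositive → ∀ η : ℝ, 0 ≤ η →
    (∀ z ∈ B, ‖⟪Ω, (z * (c * c)) Ω⟫_ℂ - ⟪Ω, (z * (d * d)) Ω⟫_ℂ‖ ≤ η * ‖z‖) →
    ‖c Ω - d Ω‖ ^ 2 ≤ η :=
  fun _ _ _ _ B Ω hB htr c hc d hd hcp hdp η hη h =>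
    MP7e.PS2.main B Ω hB htr c hc d hd hcp hdp η hη h
end

section
/-!
Module INV: a functional which is almost a state and almost `1` at a unitary is almost invariant.
-/
namespace MP7e

open scoped InnerProductSpace TensorProduct ENNReal
open Filter Topology Classical

noncomputable section

namespace InvM

variable {K : Type*} [NormedAddCommGroup K] [InnerProductSpace ℂ K] [CompleteSpace K]

theorem unitary_norm {W : K →L[ℂ] K} (hW : W ∈ unitary (K →L[ℂ] K)) (ξ : K) : ‖W ξ‖ = ‖ξ‖ := by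
  have h1 : star W * W = 1 := (Unitary.mem_iff.1 hW).1
  have h2 : ⟪W ξ, W ξ⟫_ℂ = ⟪ξ, ξ⟫_ℂ := by
    rw [← ContinuousLinearMap.adjoint_inner_right, ← ContinuousLinearMap.star_eq_adjoint]
    have h3 : (star W) (W ξ) = (star W * W) ξ := rfl
    rw [h3, h1]
    rfl
  rw [inner_self_eq_norm_sq_to_K, inner_self_eq_norm_sq_to_K] at h2
  have h4 : ‖W ξ‖ ^ 2 = ‖ξ‖ ^ 2 := by exact_mod_cast h2
  exact (sq_eq_sq₀ (norm_nonneg _) (norm_nonneg _)).1 h4

theorem split_norm {W : K →L[ℂ] K} (hW : W ∈ unitary (K →L[ℂ] K)) (ξ : K) :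
    ‖(1 / 2 : ℂ) • (ξ + W ξ)‖ ^ 2 + ‖(1 / 2 : ℂ) • (ξ - W ξ)‖ ^ 2 = ‖ξ‖ ^ 2 := by
  have h1 := parallelogram_law_with_norm ℂ ξ (W ξ)
  rw [unitary_norm hW] at h1
  rw [norm_smul, norm_smul]
  have h2 : ‖(1 / 2 : ℂ)‖ = 1 / 2 := by simp
  rw [h2]
  nlinarith

theorem key {W : K →L[ℂ] K} (hW : W ∈ unitary (K →L[ℂ] K)) (a : ℝ) (b : ℂ) (z : K →L[ℂ] K)
    (ha : 0 ≤ a) (hz : ‖z‖ ≤ 1) (h : a ^ 2 + ‖b‖ ^ 2 ≤ 1) :
    ‖(a : ℂ) • ((1 / 2 : ℂ) • (1 + W)) + b • (z * ((1 / 2 : ℂ) • (1 - W)))‖ ≤ 1 := by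
  apply ContinuousLinearMap.opNorm_le_bound _ zero_le_one
  intro ξ
  rw [one_mul]
  have e : ((a : ℂ) • ((1 / 2 : ℂ) • (1 + W)) + b • (z * ((1 / 2 : ℂ) • (1 - W)))) ξ =
      (a : ℂ) • ((1 / 2 : ℂ) • (ξ + W ξ)) + b • z ((1 / 2 : ℂ) • (ξ - W ξ)) := rfl
  rw [e]
  have h1 := split_norm hW ξ
  set p := ‖(1 / 2 : ℂ) • (ξ + W ξ)‖ with hp
  set q := ‖(1 / 2 : ℂ) • (ξ - W ξ)‖ with hq
  have hp0 : 0 ≤ p := norm_nonneg _
  have hq0 : 0 ≤ q := norm_nonneg _
  have h2 : ‖(a : ℂ) • ((1 / 2 : ℂ) • (ξ + W ξ))‖ = a * p := by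
    rw [norm_smul, Complex.norm_real, Real.norm_of_nonneg ha]
  have h3 : ‖b • z ((1 / 2 : ℂ) • (ξ - W ξ))‖ ≤ ‖b‖ * q := by
    rw [norm_smul]
    refine mul_le_mul_of_nonneg_left ?_ (norm_nonneg _)
    have h4 := z.le_opNorm ((1 / 2 : ℂ) • (ξ - W ξ))
    calc _ ≤ ‖z‖ * q := h4
      _ ≤ 1 * q := mul_le_mul_of_nonneg_right hz hq0
      _ = q := one_mul _
  have h5 := norm_add_le ((a : ℂ) • ((1 / 2 : ℂ) • (ξ + W ξ))) (b • z ((1 / 2 : ℂ) • (ξ - W ξ)))
  rw [h2] at h5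
  have h6 : (a * p + ‖b‖ * q) ^ 2 ≤ ‖ξ‖ ^ 2 := by
    have h7 : (a * p + ‖b‖ * q) ^ 2 ≤ (a ^ 2 + ‖b‖ ^ 2) * (p ^ 2 + q ^ 2) := by
      nlinarith [sq_nonneg (a * q - ‖b‖ * p)]
    calc (a * p + ‖b‖ * q) ^ 2 ≤ (a ^ 2 + ‖b‖ ^ 2) * (p ^ 2 + q ^ 2) := h7
      _ ≤ 1 * (p ^ 2 + q ^ 2) := mul_le_mul_of_nonneg_right h (by positivity)
      _ = ‖ξ‖ ^ 2 := by rw [one_mul, h1]
  have h8 : a * p + ‖b‖ * q ≤ ‖ξ‖ :=
    (sq_le_sq₀ (by positivity) (norm_nonneg _)).1 h6
  linarith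

theorem crit {V : Type*} [AddCommGroup V] [Module ℂ V] (D : V →ₗ[ℂ] ℂ) (ε : ℝ) (h0 : 0 < ε)
    (h1 : ε ≤ 1) (c y : V) (hc : ‖D c - 1‖ ≤ ε)
    (h : ∀ b : ℂ, ‖b‖ = Real.sqrt ε → ‖D (((1 - ε : ℝ) : ℂ) • c + b • y)‖ ≤ 1 + ε) :
    ‖D y‖ ≤ 3 * Real.sqrt ε := by
  obtain ⟨u, hu1, hu2⟩ := Complex.exists_norm_eq_mul_self (D y)
  have hs : 0 < Real.sqrt ε := Real.sqrt_pos.2 h0
  have hss : Real.sqrt ε * Real.sqrt ε = ε := Real.mul_self_sqrt h0.le
  have h2 := h ((Real.sqrt ε : ℝ) * u) (by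
    rw [norm_mul, hu1, mul_one, Complex.norm_real, Real.norm_of_nonneg hs.le])
  rw [map_add, map_smul, map_smul, smul_eq_mul, smul_eq_mul, mul_assoc, ← hu2] at h2
  have h3 := (Complex.re_le_norm _).trans h2
  have h4 : (((1 - ε : ℝ) : ℂ) * D c + ((Real.sqrt ε : ℝ) : ℂ) * ((‖D y‖ : ℝ) : ℂ)).re =
      (1 - ε) * (D c).re + Real.sqrt ε * ‖D y‖ := by
    rw [Complex.add_re, Complex.re_ofReal_mul, Complex.re_ofReal_mul, Complex.ofReal_re]
  rw [h4] at h3
  have h5 : 1 - ε ≤ (D c).re := by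
    have h6 := (abs_le.1 ((Complex.abs_re_le_norm _).trans hc)).1
    rw [Complex.sub_re, Complex.one_re] at h6
    linarith
  have h7 : (1 - ε) * (1 - ε) ≤ (1 - ε) * (D c).re :=
    mul_le_mul_of_nonneg_left h5 (by linarith)
  have h8 : Real.sqrt ε * ‖D y‖ ≤ Real.sqrt ε * (3 * Real.sqrt ε) := by nlinarith
  exact le_of_mul_le_mul_left h8 hs

end InvM

open InvM

theorem specInv : SpecInv := by
  intro K _ _ _ B D ε h0 h1 hD hD1 W hWB hW hDW
  have hW' : star W ∈ unitary (K →L[ℂ] K) := Unitary.star_mem hW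
  have hs : 0 < Real.sqrt ε := Real.sqrt_pos.2 h0
  have hss : Real.sqrt ε ^ 2 = ε := Real.sq_sqrt h0.le
  have hc : ‖D ((1 / 2 : ℂ) • (1 + W)) - 1‖ ≤ ε := by
    rw [map_smul, map_add, smul_eq_mul]
    have e : (1 / 2 : ℂ) * (D 1 + D W) - 1 = (1 / 2 : ℂ) * ((D 1 - 1) + (D W - 1)) := by ring
    rw [e, norm_mul]
    have h2 : ‖(1 / 2 : ℂ)‖ = 1 / 2 := by simp
    rw [h2]
    have h3 := norm_add_le (D 1 - 1) (D W - 1)
    linarith
  have hcB : (1 / 2 : ℂ) • (1 + W) ∈ B := B.smul_mem (add_mem (one_mem B) hWB) _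
  have hdB : (1 / 2 : ℂ) • (1 - W) ∈ B := B.smul_mem (sub_mem (one_mem B) hWB) _
  have hab : ∀ b : ℂ, ‖b‖ = Real.sqrt ε → (1 - ε) ^ 2 + ‖b‖ ^ 2 ≤ 1 := by
    intro b hb
    rw [hb, hss]
    nlinarith
  -- the unit ball
  have hR : ∀ z ∈ B, ‖z‖ ≤ 1 → ‖D (z * ((1 / 2 : ℂ) • (1 - W)))‖ ≤ 3 * Real.sqrt ε := by
    intro z hz hz1
    refine crit D ε h0 h1 _ _ hc ?_
    intro b hb
    have hk := key hW (1 - ε) b z (by linarith) hz1 (hab b hb)
    have hm : (((1 - ε : ℝ) : ℂ) • ((1 / 2 : ℂ) • (1 + W)) +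
        b • (z * ((1 / 2 : ℂ) • (1 - W)))) ∈ B :=
      add_mem (B.smul_mem hcB _) (B.smul_mem (mul_mem hz hdB) _)
    calc _ ≤ (1 + ε) * ‖(((1 - ε : ℝ) : ℂ) • ((1 / 2 : ℂ) • (1 + W)) +
        b • (z * ((1 / 2 : ℂ) • (1 - W))))‖ := hD _ hm
      _ ≤ (1 + ε) * 1 := mul_le_mul_of_nonneg_left hk (by linarith)
      _ = 1 + ε := mul_one _
  have hL : ∀ z ∈ B, ‖z‖ ≤ 1 → ‖D (((1 / 2 : ℂ) • (1 - W)) * z)‖ ≤ 3 * Real.sqrt ε := by
    intro z hz hz1
    refine crit D ε h0 h1 _ _ hc ?_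
    intro b hb
    have hk := key hW' (1 - ε) (star b) (star z) (by linarith) (by rw [norm_star]; exact hz1)
      (by rw [norm_star]; exact hab b hb)
    have hk2 : ‖(((1 - ε : ℝ) : ℂ) • ((1 / 2 : ℂ) • (1 + W)) +
        b • (((1 / 2 : ℂ) • (1 - W)) * z))‖ ≤ 1 := by
      have e1 : star (((1 - ε : ℝ) : ℂ)) = ((1 - ε : ℝ) : ℂ) := Complex.conj_ofReal _
      have e2 : star (1 / 2 : ℂ) = 1 / 2 := by simp
      have e3 : star (((1 - ε : ℝ) : ℂ) • ((1 / 2 : ℂ) • (1 + W)) +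
          b • (((1 / 2 : ℂ) • (1 - W)) * z)) =
          ((1 - ε : ℝ) : ℂ) • ((1 / 2 : ℂ) • (1 + star W)) +
          star b • (star z * ((1 / 2 : ℂ) • (1 - star W))) := by
        rw [star_add, star_smul, star_smul, star_smul, star_mul, star_smul, star_add, star_sub,
          star_one, e1, e2]
      rw [← norm_star, e3]
      exact hk
    have hm : (((1 - ε : ℝ) : ℂ) • ((1 / 2 : ℂ) • (1 + W)) +
        b • (((1 / 2 : ℂ) • (1 - W)) * z)) ∈ B :=
      add_mem (B.smul_mem hcB _) (B.smul_mem (mul_mem hdB hz) _)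
    calc _ ≤ (1 + ε) * ‖(((1 - ε : ℝ) : ℂ) • ((1 / 2 : ℂ) • (1 + W)) +
        b • (((1 / 2 : ℂ) • (1 - W)) * z))‖ := hD _ hm
      _ ≤ (1 + ε) * 1 := mul_le_mul_of_nonneg_left hk2 (by linarith)
      _ = 1 + ε := mul_one _
  intro z hz
  by_cases hz0 : z = 0
  · subst hz0
    simp
  have hn : 0 < ‖z‖ := norm_pos_iff.2 hz0
  have hcn : ((‖z‖ : ℝ) : ℂ) ≠ 0 := by exact_mod_cast hn.ne'
  set z' : K →L[ℂ] K := ((‖z‖ : ℝ) : ℂ)⁻¹ • z with hz'
  have hz'B : z' ∈ B := B.smul_mem hz _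
  have hz'1 : ‖z'‖ ≤ 1 := by
    rw [hz', norm_smul, norm_inv, Complex.norm_real, norm_norm, inv_mul_cancel₀ hn.ne']
  have ez : z = ((‖z‖ : ℝ) : ℂ) • z' := by
    rw [hz', smul_smul, mul_inv_cancel₀ hcn, one_smul]
  have e1 : D (W * z) - D z =
      -(2 * ((‖z‖ : ℝ) : ℂ)) * D (((1 / 2 : ℂ) • (1 - W)) * z') := by
    rw [smul_mul_assoc, map_smul, sub_mul, one_mul, map_sub, smul_eq_mul]
    conv_lhs => rw [ez]
    rw [mul_smul_comm, map_smul, map_smul, smul_eq_mul, smul_eq_mul]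
    ring
  have e2 : D (z * W) - D z =
      -(2 * ((‖z‖ : ℝ) : ℂ)) * D (z' * ((1 / 2 : ℂ) • (1 - W))) := by
    rw [mul_smul_comm, map_smul, mul_sub, mul_one, map_sub, smul_eq_mul]
    conv_lhs => rw [ez]
    rw [smul_mul_assoc, map_smul, map_smul, smul_eq_mul, smul_eq_mul]
    ring
  have hnorm : ‖-(2 * ((‖z‖ : ℝ) : ℂ))‖ = 2 * ‖z‖ := by
    rw [norm_neg, norm_mul, Complex.norm_real, norm_norm]
    simp
  constructor
  · rw [e1, norm_mul, hnorm]
    have h2 := hL z' hz'B hz'1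
    have h3 : 2 * ‖z‖ * ‖D (((1 / 2 : ℂ) • (1 - W)) * z')‖ ≤ 2 * ‖z‖ * (3 * Real.sqrt ε) :=
      mul_le_mul_of_nonneg_left h2 (by positivity)
    have h4 : 0 ≤ Real.sqrt ε * ‖z‖ := by positivity
    nlinarith
  · rw [e2, norm_mul, hnorm]
    have h2 := hR z' hz'B hz'1
    have h3 : 2 * ‖z‖ * ‖D (z' * ((1 / 2 : ℂ) • (1 - W)))‖ ≤ 2 * ‖z‖ * (3 * Real.sqrt ε) :=
      mul_le_mul_of_nonneg_left h2 (by positivity)
    have h4 : 0 ≤ Real.sqrt ε * ‖z‖ := by positivity
    nlinarith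

end

end MP7e
end
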