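import Pool.Agent.Lib.MP_7e9852_an.Spec2
import Pool.Agent.Lib.MP_7e9852_an.Inv

section
/-!
ESC: escape of mass.
-/
namespace MP7e

open scoped InnerProductSpace TensorProduct ENNReal
open Filter Topology Classical

noncomputable section

namespace Esc

variable {Γ : Type} [Group Γ] {X Y : Type*}

/-- the rank one projection on the basis vector `g` -/
def Eg (g : X) : Op X := (innerSL ℂ (dl g)).smulRight (dl g)

theorem Eg_apply (g : X) (f : L2 X) : Eg g f = (f : X → ℂ) g • dl g := by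
  unfold Eg
  rw [ContinuousLinearMap.smulRight_apply, innerSL_apply_apply, inner_dl_left]

theorem op2_coeff {X Y X' Y' : Type*} (T : L2 X →L[ℂ] L2 X') (S : L2 Y →L[ℂ] L2 Y')
    (ξ : L2 (X × Y)) (x : X') (y : Y') :
    (op2 T S ξ : X' × Y' → ℂ) (x, y) =
      ⟪tens (ContinuousLinearMap.adjoint T (dl x)) (ContinuousLinearMap.adjoint S (dl y)), ξ⟫_ℂ := by
  rw [← inner_dl_left, ← ContinuousLinearMap.adjoint_inner_left, op2_adjoint, dl_prod, op2_tens]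

theorem Eg_adj (g : X) : ContinuousLinearMap.adjoint (Eg g) = Eg g := by
  apply op_ext
  intro x y
  rw [adjoint_dl, Eg_apply, Eg_apply, lp.coeFn_smul, lp.coeFn_smul, Pi.smul_apply, Pi.smul_apply,
    dl_apply, dl_apply, dl_apply, dl_apply]
  by_cases h1 : g = x <;> by_cases h2 : g = y <;> simp [h1, h2, eq_comm]

theorem Eg_star (g : X) : star (Eg g) = Eg g := Eg_adj g

theorem opL_Eg_coeff (g : X) (ξ : L2 (X × Y)) (x : X) (y : Y) :
    (opL X Y (Eg g) ξ : X × Y → ℂ) (x, y) = if x = g then (ξ : X × Y → ℂ) (g, y) else 0 := by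
  rw [opL_eq, op2_coeff, Eg_adj, Eg_apply, dl_apply]
  have h1 : ContinuousLinearMap.adjoint (1 : Op Y) (dl y) = dl y := by
    rw [← ContinuousLinearMap.star_eq_adjoint, star_one]; rfl
  rw [h1]
  by_cases h : x = g
  · subst h
    rw [if_pos rfl, if_pos rfl, one_smul, ← dl_prod, inner_dl_left]
  · have h2 : ¬ g = x := fun h' => h h'.symm
    rw [if_neg h2, if_neg h, tens_smul_left, zero_smul, inner_zero_left]

/-- the mass over `g` -/
theorem mass_eq (g : X) (ξ : L2 (X × Y)) :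
    ∑' z : Y, ‖(ξ : X × Y → ℂ) (g, z)‖ ^ 2 = ‖opL X Y (Eg g) ξ‖ ^ 2 := by
  rw [normSq_eq_tsum]
  have hs := summable_normSq (opL X Y (Eg g) ξ)
  rw [hs.tsum_prod, tsum_eq_single g]
  · apply tsum_congr
    intro z
    rw [opL_Eg_coeff, if_pos rfl]
  · intro x hx
    have h : ∀ z : Y, ‖(opL X Y (Eg g) ξ : X × Y → ℂ) (x, z)‖ ^ 2 = 0 := by
      intro z
      rw [opL_Eg_coeff, if_neg hx]
      simp
    simp only [h, tsum_zero]

/-- the square norm of a sum of orthogonal vectors -/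
theorem norm_sq_sum_orth {K : Type*} [NormedAddCommGroup K] [InnerProductSpace ℂ K] {m : ℕ}
    (v : Fin m → K) (h : ∀ i j, i ≠ j → ⟪v i, v j⟫_ℂ = 0) :
    ‖∑ i, v i‖ ^ 2 = ∑ i, ‖v i‖ ^ 2 := by
  have h1 : ⟪∑ i, v i, ∑ i, v i⟫_ℂ = ∑ i, ⟪v i, v i⟫_ℂ := by
    rw [sum_inner]
    apply Finset.sum_congr rfl
    intro i _
    rw [inner_sum, Finset.sum_eq_single i]
    · intro j _ hj
      exact h i j (Ne.symm hj)
    · intro h'; exact absurd (Finset.mem_univ i) h'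
  have h2 : ((‖∑ i, v i‖ ^ 2 : ℝ) : ℂ) = ((∑ i, ‖v i‖ ^ 2 : ℝ) : ℂ) := by
    push_cast
    have h3 := inner_self_eq_norm_sq_to_K (𝕜 := ℂ) (∑ i, v i)
    rw [h1] at h3
    rw [← RCLike.ofReal_eq_complex_ofReal, ← h3]
    apply Finset.sum_congr rfl
    intro i _
    rw [inner_self_eq_norm_sq_to_K]
  exact_mod_cast h2

theorem norm_Eg_mul (g : Γ) {p : Op Γ} (hp : p ∈ LG Γ) (hs : star p = p) :
    ‖Eg g * p‖ ≤ ‖p (dl 1)‖ := by
  apply ContinuousLinearMap.opNorm_le_bound _ (norm_nonneg _)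
  intro f
  rw [mulA, Eg_apply, norm_smul, norm_dl, mul_one, ← inner_dl_left]
  have h1 : ⟪dl g, p f⟫_ℂ = ⟪p (dl g), f⟫_ℂ := by
    conv_rhs => rw [← hs]
    rw [ContinuousLinearMap.star_eq_adjoint, ContinuousLinearMap.adjoint_inner_left]
  rw [h1]
  refine (norm_inner_le_norm _ _).trans ?_
  rw [LG_norm_dl hp]

theorem proj_step {p : Op Γ} (hs : star p = p) (hp : p * p = p) (ξ : L2 (Γ × Γ)) :
    ‖opL Γ Γ p ξ - opL Γ Γ p (opR Γ Γ (cjOp p) ξ)‖ ≤
      ‖p‖ * ‖op2 (1 - (2 : ℂ) • p) (cjOp (1 - (2 : ℂ) • p)) ξ - ξ‖ := by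
  have h1 : cjOp (1 - (2 : ℂ) • p) = 1 - (2 : ℂ) • cjOp p := by
    rw [cjOp_sub, cjOp_one, cjOp_smul]
    congr 2
    simp
  have h2 : op2 (1 - (2 : ℂ) • p) (1 - (2 : ℂ) • cjOp p) =
      (1 - (2 : ℂ) • opL Γ Γ p) * (1 - (2 : ℂ) • opR Γ Γ (cjOp p)) := by
    rw [← opL_mul_opR, map_sub, map_sub, map_one, map_one, map_smul, map_smul]
  have h3 : opL Γ Γ p * opL Γ Γ p = opL Γ Γ p := by rw [← map_mul, hp]
  have h4 : opL Γ Γ p * (op2 (1 - (2 : ℂ) • p) (cjOp (1 - (2 : ℂ) • p)) - 1) =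
      -((2 : ℂ) • (opL Γ Γ p - opL Γ Γ p * opR Γ Γ (cjOp p))) := by
    rw [h1, h2]
    have h5 : opL Γ Γ p * ((1 - (2 : ℂ) • opL Γ Γ p) * (1 - (2 : ℂ) • opR Γ Γ (cjOp p)) - 1) =
      (opL Γ Γ p - (2 : ℂ) • (opL Γ Γ p * opL Γ Γ p)) * (1 - (2 : ℂ) • opR Γ Γ (cjOp p)) -
        opL Γ Γ p := by
      rw [mul_sub, mul_one, ← mul_assoc]
      congr 2
      rw [mul_sub, mul_one, mul_smul_comm]
    rw [h5, h3]
    have h6 : opL Γ Γ p - (2 : ℂ) • opL Γ Γ p = -opL Γ Γ p := by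
      rw [two_smul]; abel
    rw [h6, mul_sub, mul_one, mul_smul_comm, neg_mul, smul_sub, two_smul, two_smul]
    module
  have h7 := congrArg (fun T : Op (Γ × Γ) => T ξ) h4
  simp only [mulA, ContinuousLinearMap.sub_apply, ContinuousLinearMap.one_apply,
    ContinuousLinearMap.neg_apply, ContinuousLinearMap.smul_apply] at h7
  have h8 : (2 : ℝ) * ‖opL Γ Γ p ξ - opL Γ Γ p (opR Γ Γ (cjOp p) ξ)‖ ≤
      ‖p‖ * ‖op2 (1 - (2 : ℂ) • p) (cjOp (1 - (2 : ℂ) • p)) ξ - ξ‖ := by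
    have h9 : ‖-((2 : ℂ) • (opL Γ Γ p ξ - opL Γ Γ p (opR Γ Γ (cjOp p) ξ)))‖ =
        2 * ‖opL Γ Γ p ξ - opL Γ Γ p (opR Γ Γ (cjOp p) ξ)‖ := by
      rw [norm_neg, norm_smul]; simp
    rw [← h9, ← h7]
    exact (ContinuousLinearMap.le_opNorm _ _).trans
      (mul_le_mul_of_nonneg_right (norm_opL_le p) (norm_nonneg _))
  have h10 := norm_nonneg (opL Γ Γ p ξ - opL Γ Γ p (opR Γ Γ (cjOp p) ξ))
  linarith

theorem unitary_refl {p : Op Γ} (hs : star p = p) (hp : p * p = p) :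
    (1 - (2 : ℂ) • p) ∈ unitary (Op Γ) := by
  have h1 : star (1 - (2 : ℂ) • p) = 1 - (2 : ℂ) • p := by
    rw [star_sub, star_one, star_smul, hs]
    congr 2
    simp
  have h2 : (1 - (2 : ℂ) • p) * (1 - (2 : ℂ) • p) = 1 := by
    rw [sub_mul, one_mul, mul_sub, mul_one, smul_mul_smul_comm, hp]
    module
  rw [Unitary.mem_iff, h1]
  exact ⟨h2, h2⟩

end Esc

open Esc in
theorem specEsc (hD : SpecDiff) : SpecEsc := by
  intro Γ _ A hA hAd ξ hξ hinv g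
  have hmain : ∀ ε : ℝ, 0 < ε → ∃ r : ℕ → ℝ, Tendsto r atTop (𝓝 0) ∧
      ∀ n, ‖opL Γ Γ (Eg g) (ξ n)‖ ≤ r n + Real.sqrt ε * ‖ξ n‖ := by
    intro ε hε
    obtain ⟨m, p, hpA, hpo, hp1, hpε⟩ := hD (L2 Γ) (LGt Γ) A hA hAd ε hε
    have hpA' : ∀ i, p i ∈ A := fun i => (hpA i).1
    have hps : ∀ i, star (p i) = p i := fun i => (hpA i).2.1
    have hpp : ∀ i, p i * p i = p i := fun i => (hpA i).2.2
    have hpL : ∀ i, p i ∈ LG Γ := fun i => hA (hpA' i)
    let P : Fin m → Op (Γ × Γ) := fun i => opL Γ Γ (p i)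
    let Q : Fin m → Op (Γ × Γ) := fun i => opR Γ Γ (cjOp (p i))
    let E : Op (Γ × Γ) := opL Γ Γ (Eg g)
    have hP1 : ∑ i, P i = 1 := by
      show ∑ i, opL Γ Γ (p i) = 1
      rw [← map_sum, hp1, map_one]
    have hQ1 : ∑ i, Q i = 1 := by
      show ∑ i, opR Γ Γ (cjOp (p i)) = 1
      rw [← map_sum, ← cjOp_sum, hp1, cjOp_one, map_one]
    have hQo : ∀ i j, i ≠ j → Q i * Q j = 0 := by
      intro i j hij
      show opR Γ Γ (cjOp (p i)) * opR Γ Γ (cjOp (p j)) = 0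
      rw [← map_mul, ← cjOp_mul, hpo i j hij, cjOp_zero, map_zero]
    have hQs : ∀ i, star (Q i) = Q i := by
      intro i
      show star (opR Γ Γ (cjOp (p i))) = opR Γ Γ (cjOp (p i))
      rw [← map_star, ← cjOp_star, hps]
    have hQadj : ∀ i (u v : L2 (Γ × Γ)), ⟪Q i u, v⟫_ℂ = ⟪u, Q i v⟫_ℂ := by
      intro i u v
      conv_lhs => rw [← hQs i]
      rw [ContinuousLinearMap.star_eq_adjoint, ContinuousLinearMap.adjoint_inner_left]
    have hE1 : ‖E‖ ≤ 1 := by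
      refine (norm_opL_le _).trans ?_
      apply ContinuousLinearMap.opNorm_le_bound _ zero_le_one
      intro f
      rw [Eg_apply, norm_smul, norm_dl, mul_one, one_mul]
      exact lp.norm_apply_le_norm (by norm_num) f g
    have hcomm : ∀ i, E * (P i * Q i) = Q i * (E * P i) := by
      intro i
      show opL Γ Γ (Eg g) * (opL Γ Γ (p i) * opR Γ Γ (cjOp (p i))) =
        opR Γ Γ (cjOp (p i)) * (opL Γ Γ (Eg g) * opL Γ Γ (p i))
      rw [← mul_assoc, ← map_mul, opL_opR_comm]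
    have hEP : ∀ i, ‖E * P i‖ ≤ Real.sqrt ε := by
      intro i
      show ‖opL Γ Γ (Eg g) * opL Γ Γ (p i)‖ ≤ Real.sqrt ε
      rw [← map_mul]
      refine (norm_opL_le _).trans ((norm_Eg_mul g (hpL i) (hps i)).trans ?_)
      exact Real.le_sqrt_of_sq_le (hpε i)
    let r : ℕ → ℝ := fun n => ∑ i, ‖p i‖ *
      ‖op2 (1 - (2 : ℂ) • p i) (cjOp (1 - (2 : ℂ) • p i)) (ξ n) - ξ n‖
    refine ⟨r, ?_, ?_⟩
    · have h1 : Tendsto r atTop (𝓝 (∑ i : Fin m, ‖p i‖ * 0)) := by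
        apply tendsto_finsetSum
        intro i _
        apply Tendsto.const_mul
        apply hinv
        · exact sub_mem (one_mem A) (A.toStarSubalgebra.toSubalgebra.smul_mem (hpA' i) 2)
        · exact unitary_refl (hps i) (hpp i)
      simpa using h1
    · intro n
      have h1 : ξ n = ∑ i, (P i (ξ n) - P i (Q i (ξ n))) + ∑ i, P i (Q i (ξ n)) := by
        rw [← Finset.sum_add_distrib]
        simp only [sub_add_cancel]
        rw [← ContinuousLinearMap.sum_apply, hP1]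
        rfl
      have h2 : ‖∑ i, (P i (ξ n) - P i (Q i (ξ n)))‖ ≤ r n := by
        refine (norm_sum_le _ _).trans ?_
        apply Finset.sum_le_sum
        intro i _
        exact proj_step (hps i) (hpp i) (ξ n)
      have h3 : ‖E (∑ i, P i (Q i (ξ n)))‖ ≤ Real.sqrt ε * ‖ξ n‖ := by
        have h4 : E (∑ i, P i (Q i (ξ n))) = ∑ i, E (P i (Q i (ξ n))) := map_sum _ _ _
        have hQid : ∀ i (u : L2 (Γ × Γ)), Q i (Q i u) = Q i u := by
          intro i u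
          show (opR Γ Γ (cjOp (p i)) * opR Γ Γ (cjOp (p i))) u = _
          rw [← map_mul, ← cjOp_mul, hpp i]
        have h5 : ∀ i, E (P i (Q i (ξ n))) = Q i (E (P i (ξ n))) := by
          intro i
          have h := congrArg (fun T : Op (Γ × Γ) => T (ξ n)) (hcomm i)
          exact h
        have h5' : ∀ i, E (P i (Q i (ξ n))) = (E * P i) (Q i (ξ n)) := fun i => rfl
        have h6 : ‖∑ i, E (P i (Q i (ξ n)))‖ ^ 2 = ∑ i, ‖E (P i (Q i (ξ n)))‖ ^ 2 := by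
          apply norm_sq_sum_orth
          intro i j hij
          rw [h5, h5, hQadj]
          have h8 : Q i (Q j (E (P j (ξ n)))) = (Q i * Q j) (E (P j (ξ n))) := rfl
          rw [h8, hQo i j hij]
          simp
        have h7 : ‖ξ n‖ ^ 2 = ∑ i, ‖Q i (ξ n)‖ ^ 2 := by
          have h8 : ξ n = ∑ i, Q i (ξ n) := by
            rw [← ContinuousLinearMap.sum_apply, hQ1]
            rfl
          conv_lhs => rw [h8]
          apply norm_sq_sum_orth
          intro i j hij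
          rw [hQadj]
          have h10 : Q i (Q j (ξ n)) = (Q i * Q j) (ξ n) := rfl
          rw [h10, hQo i j hij]
          simp
        have h9 : ‖E (∑ i, P i (Q i (ξ n)))‖ ^ 2 ≤ (Real.sqrt ε * ‖ξ n‖) ^ 2 := by
          rw [h4, h6, mul_pow, h7, Finset.mul_sum]
          apply Finset.sum_le_sum
          intro i _
          rw [h5', ← mul_pow]
          apply pow_le_pow_left₀ (norm_nonneg _)
          exact (ContinuousLinearMap.le_opNorm _ _).trans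
            (mul_le_mul_of_nonneg_right (hEP i) (norm_nonneg _))
        exact (sq_le_sq₀ (norm_nonneg _) (by positivity)).1 h9
      show ‖E (ξ n)‖ ≤ _
      calc ‖E (ξ n)‖ = ‖E (∑ i, (P i (ξ n) - P i (Q i (ξ n)))) + E (∑ i, P i (Q i (ξ n)))‖ := by
            conv_lhs => rw [h1, map_add]
        _ ≤ ‖E (∑ i, (P i (ξ n) - P i (Q i (ξ n))))‖ + ‖E (∑ i, P i (Q i (ξ n)))‖ :=
            norm_add_le _ _
        _ ≤ r n + Real.sqrt ε * ‖ξ n‖ := by
            refine add_le_add ?_ h3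
            refine (ContinuousLinearMap.le_opNorm _ _).trans ?_
            calc ‖E‖ * ‖∑ i, (P i (ξ n) - P i (Q i (ξ n)))‖ ≤ 1 * r n :=
                  mul_le_mul hE1 h2 (norm_nonneg _) zero_le_one
              _ = r n := one_mul _
  -- conclusion
  have hconv : (fun n => ∑' z : Γ, ‖(ξ n : Γ × Γ → ℂ) (g, z)‖ ^ 2) =
      fun n => ‖opL Γ Γ (Eg g) (ξ n)‖ ^ 2 := by
    funext n
    exact mass_eq g (ξ n)
  rw [hconv, Metric.tendsto_atTop]
  intro δ hδ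
  obtain ⟨r, hr, hb⟩ := hmain (δ / 2) (by positivity)
  have h1 : Tendsto (fun n => (r n + Real.sqrt (δ / 2) * ‖ξ n‖) ^ 2) atTop (𝓝 (δ / 2)) := by
    have h2 := (hr.add (hξ.const_mul (Real.sqrt (δ / 2)))).pow 2
    have h3 : (0 + Real.sqrt (δ / 2) * 1) ^ 2 = δ / 2 := by
      rw [zero_add, mul_one, Real.sq_sqrt (by positivity)]
    rwa [h3] at h2
  have h2 := h1.eventually (gt_mem_nhds (show δ / 2 < δ by linarith))
  obtain ⟨N, hN⟩ := eventually_atTop.1 h2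
  refine ⟨N, fun n hn => ?_⟩
  rw [Real.dist_eq, sub_zero, abs_of_nonneg (by positivity)]
  refine lt_of_le_of_lt ?_ (hN n hn)
  exact pow_le_pow_left₀ (norm_nonneg _) (hb n) 2

end

end MP7e
end

section
/-!
Weak compactness.
-/
namespace MP7e.WC

open scoped InnerProductSpace TensorProduct ENNReal
open Filter Topology Classical

noncomputable section

variable {Γ : Type} [Group Γ]

/-- the diagonal vector of a multiplier -/
def dv (m : Multiplier Γ) : L2 (Γ × Γ) := ∑ g ∈ m.supp, (m.φ g : ℂ) • dl (g, g)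

theorem Dm_eq (m : Multiplier Γ) (z : Op (Γ × Γ)) : Dm m z = ⟪dv m, z (dl 1)⟫_ℂ := by
  unfold Dm dv
  rw [sum_inner]
  apply Finset.sum_congr rfl
  intro g _
  rw [inner_smul_left, inner_dl_left, Complex.conj_ofReal]
  rfl

theorem tr_mul_star {z y : Op (Γ × Γ)} (hz : z ∈ LG (Γ × Γ)) (hy : y ∈ LG (Γ × Γ)) :
    ⟪dl 1, (z * star y) (dl 1)⟫_ℂ = ⟪y (dl 1), z (dl 1)⟫_ℂ := by
  rw [← tr_eq_inner, tr_mul_comm hz (star_mem hy), tr_eq_inner, mulA,
    ContinuousLinearMap.star_eq_adjoint, ContinuousLinearMap.adjoint_inner_right]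

/-- the vectors `z δ₁`, `z ∈ TA` -/
def vA (A : VonNeumannAlgebra (L2 Γ)) : Submodule ℂ (L2 (Γ × Γ)) where
  carrier := {v | ∃ z ∈ TA Γ A, v = z (dl 1)}
  add_mem' := by
    rintro _ _ ⟨z, hz, rfl⟩ ⟨w, hw, rfl⟩
    exact ⟨z + w, add_mem hz hw, rfl⟩
  zero_mem' := ⟨0, zero_mem _, rfl⟩
  smul_mem' := by
    rintro c _ ⟨z, hz, rfl⟩
    exact ⟨c • z, (TA Γ A).toSubalgebra.smul_mem hz c, rfl⟩

theorem exists_y (A : VonNeumannAlgebra (L2 Γ)) (hA : A ≤ LG Γ) (m : Multiplier Γ) {δ : ℝ}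
    (hδ : 0 < δ) : ∃ y ∈ TA Γ A, ∀ z ∈ TA Γ A,
      ‖⟪dl 1, (z * star y) (dl 1)⟫_ℂ - Dm m z‖ ≤ δ * ‖z‖ := by
  let V := (vA A).topologicalClosure
  haveI : CompleteSpace V := (vA A).isClosed_topologicalClosure.completeSpace_coe
  let p : L2 (Γ × Γ) := V.starProjection (dv m)
  have hp : p ∈ V := V.starProjection_apply_mem (dv m)
  have hp' : p ∈ closure ((vA A : Submodule ℂ (L2 (Γ × Γ))) : Set (L2 (Γ × Γ))) := hp
  obtain ⟨v, ⟨y, hy, rfl⟩, hv⟩ := Metric.mem_closure_iff.1 hp' δ hδ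
  refine ⟨y, hy, fun z hz => ?_⟩
  rw [tr_mul_star (mem_LG_of_TA hA hz) (mem_LG_of_TA hA hy), Dm_eq]
  have hzV : z (dl 1) ∈ V := (vA A).le_topologicalClosure ⟨z, hz, rfl⟩
  have h1 : ⟪dv m, z (dl 1)⟫_ℂ = ⟪p, z (dl 1)⟫_ℂ := by
    have h2 : ⟪dv m - p, z (dl 1)⟫_ℂ = 0 := by
      have := V.sub_starProjection_mem_orthogonal (dv m)
      rw [Submodule.mem_orthogonal'] at this
      exact this _ hzV
    rw [inner_sub_left, sub_eq_zero] at h2
    exact h2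
  rw [h1, ← inner_sub_left]
  calc ‖⟪y (dl 1) - p, z (dl 1)⟫_ℂ‖ ≤ ‖y (dl 1) - p‖ * ‖z (dl 1)‖ := norm_inner_le_norm _ _
    _ ≤ δ * ‖z‖ := by
        have h3 : ‖y (dl 1) - p‖ ≤ δ := by
          rw [← dist_eq_norm, dist_comm]; exact hv.le
        have h4 : ‖z (dl 1)‖ ≤ ‖z‖ := by
          have := z.le_opNorm (dl 1)
          rwa [norm_dl, mul_one] at this
        exact mul_le_mul h3 h4 (norm_nonneg _) hδ.le

theorem C_ge_one (m : Multiplier Γ) (h : m.φ 1 = 1) : 1 ≤ m.C ^ 2 := by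
  have h1 := m.fact 1 1
  rw [inv_one, one_mul, h] at h1
  have h2 : ‖⟪m.β 1, m.α 1⟫_ℂ‖ ≤ m.C * m.C :=
    (norm_inner_le_norm _ _).trans (mul_le_mul (m.hβ.2 1) (m.hα.2 1) (norm_nonneg _) m.hβ.1)
  rw [h1] at h2
  simpa [sq] using h2

theorem one_mem_supp (m : Multiplier Γ) (h : m.φ 1 = 1) : (1 : Γ) ∈ m.supp := by
  by_contra h1
  rw [m.hsupp 1 h1] at h
  exact zero_ne_one h

theorem Dm_opL (m : Multiplier Γ) (h : m.φ 1 = 1) (x : Op Γ) : Dm m (opL Γ Γ x) = tr x := by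
  unfold Dm
  have key : ∀ g : Γ, (opL Γ Γ x (dl (1, 1)) : Γ × Γ → ℂ) (g, g) =
      if g = 1 then tr x else 0 := by
    intro g
    rw [dl_prod, opL_tens, tens_apply, dl_apply]
    split_ifs with hg
    · have : g = 1 := hg
      subst this
      simp [tr]
    · simp
  rw [Finset.sum_eq_single_of_mem 1 (one_mem_supp m h)]
  · rw [key, h]; simp
  · intro g _ hg
    rw [key, if_neg hg, mul_zero]

theorem Dm_one (m : Multiplier Γ) (h : m.φ 1 = 1) : Dm m 1 = 1 := by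
  have := Dm_opL m h 1
  rwa [map_one, tr_one] at this

theorem Dm_op2_self (m : Multiplier Γ) (x : Op Γ) :
    Dm m (op2 x (cjOp x)) = ((∑ g ∈ m.supp, m.φ g * ‖(x (dl 1) : Γ → ℂ) g‖ ^ 2 : ℝ) : ℂ) := by
  unfold Dm
  rw [Complex.ofReal_sum]
  apply Finset.sum_congr rfl
  intro g _
  rw [dl_prod, op2_tens, tens_apply, cjOp_coeff, Complex.ofReal_mul]
  congr 1
  simp only
  rw [RCLike.star_def, Complex.mul_conj, Complex.normSq_eq_norm_sq]

/-- linear version of `Dm` -/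
def DmL (m : Multiplier Γ) : Op (Γ × Γ) →ₗ[ℂ] ℂ where
  toFun z := ⟪dv m, z (dl 1)⟫_ℂ
  map_add' z w := by
    rw [ContinuousLinearMap.add_apply, inner_add_right]
  map_smul' c z := by
    rw [ContinuousLinearMap.smul_apply, inner_smul_right]; rfl

theorem DmL_apply (m : Multiplier Γ) (z : Op (Γ × Γ)) : DmL m z = Dm m z := (Dm_eq m z).symm

theorem norm_one_le' {X : Type*} : ‖(1 : Op X)‖ ≤ 1 := ContinuousLinearMap.norm_id_le

/-- the approximating positive elements -/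
theorem exists_xi (hPS1 : SpecPS1) (hW1 : SpecW1) (c : CMAP Γ) (A : VonNeumannAlgebra (L2 Γ))
    (hA : A ≤ LG Γ) (ham : Amenable (LGt Γ) A) :
    ∃ (ξ : ℕ → Op (Γ × Γ)) (κ : ℕ → ℝ), Tendsto κ atTop (𝓝 0) ∧ (∀ n, 0 ≤ κ n) ∧
      ∀ᶠ n in atTop, ξ n ∈ TA Γ A ∧ (ξ n).IsPositive ∧ |‖(ξ n) (dl 1)‖ ^ 2 - 1| ≤ κ n ∧
        ∀ z ∈ TA Γ A, ‖Dm (c.m n) z - ⟪dl 1, (z * (ξ n * ξ n)) (dl 1)⟫_ℂ‖ ≤ κ n * ‖z‖ := by
  set δ : ℕ → ℝ := fun n => 1 / ((n : ℝ) + 1) with hδd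
  have hδ : ∀ n, 0 < δ n := fun n => by positivity
  have hδ0 : Tendsto δ atTop (𝓝 0) := tendsto_one_div_add_atTop_nhds_zero_nat
  set ε : ℕ → ℝ := fun n => ((c.m n).C ^ 2 - 1) + δ n with hεd
  have hε : ∀ n, 0 < ε n := fun n => by
    have := C_ge_one (c.m n) (c.h1 n)
    have := hδ n
    simp only [hεd]; linarith
  have hε0 : Tendsto ε atTop (𝓝 0) := by
    have h1 : Tendsto (fun n => (c.m n).C ^ 2 - 1) atTop (𝓝 (1 ^ 2 - 1)) :=
      (c.hC.pow 2).sub_const 1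
    have h2 := h1.add hδ0
    simpa using h2
  have hle : ∀ᶠ n in atTop, ε n ≤ 1 := (hε0.eventually (ge_mem_nhds zero_lt_one))
  set κ : ℕ → ℝ := fun n => 8 * Real.sqrt (ε n) + 2 * ε n + δ n with hκd
  have hκ0 : Tendsto κ atTop (𝓝 0) := by
    have h1 : Tendsto (fun n => Real.sqrt (ε n)) atTop (𝓝 (Real.sqrt 0)) :=
      (Real.continuous_sqrt.tendsto 0).comp hε0
    rw [Real.sqrt_zero] at h1
    have h2 := ((h1.const_mul 8).add (hε0.const_mul 2)).add hδ0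
    simpa using h2
  have hκ : ∀ n, 0 ≤ κ n := fun n => by
    have := hδ n
    have := hε n
    simp only [hκd]; positivity
  have key : ∀ n, ∃ x : Op (Γ × Γ), ε n ≤ 1 → x ∈ TA Γ A ∧ x.IsPositive ∧
      |‖x (dl 1)‖ ^ 2 - 1| ≤ κ n ∧
        ∀ z ∈ TA Γ A, ‖Dm (c.m n) z - ⟪dl 1, (z * (x * x)) (dl 1)⟫_ℂ‖ ≤ κ n * ‖z‖ := by
    intro n
    by_cases hn : ε n ≤ 1
    · obtain ⟨y, hy, hyD⟩ := exists_y A hA (c.m n) (hδ n)
      have htrace : ∀ x ∈ TA Γ A, ∀ y ∈ TA Γ A,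
          ⟪dl 1, (x * y) (dl 1)⟫_ℂ = ⟪dl 1, (y * x) (dl 1)⟫_ℂ := by
        intro x hx y hy
        have h := tr_mul_comm (mem_LG_of_TA hA hx) (mem_LG_of_TA hA hy)
        rwa [tr_eq_inner, tr_eq_inner] at h
      have hb : ∀ z ∈ TA Γ A, ‖⟪dl 1, (z * star y) (dl 1)⟫_ℂ‖ ≤ (1 + ε n) * ‖z‖ := by
        intro z hz
        have h1 := hyD z hz
        have h2 := hW1 Γ (c.m n) A hA ham z hz
        calc ‖⟪dl 1, (z * star y) (dl 1)⟫_ℂ‖
            = ‖(⟪dl 1, (z * star y) (dl 1)⟫_ℂ - Dm (c.m n) z) + Dm (c.m n) z‖ := by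
              rw [sub_add_cancel]
          _ ≤ δ n * ‖z‖ + (c.m n).C ^ 2 * ‖z‖ := (norm_add_le _ _).trans (add_le_add h1 h2)
          _ = (1 + ε n) * ‖z‖ := by simp only [hεd]; ring
      have h1y : ‖⟪dl 1, (star y) (dl 1)⟫_ℂ - 1‖ ≤ ε n := by
        have h1 := hyD 1 (one_mem _)
        rw [one_mul, Dm_one (c.m n) (c.h1 n)] at h1
        have h2 := C_ge_one (c.m n) (c.h1 n)
        have h3 : δ n * ‖(1 : Op (Γ × Γ))‖ ≤ δ n * 1 :=
          mul_le_mul_of_nonneg_left norm_one_le' (hδ n).le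
        simp only [hεd]; linarith
      obtain ⟨x, hx, hxp, hx1, hx2⟩ := hPS1 (L2 (Γ × Γ)) (TA Γ A) (dl 1) (isClosed_TA A)
        (norm_dl _) htrace y hy (ε n) (hε n) hn hb h1y
      refine ⟨x, fun _ => ⟨hx, hxp, ?_, ?_⟩⟩
      · refine hx1.trans ?_
        have := hδ n
        simp only [hκd]
        have : 0 ≤ 8 * Real.sqrt (ε n) := by positivity
        linarith
      · intro z hz
        have h1 := hyD z hz
        have h2 := hx2 z hz
        have e : Dm (c.m n) z - ⟪dl 1, (z * (x * x)) (dl 1)⟫_ℂ =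
            (⟪dl 1, (z * star y) (dl 1)⟫_ℂ - ⟪dl 1, (z * (x * x)) (dl 1)⟫_ℂ) -
            (⟪dl 1, (z * star y) (dl 1)⟫_ℂ - Dm (c.m n) z) := by ring
        rw [e]
        calc _ ≤ 8 * Real.sqrt (ε n) * ‖z‖ + δ n * ‖z‖ :=
              (norm_sub_le _ _).trans (add_le_add h2 h1)
          _ ≤ κ n * ‖z‖ := by
              have h3 : 0 ≤ ε n * ‖z‖ := mul_nonneg (hε n).le (norm_nonneg z)
              simp only [hκd]; nlinarith
    · exact ⟨0, fun h => absurd h hn⟩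
  choose ξ hξ using key
  exact ⟨ξ, κ, hκ0, hκ, hle.mono fun n hn => hξ n hn⟩

end

end MP7e.WC
end

section
/-!
Weak compactness, second part.
-/
namespace MP7e.WC

open scoped InnerProductSpace TensorProduct ENNReal
open Filter Topology Classical

noncomputable section

variable {Γ : Type} [Group Γ]

/-- the vector state of a positive vector -/
theorem inner_xi {ξ z : Op (Γ × Γ)} (hξ : ξ ∈ LG (Γ × Γ)) (hz : z ∈ LG (Γ × Γ))
    (hp : ξ.IsPositive) :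
    ⟪ξ (dl 1), z (ξ (dl 1))⟫_ℂ = ⟪dl 1, (z * (ξ * ξ)) (dl 1)⟫_ℂ := by
  have hs : star ξ = ξ := hp.isSelfAdjoint.star_eq
  have h1 : ⟪dl 1, (z * (ξ * ξ)) (dl 1)⟫_ℂ = ⟪dl 1, (ξ * (z * ξ)) (dl 1)⟫_ℂ := by
    rw [← mul_assoc z ξ ξ, ← tr_eq_inner, tr_mul_comm (mul_mem hz hξ) hξ, tr_eq_inner]
  rw [h1, mulA ξ (z * ξ), mulA z ξ]
  nth_rewrite 3 [← hs]
  rw [ContinuousLinearMap.star_eq_adjoint, ContinuousLinearMap.adjoint_inner_right]

theorem inner_xi_rgt {ξ z : Op (Γ × Γ)} (hξ : ξ ∈ LG (Γ × Γ)) (hz : z ∈ LG (Γ × Γ))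
    (hp : ξ.IsPositive) :
    ⟪ξ (dl 1), rgt z (ξ (dl 1))⟫_ℂ = ⟪dl 1, (z * (ξ * ξ)) (dl 1)⟫_ℂ := by
  have hs : star ξ = ξ := hp.isSelfAdjoint.star_eq
  rw [inner_rgt hξ hz, hs, ← tr_mul_comm hz (mul_mem hξ hξ), tr_eq_inner]

/-- the 2-norm distance of a vector to its image under a unitary -/
theorem unitary_dist {K : Type*} [NormedAddCommGroup K] [InnerProductSpace ℂ K] [CompleteSpace K]
    {W : K →L[ℂ] K} (hW : W ∈ unitary (K →L[ℂ] K)) (v : K) :
    ‖W v - v‖ ^ 2 = 2 * (‖v‖ ^ 2 - (⟪v, W v⟫_ℂ).re) := by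
  have h1 : ‖W v‖ = ‖v‖ := by
    have h2 : ⟪W v, W v⟫_ℂ = ⟪v, v⟫_ℂ := by
      rw [← ContinuousLinearMap.adjoint_inner_right, ← ContinuousLinearMap.star_eq_adjoint]
      have : (star W) (W v) = (star W * W) v := rfl
      rw [this, (Unitary.mem_iff.1 hW).1]
      rfl
    have h3 : ‖W v‖ ^ 2 = ‖v‖ ^ 2 := by
      have h4 := inner_self_eq_norm_sq_to_K (𝕜 := ℂ) (W v)
      have h5 := inner_self_eq_norm_sq_to_K (𝕜 := ℂ) v
      rw [h2, h5] at h4
      exact_mod_cast h4.symm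
    exact (sq_eq_sq₀ (norm_nonneg _) (norm_nonneg _)).1 h3
  have h6 := @norm_sub_sq ℂ K _ _ _ (W v) v
  rw [h6, h1]
  have h7 : RCLike.re ⟪W v, v⟫_ℂ = (⟪v, W v⟫_ℂ).re := by
    exact inner_re_symm (𝕜 := ℂ) _ _
  rw [h7]
  ring

theorem norm_le_one_of_unitary {K : Type*} [NormedAddCommGroup K] [InnerProductSpace ℂ K]
    [CompleteSpace K] {W : K →L[ℂ] K} (hW : W ∈ unitary (K →L[ℂ] K)) : ‖W‖ ≤ 1 := by
  have h := CStarRing.norm_star_mul_self (x := W)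
  rw [(Unitary.mem_iff.1 hW).1] at h
  have h1 : ‖(1 : K →L[ℂ] K)‖ ≤ 1 := ContinuousLinearMap.norm_id_le
  rw [h] at h1
  nlinarith [norm_nonneg W]

theorem subset_vnGen {K : Type*} [NormedAddCommGroup K] [InnerProductSpace ℂ K]
    [CompleteSpace K] {S : Set (K →L[ℂ] K)} {s : K →L[ℂ] K} (hs : s ∈ S) : s ∈ vnGen S := by
  rw [Gen.vnGen_mem]
  intro c hc
  refine ⟨(hc s (Or.inl hs)).symm, ?_⟩
  have h := hc (star s) (Or.inr (by simpa using hs))
  have h2 := congrArg star h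
  rw [star_mul, star_mul, star_star] at h2
  exact h2

/-- the almost invariance of the diagonal functionals -/
theorem Dm_inv (hInv : SpecInv) (hAU : SpecAU) (hW1 : SpecW1) (hMC : SpecMC)
    (c : CMAP Γ) (A : VonNeumannAlgebra (L2 Γ)) (hA : A ≤ LG Γ) (ham : Amenable (LGt Γ) A)
    {u : Op Γ} (hu : u ∈ normalizer (LG Γ) A) :
    ∃ e : ℕ → ℝ, Tendsto e atTop (𝓝 0) ∧ (∀ n, 0 ≤ e n) ∧ ∀ᶠ n in atTop, ∀ z ∈ TA Γ A,
      ‖Dm (c.m n) (star (op2 u (cjOp u)) * z * op2 u (cjOp u)) - Dm (c.m n) z‖ ≤ e n * ‖z‖ := by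
  set W := op2 u (cjOp u) with hW
  have hWu : W ∈ unitary (Op (Γ × Γ)) := unitary_op2 hu.2.1
  set Q := vnGen ((A : Set (Op Γ)) ∪ {u}) with hQ
  have hQam : Amenable (LGt Γ) Q := hAU (L2 Γ) (LGt Γ) A hA ham u hu
  have hQle : Q ≤ LG Γ := by
    apply Gen.vnGen_le
    rintro s (hs | hs)
    · exact hA hs
    · rw [Set.mem_singleton_iff.1 hs]; exact hu.1
  have hsub : ∀ s ∈ ((A : Set (Op Γ)) ∪ {u}), s ∈ Q := fun s hs => subset_vnGen hs
  have hAQ : A ≤ Q := fun a ha => hsub a (Or.inl ha)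
  have huQ : u ∈ Q := hsub u (Or.inr rfl)
  have hWQ : W ∈ TA Γ Q := op2_mem_TA hu.1 huQ
  set δ : ℕ → ℝ := fun n => 1 / ((n : ℝ) + 1) with hδd
  have hδ : ∀ n, 0 < δ n := fun n => by positivity
  have hδ0 : Tendsto δ atTop (𝓝 0) := tendsto_one_div_add_atTop_nhds_zero_nat
  set ε : ℕ → ℝ := fun n => ((c.m n).C ^ 2 - 1) + ‖Dm (c.m n) W - 1‖ + δ n with hεd
  have hε : ∀ n, 0 < ε n := fun n => by
    have := C_ge_one (c.m n) (c.h1 n)
    have := hδ n
    have := norm_nonneg (Dm (c.m n) W - 1)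
    simp only [hεd]; linarith
  have hDW : Tendsto (fun n => ‖Dm (c.m n) W - 1‖) atTop (𝓝 0) := by
    have h1 : ∀ n, Dm (c.m n) W - 1 =
        ((∑ g ∈ (c.m n).supp, (c.m n).φ g * ‖(u (dl 1) : Γ → ℂ) g‖ ^ 2 - 1 : ℝ) : ℂ) := by
      intro n
      rw [hW, Dm_op2_self]
      push_cast
      rfl
    have h2 := (hMC Γ c u hu.1).2
    have h3 : ‖u (dl 1)‖ = 1 := by
      have h4 := tr_star_mul_self u
      rw [(Unitary.mem_iff.1 hu.2.1).1, tr_one] at h4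
      have h5 : ‖u (dl 1)‖ ^ 2 = 1 := by exact_mod_cast h4.symm
      have h6 := norm_nonneg (u (dl 1))
      nlinarith
    rw [h3] at h2
    have h7 := (h2.sub_const 1).norm
    simp only [one_pow, sub_self, norm_zero] at h7
    refine h7.congr fun n => ?_
    rw [h1 n, Complex.norm_real]
  have hε0 : Tendsto ε atTop (𝓝 0) := by
    have h1 : Tendsto (fun n => (c.m n).C ^ 2 - 1) atTop (𝓝 (1 ^ 2 - 1)) :=
      (c.hC.pow 2).sub_const 1
    have h2 := (h1.add hDW).add hδ0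
    simpa using h2
  have hle : ∀ᶠ n in atTop, ε n ≤ 1 := (hε0.eventually (ge_mem_nhds zero_lt_one))
  refine ⟨fun n => 40 * Real.sqrt (ε n), ?_, fun n => by positivity, ?_⟩
  · have h1 : Tendsto (fun n => Real.sqrt (ε n)) atTop (𝓝 (Real.sqrt 0)) :=
      (Real.continuous_sqrt.tendsto 0).comp hε0
    rw [Real.sqrt_zero] at h1
    simpa using h1.const_mul 40
  · refine hle.mono fun n hn z hz => ?_
    have hzQ : z ∈ TA Γ Q := TA_mono hAQ hz
    have hC := C_ge_one (c.m n) (c.h1 n)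
    have hb : ∀ z ∈ TA Γ Q, ‖DmL (c.m n) z‖ ≤ (1 + ε n) * ‖z‖ := by
      intro z hz
      rw [DmL_apply]
      refine (hW1 Γ (c.m n) Q hQle hQam z hz).trans ?_
      apply mul_le_mul_of_nonneg_right _ (norm_nonneg _)
      have := hδ n
      have := norm_nonneg (Dm (c.m n) W - 1)
      simp only [hεd]; linarith
    have h1 : ‖DmL (c.m n) 1 - 1‖ ≤ ε n := by
      rw [DmL_apply, Dm_one _ (c.h1 n), sub_self, norm_zero]; exact (hε n).le
    have hDW' : ‖DmL (c.m n) W - 1‖ ≤ ε n := by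
      rw [DmL_apply]
      have := hδ n
      simp only [hεd]; linarith
    have key := hInv (L2 (Γ × Γ)) (TA Γ Q) (DmL (c.m n)) (ε n) (hε n) hn hb h1 W hWQ hWu hDW'
    have hWz : star W * z ∈ TA Γ Q := mul_mem (star_mem hWQ) hzQ
    have k1 := (key (star W * z) hWz).1
    have k2 := (key (star W * z) hWz).2
    rw [← mul_assoc, (Unitary.mem_iff.1 hWu).2, one_mul] at k1
    rw [DmL_apply, DmL_apply] at k1 k2
    have hn' : ‖star W * z‖ ≤ ‖z‖ := by
      have h5 : ‖star W‖ ≤ 1 := norm_le_one_of_unitary (Unitary.star_mem hWu)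
      calc ‖star W * z‖ ≤ ‖star W‖ * ‖z‖ := norm_mul_le _ _
        _ ≤ 1 * ‖z‖ := mul_le_mul_of_nonneg_right h5 (norm_nonneg _)
        _ = ‖z‖ := one_mul _
    have hs : 0 ≤ 20 * Real.sqrt (ε n) := by positivity
    have e : Dm (c.m n) (star W * z * W) - Dm (c.m n) z =
        (Dm (c.m n) (star W * z * W) - Dm (c.m n) (star W * z)) -
        (Dm (c.m n) z - Dm (c.m n) (star W * z)) := by ring
    rw [e]
    calc _ ≤ 20 * Real.sqrt (ε n) * ‖star W * z‖ + 20 * Real.sqrt (ε n) * ‖star W * z‖ :=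
          (norm_sub_le _ _).trans (add_le_add k2 k1)
      _ ≤ 20 * Real.sqrt (ε n) * ‖z‖ + 20 * Real.sqrt (ε n) * ‖z‖ := by gcongr
      _ = 40 * Real.sqrt (ε n) * ‖z‖ := by ring

end

end MP7e.WC

namespace MP7e

open scoped InnerProductSpace TensorProduct ENNReal
open Filter Topology Classical

noncomputable section

/-- Weak compactness (Ozawa-Popa). -/
theorem specWC (hPS1 : SpecPS1) (hPS2 : SpecPS2) (hW1 : SpecW1) (hInv : SpecInv) (hAU : SpecAU)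
    (hMC : SpecMC) : SpecWC := by
  intro Γ _ c A hA ham
  obtain ⟨ξ, κ, hκ, hκ0, hξ⟩ := WC.exists_xi hPS1 hW1 c A hA ham
  have hnorm2 : Tendsto (fun n => ‖ξ n (dl 1)‖ ^ 2) atTop (𝓝 1) := by
    rw [tendsto_iff_dist_tendsto_zero]
    refine squeeze_zero' (Eventually.of_forall fun n => dist_nonneg) ?_ hκ
    exact hξ.mono fun n hn => by rw [Real.dist_eq]; exact hn.2.2.1
  -- the vector states converge to the diagonal functionals
  have hst : ∀ z ∈ TA Γ A, Tendsto (fun n => Dm (c.m n) z -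
      ⟪dl 1, (z * (ξ n * ξ n)) (dl 1)⟫_ℂ) atTop (𝓝 0) := by
    intro z hz
    rw [tendsto_zero_iff_norm_tendsto_zero]
    have h1 : Tendsto (fun n => κ n * ‖z‖) atTop (𝓝 0) := by
      simpa using hκ.mul_const ‖z‖
    refine squeeze_zero' (Eventually.of_forall fun n => norm_nonneg _) ?_ h1
    exact hξ.mono fun n hn => hn.2.2.2 z hz
  have hst2 : ∀ z ∈ TA Γ A, ∀ l : ℂ, Tendsto (fun n => Dm (c.m n) z) atTop (𝓝 l) →
      Tendsto (fun n => ⟪dl 1, (z * (ξ n * ξ n)) (dl 1)⟫_ℂ) atTop (𝓝 l) := by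
    intro z hz l hl
    have h1 := hl.sub (hst z hz)
    rw [sub_zero] at h1
    exact h1.congr fun n => by ring
  refine ⟨fun n => ξ n (dl 1), ?_, ?_, ?_, ?_⟩
  · have h1 := (Real.continuous_sqrt.tendsto 1).comp hnorm2
    rw [Real.sqrt_one] at h1
    refine h1.congr fun n => ?_
    exact Real.sqrt_sq (norm_nonneg _)
  · intro a ha hau
    set W := op2 a (cjOp a) with hW
    have hWA : W ∈ TA Γ A := op2_mem_TA (hA ha) ha
    have hWu : W ∈ unitary (Op (Γ × Γ)) := unitary_op2 hau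
    have hD : Tendsto (fun n => Dm (c.m n) W) atTop (𝓝 1) := by
      have h2 := (hMC Γ c a (hA ha)).2
      have h3 : ‖a (dl 1)‖ = 1 := by
        have h4 := tr_star_mul_self a
        rw [(Unitary.mem_iff.1 hau).1, tr_one] at h4
        have h5 : ‖a (dl 1)‖ ^ 2 = 1 := by exact_mod_cast h4.symm
        have h6 := norm_nonneg (a (dl 1))
        nlinarith
      rw [h3, one_pow] at h2
      have h7 := (Complex.continuous_ofReal.tendsto 1).comp h2
      rw [Complex.ofReal_one] at h7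
      refine h7.congr fun n => ?_
      rw [hW, WC.Dm_op2_self]
      rfl
    have hlim := hst2 W hWA 1 hD
    have hre := (Complex.continuous_re.tendsto 1).comp hlim
    rw [Complex.one_re] at hre
    have h8 := ((hnorm2.sub hre).const_mul 2)
    rw [sub_self, mul_zero] at h8
    have h9 : Tendsto (fun n => ‖W (ξ n (dl 1)) - ξ n (dl 1)‖ ^ 2) atTop (𝓝 0) := by
      refine h8.congr' ?_
      refine hξ.mono fun n hn => ?_
      simp only [Function.comp_apply]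
      rw [WC.unitary_dist hWu, WC.inner_xi (mem_LG_of_TA hA hn.1) (mem_LG_of_TA hA hWA) hn.2.1]
    have h10 := (Real.continuous_sqrt.tendsto 0).comp h9
    rw [Real.sqrt_zero] at h10
    refine h10.congr fun n => ?_
    exact Real.sqrt_sq (norm_nonneg _)
  · intro u hu
    obtain ⟨e, he, he0, hinv⟩ := WC.Dm_inv hInv hAU hW1 hMC c A hA ham hu
    set W := op2 u (cjOp u) with hW
    have hWu : W ∈ unitary (Op (Γ × Γ)) := unitary_op2 hu.2.1
    have hWL : W ∈ LG (Γ × Γ) := op2_mem_LG hu.1 (cjOp_mem hu.1)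
    have hbd : ∀ᶠ n in atTop, ‖op2 (adOp u) (adOp (cjOp u)) (ξ n (dl 1)) - ξ n (dl 1)‖ ^ 2 ≤
        2 * κ n + e n := by
      refine (hξ.and hinv).mono fun n hn => ?_
      obtain ⟨⟨hx, hp, -, hD⟩, hi⟩ := hn
      have hxL : ξ n ∈ LG (Γ × Γ) := mem_LG_of_TA hA hx
      have hcA : W * ξ n * star W ∈ TA Γ A := TA_conj hu hx
      have hcp : (W * ξ n * star W).IsPositive := by
        have h1 := hp.conj_adjoint W
        rw [← ContinuousLinearMap.star_eq_adjoint] at h1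
        rw [mul_assoc]
        exact h1
      have hvec : op2 (adOp u) (adOp (cjOp u)) (ξ n (dl 1)) = (W * ξ n * star W) (dl 1) := by
        rw [← adOp_op2, ← hW]
        unfold adOp
        rw [mulA W (rgt (star W)), rgt_apply hxL (star_mem hWL), ← mulA W, mul_assoc]
      rw [hvec]
      apply hPS2 (L2 (Γ × Γ)) (TA Γ A) (dl 1) (isClosed_TA A) ?_ _ hcA _ hx hcp hp _ ?_ ?_
      · intro x hx y hy
        have h := tr_mul_comm (mem_LG_of_TA hA hx) (mem_LG_of_TA hA hy)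
        rwa [tr_eq_inner, tr_eq_inner] at h
      · have := hκ0 n
        have := he0 n
        linarith
      · intro z hz
        have hzL : z ∈ LG (Γ × Γ) := mem_LG_of_TA hA hz
        have hz' : star W * z * W ∈ TA Γ A := by
          have h1 := TA_conj (normalizer_star hu) hz
          rw [cjOp_star, ← op2_star, star_star] at h1
          exact h1
        have h2 : ⟪dl 1, (z * ((W * ξ n * star W) * (W * ξ n * star W))) (dl 1)⟫_ℂ =
            ⟪dl 1, ((star W * z * W) * (ξ n * ξ n)) (dl 1)⟫_ℂ := by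
          have h3 : z * ((W * ξ n * star W) * (W * ξ n * star W)) =
              (z * W * ξ n * ξ n) * star W := by
            calc z * ((W * ξ n * star W) * (W * ξ n * star W))
                = z * W * ξ n * (star W * W) * ξ n * star W := by simp only [mul_assoc]
              _ = _ := by rw [(Unitary.mem_iff.1 hWu).1, mul_one]
          have hL : z * W * ξ n * ξ n ∈ LG (Γ × Γ) :=
            mul_mem (mul_mem (mul_mem hzL hWL) hxL) hxL
          rw [h3, ← tr_eq_inner, tr_mul_comm hL (star_mem hWL), tr_eq_inner]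
          simp only [mul_assoc]
        rw [h2]
        have k1 := hD _ hz'
        have k2 := hD _ hz
        have k3 := hi z hz
        have hn' : ‖star W * z * W‖ ≤ ‖z‖ := by
          have h5 : ‖star W‖ ≤ 1 := WC.norm_le_one_of_unitary (Unitary.star_mem hWu)
          have h6 : ‖W‖ ≤ 1 := WC.norm_le_one_of_unitary hWu
          calc ‖star W * z * W‖ ≤ ‖star W‖ * ‖z‖ * ‖W‖ :=
                (norm_mul_le _ _).trans (mul_le_mul_of_nonneg_right (norm_mul_le _ _)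
                  (norm_nonneg _))
            _ ≤ 1 * ‖z‖ * 1 := by gcongr
            _ = ‖z‖ := by ring
        have k4 : κ n * ‖star W * z * W‖ ≤ κ n * ‖z‖ := mul_le_mul_of_nonneg_left hn' (hκ0 n)
        have e1 : ⟪dl 1, ((star W * z * W) * (ξ n * ξ n)) (dl 1)⟫_ℂ -
            ⟪dl 1, (z * (ξ n * ξ n)) (dl 1)⟫_ℂ =
            -(Dm (c.m n) (star W * z * W) - ⟪dl 1, ((star W * z * W) * (ξ n * ξ n)) (dl 1)⟫_ℂ) +
            (Dm (c.m n) (star W * z * W) - Dm (c.m n) z) +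
            (Dm (c.m n) z - ⟪dl 1, (z * (ξ n * ξ n)) (dl 1)⟫_ℂ) := by ring
        rw [e1]
        refine (norm_add₃_le).trans ?_
        rw [norm_neg]
        linarith
    have h1 : Tendsto (fun n => 2 * κ n + e n) atTop (𝓝 0) := by
      simpa using (hκ.const_mul 2).add he
    have h9 : Tendsto (fun n => ‖op2 (adOp u) (adOp (cjOp u)) (ξ n (dl 1)) - ξ n (dl 1)‖ ^ 2)
        atTop (𝓝 0) := squeeze_zero' (Eventually.of_forall fun n => by positivity) hbd h1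
    have h10 := (Real.continuous_sqrt.tendsto 0).comp h9
    rw [Real.sqrt_zero] at h10
    refine h10.congr fun n => ?_
    exact Real.sqrt_sq (norm_nonneg _)
  · intro x hx
    have h1 := hst2 (opL Γ Γ x) (opL_mem_TA hx) (tr x)
      (tendsto_const_nhds.congr fun n => (WC.Dm_opL (c.m n) (c.h1 n) x).symm)
    refine ⟨h1.congr' ?_, h1.congr' ?_⟩
    · refine hξ.mono fun n hn => ?_
      exact (WC.inner_xi (mem_LG_of_TA hA hn.1) (opL_mem_LG hx) hn.2.1).symm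
    · refine hξ.mono fun n hn => ?_
      have h2 := WC.inner_xi_rgt (mem_LG_of_TA hA hn.1) (opL_mem_LG hx) hn.2.1
      rw [rgt_opL] at h2
      exact h2.symm

end

end MP7e
end

section
/-!
The final argument: strong solidity.
-/
namespace MP7e.Fin

open scoped InnerProductSpace TensorProduct ENNReal
open Filter Topology Classical

noncomputable section

/-! ### Ultralimits -/

/-- a nonprincipal ultrafilter -/
def Uf : Ultrafilter ℕ := Filter.hyperfilter ℕ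

theorem Uf_le : (Uf : Filter ℕ) ≤ atTop := Nat.hyperfilter_le_atTop

theorem exists_ulim {f : ℕ → ℂ} {C : ℝ} (h : ∀ n, ‖f n‖ ≤ C) :
    ∃ l, Tendsto f (Uf : Filter ℕ) (𝓝 l) := by
  have hc : IsCompact (Metric.closedBall (0 : ℂ) C) := isCompact_closedBall _ _
  obtain ⟨l, -, hl⟩ := hc.ultrafilter_le_nhds (Uf.map f) (by
    rw [Ultrafilter.coe_map]
    apply le_principal_iff.2
    refine mem_map.2 (Filter.univ_mem' fun n => ?_)
    simpa using h n)
  exact ⟨l, hl⟩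

/-- the ultralimit of uniformly bounded linear functionals -/
theorem exists_limit {V : Type*} [SeminormedAddCommGroup V] [NormedSpace ℂ V]
    (L : ℕ → V →ₗ[ℂ] ℂ) (c : ℕ → ℝ) (c0 : ℝ) (hc : Tendsto c atTop (𝓝 c0))
    (h : ∀ n X, ‖L n X‖ ≤ c n * ‖X‖) :
    ∃ L0 : V →ₗ[ℂ] ℂ, (∀ X, Tendsto (fun n => L n X) (Uf : Filter ℕ) (𝓝 (L0 X))) ∧
      ∀ X, ‖L0 X‖ ≤ c0 * ‖X‖ := by
  obtain ⟨B, hB⟩ := hc.bddAbove_range
  have hB' : ∀ n, c n ≤ B := fun n => hB ⟨n, rfl⟩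
  have h1 : ∀ X, ∃ l, Tendsto (fun n => L n X) (Uf : Filter ℕ) (𝓝 l) := fun X =>
    exists_ulim (C := B * ‖X‖) fun n => (h n X).trans
      (mul_le_mul_of_nonneg_right (hB' n) (norm_nonneg _))
  choose l hl using h1
  refine ⟨{ toFun := l, map_add' := ?_, map_smul' := ?_ }, hl, ?_⟩
  · intro X Y
    refine tendsto_nhds_unique (hl (X + Y)) ?_
    simp only [map_add]
    exact (hl X).add (hl Y)
  · intro a X
    refine tendsto_nhds_unique (hl (a • X)) ?_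
    simp only [map_smul, RingHom.id_apply]
    exact (hl X).const_smul a
  · intro X
    refine le_of_tendsto_of_tendsto (hl X).norm ((hc.mono_left Uf_le).mul_const ‖X‖) ?_
    exact Eventually.of_forall fun n => h n X

/-! ### The functionals -/

variable {Γ : Type} [Group Γ]

/-- the functionals `F_{m,n}` -/
def Fmn (m : Multiplier Γ) (v : L2 (Γ × (Γ × Γ))) : Op (Γ × (Γ × Γ)) →ₗ[ℂ] ℂ where
  toFun X := ⟪v, m3 m X v⟫_ℂ
  map_add' X Y := by
    unfold m3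
    rw [schur_add, ContinuousLinearMap.add_apply, inner_add_right]
  map_smul' c X := by
    unfold m3
    rw [schur_smul, ContinuousLinearMap.smul_apply, inner_smul_right]
    rfl

theorem Fmn_apply (m : Multiplier Γ) (v : L2 (Γ × (Γ × Γ))) (X : Op (Γ × (Γ × Γ))) :
    Fmn m v X = ⟪v, m3 m X v⟫_ℂ := rfl

theorem Fmn_le (m : Multiplier Γ) (v : L2 (Γ × (Γ × Γ))) (X : Op (Γ × (Γ × Γ))) :
    ‖Fmn m v X‖ ≤ m.C ^ 4 * ‖v‖ ^ 2 * ‖X‖ := by
  rw [Fmn_apply]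
  have h1 : ‖m3 m X‖ ≤ m.C ^ 2 * m.C ^ 2 * ‖X‖ := norm_schur_le _ _ _ _ _
  calc _ ≤ ‖v‖ * ‖m3 m X v‖ := norm_inner_le_norm _ _
    _ ≤ ‖v‖ * (‖m3 m X‖ * ‖v‖) :=
        mul_le_mul_of_nonneg_left ((m3 m X).le_opNorm v) (norm_nonneg _)
    _ ≤ ‖v‖ * ((m.C ^ 2 * m.C ^ 2 * ‖X‖) * ‖v‖) := by gcongr
    _ = _ := by ring

theorem mulBy_one (m : Multiplier Γ) (h : m.φ 1 = 1) : mulBy m (1 : Op Γ) = 1 := by
  unfold mulBy
  rw [Finset.sum_eq_single_of_mem 1 (WC.one_mem_supp m h)]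
  · rw [h]
    simp [dl_self]
  · intro g _ hg
    have : ((1 : Op Γ) (dl 1) : Γ → ℂ) g = 0 := dl_ne hg
    rw [this, mul_zero, zero_smul]

theorem tr_mulBy (m : Multiplier Γ) (h : m.φ 1 = 1) (x : Op Γ) : tr (mulBy m x) = tr x := by
  have h1 : ∀ (s : Finset Γ) (f : Γ → ℂ), tr (∑ g ∈ s, f g • lam g) =
      ∑ g ∈ s, f g * tr (lam g) := by
    intro s f
    induction s using Finset.induction_on with
    | empty => simp [tr]
    | insert a s ha ih => rw [Finset.sum_insert ha, Finset.sum_insert ha, tr_add, tr_smul, ih]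
  unfold mulBy
  rw [h1, Finset.sum_eq_single_of_mem 1 (WC.one_mem_supp m h)]
  · rw [h, lam_one, tr_one]
    simp [tr]
  · intro g _ hg
    have : tr (lam g) = 0 := by
      unfold tr
      rw [lam_dl, mul_one]
      exact dl_ne (Ne.symm hg)
    rw [this, mul_zero]

/-- the estimate for the change of `u` to `v` in the first leg -/
theorem first_leg (ξ : ℕ → L2 (Γ × Γ))
    (htr : ∀ x ∈ LG Γ, Tendsto (fun n => ⟪ξ n, opL Γ Γ x (ξ n)⟫_ℂ) atTop (𝓝 (tr x)))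
    {w : Op Γ} (hw : w ∈ LG Γ) :
    Tendsto (fun n => ‖opL Γ Γ w (ξ n)‖) atTop (𝓝 ‖w (dl 1)‖) := by
  have h1 := htr (star w * w) (mul_mem (star_mem hw) hw)
  rw [tr_star_mul_self] at h1
  have h2 : ∀ n, ⟪ξ n, opL Γ Γ (star w * w) (ξ n)⟫_ℂ = ((‖opL Γ Γ w (ξ n)‖ ^ 2 : ℝ) : ℂ) := by
    intro n
    rw [map_mul, map_star, mulA, ContinuousLinearMap.star_eq_adjoint,
      ContinuousLinearMap.adjoint_inner_right, inner_self_eq_norm_sq_to_K]
    push_cast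
    rfl
  have h3 := (Complex.continuous_re.tendsto _).comp h1
  have h4 : Tendsto (fun n => ‖opL Γ Γ w (ξ n)‖ ^ 2) atTop (𝓝 (‖w (dl 1)‖ ^ 2)) := by
    rw [Complex.ofReal_re] at h3
    refine h3.congr fun n => ?_
    rw [Function.comp_apply, h2, Complex.ofReal_re]
  have h5 := (Real.continuous_sqrt.tendsto _).comp h4
  rw [Real.sqrt_sq (norm_nonneg _)] at h5
  refine h5.congr fun n => ?_
  exact Real.sqrt_sq (norm_nonneg _)

/-- the same for right multiplications -/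
theorem first_leg_rgt (ξ : ℕ → L2 (Γ × Γ))
    (htr : ∀ x ∈ LG Γ, Tendsto (fun n => ⟪ξ n, opL Γ Γ (rgt x) (ξ n)⟫_ℂ) atTop (𝓝 (tr x)))
    {w : Op Γ} (hw : w ∈ LG Γ) :
    Tendsto (fun n => ‖opL Γ Γ (rgt w) (ξ n)‖) atTop (𝓝 ‖w (dl 1)‖) := by
  have h1 := htr (w * star w) (mul_mem hw (star_mem hw))
  rw [tr_mul_comm hw (star_mem hw), tr_star_mul_self] at h1
  have h2 : ∀ n, ⟪ξ n, opL Γ Γ (rgt (w * star w)) (ξ n)⟫_ℂ =
      ((‖opL Γ Γ (rgt w) (ξ n)‖ ^ 2 : ℝ) : ℂ) := by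
    intro n
    rw [rgt_mul, rgt_star, map_mul, map_star, mulA, ContinuousLinearMap.star_eq_adjoint,
      ContinuousLinearMap.adjoint_inner_right, inner_self_eq_norm_sq_to_K]
    push_cast
    rfl
  have h3 := (Complex.continuous_re.tendsto _).comp h1
  have h4 : Tendsto (fun n => ‖opL Γ Γ (rgt w) (ξ n)‖ ^ 2) atTop (𝓝 (‖w (dl 1)‖ ^ 2)) := by
    rw [Complex.ofReal_re] at h3
    refine h3.congr fun n => ?_
    rw [Function.comp_apply, h2, Complex.ofReal_re]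
  have h5 := (Real.continuous_sqrt.tendsto _).comp h4
  rw [Real.sqrt_sq (norm_nonneg _)] at h5
  refine h5.congr fun n => ?_
  exact Real.sqrt_sq (norm_nonneg _)

theorem adOp_sub_adOp (v u : Op Γ) :
    v * rgt (star v) = u * rgt (star u) + (v - u) * rgt (star v) + u * rgt (star (v - u)) := by
  rw [star_sub, rgt_sub, sub_mul, mul_sub]
  abel

theorem op2_sub_bound (ξ : L2 (Γ × Γ)) {u v S : Op Γ} (hu : ‖u‖ ≤ 1) (hS : ‖S‖ ≤ 1) :
    ‖⟪ξ, op2 (v * rgt (star v)) S ξ⟫_ℂ - ⟪ξ, op2 (u * rgt (star u)) S ξ⟫_ℂ‖ ≤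
      ‖opL Γ Γ (star (v - u)) ξ‖ * (‖v‖ * ‖ξ‖) + ‖ξ‖ * ‖opL Γ Γ (rgt (star (v - u))) ξ‖ := by
  have e : ⟪ξ, op2 (v * rgt (star v)) S ξ⟫_ℂ - ⟪ξ, op2 (u * rgt (star u)) S ξ⟫_ℂ =
      ⟪opL Γ Γ (star (v - u)) ξ, op2 (rgt (star v)) S ξ⟫_ℂ +
      ⟪ξ, op2 u S (opL Γ Γ (rgt (star (v - u))) ξ)⟫_ℂ := by
    have e1 : ⟪opL Γ Γ (star (v - u)) ξ, op2 (rgt (star v)) S ξ⟫_ℂ =
        ⟪ξ, op2 ((v - u) * rgt (star v)) S ξ⟫_ℂ := by
      rw [map_star, ContinuousLinearMap.star_eq_adjoint, ContinuousLinearMap.adjoint_inner_left,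
        ← mulA, opL_eq, ← op2_mul, one_mul]
    have e2 : op2 u S (opL Γ Γ (rgt (star (v - u))) ξ) =
        op2 (u * rgt (star (v - u))) S ξ := by
      rw [← mulA, opL_eq, ← op2_mul, mul_one]
    rw [e1, e2, adOp_sub_adOp v u, op2_add_left, op2_add_left, ContinuousLinearMap.add_apply,
      ContinuousLinearMap.add_apply, inner_add_right, inner_add_right]
    ring
  rw [e]
  have hop : ∀ (T S : Op Γ) (f : L2 (Γ × Γ)), ‖op2 T S f‖ ≤ ‖T‖ * ‖S‖ * ‖f‖ := fun T S f =>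
    ((op2 T S).le_opNorm f).trans (mul_le_mul_of_nonneg_right (norm_op2_le T S) (norm_nonneg _))
  refine (norm_add_le _ _).trans (add_le_add ?_ ?_)
  · refine (norm_inner_le_norm _ _).trans (mul_le_mul_of_nonneg_left ?_ (norm_nonneg _))
    refine (hop _ _ _).trans ?_
    have h1 : ‖rgt (star v)‖ ≤ ‖v‖ := (norm_rgt_le _).trans (norm_starOp v).le
    calc ‖rgt (star v)‖ * ‖S‖ * ‖ξ‖ ≤ ‖v‖ * 1 * ‖ξ‖ := by gcongr
      _ = _ := by ring
  · refine (norm_inner_le_norm _ _).trans (mul_le_mul_of_nonneg_left ?_ (norm_nonneg _))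
    refine (hop _ _ _).trans ?_
    calc ‖u‖ * ‖S‖ * ‖opL Γ Γ (rgt (star (v - u))) ξ‖
        ≤ 1 * 1 * ‖opL Γ Γ (rgt (star (v - u))) ξ‖ := by gcongr
      _ = _ := by ring

theorem unitary_rgt {u : Op Γ} (hu : u ∈ unitary (Op Γ)) : rgt u ∈ unitary (Op Γ) := by
  rw [Unitary.mem_iff] at hu ⊢
  rw [← rgt_star, ← rgt_mul, ← rgt_mul, hu.1, hu.2, rgt_one]
  exact ⟨rfl, rfl⟩

theorem unitary_cjOp {u : Op Γ} (hu : u ∈ unitary (Op Γ)) : cjOp u ∈ unitary (Op Γ) := by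
  rw [Unitary.mem_iff] at hu ⊢
  rw [← cjOp_star, ← cjOp_mul, ← cjOp_mul, hu.1, hu.2, cjOp_one]
  exact ⟨rfl, rfl⟩

theorem unitary_op2' {X Y : Type*} {u : Op X} {v : Op Y} (hu : u ∈ unitary (Op X))
    (hv : v ∈ unitary (Op Y)) : op2 u v ∈ unitary (Op (X × Y)) := by
  rw [Unitary.mem_iff] at hu hv ⊢
  rw [op2_star, ← op2_mul, ← op2_mul, hu.1, hu.2, hv.1, hv.2, op2_one]
  exact ⟨rfl, rfl⟩

theorem unitary_adOp {u : Op Γ} (hu : u ∈ unitary (Op Γ)) : adOp u ∈ unitary (Op Γ) :=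
  mul_mem hu (unitary_rgt (Unitary.star_mem hu))

/-- limits of the functionals on the last leg -/
theorem key_limit (ξ : ℕ → L2 (Γ × Γ)) (hξ1 : Tendsto (fun n => ‖ξ n‖) atTop (𝓝 1))
    (htr : ∀ x ∈ LG Γ, Tendsto (fun n => ⟪ξ n, opL Γ Γ x (ξ n)⟫_ℂ) atTop (𝓝 (tr x)) ∧
        Tendsto (fun n => ⟪ξ n, opL Γ Γ (rgt x) (ξ n)⟫_ℂ) atTop (𝓝 (tr x)))
    {u v S : Op Γ} (hu : u ∈ unitary (Op Γ)) (hS : S ∈ unitary (Op Γ))
    (huL : u ∈ LG Γ) (hvL : v ∈ LG Γ)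
    (hinv : Tendsto (fun n => ‖op2 (u * rgt (star u)) S (ξ n) - ξ n‖) atTop (𝓝 0)) {l : ℂ}
    (hl : Tendsto (fun n => ⟪ξ n, op2 (v * rgt (star v)) S (ξ n)⟫_ℂ) (Uf : Filter ℕ) (𝓝 l)) :
    ‖l - 1‖ ≤ (‖v‖ + 1) * ‖(v - u) (dl 1)‖ := by
  have hb : Tendsto (fun n => ⟪ξ n, op2 (u * rgt (star u)) S (ξ n)⟫_ℂ) atTop (𝓝 1) := by
    have h1 : Tendsto (fun n => ⟪ξ n, op2 (u * rgt (star u)) S (ξ n) - ξ n⟫_ℂ) atTop (𝓝 0) := by
      rw [tendsto_zero_iff_norm_tendsto_zero]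
      have h2 := hξ1.mul hinv
      rw [mul_zero] at h2
      exact squeeze_zero (fun n => norm_nonneg _) (fun n => norm_inner_le_norm _ _) h2
    have h3 : Tendsto (fun n => ⟪ξ n, ξ n⟫_ℂ) atTop (𝓝 1) := by
      have h4 := hξ1.pow 2
      have h5 := (Complex.continuous_ofReal.tendsto _).comp h4
      rw [one_pow, Complex.ofReal_one] at h5
      refine h5.congr fun n => ?_
      rw [inner_self_eq_norm_sq_to_K, Function.comp_apply]
      push_cast
      rfl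
    have h6 := h1.add h3
    rw [zero_add] at h6
    refine h6.congr fun n => ?_
    rw [inner_sub_right, sub_add_cancel]
  have hwL : star (v - u) ∈ LG Γ := star_mem (sub_mem hvL huL)
  have h1 := first_leg ξ (fun x hx => (htr x hx).1) hwL
  have h2 := first_leg_rgt ξ (fun x hx => (htr x hx).2) hwL
  rw [norm2_star (sub_mem hvL huL)] at h1 h2
  have h3 := (h1.mul (hξ1.const_mul ‖v‖)).add (hξ1.mul h2)
  have h4 := hl.sub (hb.mono_left Uf_le)
  refine (le_of_tendsto_of_tendsto h4.norm (h3.mono_left Uf_le) (Eventually.of_forall fun n =>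
    op2_sub_bound (ξ n) (WC.norm_le_one_of_unitary hu) (WC.norm_le_one_of_unitary hS))).trans ?_
  apply le_of_eq
  ring

end

end MP7e.Fin

namespace MP7e

open scoped InnerProductSpace TensorProduct ENNReal
open Filter Topology Classical

noncomputable section

/-- The final argument. -/
theorem specFin (hWC : SpecWC) (hEsc : SpecEsc) (hVBi : SpecVBi) (hM3 : SpecM3) (hMC : SpecMC)
    (hWu : SpecWu) (hGen : SpecGen) (hInv : SpecInv) : SpecFin := by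
  intro Γ _ c hBi A hA hdiff ham
  have hA' : A ≤ LG Γ := hA
  obtain ⟨ξ, hξ1, hξa, hξu, hξtr⟩ := hWC Γ c A hA' ham
  have hesc := hEsc Γ A hA' hdiff ξ hξ1 hξa
  choose ζ hζ hbi using hBi
  have hζ' : ∀ m, UnitField (ζ m) := fun m g => hζ m g
  -- the functionals
  have hc1 : ∀ m, Tendsto (fun n => (c.m m).C ^ 4 * ‖ξ n‖ ^ 2) atTop (𝓝 ((c.m m).C ^ 4)) := by
    intro m
    have h := (hξ1.pow 2).const_mul ((c.m m).C ^ 4)
    simpa using h
  have hFm : ∀ m, ∃ L0 : Op (Γ × (Γ × Γ)) →ₗ[ℂ] ℂ,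
      (∀ X, Tendsto (fun n => Fin.Fmn (c.m m) (VBi (hζ' m) (ξ n)) X) (Fin.Uf : Filter ℕ)
        (𝓝 (L0 X))) ∧ ∀ X, ‖L0 X‖ ≤ (c.m m).C ^ 4 * ‖X‖ := by
    intro m
    apply Fin.exists_limit (fun n => Fin.Fmn (c.m m) (VBi (hζ' m) (ξ n)))
      (fun n => (c.m m).C ^ 4 * ‖ξ n‖ ^ 2) _ (hc1 m)
    intro n X
    have h := Fin.Fmn_le (c.m m) (VBi (hζ' m) (ξ n)) X
    rwa [(hVBi Γ (ζ m) (hζ' m)).1 (ξ n)] at h
  choose Fm hFm1 hFm2 using hFm
  have hc2 : Tendsto (fun m => (c.m m).C ^ 4) atTop (𝓝 1) := by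
    simpa using c.hC.pow 4
  obtain ⟨F, hF1, hF2⟩ := Fin.exists_limit Fm (fun m => (c.m m).C ^ 4) 1 hc2 hFm2
  -- values of the functionals
  have hval : ∀ m, ∀ x ∈ LG Γ, ∀ y ∈ LG Γ, ∀ S : Op Γ,
      Tendsto (fun n => ⟪ξ n, op2 (mulBy (c.m m) x * rgt (star (mulBy (c.m m) y))) S (ξ n)⟫_ℂ)
        (Fin.Uf : Filter ℕ) (𝓝 (Fm m (op2 x (op2 (rgt (star y)) S)))) := by
    intro m x hx y hy S
    have h1 := hWu Γ (c.m m) (ζ m) (hζ' m) (fun s hs t ht => (hbi m s hs t ht).2) ξ hξ1 hesc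
      x hx y hy S
    have h2 := (hFm1 m (op2 x (op2 (rgt (star y)) S))).sub (h1.mono_left Fin.Uf_le)
    rw [sub_zero] at h2
    refine h2.congr fun n => ?_
    rw [Fin.Fmn_apply]
    ring
  -- the restriction to `L(Γ)`
  have htr : ∀ x ∈ LG Γ, F (opL Γ (Γ × Γ) x) = tr x := by
    intro x hx
    have h1 : ∀ m, Fm m (opL Γ (Γ × Γ) x) = tr x := by
      intro m
      have h2 := hval m x hx 1 (one_mem _) 1
      rw [star_one, rgt_one, op2_one, Fin.mulBy_one _ (c.h1 m), star_one, rgt_one, mul_one] at h2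
      have h3 := (hξtr (mulBy (c.m m) x) ((hM3 Γ (c.m m)).2.2 x)).1
      rw [Fin.tr_mulBy _ (c.h1 m)] at h3
      exact tendsto_nhds_unique h2 (h3.mono_left Fin.Uf_le)
    refine tendsto_nhds_unique (hF1 _) ?_
    simp only [h1]
    exact tendsto_const_nhds
  have hFone : F 1 = 1 := by
    have h := htr 1 (one_mem _)
    rwa [map_one, tr_one] at h
  -- the value at `W_u`
  have hW : ∀ u ∈ normalizer (LG Γ) A, F (op2 u (op2 (rgt (star u)) (adOp (cjOp u)))) = 1 := by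
    intro u hu
    have hlim : ∀ m, ‖Fm m (op2 u (op2 (rgt (star u)) (adOp (cjOp u)))) - 1‖ ≤
        ((c.m m).C ^ 2 + 1) * ‖(mulBy (c.m m) u - u) (dl 1)‖ := by
      intro m
      have h1 := Fin.key_limit ξ hξ1 hξtr hu.2.1 (Fin.unitary_adOp (Fin.unitary_cjOp hu.2.1))
        hu.1 ((hM3 Γ (c.m m)).2.2 u) (hξu u hu) (hval m u hu.1 u hu.1 (adOp (cjOp u)))
      refine h1.trans (mul_le_mul_of_nonneg_right ?_ (norm_nonneg _))
      have h2 := (hM3 Γ (c.m m)).2.1 u hu.1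
      have h3 := WC.norm_le_one_of_unitary hu.2.1
      have h4 : (c.m m).C ^ 2 * ‖u‖ ≤ (c.m m).C ^ 2 * 1 :=
        mul_le_mul_of_nonneg_left h3 (by positivity)
      linarith
    have h5 : Tendsto (fun m => ((c.m m).C ^ 2 + 1) * ‖(mulBy (c.m m) u - u) (dl 1)‖) atTop
        (𝓝 0) := by
      have h6 := ((c.hC.pow 2).add_const 1).mul (hMC Γ c u hu.1).1
      simpa using h6
    have h7 : Tendsto (fun m => Fm m (op2 u (op2 (rgt (star u)) (adOp (cjOp u)))) - 1)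
        (Fin.Uf : Filter ℕ) (𝓝 0) := by
      rw [tendsto_zero_iff_norm_tendsto_zero]
      exact squeeze_zero (fun n => norm_nonneg _) hlim (h5.mono_left Fin.Uf_le)
    have h8 := h7.add_const 1
    rw [zero_add] at h8
    refine tendsto_nhds_unique (hF1 _) (h8.congr fun n => ?_)
    ring
  -- invariance
  have hinv : ∀ u ∈ normalizer (LG Γ) A, ∀ z,
      F (op2 u (op2 (rgt (star u)) (adOp (cjOp u))) * z) = F z ∧
      F (z * op2 u (op2 (rgt (star u)) (adOp (cjOp u)))) = F z := by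
    intro u hu z
    have hWu' : op2 u (op2 (rgt (star u)) (adOp (cjOp u))) ∈ unitary (Op (Γ × (Γ × Γ))) :=
      Fin.unitary_op2' hu.2.1 (Fin.unitary_op2' (Fin.unitary_rgt (Unitary.star_mem hu.2.1))
        (Fin.unitary_adOp (Fin.unitary_cjOp hu.2.1)))
    have key : ∀ ε : ℝ, 0 < ε → ε ≤ 1 →
        ‖F (op2 u (op2 (rgt (star u)) (adOp (cjOp u))) * z) - F z‖ ≤
          20 * Real.sqrt ε * ‖z‖ ∧
        ‖F (z * op2 u (op2 (rgt (star u)) (adOp (cjOp u)))) - F z‖ ≤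
          20 * Real.sqrt ε * ‖z‖ := by
      intro ε hε hε1
      refine hInv (L2 (Γ × (Γ × Γ))) ⊤ F ε hε hε1 ?_ ?_ _ StarSubalgebra.mem_top hWu' ?_ z
        StarSubalgebra.mem_top
      · intro z _
        refine (hF2 z).trans (mul_le_mul_of_nonneg_right ?_ (norm_nonneg _))
        linarith
      · rw [hFone, sub_self, norm_zero]; exact hε.le
      · rw [hW u hu, sub_self, norm_zero]; exact hε.le
    have hlim : Tendsto (fun n : ℕ => 20 * Real.sqrt (1 / ((n : ℝ) + 1)) * ‖z‖) atTop (𝓝 0) := by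
      have h1 := (Real.continuous_sqrt.tendsto 0).comp
        (tendsto_one_div_add_atTop_nhds_zero_nat (𝕜 := ℝ))
      rw [Real.sqrt_zero] at h1
      have h2 := (h1.const_mul 20).mul_const ‖z‖
      simpa using h2
    have hε : ∀ n : ℕ, 0 < 1 / ((n : ℝ) + 1) ∧ 1 / ((n : ℝ) + 1) ≤ 1 := by
      intro n
      refine ⟨by positivity, ?_⟩
      rw [div_le_one (by positivity)]
      have : (0 : ℝ) ≤ n := Nat.cast_nonneg n
      linarith
    constructor
    · rw [← sub_eq_zero, ← norm_le_zero_iff]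
      exact ge_of_tendsto' hlim fun n => (key _ (hε n).1 (hε n).2).1
    · rw [← sub_eq_zero, ← norm_le_zero_iff]
      exact ge_of_tendsto' hlim fun n => (key _ (hε n).1 (hε n).2).2
  -- the central state
  let φ : Op Γ →ₗ[ℂ] ℂ := F ∘ₗ (opL Γ (Γ × Γ)).toAlgHom.toLinearMap
  have hφ : ∀ T, φ T = F (opL Γ (Γ × Γ) T) := fun T => rfl
  have hφs : IsState φ := by
    refine ⟨?_, fun T => ?_⟩
    · rw [hφ, map_one, hFone]
    · rw [hφ]
      have h1 := hF2 (opL Γ (Γ × Γ) T)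
      have h2 := norm_opL_le (Y := Γ × Γ) T
      linarith
  have hφτ : ∀ x ∈ (LGt Γ).alg, φ x = (LGt Γ).τ x := by
    intro x hx
    rw [hφ, htr x hx, LGt_τ]
  have hcent : ∀ u ∈ normalizer (LG Γ) A, ∀ T, φ (u * T) = φ (T * u) := by
    intro u hu T
    have hR : op2 (rgt (star u)) (adOp (cjOp u)) ∈ unitary (Op (Γ × Γ)) :=
      Fin.unitary_op2' (Fin.unitary_rgt (Unitary.star_mem hu.2.1))
        (Fin.unitary_adOp (Fin.unitary_cjOp hu.2.1))
    have hR1 := Unitary.mem_iff.1 hR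
    set R0 := op2 (rgt (star u)) (adOp (cjOp u)) with hR0
    rw [hφ, hφ, map_mul (opL Γ (Γ × Γ)), map_mul (opL Γ (Γ × Γ))]
    have e1 : op2 u R0 * (opR Γ (Γ × Γ) (star R0) * opL Γ (Γ × Γ) T) =
        opL Γ (Γ × Γ) u * opL Γ (Γ × Γ) T := by
      rw [← mul_assoc, ← opL_mul_opR u R0, mul_assoc (opL Γ (Γ × Γ) u), ← map_mul, hR1.2,
        map_one, mul_one]
    have e2 : (opL Γ (Γ × Γ) T * opR Γ (Γ × Γ) (star R0)) * op2 u R0 =
        opL Γ (Γ × Γ) T * opL Γ (Γ × Γ) u := by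
      rw [← opR_mul_opL u R0, mul_assoc, ← mul_assoc (opR Γ (Γ × Γ) (star R0)), ← map_mul, hR1.1,
        map_one, one_mul]
    rw [← e1, ← e2, (hinv u hu _).1, (hinv u hu _).2, opL_opR_comm]
  obtain ⟨-, hfin⟩ := hGen (L2 Γ) (LGt Γ) φ hφs hφτ (normalizer (LG Γ) A) (fun s hs => hs.1)
    (fun s hs T => hcent s hs T) (fun s hs T => hcent (star s) (normalizer_star hs) T)
  exact ⟨φ, hφs, hφτ, hfin⟩

end

end MP7e
end
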