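import Pool.Agent.Lib.MP_7e9852_an.L2b

/-!
The group von Neumann algebra `LG G` on `ℓ²(G)`.
-/

namespace MP7e

open scoped InnerProductSpace TensorProduct ENNReal
open Classical

noncomputable section

variable {G : Type*} [Group G]

theorem mulA {X : Type*} (S T : Op X) (f : L2 X) : (S * T) f = S (T f) := rfl

theorem norm_starOp {X : Type*} (T : Op X) : ‖star T‖ = ‖T‖ := by
  rw [ContinuousLinearMap.star_eq_adjoint]
  exact LinearIsometryEquiv.norm_map _ _

/-- left translation -/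
def lam (g : G) : Op G := perm (Equiv.mulLeft g)

/-- right translation -/
def rho (g : G) : Op G := perm (Equiv.mulRight g⁻¹)

@[simp] theorem lam_dl (g h : G) : lam g (dl h) = dl (g * h) := perm_dl _ _

@[simp] theorem rho_dl (g h : G) : rho g (dl h) = dl (h * g⁻¹) := perm_dl _ _

@[simp] theorem lam_apply (g : G) (f : L2 G) (h : G) : (lam g f : G → ℂ) h = f (g⁻¹ * h) := rfl

@[simp] theorem rho_apply (g : G) (f : L2 G) (h : G) : (rho g f : G → ℂ) h = f (h * g) := by
  show f ((Equiv.mulRight g⁻¹).symm h) = f (h * g)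
  simp

theorem lam_mul (g h : G) : lam (g * h) = lam g * lam h := by
  apply clm_ext; intro x; simp [mul_assoc]

theorem rho_mul (g h : G) : rho (g * h) = rho g * rho h := by
  apply clm_ext; intro x; simp [mul_assoc]

@[simp] theorem lam_one : lam (1 : G) = 1 := by
  apply clm_ext; intro x; simp

@[simp] theorem rho_one : rho (1 : G) = 1 := by
  apply clm_ext; intro x; simp

theorem star_lam (g : G) : star (lam g) = lam g⁻¹ := by
  unfold lam
  rw [perm_star]
  congr 1
  ext x
  simp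

theorem star_rho (g : G) : star (rho g) = rho g⁻¹ := by
  unfold rho
  rw [perm_star]
  congr 1
  ext x
  simp

@[simp] theorem norm_lam_apply (g : G) (f : L2 G) : ‖lam g f‖ = ‖f‖ := norm_perm _ _

@[simp] theorem norm_rho_apply (g : G) (f : L2 G) : ‖rho g f‖ = ‖f‖ := norm_perm _ _

theorem lam_rho (g h : G) : lam g * rho h = rho h * lam g := by
  apply clm_ext; intro x; simp [mul_assoc]

/-- the group von Neumann algebra, as the commutant of the right translations -/
def LG (G : Type*) [Group G] : VonNeumannAlgebra (L2 G) where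
  toStarSubalgebra := StarSubalgebra.centralizer ℂ (Set.range (rho : G → Op G))
  centralizer_centralizer' := by
    show Set.centralizer (Set.centralizer
      (StarSubalgebra.centralizer ℂ (Set.range (rho : G → Op G)) : Set (Op G))) =
      (StarSubalgebra.centralizer ℂ (Set.range (rho : G → Op G)) : Set (Op G))
    rw [StarSubalgebra.coe_centralizer]
    exact Set.centralizer_centralizer_centralizer _

theorem mem_LG {T : Op G} : T ∈ LG G ↔ ∀ g, T * rho g = rho g * T := by
  have h1 : T ∈ LG G ↔ T ∈ StarSubalgebra.centralizer ℂ (Set.range (rho : G → Op G)) := Iff.rfl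
  rw [h1, StarSubalgebra.mem_centralizer_iff]
  constructor
  · intro h g
    exact ((h (rho g) ⟨g, rfl⟩).1).symm
  · rintro h _ ⟨g, rfl⟩
    refine ⟨(h g).symm, ?_⟩
    rw [star_rho]
    exact (h g⁻¹).symm

theorem lam_mem (g : G) : lam g ∈ LG G := mem_LG.2 fun h => lam_rho g h

theorem LG_apply_dl {T : Op G} (hT : T ∈ LG G) (g : G) : T (dl g) = rho g⁻¹ (T (dl 1)) := by
  have h := mem_LG.1 hT g⁻¹
  have h2 := congrArg (fun S : Op G => S (dl 1)) h
  simp only [mulA, rho_dl, inv_inv, one_mul] at h2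
  exact h2

theorem LG_coeff {T : Op G} (hT : T ∈ LG G) (g h : G) :
    (T (dl g) : G → ℂ) h = (T (dl 1) : G → ℂ) (h * g⁻¹) := by
  rw [LG_apply_dl hT g, rho_apply]

theorem LG_ext {S T : Op G} (hS : S ∈ LG G) (hT : T ∈ LG G) (h : S (dl 1) = T (dl 1)) :
    S = T := by
  apply clm_ext
  intro g
  rw [LG_apply_dl hS, LG_apply_dl hT, h]

theorem LG_norm_dl {T : Op G} (hT : T ∈ LG G) (g : G) : ‖T (dl g)‖ = ‖T (dl 1)‖ := by
  rw [LG_apply_dl hT, norm_rho_apply]

theorem LG_star_coeff {T : Op G} (hT : T ∈ LG G) (g : G) :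
    ((star T) (dl 1) : G → ℂ) g = star ((T (dl 1) : G → ℂ) g⁻¹) := by
  rw [star_dl, LG_coeff hT, one_mul]

/-- the trace -/
def tr (T : Op G) : ℂ := (T (dl 1) : G → ℂ) 1

theorem tr_eq_inner (T : Op G) : tr T = ⟪dl 1, T (dl 1)⟫_ℂ := (inner_dl_left _ _).symm

@[simp] theorem tr_one : tr (1 : Op G) = 1 := dl_self _

theorem tr_add (S T : Op G) : tr (S + T) = tr S + tr T := rfl

theorem tr_smul (c : ℂ) (T : Op G) : tr (c • T) = c * tr T := rfl

theorem tr_star (T : Op G) : tr (star T) = star (tr T) := star_dl _ _ _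

theorem norm_tr_le (T : Op G) : ‖tr T‖ ≤ ‖T‖ := by
  rw [tr_eq_inner]
  calc ‖⟪dl 1, T (dl 1)⟫_ℂ‖ ≤ ‖(dl 1 : L2 G)‖ * ‖T (dl 1)‖ := norm_inner_le_norm _ _
    _ ≤ 1 * (‖T‖ * 1) := by
        rw [norm_dl]
        have := T.le_opNorm (dl 1)
        rw [norm_dl] at this
        gcongr
    _ = ‖T‖ := by ring

theorem tr_star_mul_self (T : Op G) : tr (star T * T) = ((‖T (dl 1)‖ ^ 2 : ℝ) : ℂ) := by
  rw [tr_eq_inner, mulA, ContinuousLinearMap.star_eq_adjoint,
    ContinuousLinearMap.adjoint_inner_right, inner_self_eq_norm_sq_to_K]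
  norm_cast

/-- the commutation theorem: `LG G` commutes with the commutant of the left translations -/
theorem LG_comm {T S : Op G} (hT : T ∈ LG G) (hS : ∀ g, S * lam g = lam g * S) :
    T * S = S * T := by
  have hS1 : ∀ g, S (dl g) = lam g (S (dl 1)) := by
    intro g
    have h2 := congrArg (fun R : Op G => R (dl 1)) (hS g)
    simp only [mulA, lam_dl, mul_one] at h2
    exact h2
  have hS2 : ∀ g, S * lam g = lam g * S := hS
  have hSs : ∀ g, star S * lam g = lam g * star S := by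
    intro g
    have h := congrArg star (hS g⁻¹)
    rw [star_mul, star_mul, star_lam, inv_inv] at h
    exact h.symm
  have hSs1 : ∀ g, (star S) (dl g) = lam g ((star S) (dl 1)) := by
    intro g
    have h2 := congrArg (fun R : Op G => R (dl 1)) (hSs g)
    simp only [mulA, lam_dl, mul_one] at h2
    exact h2
  have hTs : star T ∈ LG G := star_mem hT
  apply op_ext
  intro g h
  have e1 : ((T * S) (dl g) : G → ℂ) h = ⟪(star T) (dl h), S (dl g)⟫_ℂ := by
    rw [← inner_dl_left, mulA, ContinuousLinearMap.star_eq_adjoint,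
      ContinuousLinearMap.adjoint_inner_left]
  have e2 : ((S * T) (dl g) : G → ℂ) h = ⟪(star S) (dl h), T (dl g)⟫_ℂ := by
    rw [← inner_dl_left, mulA, ContinuousLinearMap.star_eq_adjoint,
      ContinuousLinearMap.adjoint_inner_left]
  rw [e1, e2]
  have s1 := lp.hasSum_inner (𝕜 := ℂ) ((star T) (dl h)) (S (dl g))
  have s2 := lp.hasSum_inner (𝕜 := ℂ) ((star S) (dl h)) (T (dl g))
  let e : G ≃ G := ((Equiv.inv G).trans (Equiv.mulLeft h)).trans (Equiv.mulRight g)
  have he : ∀ k, e k = h * k⁻¹ * g := fun k => rfl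
  have s3 := (Equiv.hasSum_iff e (f := fun k =>
    ⟪((star S) (dl h) : G → ℂ) k, (T (dl g) : G → ℂ) k⟫_ℂ)
    (a := ⟪(star S) (dl h), T (dl g)⟫_ℂ)).2 s2
  have e3 : ((fun k => ⟪((star S) (dl h) : G → ℂ) k, (T (dl g) : G → ℂ) k⟫_ℂ) ∘ e) =
      fun k => ⟪((star T) (dl h) : G → ℂ) k, (S (dl g) : G → ℂ) k⟫_ℂ := by
    funext k
    simp only [Function.comp_apply, he, RCLike.inner_apply]
    rw [hS1, hSs1, lam_apply, lam_apply, LG_coeff hT, star_dl, LG_coeff hTs, LG_star_coeff hT]
    rw [hS1, lam_apply]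
    simp only [RCLike.star_def, Complex.conj_conj, mul_inv_rev, inv_inv, mul_one, mul_assoc,
      inv_mul_cancel_left, mul_inv_cancel]
    ring
  rw [e3] at s3
  exact s1.unique s3

theorem tr_mul_comm {S T : Op G} (hS : S ∈ LG G) (hT : T ∈ LG G) : tr (S * T) = tr (T * S) := by
  have e1 : tr (S * T) = ⟪(star S) (dl 1), T (dl 1)⟫_ℂ := by
    rw [tr_eq_inner, mulA, ContinuousLinearMap.star_eq_adjoint,
      ContinuousLinearMap.adjoint_inner_left]
  have e2 : tr (T * S) = ⟪(star T) (dl 1), S (dl 1)⟫_ℂ := by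
    rw [tr_eq_inner, mulA, ContinuousLinearMap.star_eq_adjoint,
      ContinuousLinearMap.adjoint_inner_left]
  rw [e1, e2]
  have s1 := lp.hasSum_inner (𝕜 := ℂ) ((star S) (dl 1)) (T (dl 1))
  have s2 := lp.hasSum_inner (𝕜 := ℂ) ((star T) (dl 1)) (S (dl 1))
  have s3 := (Equiv.hasSum_iff (Equiv.inv G) (f := fun k =>
    ⟪((star T) (dl 1) : G → ℂ) k, (S (dl 1) : G → ℂ) k⟫_ℂ)
    (a := ⟪(star T) (dl 1), S (dl 1)⟫_ℂ)).2 s2
  have e3 : ((fun k => ⟪((star T) (dl 1) : G → ℂ) k, (S (dl 1) : G → ℂ) k⟫_ℂ) ∘ (Equiv.inv G)) =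
      fun k => ⟪((star S) (dl 1) : G → ℂ) k, (T (dl 1) : G → ℂ) k⟫_ℂ := by
    funext k
    simp only [Function.comp_apply, Equiv.inv_apply, RCLike.inner_apply]
    rw [LG_star_coeff hT, LG_star_coeff hS, inv_inv]
    simp only [RCLike.star_def, Complex.conj_conj]
    ring
  rw [e3] at s3
  exact s1.unique s3

/-! ### Right multiplication -/

/-- right multiplication by `x` -/
def rgt (x : Op G) : Op G := perm (Equiv.inv G) * cjOp (star x) * perm (Equiv.inv G)

theorem perm_inv_mul_self : perm (Equiv.inv G) * perm (Equiv.inv G) = (1 : Op G) := by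
  apply clm_ext; intro x; simp

theorem perm_inv_lam (g : G) : perm (Equiv.inv G) * lam g = rho g * perm (Equiv.inv G) := by
  apply clm_ext; intro x; simp

theorem perm_inv_rho (g : G) : perm (Equiv.inv G) * rho g = lam g * perm (Equiv.inv G) := by
  apply clm_ext; intro x; simp

theorem cjOp_rho (g : G) : cjOp (rho g) = rho g := cjOp_perm _

theorem cjOp_lam (g : G) : cjOp (lam g) = lam g := cjOp_perm _

theorem cjOp_mem {T : Op G} (hT : T ∈ LG G) : cjOp T ∈ LG G := by
  rw [mem_LG]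
  intro g
  rw [← cjOp_rho g, ← cjOp_mul, mem_LG.1 hT g, cjOp_mul]

theorem cjOp_coeff {G : Type*} (T : Op G) (g h : G) :
    (cjOp T (dl g) : G → ℂ) h = star ((T (dl g) : G → ℂ) h) := by
  rw [cjOp_apply, cj_dl, cj_apply]

theorem rgt_mul (x y : Op G) : rgt (x * y) = rgt y * rgt x := by
  unfold rgt
  rw [star_mul, cjOp_mul]
  calc perm (Equiv.inv G) * (cjOp (star y) * cjOp (star x)) * perm (Equiv.inv G)
      = perm (Equiv.inv G) * (cjOp (star y) * 1 * cjOp (star x)) * perm (Equiv.inv G) := by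
        rw [mul_one]
    _ = _ := by
        rw [← perm_inv_mul_self]
        simp only [mul_assoc]

@[simp] theorem rgt_one : rgt (1 : Op G) = 1 := by
  unfold rgt
  rw [star_one, cjOp_one, mul_one, perm_inv_mul_self]

theorem rgt_add (x y : Op G) : rgt (x + y) = rgt x + rgt y := by
  unfold rgt
  rw [star_add, cjOp_add, mul_add, add_mul]

theorem rgt_smul (c : ℂ) (x : Op G) : rgt (c • x) = c • rgt x := by
  unfold rgt
  rw [star_smul, cjOp_smul, star_star, mul_smul_comm, smul_mul_assoc]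

theorem rgt_star (x : Op G) : rgt (star x) = star (rgt x) := by
  unfold rgt
  rw [star_mul, star_mul, perm_star, ← cjOp_star, mul_assoc]
  rfl

theorem rgt_sub (x y : Op G) : rgt (x - y) = rgt x - rgt y := by
  have h := rgt_add (x - y) y
  rw [sub_add_cancel] at h
  rw [h, add_sub_cancel_right]

theorem rgt_zero : rgt (0 : Op G) = 0 := by
  have h := rgt_sub (0 : Op G) 0
  simpa using h

theorem rgt_sum {ι : Type*} (s : Finset ι) (x : ι → Op G) :
    rgt (∑ i ∈ s, x i) = ∑ i ∈ s, rgt (x i) := by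
  classical
  induction s using Finset.induction_on with
  | empty => simp [rgt_zero]
  | insert a s ha ih => rw [Finset.sum_insert ha, Finset.sum_insert ha, rgt_add, ih]

theorem norm_rgt_le (x : Op G) : ‖rgt x‖ ≤ ‖x‖ := by
  apply ContinuousLinearMap.opNorm_le_bound _ (norm_nonneg _)
  intro f
  unfold rgt
  rw [mulA, mulA, norm_perm]
  have h := (cjOp (star x)).le_opNorm (perm (Equiv.inv G) f)
  rwa [norm_cjOp, norm_starOp, norm_perm] at h

theorem rgt_lam (g : G) : rgt (lam g) = rho g⁻¹ := by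
  unfold rgt
  rw [star_lam, cjOp_lam, perm_inv_lam, mul_assoc, perm_inv_mul_self, mul_one]

theorem rgt_lam_comm {x : Op G} (hx : x ∈ LG G) (g : G) : rgt x * lam g = lam g * rgt x := by
  unfold rgt
  have h := mem_LG.1 (cjOp_mem (star_mem hx)) g
  calc perm (Equiv.inv G) * cjOp (star x) * perm (Equiv.inv G) * lam g
      = perm (Equiv.inv G) * (cjOp (star x) * rho g) * perm (Equiv.inv G) := by
        rw [mul_assoc _ _ (lam g), perm_inv_lam]; simp only [mul_assoc]
    _ = (perm (Equiv.inv G) * rho g) * cjOp (star x) * perm (Equiv.inv G) := by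
        rw [h]; simp only [mul_assoc]
    _ = lam g * (perm (Equiv.inv G) * cjOp (star x) * perm (Equiv.inv G)) := by
        rw [perm_inv_rho]; simp only [mul_assoc]

/-- left and right multiplications commute -/
theorem LG_rgt_comm {T x : Op G} (hT : T ∈ LG G) (hx : x ∈ LG G) : T * rgt x = rgt x * T :=
  LG_comm hT (rgt_lam_comm hx)

theorem rgt_dl_one {x : Op G} (hx : x ∈ LG G) : rgt x (dl 1) = x (dl 1) := by
  apply Subtype.ext
  funext g
  unfold rgt
  rw [mulA, mulA, perm_apply, perm_dl]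
  simp only [Equiv.inv_apply, inv_one, Equiv.inv_symm]
  rw [cjOp_coeff, LG_star_coeff hx, inv_inv, star_star]

/-- right multiplication acts as expected on vectors `T δ_1` -/
theorem rgt_apply {T x : Op G} (hT : T ∈ LG G) (hx : x ∈ LG G) :
    rgt x (T (dl 1)) = (T * x) (dl 1) := by
  rw [← mulA, ← LG_rgt_comm hT hx, mulA, rgt_dl_one hx, mulA]

/-- `‖T x‖₂ ≤ ‖x‖ ‖T‖₂` -/
theorem norm2_mul_le_right {T x : Op G} (hT : T ∈ LG G) (hx : x ∈ LG G) :
    ‖(T * x) (dl 1)‖ ≤ ‖x‖ * ‖T (dl 1)‖ := by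
  rw [← rgt_apply hT hx]
  exact ((rgt x).le_opNorm _).trans (mul_le_mul_of_nonneg_right (norm_rgt_le x) (norm_nonneg _))

/-- `‖T x‖₂ ≤ ‖T‖ ‖x‖₂` -/
theorem norm2_mul_le_left (T x : Op G) : ‖(T * x) (dl 1)‖ ≤ ‖T‖ * ‖x (dl 1)‖ :=
  T.le_opNorm _

theorem norm2_star {T : Op G} (hT : T ∈ LG G) : ‖(star T) (dl 1)‖ = ‖T (dl 1)‖ := by
  have h1 := tr_star_mul_self T
  have h2 := tr_star_mul_self (star T)
  rw [star_star, tr_mul_comm hT (star_mem hT), h1] at h2
  have h3 : ‖T (dl 1)‖ ^ 2 = ‖(star T) (dl 1)‖ ^ 2 := by exact_mod_cast h2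
  exact ((sq_eq_sq₀ (norm_nonneg _) (norm_nonneg _)).1 h3).symm

/-- the value of the trace state of a product through right multiplication -/
theorem inner_rgt {T x : Op G} (hT : T ∈ LG G) (hx : x ∈ LG G) :
    ⟪T (dl 1), rgt x (T (dl 1))⟫_ℂ = tr (star T * T * x) := by
  rw [rgt_apply hT hx, tr_eq_inner, mulA (star T * T), mulA (star T), mulA T,
    ContinuousLinearMap.star_eq_adjoint, ContinuousLinearMap.adjoint_inner_right]

end

end MP7e
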