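import Mathlib

/-!
Toolbox for `ℓ²(X)`: basis vectors, elementary tensors, operators `T ⊗ 1`, `1 ⊗ T`,
permutation unitaries, complex conjugation, block operators `V α`.
-/

namespace MP7e

open scoped InnerProductSpace TensorProduct ENNReal
open Classical

noncomputable section

/-- the Hilbert space `ℓ²(X)` -/
abbrev L2 (X : Type*) := lp (fun _ : X => ℂ) 2

/-- bounded operators on `ℓ²(X)` -/
abbrev Op (X : Type*) := L2 X →L[ℂ] L2 X

variable {X Y Z : Type*}

/-- the basis vector at `x` -/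
def dl (x : X) : L2 X := lp.single 2 x (1 : ℂ)

theorem dl_apply (x y : X) : (dl x : X → ℂ) y = if y = x then 1 else 0 := by
  unfold dl
  rw [lp.single_apply]
  by_cases h : y = x
  · subst h; simp
  · simp [h]

theorem dl_self (x : X) : (dl x : X → ℂ) x = 1 := by simp [dl_apply]

theorem dl_ne {x y : X} (h : y ≠ x) : (dl x : X → ℂ) y = 0 := by simp [dl_apply, h]

theorem inner_dl_left (x : X) (f : L2 X) : ⟪dl x, f⟫_ℂ = f x := by
  unfold dl
  rw [lp.inner_single_left]
  simp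

theorem inner_dl_right (x : X) (f : L2 X) : ⟪f, dl x⟫_ℂ = star (f x) := by
  rw [← inner_conj_symm, inner_dl_left]; rfl

theorem inner_dl_dl (x y : X) : ⟪dl x, dl y⟫_ℂ = if x = y then 1 else 0 := by
  rw [inner_dl_left, dl_apply]

theorem norm_dl (x : X) : ‖dl x‖ = 1 := by
  have h : ⟪dl x, dl x⟫_ℂ = 1 := by rw [inner_dl_dl]; simp
  have h2 := inner_self_eq_norm_sq_to_K (𝕜 := ℂ) (dl x)
  rw [h] at h2
  have h3 : (‖dl x‖ ^ 2 : ℝ) = 1 := by
    have : ((‖dl x‖ ^ 2 : ℝ) : ℂ) = 1 := by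
      rw [Complex.ofReal_pow]; exact h2.symm
    exact_mod_cast this
  nlinarith [norm_nonneg (dl x)]

theorem hasSum_dl (f : L2 X) : HasSum (fun x => f x • dl x) f := by
  have h := lp.hasSum_single (E := fun _ : X => ℂ) (p := 2) (by norm_num) f
  have e : (fun x => f x • dl x) = fun x => lp.single 2 x (f x) := by
    funext x
    unfold dl
    rw [← lp.single_smul]
    simp
  rw [e]
  exact h

/-- the square norm as a sum -/
theorem hasSum_normSq (f : L2 X) : HasSum (fun x => ‖f x‖ ^ 2) (‖f‖ ^ 2) := by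
  have h := lp.hasSum_norm (E := fun _ : X => ℂ) (p := 2) (by norm_num) f
  simpa using h

theorem summable_normSq (f : L2 X) : Summable (fun x => ‖f x‖ ^ 2) := (hasSum_normSq f).summable

theorem normSq_eq_tsum (f : L2 X) : ‖f‖ ^ 2 = ∑' x, ‖f x‖ ^ 2 := (hasSum_normSq f).tsum_eq.symm

theorem memlp_of_summable {f : X → ℂ} (h : Summable (fun x => ‖f x‖ ^ 2)) :
    Memℓp f 2 := by
  apply memℓp_gen
  simpa using h

/-- an element of `ℓ²(X)` from a square summable function -/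
def mk2 (f : X → ℂ) (h : Summable (fun x => ‖f x‖ ^ 2)) : L2 X := ⟨f, memlp_of_summable h⟩

@[simp] theorem mk2_apply (f : X → ℂ) (h : Summable (fun x => ‖f x‖ ^ 2)) (x : X) :
    (mk2 f h : X → ℂ) x = f x := rfl

theorem dense_span_dl : Dense (Submodule.span ℂ (Set.range (dl : X → L2 X)) : Set (L2 X)) := by
  intro f
  apply mem_closure_of_tendsto (hasSum_dl f)
  filter_upwards with s
  exact Submodule.sum_mem _ fun x _ => Submodule.smul_mem _ _ (Submodule.subset_span ⟨x, rfl⟩)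

/-- continuous linear maps on `ℓ²(X)` agreeing on basis vectors are equal -/
theorem clm_ext {E : Type*} [NormedAddCommGroup E] [NormedSpace ℂ E] {S T : L2 X →L[ℂ] E}
    (h : ∀ x, S (dl x) = T (dl x)) : S = T := by
  apply ContinuousLinearMap.ext_on dense_span_dl
  rintro _ ⟨x, rfl⟩
  exact h x

/-- an operator is determined by its matrix coefficients -/
theorem op_ext {S T : L2 X →L[ℂ] L2 Y} (h : ∀ x y, (S (dl x) : Y → ℂ) y = (T (dl x) : Y → ℂ) y) :
    S = T := by
  apply clm_ext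
  intro x
  apply Subtype.ext
  funext y
  exact h x y

theorem adjoint_dl (T : L2 X →L[ℂ] L2 Y) (x : X) (y : Y) :
    (ContinuousLinearMap.adjoint T (dl y) : X → ℂ) x = star ((T (dl x) : Y → ℂ) y) := by
  rw [← inner_dl_left, ContinuousLinearMap.adjoint_inner_right, inner_dl_right]

theorem star_dl (T : Op X) (x y : X) :
    ((star T) (dl y) : X → ℂ) x = star ((T (dl x) : X → ℂ) y) := adjoint_dl T x y

/-! ### Elementary tensors -/

theorem summable_tens (f : L2 X) (g : L2 Y) :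
    Summable (fun p : X × Y => ‖f p.1 * g p.2‖ ^ 2) := by
  have h := (summable_normSq f).mul_of_nonneg (summable_normSq g)
    (fun _ => by positivity) (fun _ => by positivity)
  refine h.congr fun p => ?_
  rw [norm_mul, mul_pow]

/-- the elementary tensor `f ⊗ g` in `ℓ²(X × Y)` -/
def tens (f : L2 X) (g : L2 Y) : L2 (X × Y) := mk2 (fun p => f p.1 * g p.2) (summable_tens f g)

@[simp] theorem tens_apply (f : L2 X) (g : L2 Y) (p : X × Y) :
    (tens f g : X × Y → ℂ) p = f p.1 * g p.2 := rfl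

theorem tens_add_left (f f' : L2 X) (g : L2 Y) : tens (f + f') g = tens f g + tens f' g := by
  apply Subtype.ext; funext p
  show (f + f' : L2 X) p.1 * g p.2 = f p.1 * g p.2 + f' p.1 * g p.2
  rw [lp.coeFn_add, Pi.add_apply]; ring

theorem tens_add_right (f : L2 X) (g g' : L2 Y) : tens f (g + g') = tens f g + tens f g' := by
  apply Subtype.ext; funext p
  show f p.1 * (g + g' : L2 Y) p.2 = f p.1 * g p.2 + f p.1 * g' p.2
  rw [lp.coeFn_add, Pi.add_apply]; ring

theorem tens_smul_left (c : ℂ) (f : L2 X) (g : L2 Y) : tens (c • f) g = c • tens f g := by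
  apply Subtype.ext; funext p
  show (c • f : L2 X) p.1 * g p.2 = c * (f p.1 * g p.2)
  rw [lp.coeFn_smul, Pi.smul_apply, smul_eq_mul]; ring

theorem tens_smul_right (c : ℂ) (f : L2 X) (g : L2 Y) : tens f (c • g) = c • tens f g := by
  apply Subtype.ext; funext p
  show f p.1 * (c • g : L2 Y) p.2 = c * (f p.1 * g p.2)
  rw [lp.coeFn_smul, Pi.smul_apply, smul_eq_mul]; ring

theorem dl_prod (x : X) (y : Y) : dl (x, y) = tens (dl x) (dl y) := by
  apply Subtype.ext; funext p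
  show (dl (x, y) : X × Y → ℂ) p = (dl x : X → ℂ) p.1 * (dl y : Y → ℂ) p.2
  rw [dl_apply, dl_apply, dl_apply]
  obtain ⟨a, b⟩ := p
  simp only [Prod.mk.injEq]
  by_cases h1 : a = x <;> by_cases h2 : b = y <;> simp [h1, h2]

theorem inner_tens (f f' : L2 X) (g g' : L2 Y) :
    ⟪tens f g, tens f' g'⟫_ℂ = ⟪f, f'⟫_ℂ * ⟪g, g'⟫_ℂ := by
  have h2 := lp.hasSum_inner (𝕜 := ℂ) f f'
  have h3 := lp.hasSum_inner (𝕜 := ℂ) g g'
  have e : (fun p : X × Y => ⟪f p.1, f' p.1⟫_ℂ * ⟪g p.2, g' p.2⟫_ℂ) =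
      fun p : X × Y => ⟪(tens f g : X × Y → ℂ) p, (tens f' g' : X × Y → ℂ) p⟫_ℂ := by
    funext p
    rw [tens_apply, tens_apply]
    simp only [RCLike.inner_apply, map_mul]
    ring
  have h1 := lp.hasSum_inner (𝕜 := ℂ) (tens f g) (tens f' g')
  have h4 := h2.mul h3 (by rw [e]; exact h1.summable)
  rw [e] at h4
  exact h1.unique h4

theorem norm_tens (f : L2 X) (g : L2 Y) : ‖tens f g‖ = ‖f‖ * ‖g‖ := by
  have h := inner_tens f f g g
  rw [inner_self_eq_norm_sq_to_K, inner_self_eq_norm_sq_to_K, inner_self_eq_norm_sq_to_K] at h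
  have h2 : ‖tens f g‖ ^ 2 = (‖f‖ * ‖g‖) ^ 2 := by
    rw [mul_pow]; exact_mod_cast h
  exact (sq_eq_sq₀ (norm_nonneg _) (by positivity)).1 h2

attribute [irreducible] tens

/-- the elementary tensor as a bilinear map -/
def tensB (X Y : Type*) : L2 X →ₗ[ℂ] L2 Y →ₗ[ℂ] L2 (X × Y) :=
  LinearMap.mk₂ ℂ tens tens_add_left tens_smul_left tens_add_right tens_smul_right

theorem tensB_apply (f : L2 X) (g : L2 Y) : tensB X Y f g = tens f g := rfl

/-- the linear map from the algebraic tensor product to `ℓ²(X × Y)` -/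
def tensL (X Y : Type*) : L2 X ⊗[ℂ] L2 Y →ₗ[ℂ] L2 (X × Y) := TensorProduct.lift (tensB X Y)

@[simp] theorem tensL_tmul (f : L2 X) (g : L2 Y) : tensL X Y (f ⊗ₜ g) = tens f g := rfl

theorem tensL_inner (x y : L2 X ⊗[ℂ] L2 Y) : ⟪tensL X Y x, tensL X Y y⟫_ℂ = ⟪x, y⟫_ℂ := by
  induction x using TensorProduct.induction_on with
  | zero => simp
  | tmul a b =>
    induction y using TensorProduct.induction_on with
    | zero => simp
    | tmul c d =>
      rw [TensorProduct.inner_tmul]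
      exact inner_tens _ _ _ _
    | add u v hu hv => rw [map_add, inner_add_right, inner_add_right, hu, hv]
  | add u v hu hv => rw [map_add, inner_add_left, inner_add_left, hu, hv]

/-- the linear isometry from the algebraic tensor product to `ℓ²(X × Y)` -/
def tensJ (X Y : Type*) : L2 X ⊗[ℂ] L2 Y →ₗᵢ[ℂ] L2 (X × Y) :=
  (tensL X Y).isometryOfInner tensL_inner

@[simp] theorem tensJ_tmul (f : L2 X) (g : L2 Y) : tensJ X Y (f ⊗ₜ g) = tens f g := rfl

theorem tensJ_dense : DenseRange (tensJ X Y) := by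
  have h : Dense (Submodule.span ℂ (Set.range (dl : X × Y → L2 (X × Y))) : Set (L2 (X × Y))) :=
    dense_span_dl
  refine h.mono ?_
  have h2 : Submodule.span ℂ (Set.range (dl : X × Y → L2 (X × Y))) ≤
      LinearMap.range (tensJ X Y).toLinearMap := by
    rw [Submodule.span_le]
    rintro _ ⟨⟨x, y⟩, rfl⟩
    exact ⟨dl x ⊗ₜ dl y, by rw [dl_prod]; rfl⟩
  intro v hv
  obtain ⟨w, hw⟩ := h2 hv
  exact ⟨w, hw⟩

/-- the operator `T ⊗ S` -/
def op2 {X Y X' Y' : Type*} (T : L2 X →L[ℂ] L2 X') (S : L2 Y →L[ℂ] L2 Y') :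
    L2 (X × Y) →L[ℂ] L2 (X' × Y') :=
  ((tensJ X' Y').toLinearMap ∘ₗ TensorProduct.map T.toLinearMap S.toLinearMap).extendOfNorm
    (tensJ X Y).toLinearMap

theorem op2_aux {X Y X' Y' : Type*} (T : L2 X →L[ℂ] L2 X') (S : L2 Y →L[ℂ] L2 Y')
    (x : L2 X ⊗[ℂ] L2 Y) :
    ‖((tensJ X' Y').toLinearMap ∘ₗ TensorProduct.map T.toLinearMap S.toLinearMap) x‖ ≤
      (‖T‖ * ‖S‖) * ‖(tensJ X Y).toLinearMap x‖ := by
  have h := (TensorProduct.mapL T S).le_opNorm x
  have h2 := TensorProduct.norm_mapL_le T S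
  show ‖tensJ X' Y' (TensorProduct.map T.toLinearMap S.toLinearMap x)‖ ≤ _ * ‖tensJ X Y x‖
  rw [LinearIsometry.norm_map, LinearIsometry.norm_map]
  rw [TensorProduct.mapL_apply] at h
  exact h.trans (mul_le_mul_of_nonneg_right h2 (norm_nonneg _))

@[simp] theorem op2_tens {X Y X' Y' : Type*} (T : L2 X →L[ℂ] L2 X') (S : L2 Y →L[ℂ] L2 Y')
    (f : L2 X) (g : L2 Y) : op2 T S (tens f g) = tens (T f) (S g) := by
  have h := LinearMap.extendOfNorm_eq
    (f := (tensJ X' Y').toLinearMap ∘ₗ TensorProduct.map T.toLinearMap S.toLinearMap)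
    (e := (tensJ X Y).toLinearMap) tensJ_dense ⟨_, op2_aux T S⟩ (f ⊗ₜ g)
  exact h

theorem norm_op2_le {X Y X' Y' : Type*} (T : L2 X →L[ℂ] L2 X') (S : L2 Y →L[ℂ] L2 Y') :
    ‖op2 T S‖ ≤ ‖T‖ * ‖S‖ :=
  LinearMap.opNorm_extendOfNorm_le tensJ_dense (by positivity) (op2_aux T S)

/-- operators on `ℓ²(X × Y)` agreeing on elementary tensors are equal -/
theorem clm_ext_tens {E : Type*} [NormedAddCommGroup E] [NormedSpace ℂ E]
    {S T : L2 (X × Y) →L[ℂ] E} (h : ∀ f g, S (tens f g) = T (tens f g)) : S = T := by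
  apply clm_ext
  rintro ⟨x, y⟩
  rw [dl_prod]
  exact h _ _

theorem op2_comp {X Y X' Y' X'' Y'' : Type*} (T : L2 X →L[ℂ] L2 X') (S : L2 Y →L[ℂ] L2 Y')
    (T' : L2 X' →L[ℂ] L2 X'') (S' : L2 Y' →L[ℂ] L2 Y'') :
    op2 T' S' ∘L op2 T S = op2 (T' ∘L T) (S' ∘L S) := by
  apply clm_ext_tens
  intro f g
  simp

theorem op2_mul (T T' : Op X) (S S' : Op Y) : op2 (T * T') (S * S') = op2 T S * op2 T' S' :=
  (op2_comp T' S' T S).symm

@[simp] theorem op2_one : op2 (1 : Op X) (1 : Op Y) = 1 := by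
  apply clm_ext_tens
  intro f g
  simp

theorem op2_add_left (T T' : L2 X →L[ℂ] L2 Y) {X' Y' : Type*} (S : L2 X' →L[ℂ] L2 Y') :
    op2 (T + T') S = op2 T S + op2 T' S := by
  apply clm_ext_tens
  intro f g
  simp [tens_add_left]

theorem op2_add_right (T : L2 X →L[ℂ] L2 Y) {X' Y' : Type*} (S S' : L2 X' →L[ℂ] L2 Y') :
    op2 T (S + S') = op2 T S + op2 T S' := by
  apply clm_ext_tens
  intro f g
  simp [tens_add_right]

theorem op2_smul_left (c : ℂ) (T : L2 X →L[ℂ] L2 Y) {X' Y' : Type*} (S : L2 X' →L[ℂ] L2 Y') :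
    op2 (c • T) S = c • op2 T S := by
  apply clm_ext_tens
  intro f g
  simp [tens_smul_left]

theorem op2_smul_right (c : ℂ) (T : L2 X →L[ℂ] L2 Y) {X' Y' : Type*} (S : L2 X' →L[ℂ] L2 Y') :
    op2 T (c • S) = c • op2 T S := by
  apply clm_ext_tens
  intro f g
  simp [tens_smul_right]

theorem op2_adjoint {X Y X' Y' : Type*} (T : L2 X →L[ℂ] L2 X') (S : L2 Y →L[ℂ] L2 Y') :
    ContinuousLinearMap.adjoint (op2 T S) =
      op2 (ContinuousLinearMap.adjoint T) (ContinuousLinearMap.adjoint S) := by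
  apply clm_ext
  rintro ⟨x', y'⟩
  apply Subtype.ext
  funext ⟨x, y⟩
  rw [adjoint_dl, dl_prod, dl_prod, op2_tens, op2_tens, tens_apply, tens_apply, adjoint_dl,
    adjoint_dl, star_mul']

theorem op2_star (T : Op X) (S : Op Y) : star (op2 T S) = op2 (star T) (star S) :=
  op2_adjoint T S

/-- `T ⊗ 1` as a unital `*`-homomorphism -/
def opL (X Y : Type*) : Op X →⋆ₐ[ℂ] Op (X × Y) where
  toFun T := op2 T 1
  map_one' := op2_one
  map_mul' T T' := by
    show op2 (T * T') 1 = op2 T 1 * op2 T' 1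
    rw [← op2_mul, one_mul]
  map_zero' := by
    apply clm_ext_tens
    intro f g
    have : tens (0 : L2 X) g = 0 := by
      have := tens_smul_left 0 f g
      simpa using this
    simp [this]
  map_add' T T' := op2_add_left T T' 1
  commutes' c := by
    apply clm_ext_tens
    intro f g
    simp [Algebra.algebraMap_eq_smul_one, tens_smul_left]
  map_star' T := by rw [op2_star, star_one]

/-- `1 ⊗ T` as a unital `*`-homomorphism -/
def opR (X Y : Type*) : Op Y →⋆ₐ[ℂ] Op (X × Y) where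
  toFun T := op2 1 T
  map_one' := op2_one
  map_mul' T T' := by
    show op2 1 (T * T') = op2 1 T * op2 1 T'
    rw [← op2_mul, one_mul]
  map_zero' := by
    apply clm_ext_tens
    intro f g
    have : tens f (0 : L2 Y) = 0 := by
      have := tens_smul_right 0 f g
      simpa using this
    simp [this]
  map_add' T T' := op2_add_right 1 T T'
  commutes' c := by
    apply clm_ext_tens
    intro f g
    simp [Algebra.algebraMap_eq_smul_one, tens_smul_right]
  map_star' T := by rw [op2_star, star_one]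

@[simp] theorem opL_tens (T : Op X) (f : L2 X) (g : L2 Y) :
    opL X Y T (tens f g) = tens (T f) g := by
  show op2 T 1 (tens f g) = _
  simp

@[simp] theorem opR_tens (T : Op Y) (f : L2 X) (g : L2 Y) :
    opR X Y T (tens f g) = tens f (T g) := by
  show op2 1 T (tens f g) = _
  simp

theorem opL_mul_opR (T : Op X) (S : Op Y) : opL X Y T * opR X Y S = op2 T S := by
  apply clm_ext_tens
  intro f g
  simp

theorem opR_mul_opL (T : Op X) (S : Op Y) : opR X Y S * opL X Y T = op2 T S := by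
  apply clm_ext_tens
  intro f g
  simp

theorem opL_opR_comm (T : Op X) (S : Op Y) :
    opL X Y T * opR X Y S = opR X Y S * opL X Y T := by
  rw [opL_mul_opR, opR_mul_opL]

theorem norm_opL_le (T : Op X) : ‖opL X Y T‖ ≤ ‖T‖ := by
  have h := norm_op2_le T (1 : Op Y)
  have h2 : ‖(1 : Op Y)‖ ≤ 1 := ContinuousLinearMap.norm_id_le
  calc ‖opL X Y T‖ ≤ ‖T‖ * ‖(1 : Op Y)‖ := h
    _ ≤ ‖T‖ * 1 := by gcongr
    _ = ‖T‖ := mul_one _

theorem norm_opR_le (T : Op Y) : ‖opR X Y T‖ ≤ ‖T‖ := by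
  have h := norm_op2_le (1 : Op X) T
  have h2 : ‖(1 : Op X)‖ ≤ 1 := ContinuousLinearMap.norm_id_le
  calc ‖opR X Y T‖ ≤ ‖(1 : Op X)‖ * ‖T‖ := h
    _ ≤ 1 * ‖T‖ := by gcongr
    _ = ‖T‖ := one_mul _

end

end MP7e
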