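import Pool.Agent.Lib.MP_7e9852_an.L2

/-!
Toolbox for `ℓ²(X)`, continued: permutation unitaries, complex conjugation,
the operators `vop α`, Schur multipliers.
-/

namespace MP7e

open scoped InnerProductSpace TensorProduct ENNReal
open Classical

noncomputable section

variable {X Y Z : Type*}

/-! ### Permutations -/

/-- the unitary `ℓ²(X) → ℓ²(Y)` induced by a bijection -/
def permU (e : X ≃ Y) : L2 X ≃ₗᵢ[ℂ] L2 Y where
  toFun f := mk2 (fun y => f (e.symm y))
    ((e.symm.summable_iff (f := fun x => ‖f x‖ ^ 2)).2 (summable_normSq f))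
  invFun f := mk2 (fun x => f (e x)) ((e.summable_iff (f := fun x => ‖f x‖ ^ 2)).2
    (summable_normSq f))
  left_inv f := by
    apply Subtype.ext; funext x
    show f (e.symm (e x)) = f x
    rw [e.symm_apply_apply]
  right_inv f := by
    apply Subtype.ext; funext x
    show f (e (e.symm x)) = f x
    rw [e.apply_symm_apply]
  map_add' f g := by
    apply Subtype.ext; funext x; rfl
  map_smul' c f := by
    apply Subtype.ext; funext x; rfl
  norm_map' f := by
    have h1 := normSq_eq_tsum (mk2 (fun y => f (e.symm y))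
      ((e.symm.summable_iff (f := fun x => ‖f x‖ ^ 2)).2 (summable_normSq f)))
    have h2 := normSq_eq_tsum f
    have h3 : (∑' y, ‖f (e.symm y)‖ ^ 2) = ∑' x, ‖f x‖ ^ 2 :=
      e.symm.tsum_eq (fun x => ‖f x‖ ^ 2)
    simp only [mk2_apply] at h1
    rw [h3, ← h2] at h1
    exact (sq_eq_sq₀ (norm_nonneg _) (norm_nonneg _)).1 h1

@[simp] theorem permU_apply (e : X ≃ Y) (f : L2 X) (y : Y) :
    (permU e f : Y → ℂ) y = f (e.symm y) := rfl

@[simp] theorem permU_symm_apply (e : X ≃ Y) (f : L2 Y) (x : X) :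
    ((permU e).symm f : X → ℂ) x = f (e x) := rfl

@[simp] theorem permU_dl (e : X ≃ Y) (x : X) : permU e (dl x) = dl (e x) := by
  apply Subtype.ext; funext y
  rw [permU_apply, dl_apply, dl_apply]
  by_cases h : y = e x
  · simp [h]
  · have : ¬ e.symm y = x := fun h' => h (by rw [← h', e.apply_symm_apply])
    simp [h, this]

/-- the permutation unitary as a continuous linear map -/
def perm (e : X ≃ Y) : L2 X →L[ℂ] L2 Y := (permU e).toContinuousLinearEquiv.toContinuousLinearMap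

@[simp] theorem perm_apply (e : X ≃ Y) (f : L2 X) (y : Y) :
    (perm e f : Y → ℂ) y = f (e.symm y) := rfl

@[simp] theorem perm_dl (e : X ≃ Y) (x : X) : perm e (dl x) = dl (e x) := permU_dl e x

@[simp] theorem norm_perm (e : X ≃ Y) (f : L2 X) : ‖perm e f‖ = ‖f‖ := (permU e).norm_map f

theorem perm_comp (e : X ≃ Y) (e' : Y ≃ Z) : perm e' ∘L perm e = perm (e.trans e') := by
  apply clm_ext; intro x; simp

@[simp] theorem perm_refl : perm (Equiv.refl X) = 1 := by
  apply clm_ext; intro x; simp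

theorem perm_adjoint (e : X ≃ Y) : ContinuousLinearMap.adjoint (perm e) = perm e.symm := by
  apply op_ext
  intro y x
  rw [adjoint_dl, perm_dl, perm_dl, dl_apply, dl_apply]
  by_cases h : x = e.symm y
  · simp [h]
  · have : ¬ y = e x := fun h' => h (by rw [h', e.symm_apply_apply])
    simp [h, this]

theorem perm_star (e : X ≃ X) : star (perm e) = perm e.symm := perm_adjoint e

/-! ### Complex conjugation -/

/-- pointwise complex conjugation -/
def cj (f : L2 X) : L2 X := mk2 (fun x => star (f x)) (by simpa using summable_normSq f)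

@[simp] theorem cj_apply (f : L2 X) (x : X) : (cj f : X → ℂ) x = star (f x) := rfl

@[simp] theorem cj_cj (f : L2 X) : cj (cj f) = f := by
  apply Subtype.ext; funext x; simp

theorem cj_add (f g : L2 X) : cj (f + g) = cj f + cj g := by
  apply Subtype.ext; funext x
  rw [cj_apply, lp.coeFn_add, Pi.add_apply, star_add, lp.coeFn_add, Pi.add_apply]; rfl

theorem cj_smul (c : ℂ) (f : L2 X) : cj (c • f) = star c • cj f := by
  apply Subtype.ext; funext x
  rw [cj_apply, lp.coeFn_smul, Pi.smul_apply, smul_eq_mul, star_mul', lp.coeFn_smul,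
    Pi.smul_apply, smul_eq_mul, cj_apply]

@[simp] theorem cj_dl (x : X) : cj (dl x) = dl x := by
  apply Subtype.ext; funext y
  rw [cj_apply, dl_apply]
  split_ifs <;> simp

@[simp] theorem norm_cj (f : L2 X) : ‖cj f‖ = ‖f‖ := by
  have h1 := normSq_eq_tsum (cj f)
  have h2 := normSq_eq_tsum f
  simp only [cj_apply, norm_star] at h1
  rw [← h2] at h1
  exact (sq_eq_sq₀ (norm_nonneg _) (norm_nonneg _)).1 h1

theorem inner_cj_cj (f g : L2 X) : ⟪cj f, cj g⟫_ℂ = ⟪g, f⟫_ℂ := by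
  have h1 := lp.hasSum_inner (𝕜 := ℂ) (cj f) (cj g)
  have h2 := lp.hasSum_inner (𝕜 := ℂ) g f
  have e : (fun x => ⟪(cj f : X → ℂ) x, (cj g : X → ℂ) x⟫_ℂ) = fun x => ⟪g x, f x⟫_ℂ := by
    funext x
    rw [cj_apply, cj_apply]
    simp only [RCLike.inner_apply]
    simp only [RCLike.star_def, Complex.conj_conj]
    ring
  rw [e] at h1
  exact h1.unique h2

theorem cj_tens (f : L2 X) (g : L2 Y) : cj (tens f g) = tens (cj f) (cj g) := by
  apply Subtype.ext; funext x
  rw [cj_apply, tens_apply, tens_apply, star_mul', cj_apply, cj_apply]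

/-- the conjugate operator `C T C` -/
def cjOp (T : L2 X →L[ℂ] L2 Y) : L2 X →L[ℂ] L2 Y :=
  LinearMap.mkContinuous
    { toFun := fun f => cj (T (cj f))
      map_add' := fun f g => by rw [cj_add, map_add, cj_add]
      map_smul' := fun c f => by
        rw [cj_smul, map_smul, cj_smul, star_star]; rfl } ‖T‖ (fun f => by
      show ‖cj (T (cj f))‖ ≤ ‖T‖ * ‖f‖
      rw [norm_cj]
      exact (T.le_opNorm _).trans_eq (by rw [norm_cj]))

@[simp] theorem cjOp_apply (T : L2 X →L[ℂ] L2 Y) (f : L2 X) : cjOp T f = cj (T (cj f)) := rfl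

theorem norm_cjOp_le (T : L2 X →L[ℂ] L2 Y) : ‖cjOp T‖ ≤ ‖T‖ :=
  LinearMap.mkContinuous_norm_le _ (norm_nonneg _) _

@[simp] theorem cjOp_cjOp (T : L2 X →L[ℂ] L2 Y) : cjOp (cjOp T) = T := by
  ext f : 1; simp

@[simp] theorem norm_cjOp (T : L2 X →L[ℂ] L2 Y) : ‖cjOp T‖ = ‖T‖ := by
  apply le_antisymm (norm_cjOp_le T)
  conv_lhs => rw [← cjOp_cjOp T]
  exact norm_cjOp_le _

theorem cjOp_mul (T S : Op X) : cjOp (T * S) = cjOp T * cjOp S := by
  ext f : 1; simp

theorem cjOp_add (T S : L2 X →L[ℂ] L2 Y) : cjOp (T + S) = cjOp T + cjOp S := by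
  ext f : 1; simp [cj_add]

theorem cjOp_smul (c : ℂ) (T : L2 X →L[ℂ] L2 Y) : cjOp (c • T) = star c • cjOp T := by
  ext f : 1; simp [cj_smul]

@[simp] theorem cjOp_one : cjOp (1 : Op X) = 1 := by
  ext f : 1; simp

theorem cjOp_star (T : Op X) : cjOp (star T) = star (cjOp T) := by
  apply op_ext
  intro x y
  rw [star_dl, cjOp_apply, cjOp_apply, cj_apply, cj_apply, cj_dl, cj_dl, star_dl]

theorem cjOp_perm (e : X ≃ Y) : cjOp (perm e) = perm e := by
  apply clm_ext; intro x; simp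

theorem cjOp_zero : cjOp (0 : L2 X →L[ℂ] L2 Y) = 0 := by
  have := cjOp_smul 0 (0 : L2 X →L[ℂ] L2 Y)
  simpa using this

theorem cjOp_neg (T : L2 X →L[ℂ] L2 Y) : cjOp (-T) = -cjOp T := by
  have := cjOp_smul (-1) T
  simpa using this

theorem cjOp_sub (T S : L2 X →L[ℂ] L2 Y) : cjOp (T - S) = cjOp T - cjOp S := by
  rw [sub_eq_add_neg, cjOp_add, cjOp_neg, sub_eq_add_neg]

theorem cjOp_sum {ι : Type*} (s : Finset ι) (T : ι → L2 X →L[ℂ] L2 Y) :
    cjOp (∑ i ∈ s, T i) = ∑ i ∈ s, cjOp (T i) := by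
  classical
  induction s using Finset.induction_on with
  | empty => simp [cjOp_zero]
  | insert a s ha ih => rw [Finset.sum_insert ha, Finset.sum_insert ha, cjOp_add, ih]

/-! ### Block operators -/

theorem vop_aux (α : X → L2 Y) (C : ℝ) (hα : ∀ x, ‖α x‖ ≤ C) (f : L2 X) :
    Summable (fun p : X × Y => ‖α p.1 p.2 * f p.1‖ ^ 2) ∧
      ∑' p : X × Y, ‖α p.1 p.2 * f p.1‖ ^ 2 ≤ (C * ‖f‖) ^ 2 := by
  have key : ∀ x : X, HasSum (fun y => ‖α x y * f x‖ ^ 2) (‖α x‖ ^ 2 * ‖f x‖ ^ 2) := by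
    intro x
    have h := (hasSum_normSq (α x)).mul_right (‖f x‖ ^ 2)
    have e : (fun y => ‖α x y‖ ^ 2 * ‖f x‖ ^ 2) = fun y => ‖α x y * f x‖ ^ 2 := by
      funext y; rw [norm_mul, mul_pow]
    rwa [e] at h
  have hle : ∀ x : X, ‖α x‖ ^ 2 * ‖f x‖ ^ 2 ≤ C ^ 2 * ‖f x‖ ^ 2 := by
    intro x
    have := hα x
    have h0 := norm_nonneg (α x)
    gcongr
  have hsum : Summable fun x : X => ‖α x‖ ^ 2 * ‖f x‖ ^ 2 :=
    Summable.of_nonneg_of_le (fun x => by positivity) hle ((summable_normSq f).mul_left _)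
  have hs : Summable (fun p : X × Y => ‖α p.1 p.2 * f p.1‖ ^ 2) := by
    rw [summable_prod_of_nonneg (fun p => by positivity)]
    refine ⟨fun x => (key x).summable, ?_⟩
    have e : (fun x => ∑' y, ‖α x y * f x‖ ^ 2) = fun x => ‖α x‖ ^ 2 * ‖f x‖ ^ 2 := by
      funext x; exact (key x).tsum_eq
    exact e ▸ hsum
  refine ⟨hs, ?_⟩
  rw [hs.tsum_prod]
  have e : (fun x => ∑' y, ‖α x y * f x‖ ^ 2) = fun x => ‖α x‖ ^ 2 * ‖f x‖ ^ 2 := by
    funext x; exact (key x).tsum_eq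
  simp only at e ⊢
  rw [e]
  calc ∑' x, ‖α x‖ ^ 2 * ‖f x‖ ^ 2 ≤ ∑' x, C ^ 2 * ‖f x‖ ^ 2 :=
        hsum.tsum_le_tsum hle ((summable_normSq f).mul_left _)
    _ = C ^ 2 * ‖f‖ ^ 2 := by rw [tsum_mul_left, ← normSq_eq_tsum]
    _ = (C * ‖f‖) ^ 2 := by ring

/-- a function `X → ℓ²(Y)` is bounded by `C` -/
def BddBy (α : X → L2 Y) (C : ℝ) : Prop := 0 ≤ C ∧ ∀ x, ‖α x‖ ≤ C

/-- the operator `δ_x ↦ α(x) ⊗ δ_x` -/
def vop (α : X → L2 Y) {C : ℝ} (hα : BddBy α C) : L2 X →L[ℂ] L2 (Y × X) :=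
  LinearMap.mkContinuous
    { toFun := fun f => mk2 (fun p : Y × X => α p.2 p.1 * f p.2)
        ((Equiv.prodComm X Y).summable_iff.1 (vop_aux α C hα.2 f).1)
      map_add' := fun f g => by
        apply Subtype.ext; funext p
        show α p.2 p.1 * (f p.2 + g p.2) = α p.2 p.1 * f p.2 + α p.2 p.1 * g p.2
        ring
      map_smul' := fun c f => by
        apply Subtype.ext; funext p
        show α p.2 p.1 * (c * f p.2) = c * (α p.2 p.1 * f p.2)
        ring } C (fun f => by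
      have h1 := normSq_eq_tsum (mk2 (fun p : Y × X => α p.2 p.1 * f p.2)
        ((Equiv.prodComm X Y).summable_iff.1 (vop_aux α C hα.2 f).1))
      simp only [mk2_apply] at h1
      have h2 : ∑' p : Y × X, ‖α p.2 p.1 * f p.2‖ ^ 2 = ∑' p : X × Y, ‖α p.1 p.2 * f p.1‖ ^ 2 :=
        ((Equiv.prodComm X Y).tsum_eq (fun p : Y × X => ‖α p.2 p.1 * f p.2‖ ^ 2)).symm
      rw [h2] at h1
      have h3 := (vop_aux α C hα.2 f).2
      rw [← h1] at h3
      have h4 : 0 ≤ C * ‖f‖ := mul_nonneg hα.1 (norm_nonneg _)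
      exact (sq_le_sq₀ (norm_nonneg _) h4).1 h3)

@[simp] theorem vop_apply (α : X → L2 Y) {C : ℝ} (hα : BddBy α C) (f : L2 X) (p : Y × X) :
    (vop α hα f : Y × X → ℂ) p = α p.2 p.1 * f p.2 := rfl

theorem norm_vop_le (α : X → L2 Y) {C : ℝ} (hα : BddBy α C) : ‖vop α hα‖ ≤ C :=
  LinearMap.mkContinuous_norm_le _ hα.1 _

theorem vop_dl (α : X → L2 Y) {C : ℝ} (hα : BddBy α C) (x : X) :
    vop α hα (dl x) = tens (α x) (dl x) := by
  apply Subtype.ext; funext p
  rw [vop_apply, tens_apply, dl_apply]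
  by_cases h : p.2 = x
  · simp [h]
  · simp [h]

attribute [irreducible] vop

/-- the Schur multiplier with kernel `⟪β x', α x⟫`:  `T ↦ (V β)* (1 ⊗ T) (V α)` -/
def schur (α β : X → L2 Y) {C D : ℝ} (hα : BddBy α C) (hβ : BddBy β D) (T : Op X) : Op X :=
  ContinuousLinearMap.adjoint (vop β hβ) ∘L opR Y X T ∘L vop α hα

theorem schur_inner (α β : X → L2 Y) {C D : ℝ} (hα : BddBy α C) (hβ : BddBy β D) (T : Op X)
    (f g : L2 X) : ⟪f, schur α β hα hβ T g⟫_ℂ = ⟪vop β hβ f, opR Y X T (vop α hα g)⟫_ℂ := by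
  unfold schur
  rw [ContinuousLinearMap.comp_apply, ContinuousLinearMap.adjoint_inner_right]
  rfl

theorem schur_coeff (α β : X → L2 Y) {C D : ℝ} (hα : BddBy α C) (hβ : BddBy β D) (T : Op X)
    (x x' : X) : (schur α β hα hβ T (dl x) : X → ℂ) x' =
      ⟪β x', α x⟫_ℂ * (T (dl x) : X → ℂ) x' := by
  rw [← inner_dl_left, schur_inner, vop_dl, vop_dl, opR_tens, inner_tens, inner_dl_left]

theorem norm_schur_le (α β : X → L2 Y) {C D : ℝ} (hα : BddBy α C) (hβ : BddBy β D) (T : Op X) :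
    ‖schur α β hα hβ T‖ ≤ C * D * ‖T‖ := by
  unfold schur
  have h1 := norm_vop_le α hα
  have h2 := norm_vop_le β hβ
  have h3 := norm_opR_le (X := Y) T
  have hC := hα.1
  have hD := hβ.1
  calc _ ≤ ‖ContinuousLinearMap.adjoint (vop β hβ)‖ * ‖opR Y X T ∘L vop α hα‖ :=
        ContinuousLinearMap.opNorm_comp_le _ _
    _ ≤ D * (‖T‖ * C) := by
        have h4 : ‖ContinuousLinearMap.adjoint (vop β hβ)‖ ≤ D := by
          rw [LinearIsometryEquiv.norm_map]; exact h2
        have h5 : ‖opR Y X T ∘L vop α hα‖ ≤ ‖T‖ * C :=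
          (ContinuousLinearMap.opNorm_comp_le _ _).trans (mul_le_mul h3 h1 (norm_nonneg _)
            (norm_nonneg _))
        exact mul_le_mul h4 h5 (norm_nonneg _) hD
    _ = C * D * ‖T‖ := by ring

theorem schur_add (α β : X → L2 Y) {C D : ℝ} (hα : BddBy α C) (hβ : BddBy β D) (S T : Op X) :
    schur α β hα hβ (S + T) = schur α β hα hβ S + schur α β hα hβ T := by
  apply op_ext
  intro x y
  rw [ContinuousLinearMap.add_apply, lp.coeFn_add, Pi.add_apply, schur_coeff, schur_coeff,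
    schur_coeff, ContinuousLinearMap.add_apply, lp.coeFn_add, Pi.add_apply]
  ring

theorem schur_smul (α β : X → L2 Y) {C D : ℝ} (hα : BddBy α C) (hβ : BddBy β D) (c : ℂ)
    (T : Op X) : schur α β hα hβ (c • T) = c • schur α β hα hβ T := by
  apply op_ext
  intro x y
  rw [ContinuousLinearMap.smul_apply, lp.coeFn_smul, Pi.smul_apply, schur_coeff, schur_coeff,
    ContinuousLinearMap.smul_apply, lp.coeFn_smul, Pi.smul_apply]
  simp only [smul_eq_mul]
  ring

end

end MP7e
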