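import Pool.Agent.Lib.MP_7e9852_an.Spec

/-!
Module LIM: the limit group.
-/

namespace MP7e

open scoped InnerProductSpace TensorProduct ENNReal
open Filter Topology Classical

noncomputable section

namespace Lim

/-! ### Direct limits of sequences of groups -/

section DL

variable (G : ℕ → Type) [∀ n, Group (G n)] (i : ∀ n, G n →* G (n + 1))

/-- the composed maps -/
def cmp (m n : ℕ) (h : m ≤ n) : G m →* G n :=
  Nat.leRecOn (C := fun k => G m →* G k) h (fun {k} g => (i k).comp g) (MonoidHom.id (G m))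

theorem cmp_self (m : ℕ) (h : m ≤ m) : cmp G i m m h = MonoidHom.id (G m) :=
  Nat.leRecOn_self (C := fun k => G m →* G k) _

theorem cmp_succ (m n : ℕ) (h : m ≤ n) (h' : m ≤ n + 1) :
    cmp G i m (n + 1) h' = (i n).comp (cmp G i m n h) :=
  Nat.leRecOn_succ (C := fun k => G m →* G k) h _

theorem cmp_cmp (m n k : ℕ) (h : m ≤ n) (h' : n ≤ k) :
    (cmp G i n k h').comp (cmp G i m n h) = cmp G i m k (h.trans h') := by
  induction k, h' using Nat.le_induction with
  | base => rw [cmp_self]; rfl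
  | succ k hk ih => rw [cmp_succ G i n k hk, cmp_succ G i m k (h.trans hk), ← ih]; rfl

theorem cmp_inj (hi : ∀ n, Function.Injective (i n)) (m n : ℕ) (h : m ≤ n) :
    Function.Injective (cmp G i m n h) := by
  induction n, h using Nat.le_induction with
  | base => rw [cmp_self]; exact fun _ _ h => h
  | succ n hn ih => rw [cmp_succ G i m n hn]; exact (hi n).comp ih

instance dsys : DirectedSystem G (fun m n h => cmp G i m n h) where
  map_self m x := by rw [cmp_self]; rfl
  map_map k j m h h' x := by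
    have := cmp_cmp G i m j k h h'
    exact congrArg (fun f => f x) this

end DL

theorem exists_limit (G : ℕ → Type) [∀ n, Group (G n)] (i : ∀ n, G n →* G (n + 1))
    (hi : ∀ n, Function.Injective (i n)) :
    ∃ (H : Type) (_ : Group H) (φ : ∀ n, G n →* H), (∀ n, Function.Injective (φ n)) ∧
      (∀ n g, φ (n + 1) (i n g) = φ n g) ∧ ∀ h, ∃ n g, φ n g = h := by
  refine ⟨DirectLimit G (cmp G i), inferInstance, fun n =>
    { toFun := fun g => ⟦⟨n, g⟩⟧
      map_one' := (DirectLimit.one_def n).symm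
      map_mul' := fun x y => (DirectLimit.mul_def n x y).symm }, ?_, ?_, ?_⟩
  · intro n
    exact DirectLimit.mk_injective _ (cmp_inj G i hi) n
  · intro n g
    have h := DirectLimit.mk_apply (f := cmp G i) n (n + 1) g (Nat.le_succ n)
    rw [cmp_succ G i n n le_rfl, cmp_self] at h
    exact h
  · intro h
    obtain ⟨n, g, hg⟩ := DirectLimit.exists_eq_mk (cmp G i) h
    exact ⟨n, g, hg.symm⟩

/-! ### Tree groups -/

/-- transport of the structure of a tree group along an isomorphism -/
def tmap {Γ Γ' : Type} [Group Γ] [Group Γ'] (e : Γ ≃* Γ') (t : TreeGroup Γ) : TreeGroup Γ' where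
  E := t.E
  act := t.act.comp e.symm.toMonoidHom
  w g := t.w (e.symm g)
  cocycle g h := by
    rw [map_mul, t.cocycle]; rfl
  proper n := by
    have h := t.proper n
    exact h.preimage (e.symm.injective.injOn)
  pref g L hL := by
    obtain ⟨h, hh⟩ := t.pref _ L hL
    exact ⟨e h, by rw [e.symm_apply_apply]; exact hh⟩

/-- a free group of finite rank is a tree group -/
def tbase (E : Type) [Finite E] : TreeGroup (FreeGroup E) where
  E := E
  act := 1
  w g := g
  cocycle g h := by
    show g * h = g * FreeGroup.map (⇑(1 : Equiv.Perm E)) h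
    rw [Equiv.Perm.coe_one, FreeGroup.map.id]
  proper n := by
    have h : {l : List (E × Bool) | l.length ≤ n}.Finite := List.finite_length_le _ n
    exact h.preimage (FreeGroup.toWord_injective.injOn)
  pref g L hL := by
    refine ⟨FreeGroup.mk L, ?_⟩
    rw [FreeGroup.toWord_mk]
    obtain ⟨L', hL'⟩ := hL
    have h1 : FreeGroup.IsReduced (L ++ L') := hL' ▸ FreeGroup.isReduced_toWord (x := g)
    have h2 : FreeGroup.IsReduced L := by
      unfold FreeGroup.IsReduced at h1 ⊢
      exact h1.left_of_append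
    exact h2.reduce_eq

/-! ### The tower -/

theorem tower_of (G : ℕ → Type) [∀ n, Group (G n)] (t : ∀ n, TreeGroup (G n))
    (st : ∀ n, Step (t n) (t (n + 1)) n) (f0 : FreeGroup Bool →* G 0)
    (hf0 : Function.Injective f0) : ∃ (H : Type) (_ : Group H), Nonempty (Tower H) := by
  obtain ⟨H, hH, φ, hinj, hcompat, hexh⟩ := exists_limit G (fun n => (st n).ι) (fun n => (st n).inj)
  refine ⟨H, hH, ⟨?_⟩⟩
  have hle : ∀ n, (φ n).range ≤ (φ (n + 1)).range := by
    rintro n _ ⟨g, rfl⟩
    exact ⟨(st n).ι g, hcompat n g⟩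
  have hmono : Monotone fun n => (φ n).range := monotone_nat_of_le_succ hle
  have hex : ∀ g, ∃ k, g ∈ (φ k).range := by
    intro h
    obtain ⟨n, g, hg⟩ := hexh h
    exact ⟨n, g, hg⟩
  -- lengths
  have hlen : ∀ h : H, ∃ m : ℕ, ∀ᶠ k in atTop, ∃ s : G k, φ k s = h ∧ (t k).len s = m := by
    intro h
    obtain ⟨n, g, hg⟩ := hexh h
    refine ⟨(t n).len g, ?_⟩
    filter_upwards [eventually_ge_atTop n] with k hk
    induction k, hk using Nat.le_induction with
    | base => exact ⟨g, hg, rfl⟩
    | succ k _ ih =>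
      obtain ⟨s, hs, hl⟩ := ih
      exact ⟨(st k).ι s, by rw [hcompat, hs], by rw [(st k).len_eq, hl]⟩
  let pull : ∀ k, (H →₀ ZMod 2) → (G k →₀ ZMod 2) := fun k κ =>
    Finsupp.comapDomain (φ k) κ ((hinj k).injOn)
  have hpull : ∀ k κ x, pull k κ x = κ (φ k x) := fun k κ x => rfl
  have hpull_add : ∀ k κ κ', pull k (κ + κ') = pull k κ + pull k κ' := by
    intro k κ κ'
    ext x
    rw [Finsupp.add_apply, hpull, hpull, hpull, Finsupp.add_apply]
  have hsupp : ∀ κ : H →₀ ZMod 2, ∃ M : ℕ, ∀ᶠ k in atTop,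
      (∀ x ∈ κ.support, ∃ s : G k, φ k s = x) ∧ ∀ s ∈ (pull k κ).support, (t k).len s ≤ M := by
    intro κ
    choose m hm using hlen
    refine ⟨κ.support.sup m, ?_⟩
    have h1 : ∀ᶠ k in atTop, ∀ x ∈ κ.support, ∃ s : G k, φ k s = x ∧ (t k).len s = m x :=
      (Filter.eventually_all_finset κ.support).2 fun x _ => hm x
    filter_upwards [h1] with k hk
    refine ⟨fun x hx => (hk x hx).imp fun s hs => hs.1, ?_⟩
    intro s hs
    have hs2 : φ k s ∈ κ.support := by
      rw [Finsupp.mem_support_iff] at hs ⊢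
      exact hs
    obtain ⟨s', e1, e2⟩ := hk _ hs2
    have e3 : s' = s := hinj k e1
    rw [← e3, e2]
    exact Finset.le_sup hs2
  have hmal : ∀ l k x, x ∈ (φ l).range → x ∉ (φ k).range →
      {g | g ∈ (φ k).range ∧ x⁻¹ * g * x ∈ (φ k).range}.Finite := by
    intro l
    induction l with
    | zero =>
      intro k x hx hxk
      exact absurd (hmono (Nat.zero_le k) hx) hxk
    | succ l ih =>
      intro k x hx hxk
      by_cases hxl : x ∈ (φ l).range
      · exact ih k x hxl hxk
      · have hkl : k ≤ l := by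
          by_contra hc
          exact hxk (hmono (by omega : l + 1 ≤ k) hx)
        obtain ⟨y, rfl⟩ := hx
        have hy : y ∉ Set.range (st l).ι := by
          rintro ⟨z, rfl⟩
          exact hxl ⟨z, (hcompat l z).symm⟩
        have hfin := (st l).mal y hy
        refine (hfin.image (φ l)).subset ?_
        rintro g ⟨hg1, hg2⟩
        obtain ⟨u, hu⟩ := hmono hkl hg1
        obtain ⟨v, hv⟩ := hmono hkl hg2
        refine ⟨u, ⟨v, ?_⟩, hu⟩
        apply hinj (l + 1)
        rw [map_mul, map_mul, hcompat, hcompat, hu, hv]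
        group
  refine
    { Hk := fun n => (φ n).range
      mono := hmono
      exh := hex
      tree := fun n => tmap (MonoidHom.ofInjective (hinj n)) (t n)
      mal := fun k x hx => by
        obtain ⟨l, hl⟩ := hex x
        exact hmal l k x hl hx
      β := fun k κ => φ (k + 1) ((st k).β (pull k κ))
      β_add := ?_
      β_conj := ?_
      β_ne := ?_
      icc := ?_
      free := ⟨(φ 0).comp f0, (hinj 0).comp hf0⟩ }
  · intro κ κ'
    obtain ⟨M, hM⟩ := hsupp κ
    obtain ⟨M', hM'⟩ := hsupp κ'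
    filter_upwards [hM, hM', eventually_ge_atTop M, eventually_ge_atTop M'] with k h1 h2 h3 h4
    rw [hpull_add, (st k).β_add, map_mul]
    · exact fun s hs => (h1.2 s hs).trans h3
    · exact fun s hs => (h2.2 s hs).trans h4
  · intro h κ
    obtain ⟨M, hM⟩ := hsupp κ
    obtain ⟨m, hm⟩ := hlen h
    filter_upwards [hM, hm, eventually_ge_atTop (m + M)] with k h1 h2 h3
    obtain ⟨s0, hs0, hl0⟩ := h2
    have h4 := (st k).β_conj s0 (pull k κ) (fun s hs => by
      have := h1.2 s hs
      omega)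
    have e : shift s0 (pull k κ) = pull k (shift h κ) := by
      ext x
      rw [shift_apply, hpull, hpull, shift_apply, map_mul, map_inv, hs0]
    rw [e] at h4
    rw [← h4, map_mul, map_mul, map_inv, hcompat, hs0]
  · intro κ hκ h
    obtain ⟨M, hM⟩ := hsupp κ
    obtain ⟨m, hm⟩ := hlen h
    filter_upwards [hM, hm, eventually_ge_atTop M] with k h1 h2 h3
    obtain ⟨s0, hs0, -⟩ := h2
    have hne : pull k κ ≠ 0 := by
      obtain ⟨x, hx⟩ := Finsupp.support_nonempty_iff.2 hκ
      obtain ⟨s, hs⟩ := h1.1 x hx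
      intro h0
      have h5 : pull k κ s = 0 := by rw [h0]; rfl
      rw [hpull, hs] at h5
      exact (Finsupp.mem_support_iff.1 hx) h5
    have h4 := (st k).β_ne (pull k κ) hne (fun s hs => (h1.2 s hs).trans h3)
    intro h5
    apply h4
    refine ⟨s0, ?_⟩
    apply hinj (k + 1)
    rw [hcompat, hs0, h5]
  · intro g hg hfin
    -- the set would be contained in some `Hk`
    have hb : ∃ k0, ∀ x ∈ {x | ∃ y : H, x = y * g * y⁻¹}, x ∈ (φ k0).range := by
      choose K hK using hex
      refine ⟨hfin.toFinset.sup K, fun x hx => ?_⟩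
      exact hmono (Finset.le_sup (hfin.mem_toFinset.2 hx)) (hK x)
    obtain ⟨k0, hk0⟩ := hb
    obtain ⟨m, hm⟩ := hlen g
    obtain ⟨k, ⟨s, hs, -⟩, hk⟩ := (hm.and (eventually_ge_atTop k0)).exists
    have hs1 : s ≠ 1 := by
      rintro rfl
      rw [map_one] at hs
      exact hg hs.symm
    have h4 := (st k).esc s hs1
    obtain ⟨z, hz⟩ := hmono hk (hk0 (φ (k + 1) ((st k).β (Finsupp.single 1 1)) * g *
      (φ (k + 1) ((st k).β (Finsupp.single 1 1)))⁻¹) ⟨_, rfl⟩)
    apply h4
    refine ⟨z, ?_⟩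
    apply hinj (k + 1)
    rw [hcompat, hz, map_mul, map_mul, map_inv, hcompat, hs]

/-- a stage of the construction -/
structure Stg where
  G : Type
  inst : Group G
  t : TreeGroup G

attribute [instance] Stg.inst

end Lim

theorem specLim (hN : SpecNext) : SpecLim := by
  have hnext : ∀ (s : Lim.Stg) (r : ℕ), ∃ s' : Lim.Stg, Nonempty (Step s.t s'.t r) := by
    intro s r
    obtain ⟨Γ', i, t', h⟩ := hN s.G s.t r
    exact ⟨⟨Γ', i, t'⟩, h⟩
  choose nx hnx using hnext
  obtain ⟨sq, h0, hs⟩ : ∃ sq : ℕ → Lim.Stg,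
      sq 0 = ⟨FreeGroup Bool, inferInstance, Lim.tbase Bool⟩ ∧
      ∀ n, sq (n + 1) = nx (sq n) n :=
    ⟨fun n => Nat.rec (⟨FreeGroup Bool, inferInstance, Lim.tbase Bool⟩ : Lim.Stg)
      (fun k s => nx s k) n, rfl, fun n => rfl⟩
  have hst : ∀ n : ℕ, Nonempty (Step (sq n).t (sq (n + 1)).t n) := by
    intro n
    rw [hs n]
    exact hnx (sq n) n
  obtain ⟨f0, hf0⟩ : ∃ f0 : FreeGroup Bool →* (sq 0).G, Function.Injective f0 := by
    rw [h0]
    exact ⟨MonoidHom.id (FreeGroup Bool), fun _ _ h => h⟩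
  exact Lim.tower_of (fun n => (sq n).G) (fun n => (sq n).t) (fun n => (hst n).some) f0 hf0

end

end MP7e
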