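import Pool.Agent.Lib.MP_7e9852_an.Inv

/-!
Truncated radial multipliers of a group acting properly on a tree, extended by zero to an
overgroup.
-/

namespace MP7e.MTm

open FreeGroup Filter Topology Classical
open scoped InnerProductSpace

noncomputable section

/-! ### Nodes on the ray through the root -/

/-- nodes: initial segments of words, followed by a ray -/
abbrev Nd (E : Type) := List (E × Bool) × ℕ

/-- the `i`-th node on the ray from `u` through the root -/
def nd {E : Type} (u : FreeGroup E) (i : ℕ) : Nd E := (u.toWord.take (u.norm - i), i - u.norm)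

theorem nd_inj {E : Type} (u : FreeGroup E) {i j : ℕ} (h : nd u i = nd u j) : i = j := by
  unfold nd at h
  rw [Prod.mk.injEq] at h
  obtain ⟨h1, h2⟩ := h
  have h3 := congrArg List.length h1
  rw [List.length_take, List.length_take] at h3
  have h4 : u.toWord.length = u.norm := rfl
  rw [h4] at h3
  omega

theorem nd_eq_iff {E : Type} {u v : FreeGroup E} {P A B : List (E × Bool)}
    (hu : u.toWord = P ++ A) (hv : v.toWord = P ++ B)
    (h : ∀ a ∈ A.head?, ∀ b ∈ B.head?, a ≠ b) (i j : ℕ) :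
    nd u i = nd v j ↔ ∃ m, i = A.length + m ∧ j = B.length + m := by
  have hnu : u.norm = P.length + A.length := by
    unfold FreeGroup.norm; rw [hu, List.length_append]
  have hnv : v.norm = P.length + B.length := by
    unfold FreeGroup.norm; rw [hv, List.length_append]
  unfold nd
  rw [Prod.mk.injEq, hnu, hnv, hu, hv]
  constructor
  · rintro ⟨h1, h2⟩
    have h3 := congrArg List.length h1
    rw [List.length_take, List.length_take, List.length_append, List.length_append] at h3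
    by_cases hc : P.length + A.length - i ≤ P.length
    · refine ⟨i - A.length, ?_, ?_⟩ <;> omega
    · exfalso
      push Not at hc
      have hA : 0 < A.length := by omega
      have hB : 0 < B.length := by omega
      have e1 := congrArg (fun l : List (E × Bool) => l[P.length]?) h1
      rw [List.getElem?_take_of_lt hc, List.getElem?_take_of_lt (by omega),
        List.getElem?_append_right le_rfl, List.getElem?_append_right le_rfl, Nat.sub_self] at e1
      rcases A with _ | ⟨a, A⟩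
      · simp at hA
      rcases B with _ | ⟨b, B⟩
      · simp at hB
      simp only [List.getElem?_cons_zero, Option.some.injEq] at e1
      exact h a (by simp) b (by simp) e1
  · rintro ⟨m, rfl, rfl⟩
    constructor
    · have e1 : P.length + A.length - (A.length + m) = P.length - m := by omega
      have e2 : P.length + B.length - (B.length + m) = P.length - m := by omega
      rw [e1, e2, List.take_append_of_le_length (by omega),
        List.take_append_of_le_length (by omega)]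
    · omega

/-- the indicator of a proposition -/
def ind (P : Prop) : ℝ := if P then 1 else 0

theorem ind_pos {P : Prop} (h : P) : ind P = 1 := if_pos h

theorem ind_neg {P : Prop} (h : ¬P) : ind P = 0 := if_neg h

/-! ### The radial kernel -/

/-- the truncated powers -/
def D (N : ℕ) (r : ℝ) (n : ℕ) : ℝ := if n ≤ N then r ^ n else 0

/-- the coefficient of a pair of nodes -/
def G (N : ℕ) (r : ℝ) (n : ℕ) : ℝ := D N r n - D N r (n + 2)

theorem G_eq_zero {N : ℕ} {r : ℝ} {n : ℕ} (h : N < n) : G N r n = 0 := by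
  unfold G D
  rw [if_neg (by omega), if_neg (by omega), sub_zero]

theorem sum_G (N : ℕ) (r : ℝ) (d q : ℕ) (h : N < d + 2 * q) :
    ∑ m ∈ Finset.range q, G N r (d + 2 * m) = D N r d := by
  have e : ∀ m, G N r (d + 2 * m) =
      (fun m => D N r (d + 2 * m)) m - (fun m => D N r (d + 2 * m)) (m + 1) := fun m => by
    unfold G
    show _ = D N r (d + 2 * m) - D N r (d + 2 * (m + 1))
    rfl
  rw [Finset.sum_congr rfl fun m _ => e m, Finset.sum_range_sub']
  show D N r (d + 2 * 0) - D N r (d + 2 * q) = _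
  have e2 : D N r (d + 2 * q) = 0 := by unfold D; rw [if_neg (by omega)]
  rw [e2, sub_zero, mul_zero, add_zero]

theorem kernel_sum {E : Type} (N : ℕ) (r : ℝ) (u v : FreeGroup E) :
    ∑ i ∈ Finset.range (N + 1), ∑ j ∈ Finset.range (N + 1),
      G N r (i + j) * ind (nd u i = nd v j) = D N r (u⁻¹ * v).norm := by
  obtain ⟨P, A, B, hu, hv, hAB⟩ := Tree.lcp u.toWord v.toWord
  rw [Tree.norm_inv_mul hu hv hAB]
  set a := A.length with ha
  set b := B.length with hb
  have e1 : ∀ i ∈ Finset.range (N + 1), (∑ j ∈ Finset.range (N + 1),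
      G N r (i + j) * ind (nd u i = nd v j)) =
      if a ≤ i then G N r (a + b + 2 * (i - a)) else 0 := by
    intro i hi
    split_ifs with hai
    · rw [Finset.sum_eq_single (b + (i - a))]
      · rw [ind_pos ((nd_eq_iff hu hv hAB _ _).2 ⟨i - a, by omega, by omega⟩), mul_one]
        congr 1
        omega
      · intro j _ hj
        rw [ind_neg, mul_zero]
        rw [nd_eq_iff hu hv hAB]
        rintro ⟨m, h1, h2⟩
        apply hj
        omega
      · intro hj
        rw [Finset.mem_range] at hj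
        rw [G_eq_zero (by omega), zero_mul]
    · apply Finset.sum_eq_zero
      intro j _
      rw [ind_neg, mul_zero]
      rw [nd_eq_iff hu hv hAB]
      rintro ⟨m, h1, h2⟩
      apply hai
      omega
  rw [Finset.sum_congr rfl e1]
  by_cases haN : a ≤ N + 1
  · obtain ⟨q, hq⟩ := Nat.exists_eq_add_of_le haN
    rw [hq, Finset.sum_range_add]
    rw [Finset.sum_eq_zero (s := Finset.range a), zero_add]
    · have e2 : ∀ x ∈ Finset.range q, (if a ≤ a + x then G N r (a + b + 2 * (a + x - a)) else 0) =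
          G N r (a + b + 2 * x) := by
        intro x _
        rw [if_pos (by omega)]
        congr 2
        omega
      rw [Finset.sum_congr rfl e2]
      exact sum_G N r (a + b) q (by omega)
    · intro i hi
      rw [Finset.mem_range] at hi
      rw [if_neg (by omega)]
  · rw [Finset.sum_eq_zero]
    · unfold D
      rw [if_neg (by omega)]
    · intro i hi
      rw [Finset.mem_range] at hi
      rw [if_neg (by omega)]

/-! ### The vectors -/

section Vec

variable {Q E : Type} (N : ℕ)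

/-- a finite combination of basis vectors -/
def V (q : Q) (a : ℕ → ℝ) (x : ℕ × ℕ → ℝ) (p : ℕ → Nd E) (p' : ℕ × ℕ → Nd E) :
    L2 (Q × Option (ℕ × ℕ) × Nd E) :=
  ∑ i ∈ Finset.range (N + 1), ((a i : ℝ) : ℂ) • dl (q, none, p i) +
    ∑ y ∈ Finset.range (N + 1) ×ˢ Finset.range (N + 1), ((x y : ℝ) : ℂ) • dl (q, some y, p' y)

theorem inner_sums {ι κ Z : Type*} (I : Finset ι) (J : Finset κ) (a : ι → ℝ) (b : κ → ℝ)
    (f : ι → Z) (g : κ → Z) :
    ⟪∑ i ∈ I, ((a i : ℝ) : ℂ) • dl (f i), ∑ j ∈ J, ((b j : ℝ) : ℂ) • dl (g j)⟫_ℂ =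
      ((∑ i ∈ I, ∑ j ∈ J, a i * b j * ind (f i = g j) : ℝ) : ℂ) := by
  rw [sum_inner, Complex.ofReal_sum]
  refine Finset.sum_congr rfl fun i _ => ?_
  rw [inner_sum, Complex.ofReal_sum]
  refine Finset.sum_congr rfl fun j _ => ?_
  rw [inner_smul_left, inner_smul_right, inner_dl_dl, Complex.conj_ofReal]
  by_cases h : f i = g j
  · rw [ind_pos h]; simp [h]
  · rw [ind_neg h]; simp [h]

theorem inner_V (q q₂ : Q) (a a₂ : ℕ → ℝ) (x x₂ : ℕ × ℕ → ℝ) (p p₂ : ℕ → Nd E)
    (p' p₂' : ℕ × ℕ → Nd E) :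
    ⟪V N q a x p p', V N q₂ a₂ x₂ p₂ p₂'⟫_ℂ =
      (((if q = q₂ then
        ∑ i ∈ Finset.range (N + 1), ∑ j ∈ Finset.range (N + 1),
          a i * a₂ j * ind (p i = p₂ j) +
        ∑ y ∈ Finset.range (N + 1) ×ˢ Finset.range (N + 1),
          x y * x₂ y * ind (p' y = p₂' y)
        else 0 : ℝ)) : ℂ) := by
  unfold V
  rw [inner_add_left, inner_add_right, inner_add_right, inner_sums, inner_sums, inner_sums,
    inner_sums, ← Complex.ofReal_add, ← Complex.ofReal_add, ← Complex.ofReal_add]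
  congr 1
  have z1 : ∑ i ∈ Finset.range (N + 1), ∑ y ∈ Finset.range (N + 1) ×ˢ Finset.range (N + 1),
      a i * x₂ y *
        ind (((q, none, p i) : Q × Option (ℕ × ℕ) × Nd E) = (q₂, some y, p₂' y)) = 0 := by
    refine Finset.sum_eq_zero fun i _ => Finset.sum_eq_zero fun y _ => ?_
    rw [ind_neg (by simp), mul_zero]
  have z2 : ∑ y ∈ Finset.range (N + 1) ×ˢ Finset.range (N + 1), ∑ i ∈ Finset.range (N + 1),
      x y * a₂ i *
        ind (((q, some y, p' y) : Q × Option (ℕ × ℕ) × Nd E) = (q₂, none, p₂ i)) = 0 := by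
    refine Finset.sum_eq_zero fun i _ => Finset.sum_eq_zero fun y _ => ?_
    rw [ind_neg (by simp), mul_zero]
  rw [z1, z2, add_zero, zero_add]
  by_cases hq : q = q₂
  · rw [if_pos hq]
    congr 1
    · refine Finset.sum_congr rfl fun i _ => Finset.sum_congr rfl fun j _ => ?_
      by_cases h : p i = p₂ j
      · rw [ind_pos h, ind_pos (by rw [hq, h])]
      · rw [ind_neg h, ind_neg]
        simp [h]
    · refine Finset.sum_congr rfl fun y hy => ?_
      rw [Finset.sum_eq_single y]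
      · by_cases h : p' y = p₂' y
        · rw [ind_pos h, ind_pos (by rw [hq, h])]
        · rw [ind_neg h, ind_neg]
          simp [h]
      · intro z _ hz
        rw [ind_neg, mul_zero]
        simp only [Prod.mk.injEq, Option.some.injEq, not_and]
        intro _ h1
        exact absurd h1.symm hz
      · intro h
        exact absurd hy h
  · rw [if_neg hq]
    have z3 : ∀ (o o' : Option (ℕ × ℕ)) (n n' : Nd E),
        ind (((q, o, n) : Q × Option (ℕ × ℕ) × Nd E) = (q₂, o', n')) = 0 := by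
      intro o o' n n'
      rw [ind_neg]
      simp [hq]
    simp only [z3, mul_zero, Finset.sum_const_zero, add_zero]

theorem normSq_V (q : Q) (a : ℕ → ℝ) (x : ℕ × ℕ → ℝ) (p : ℕ → Nd E) (p' : ℕ × ℕ → Nd E)
    (hp : ∀ i j, p i = p j → i = j) :
    ‖V N q a x p p'‖ ^ 2 = ∑ i ∈ Finset.range (N + 1), a i ^ 2 +
      ∑ y ∈ Finset.range (N + 1) ×ˢ Finset.range (N + 1), x y ^ 2 := by
  have h := inner_V N q q a a x x p p p' p'
  rw [if_pos rfl, inner_self_eq_norm_sq_to_K] at h
  have h3 : ‖V N q a x p p'‖ ^ 2 =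
      (∑ i ∈ Finset.range (N + 1), ∑ j ∈ Finset.range (N + 1),
        a i * a j * ind (p i = p j)) +
        ∑ y ∈ Finset.range (N + 1) ×ˢ Finset.range (N + 1),
          x y * x y * ind (p' y = p' y) := by
    apply Complex.ofReal_injective
    rw [Complex.ofReal_pow]
    exact h
  rw [h3]
  congr 1
  · refine Finset.sum_congr rfl fun i hi => ?_
    rw [Finset.sum_eq_single i]
    · rw [ind_pos rfl]; ring
    · intro j _ hj
      rw [ind_neg (fun h => hj (hp _ _ h).symm), mul_zero]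
    · intro h
      exact absurd hi h
  · refine Finset.sum_congr rfl fun y _ => ?_
    rw [ind_pos rfl]; ring

end Vec

/-! ### The multiplier -/

section Mul

variable {H : Type} [Group H] (K : Subgroup H) (t : TreeGroup K)

/-- the correction coefficients -/
def cf (N : ℕ) (r : ℝ) (y : ℕ × ℕ) : ℝ := G N r (y.1 + y.2) - (1 - r ^ 2) * r ^ (y.1 + y.2)

theorem cf_le {N : ℕ} {r : ℝ} (h0 : 0 < r) (h1 : r < 1) (y : ℕ × ℕ) :
    |cf N r y| ≤ r ^ (N - 1) := by
  have hr2 : r ^ 2 ≤ 1 := pow_le_one₀ h0.le h1.le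
  have hr2' : 0 ≤ r ^ 2 := by positivity
  unfold cf G D
  generalize y.1 + y.2 = n
  have hn : 0 ≤ r ^ n := by positivity
  by_cases h2 : n + 2 ≤ N
  · rw [if_pos (by omega), if_pos h2, pow_add r n 2]
    have : r ^ n - r ^ n * r ^ 2 - (1 - r ^ 2) * r ^ n = 0 := by ring
    rw [this, abs_zero]
    positivity
  · rw [if_neg h2, sub_zero]
    have hle : r ^ n ≤ r ^ (N - 1) := pow_le_pow_of_le_one h0.le h1.le (by omega)
    split_ifs with h3
    · have : r ^ n - (1 - r ^ 2) * r ^ n = r ^ 2 * r ^ n := by ring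
      rw [this, abs_of_nonneg (by positivity)]
      calc r ^ 2 * r ^ n ≤ 1 * r ^ n := mul_le_mul_of_nonneg_right hr2 hn
        _ ≤ _ := by rw [one_mul]; exact hle
    · rw [zero_sub, abs_neg, abs_of_nonneg (mul_nonneg (by linarith) hn)]
      calc (1 - r ^ 2) * r ^ n ≤ 1 * r ^ n := mul_le_mul_of_nonneg_right (by linarith) hn
        _ ≤ _ := by rw [one_mul]; exact hle

/-- the component in `K` of an element of `H` -/
def kp (s : H) : K := ⟨((s : H ⧸ K).out)⁻¹ * s, by
  rw [← QuotientGroup.eq]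
  exact QuotientGroup.out_eq' _⟩

theorem kp_eq {s u : H} (h : (s : H ⧸ K) = (u : H ⧸ K)) :
    (((kp K s)⁻¹ * kp K u : K) : H) = s⁻¹ * u := by
  show (((s : H ⧸ K).out)⁻¹ * s)⁻¹ * (((u : H ⧸ K).out)⁻¹ * u) = s⁻¹ * u
  rw [h]
  group

/-- the multiplier -/
def phi (N : ℕ) (r : ℝ) (g : H) : ℝ := if h : g ∈ K then D N r (t.len ⟨g, h⟩) else 0

/-- the coefficients of the first part -/
def ca (r : ℝ) (i : ℕ) : ℝ := Real.sqrt (1 - r ^ 2) * r ^ i

theorem sum_ca {r : ℝ} (h0 : 0 < r) (h1 : r < 1) (N : ℕ) :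
    ∑ i ∈ Finset.range (N + 1), ca r i ^ 2 ≤ 1 := by
  have hr2 : 0 ≤ 1 - r ^ 2 := by nlinarith
  have e : ∀ i, ca r i ^ 2 = (fun i => r ^ (2 * i)) i - (fun i => r ^ (2 * i)) (i + 1) := by
    intro i
    unfold ca
    rw [mul_pow, Real.sq_sqrt hr2]
    show _ = r ^ (2 * i) - r ^ (2 * (i + 1))
    ring
  rw [Finset.sum_congr rfl fun i _ => e i, Finset.sum_range_sub']
  show r ^ (2 * 0) - r ^ (2 * (N + 1)) ≤ 1
  have : 0 ≤ r ^ (2 * (N + 1)) := by positivity
  simp only [mul_zero, pow_zero]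
  linarith

/-- the second factor -/
def al (N : ℕ) (r : ℝ) (s : H) : L2 ((H ⧸ K) × Option (ℕ × ℕ) × Nd t.E) :=
  V N (s : H ⧸ K) (ca r) (fun y => Real.sqrt |cf N r y|) (nd (t.w (kp K s)))
    (fun y => nd (t.w (kp K s)) y.2)

/-- the first factor -/
def be (N : ℕ) (r : ℝ) (s : H) : L2 ((H ⧸ K) × Option (ℕ × ℕ) × Nd t.E) :=
  V N (s : H ⧸ K) (ca r) (fun y => SignType.sign (cf N r y) * Real.sqrt |cf N r y|)
    (nd (t.w (kp K s))) (fun y => nd (t.w (kp K s)) y.1)

theorem sum_cf {N : ℕ} {r : ℝ} (h0 : 0 < r) (h1 : r < 1) :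
    ∑ y ∈ Finset.range (N + 1) ×ˢ Finset.range (N + 1), |cf N r y| ≤
      ((N : ℝ) + 1) ^ 2 * r ^ (N - 1) := by
  calc _ ≤ ∑ _y ∈ Finset.range (N + 1) ×ˢ Finset.range (N + 1), r ^ (N - 1) :=
        Finset.sum_le_sum fun y _ => cf_le h0 h1 y
    _ = _ := by
        rw [Finset.sum_const, Finset.card_product, Finset.card_range, nsmul_eq_mul]
        push_cast
        ring

theorem norm_al {N : ℕ} {r η : ℝ} (h0 : 0 < r) (h1 : r < 1) (hη : 0 ≤ η)
    (hN : ((N : ℝ) + 1) ^ 2 * r ^ (N - 1) ≤ η) (s : H) : ‖al K t N r s‖ ≤ 1 + η := by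
  have h := normSq_V N (s : H ⧸ K) (ca r) (fun y => Real.sqrt |cf N r y|)
    (nd (t.w (kp K s))) (fun y => nd (t.w (kp K s)) y.2) (fun i j h => nd_inj _ h)
  have h2 : ‖al K t N r s‖ ^ 2 ≤ 1 + η := by
    unfold al
    rw [h]
    refine add_le_add (sum_ca h0 h1 N) ?_
    refine le_trans (le_of_eq ?_) ((sum_cf h0 h1).trans hN)
    exact Finset.sum_congr rfl fun y _ => Real.sq_sqrt (abs_nonneg _)
  nlinarith [norm_nonneg (al K t N r s)]

theorem norm_be {N : ℕ} {r η : ℝ} (h0 : 0 < r) (h1 : r < 1) (hη : 0 ≤ η)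
    (hN : ((N : ℝ) + 1) ^ 2 * r ^ (N - 1) ≤ η) (s : H) : ‖be K t N r s‖ ≤ 1 + η := by
  have h := normSq_V N (s : H ⧸ K) (ca r)
    (fun y => SignType.sign (cf N r y) * Real.sqrt |cf N r y|)
    (nd (t.w (kp K s))) (fun y => nd (t.w (kp K s)) y.1) (fun i j h => nd_inj _ h)
  have h2 : ‖be K t N r s‖ ^ 2 ≤ 1 + η := by
    unfold be
    rw [h]
    refine add_le_add (sum_ca h0 h1 N) ?_
    refine le_trans (Finset.sum_le_sum fun y _ => ?_) ((sum_cf h0 h1).trans hN)
    rw [mul_pow, Real.sq_sqrt (abs_nonneg _)]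
    have : ((SignType.sign (cf N r y) : ℝ)) ^ 2 ≤ 1 := by
      rcases SignType.sign (cf N r y) <;> simp
    calc _ ≤ 1 * |cf N r y| := mul_le_mul_of_nonneg_right this (abs_nonneg _)
      _ = _ := one_mul _
  nlinarith [norm_nonneg (be K t N r s)]

theorem inner_be_al {N : ℕ} {r : ℝ} (h0 : 0 < r) (h1 : r < 1) (s u : H) :
    ⟪be K t N r s, al K t N r u⟫_ℂ = ((phi K t N r (s⁻¹ * u) : ℝ) : ℂ) := by
  have hr2 : 0 ≤ 1 - r ^ 2 := by nlinarith
  unfold be al
  rw [inner_V]
  congr 1
  unfold phi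
  by_cases hq : (s : H ⧸ K) = (u : H ⧸ K)
  · rw [if_pos hq, dif_pos (QuotientGroup.eq.1 hq)]
    have e1 : (⟨s⁻¹ * u, QuotientGroup.eq.1 hq⟩ : K) = (kp K s)⁻¹ * kp K u :=
      Subtype.ext (kp_eq K hq).symm
    rw [e1, Tree.len_inv_mul, ← kernel_sum, Finset.sum_product, ← Finset.sum_add_distrib]
    refine Finset.sum_congr rfl fun i _ => ?_
    rw [← Finset.sum_add_distrib]
    refine Finset.sum_congr rfl fun j _ => ?_
    simp only
    have e2 : (SignType.sign (cf N r (i, j)) : ℝ) * Real.sqrt |cf N r (i, j)| *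
        Real.sqrt |cf N r (i, j)| = cf N r (i, j) := by
      rw [mul_assoc, Real.mul_self_sqrt (abs_nonneg _), sign_mul_abs]
    rw [e2]
    have e3 : ca r i * ca r j = (1 - r ^ 2) * r ^ (i + j) := by
      unfold ca
      calc _ = (Real.sqrt (1 - r ^ 2) * Real.sqrt (1 - r ^ 2)) * (r ^ i * r ^ j) := by ring
        _ = _ := by rw [Real.mul_self_sqrt hr2, pow_add]
    rw [e3]
    unfold cf
    ring
  · rw [if_neg hq, dif_neg]
    intro h
    exact hq (QuotientGroup.eq.2 h)

end Mul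

end

end MP7e.MTm

namespace MP7e

open Filter Topology Classical MTm

theorem specMT : SpecMT := by
  intro H _ K t F hF ε hε
  -- the lengths of the elements of `F`
  obtain ⟨n0, hn0⟩ : ∃ n0 : ℕ, ∀ g (hg : g ∈ F), t.len ⟨g, hF g hg⟩ ≤ n0 := by
    refine ⟨∑ g ∈ F.attach, t.len ⟨g.1, hF g.1 g.2⟩, fun g hg => ?_⟩
    exact Finset.single_le_sum (f := fun g : {x // x ∈ F} => t.len ⟨g.1, hF g.1 g.2⟩)
      (fun _ _ => Nat.zero_le _) (Finset.mem_attach F ⟨g, hg⟩)
  -- the parameter `r`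
  obtain ⟨r, hr0, hr1, hr⟩ : ∃ r : ℝ, 0 < r ∧ r < 1 ∧ 1 - ε ≤ r ^ n0 := by
    set δ : ℝ := min (ε / (n0 + 1)) (1 / 2) with hδ
    have hn : (0 : ℝ) < (n0 : ℝ) + 1 := by positivity
    have hδ0 : 0 < δ := lt_min (div_pos hε hn) (by norm_num)
    have hδ1 : δ ≤ 1 / 2 := min_le_right _ _
    have hδ2 : δ ≤ ε / (n0 + 1) := min_le_left _ _
    refine ⟨1 - δ, by linarith, by linarith, ?_⟩
    have hb := one_add_mul_le_pow (a := -δ) (by linarith) n0
    have h2 : (n0 : ℝ) * δ ≤ ε := by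
      have : ((n0 : ℝ) + 1) * δ ≤ ε := by
        rw [le_div_iff₀ hn] at hδ2
        linarith
      nlinarith
    have e : (1 : ℝ) - δ = 1 + -δ := by ring
    rw [e]
    linarith
  -- the truncation
  obtain ⟨N, hN0, hN⟩ : ∃ N : ℕ, n0 ≤ N ∧ ((N : ℝ) + 1) ^ 2 * r ^ (N - 1) ≤ ε := by
    have h1 := tendsto_pow_const_mul_const_pow_of_abs_lt_one 2
      (r := r) (by rw [abs_of_pos hr0]; exact hr1)
    have h2 : ∀ᶠ n : ℕ in atTop, (n : ℝ) ^ 2 * r ^ n < ε * r ^ 2 :=
      h1.eventually (gt_mem_nhds (by positivity))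
    obtain ⟨M, hM⟩ := (h2.and (eventually_ge_atTop (n0 + 2))).exists
    refine ⟨M - 1, by omega, ?_⟩
    have hM2 := hM.2
    have e1 : (((M - 1 : ℕ) : ℝ) + 1) = (M : ℝ) := by
      rw [Nat.cast_sub (by omega)]; push_cast; ring
    have e2 : r ^ M = r ^ (M - 1 - 1) * r ^ 2 := by
      rw [← pow_add]; congr 1; omega
    rw [e1]
    have h3 := hM.1
    rw [e2] at h3
    have hr2 : (0 : ℝ) < r ^ 2 := by positivity
    have h4 : (M : ℝ) ^ 2 * r ^ (M - 1 - 1) * r ^ 2 < ε * r ^ 2 := by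
      calc _ = (M : ℝ) ^ 2 * (r ^ (M - 1 - 1) * r ^ 2) := by ring
        _ < _ := h3
    exact (lt_of_mul_lt_mul_right h4 hr2.le).le
  refine ⟨{
    φ := phi K t N r
    supp := (t.proper N).toFinset.image (fun k : K => (k : H))
    hsupp := ?_
    C := 1 + ε
    Y := (H ⧸ K) × Option (ℕ × ℕ) × Nd t.E
    α := al K t N r
    β := be K t N r
    hα := ⟨by linarith, norm_al K t hr0 hr1 hε.le hN⟩
    hβ := ⟨by linarith, norm_be K t hr0 hr1 hε.le hN⟩
    fact := inner_be_al K t hr0 hr1 }, ?_, le_rfl, ?_, ?_⟩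
  · intro g hg
    unfold phi
    split_ifs with h
    · unfold D
      rw [if_neg]
      intro hle
      apply hg
      rw [Finset.mem_image]
      exact ⟨⟨g, h⟩, by rw [Set.Finite.mem_toFinset]; exact hle, rfl⟩
    · rfl
  · show phi K t N r 1 = 1
    unfold phi
    rw [dif_pos K.one_mem]
    have : (⟨1, K.one_mem⟩ : K) = 1 := rfl
    rw [this, Tree.len_one]
    unfold D
    simp
  · intro g hg
    show |phi K t N r g - 1| ≤ ε
    unfold phi
    rw [dif_pos (hF g hg)]
    have hle := hn0 g hg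
    unfold D
    rw [if_pos (hle.trans hN0)]
    have h1 : r ^ n0 ≤ r ^ t.len ⟨g, hF g hg⟩ := pow_le_pow_of_le_one hr0.le hr1.le hle
    have h2 : r ^ t.len ⟨g, hF g hg⟩ ≤ 1 := pow_le_one₀ hr0.le hr1.le
    rw [abs_le]
    constructor <;> linarith
  · intro g hg
    simp only [Finset.mem_image] at hg
    obtain ⟨k, _, rfl⟩ := hg
    exact k.2

end MP7e
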