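import Pool.Agent.Lib.MP_7e9852_an.NextDefs

/-!
# NEXT: lifting words of the tree to the zero sheet
-/

set_option autoImplicit false

namespace MP7e.Next

open Classical

noncomputable section

set_option linter.unusedSectionVars false

variable {Γ : Type} [Group Γ] (t : TreeGroup Γ) (r : ℕ)

/-- the zero sheet lift of an edge -/
def zE (ε : FreeGroup t.E × t.E) : E' t r := ⟨0, ε, off_zero _⟩

/-- the zero sheet lift of a vertex -/
def zV (u : FreeGroup t.E) : V' t r := ⟨0, u, off_zero _⟩

theorem zE_z (ε : FreeGroup t.E × t.E) : (zE t r ε).z = ε := rfl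

theorem zE_k (ε : FreeGroup t.E × t.E) : (zE t r ε).k = 0 := rfl

theorem zV_z (u : FreeGroup t.E) : (zV t r u).z = u := rfl

theorem zV_one : zV t r 1 = v0 t r := rfl

theorem zE_of_k {c : E' t r} (h : c.k = 0) : c = zE t r c.z := Cfg.ext' rfl h

theorem src_zE (ε : FreeGroup t.E × t.E) : src t r (zE t r ε) = zV t r ε.1 :=
  Cfg.ext' rfl (off_zero _)

theorem tgt_zE (ε : FreeGroup t.E × t.E) :
    tgt t r (zE t r ε) = zV t r (ε.1 * FreeGroup.of ε.2) :=
  Cfg.ext' rfl (off_zero _)

/-- the lift of one letter -/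
def lt1 (u : FreeGroup t.E) (x : t.E × Bool) : E' t r × Bool :=
  (zE t r (if x.2 then u else u * FreeGroup.mk [x], x.1), x.2)

theorem lt1_snd (u : FreeGroup t.E) (x : t.E × Bool) : (lt1 t r u x).2 = x.2 := rfl

theorem lt1_fst_z2 (u : FreeGroup t.E) (x : t.E × Bool) : (lt1 t r u x).1.z.2 = x.1 := rfl

theorem mk_false_mul_of (e : t.E) :
    FreeGroup.mk [(e, false)] * FreeGroup.of e = 1 := by
  have h : FreeGroup.mk [(e, false)] = (FreeGroup.of e)⁻¹ := rfl
  rw [h, inv_mul_cancel]

theorem of_mul_mk_false (e : t.E) :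
    FreeGroup.of e * FreeGroup.mk [(e, false)] = 1 := by
  have h : FreeGroup.mk [(e, false)] = (FreeGroup.of e)⁻¹ := rfl
  rw [h, mul_inv_cancel]

theorem st_lt1 (u : FreeGroup t.E) (x : t.E × Bool) : st t r (lt1 t r u x) = zV t r u := by
  obtain ⟨e, b⟩ := x
  cases b
  · show tgt t r (zE t r (u * FreeGroup.mk [(e, false)], e)) = zV t r u
    rw [tgt_zE]
    show zV t r (u * FreeGroup.mk [(e, false)] * FreeGroup.of e) = zV t r u
    rw [mul_assoc, mk_false_mul_of, mul_one]
  · exact src_zE t r (u, e)

theorem en_lt1 (u : FreeGroup t.E) (x : t.E × Bool) :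
    en t r (lt1 t r u x) = zV t r (u * FreeGroup.mk [x]) := by
  obtain ⟨e, b⟩ := x
  cases b
  · exact src_zE t r (u * FreeGroup.mk [(e, false)], e)
  · exact tgt_zE t r (u, e)

/-- the lift of a word starting at the vertex `u` -/
def pl : FreeGroup t.E → List (t.E × Bool) → List (E' t r × Bool)
  | _, [] => []
  | u, x :: L => lt1 t r u x :: pl (u * FreeGroup.mk [x]) L

theorem pl_nil (u : FreeGroup t.E) : pl t r u [] = [] := rfl

theorem pl_cons (u : FreeGroup t.E) (x : t.E × Bool) (L : List (t.E × Bool)) :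
    pl t r u (x :: L) = lt1 t r u x :: pl t r (u * FreeGroup.mk [x]) L := rfl

theorem mk_cons (x : t.E × Bool) (L : List (t.E × Bool)) :
    FreeGroup.mk (x :: L) = FreeGroup.mk [x] * FreeGroup.mk L := by
  rw [FreeGroup.mul_mk]; rfl

theorem pl_append (u : FreeGroup t.E) (L L' : List (t.E × Bool)) :
    pl t r u (L ++ L') = pl t r u L ++ pl t r (u * FreeGroup.mk L) L' := by
  induction L generalizing u with
  | nil =>
    have h : u * FreeGroup.mk [] = u := by
      rw [← FreeGroup.one_eq_mk, mul_one]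
    rw [List.nil_append, pl_nil, List.nil_append, h]
  | cons x L ih =>
    rw [List.cons_append, pl_cons, ih, pl_cons, List.cons_append, mk_cons t x L, mul_assoc]

theorem length_pl (u : FreeGroup t.E) (L : List (t.E × Bool)) :
    (pl t r u L).length = L.length := by
  induction L generalizing u with
  | nil => rfl
  | cons x L ih => rw [pl_cons, List.length_cons, ih, List.length_cons]

theorem pl_k {u : FreeGroup t.E} {L : List (t.E × Bool)} {y : E' t r × Bool}
    (hy : y ∈ pl t r u L) : y.1.k = 0 := by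
  induction L generalizing u with
  | nil => simp [pl_nil] at hy
  | cons x L ih =>
    rw [pl_cons, List.mem_cons] at hy
    rcases hy with hy | hy
    · rw [hy]; rfl
    · exact ih hy

theorem lt1_not (u : FreeGroup t.E) (e : t.E) (b : Bool) :
    lt1 t r (u * FreeGroup.mk [(e, b)]) (e, !b) = ((lt1 t r u (e, b)).1, !b) := by
  cases b
  · show (zE t r (u * FreeGroup.mk [(e, false)], e), true) =
      (zE t r (u * FreeGroup.mk [(e, false)], e), true)
    rfl
  · show (zE t r (u * FreeGroup.mk [(e, true)] * FreeGroup.mk [(e, false)], e), false) =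
      (zE t r (u, e), false)
    have h : u * FreeGroup.mk [(e, true)] * FreeGroup.mk [(e, false)] = u := by
      rw [mul_assoc]
      have := of_mul_mk_false t e
      rw [show FreeGroup.mk [(e, true)] = FreeGroup.of e from rfl, this, mul_one]
    rw [h]

theorem pl_step (u : FreeGroup t.E) {L L' : List (t.E × Bool)} (h : FreeGroup.Red.Step L L') :
    FreeGroup.Red.Step (pl t r u L) (pl t r u L') := by
  cases h with
  | @not L₁ L₂ x b =>
    rw [pl_append, pl_append, pl_cons, pl_cons, lt1_not]
    have h2 : u * FreeGroup.mk L₁ * FreeGroup.mk [(x, b)] * FreeGroup.mk [(x, !b)] =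
        u * FreeGroup.mk L₁ := by
      cases b
      · rw [mul_assoc]
        have := mk_false_mul_of t x
        rw [show FreeGroup.mk [(x, !false)] = FreeGroup.of x from rfl, this, mul_one]
      · rw [mul_assoc]
        have := of_mul_mk_false t x
        rw [show FreeGroup.mk [(x, !true)] = FreeGroup.mk [(x, false)] from rfl,
          show FreeGroup.mk [(x, true)] = FreeGroup.of x from rfl, this, mul_one]
    rw [h2]
    have h3 : lt1 t r (u * FreeGroup.mk L₁) (x, b) =
      ((lt1 t r (u * FreeGroup.mk L₁) (x, b)).1, b) := rfl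
    rw [h3]
    exact FreeGroup.Red.Step.not

theorem pl_red (u : FreeGroup t.E) {L L' : List (t.E × Bool)} (h : FreeGroup.Red L L') :
    FreeGroup.Red (pl t r u L) (pl t r u L') := by
  induction h with
  | refl => exact FreeGroup.Red.refl
  | tail _ h2 ih => exact ih.tail (pl_step t r u h2)

/-- the lift of the geodesic from `u` to `u v` -/
def PP (u v : FreeGroup t.E) : FreeGroup (E' t r) := FreeGroup.mk (pl t r u v.toWord)

theorem mk_eq_of_red {α : Type*} {L L' : List (α × Bool)} (h : FreeGroup.Red L L') :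
    FreeGroup.mk L = FreeGroup.mk L' :=
  FreeGroup.Red.exact.2 ⟨L', h, FreeGroup.Red.refl⟩

theorem mk_pl (u : FreeGroup t.E) (L : List (t.E × Bool)) :
    FreeGroup.mk (pl t r u L) = PP t r u (FreeGroup.mk L) := by
  unfold PP
  rw [FreeGroup.toWord_mk]
  exact mk_eq_of_red (pl_red t r u FreeGroup.reduce.red)

theorem PP_one (u : FreeGroup t.E) : PP t r u 1 = 1 := by
  unfold PP
  rw [FreeGroup.toWord_one, pl_nil, ← FreeGroup.one_eq_mk]

theorem PP_mul (u v v' : FreeGroup t.E) :
    PP t r u (v * v') = PP t r u v * PP t r (u * v) v' := by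
  have h : v * v' = FreeGroup.mk (v.toWord ++ v'.toWord) := by
    rw [← FreeGroup.mul_mk, FreeGroup.mk_toWord, FreeGroup.mk_toWord]
  rw [h, ← mk_pl, pl_append, ← FreeGroup.mul_mk, mk_pl, mk_pl, FreeGroup.mk_toWord,
    FreeGroup.mk_toWord]

theorem isReduced_pl (u : FreeGroup t.E) {L : List (t.E × Bool)} (h : FreeGroup.IsReduced L) :
    FreeGroup.IsReduced (pl t r u L) := by
  induction L generalizing u with
  | nil => exact List.IsChain.nil
  | cons x L ih =>
    cases L with
    | nil => exact List.IsChain.singleton _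
    | cons y L =>
      unfold FreeGroup.IsReduced at h ⊢
      rw [List.isChain_cons_cons] at h
      rw [pl_cons, pl_cons, List.isChain_cons_cons]
      refine ⟨?_, ?_⟩
      · intro h1
        have h2 := congrArg (fun c => c.z.2) h1
        exact h.1 h2
      · have := ih (u * FreeGroup.mk [x]) h.2
        rw [pl_cons] at this
        exact this

theorem toWord_PP (u v : FreeGroup t.E) : (PP t r u v).toWord = pl t r u v.toWord := by
  unfold PP
  rw [FreeGroup.toWord_mk]
  exact (isReduced_pl t r u FreeGroup.isReduced_toWord).reduce_eq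

theorem norm_PP (u v : FreeGroup t.E) : (PP t r u v).norm = v.norm := by
  unfold FreeGroup.norm
  rw [toWord_PP, length_pl]

theorem path_pl (u : FreeGroup t.E) (L : List (t.E × Bool))
    (h : ∀ L', L' <+: L → u * FreeGroup.mk L' ∈ Set.range t.w) :
    Path t r (pl t r u L) (zV t r u) (zV t r (u * FreeGroup.mk L)) := by
  induction L generalizing u with
  | nil =>
    rw [pl_nil, path_nil, ← FreeGroup.one_eq_mk, mul_one]
  | cons x L ih =>
    rw [pl_cons, path_cons, st_lt1, en_lt1]
    refine ⟨rfl, ?_, ?_, ?_⟩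
    · have := h [] List.nil_prefix
      rw [← FreeGroup.one_eq_mk, mul_one] at this
      exact this
    · exact h [x] (by simp)
    · have := ih (u * FreeGroup.mk [x]) (by
        intro L' hL'
        have := h (x :: L') (by
          rw [List.cons_prefix_cons]; exact ⟨rfl, hL'⟩)
        rw [mk_cons t x L', ← mul_assoc] at this
        exact this)
      rw [mk_cons t x L, ← mul_assoc]
      exact this

theorem path_PP_w (g : Γ) :
    Path t r (PP t r 1 (t.w g)).toWord (v0 t r) (zV t r (t.w g)) := by
  rw [toWord_PP]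
  have h := path_pl t r 1 (t.w g).toWord (by
    intro L' hL'
    obtain ⟨h, hh⟩ := t.pref g L' hL'
    refine ⟨h, ?_⟩
    rw [one_mul, ← hh, FreeGroup.mk_toWord])
  rw [one_mul, FreeGroup.mk_toWord] at h
  exact h

/-! ### the action of `Γ` -/

/-- the element `g` of the lamplighter group -/
def pos (g : Γ) : Lamp Γ := ⟨0, g⟩

theorem pos_lamp (g : Γ) : (pos g).lamp = 0 := rfl

theorem pos_pos (g : Γ) : (pos g).pos = g := rfl

theorem pos_mul (g h : Γ) : pos (g * h) = pos g * pos h := by
  apply Lamp.ext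
  · rw [Lamp.mul_lamp, pos_lamp, pos_lamp, pos_lamp, shift_zero, add_zero]
  · rfl

theorem pos_one : pos (1 : Γ) = 1 := rfl

theorem actE_pos_k (g : Γ) (c : E' t r) : (actE t r (pos g) c).k = shift g c.k := by
  rw [actE_k, pos_lamp, pos_pos, zero_add]
  have h := off_shift (g := g) (A := SE t r c.z) (B := SE t r (sigE t g c.z))
    (fun h => hSE t r g c.z h) c.k
  rw [sigE_apply] at h
  rw [h, c.hk]

theorem actE_pos_zE (g : Γ) (ε : FreeGroup t.E × t.E) :
    actE t r (pos g) (zE t r ε) = zE t r (star t g ε.1, t.act g ε.2) := by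
  refine Cfg.ext' rfl ?_
  rw [actE_pos_k, zE_k, shift_zero, zE_k]

theorem actV_pos_zV (g : Γ) (u : FreeGroup t.E) :
    actV t r (pos g) (zV t r u) = zV t r (star t g u) := by
  refine Cfg.ext' rfl ?_
  show off _ (0 + shift g 0) = 0
  rw [shift_zero, zero_add, off_zero]

theorem star_mul_mk (g : Γ) (u : FreeGroup t.E) (L : List (t.E × Bool)) :
    star t g (u * FreeGroup.mk L) =
      star t g u * FreeGroup.mk (L.map fun y => (t.act g y.1, y.2)) := by
  unfold star
  rw [map_mul, FreeGroup.map.mk, mul_assoc]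

theorem lt1_act (g : Γ) (u : FreeGroup t.E) (x : t.E × Bool) :
    (actE t r (pos g) (lt1 t r u x).1, (lt1 t r u x).2) =
      lt1 t r (star t g u) (t.act g x.1, x.2) := by
  obtain ⟨e, b⟩ := x
  cases b
  · show (actE t r (pos g) (zE t r (u * FreeGroup.mk [(e, false)], e)), false) =
      (zE t r (star t g u * FreeGroup.mk [(t.act g e, false)], t.act g e), false)
    rw [actE_pos_zE, star_mul_mk]
    rfl
  · show (actE t r (pos g) (zE t r (u, e)), true) = (zE t r (star t g u, t.act g e), true)
    rw [actE_pos_zE]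

theorem pl_act (g : Γ) (u : FreeGroup t.E) (L : List (t.E × Bool)) :
    (pl t r u L).map (fun y => (actE t r (pos g) y.1, y.2)) =
      pl t r (star t g u) (L.map fun y => (t.act g y.1, y.2)) := by
  induction L generalizing u with
  | nil => rfl
  | cons x L ih =>
    rw [pl_cons, List.map_cons, ih, List.map_cons, pl_cons, lt1_act, star_mul_mk]
    rfl

theorem phi_PP (g : Γ) (u v : FreeGroup t.E) :
    phi t r (pos g) (PP t r u v) = PP t r (star t g u) (FreeGroup.map (t.act g) v) := by
  rw [phi_apply]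
  unfold PP
  rw [FreeGroup.map.mk, pl_act, toWord_map (t.act g).injective]

theorem star_one_right (g : Γ) : star t g 1 = t.w g := by
  unfold star
  rw [map_one, mul_one]

theorem PP_w_mul (g h : Γ) :
    PP t r 1 (t.w (g * h)) = PP t r 1 (t.w g) * phi t r (pos g) (PP t r 1 (t.w h)) := by
  rw [t.cocycle, PP_mul, phi_PP, one_mul, star_one_right]

/-! ### distances -/

theorem dist_triangle (a b c : FreeGroup t.E) : dist t a c ≤ dist t a b + dist t b c := by
  unfold dist
  have h : a⁻¹ * c = (a⁻¹ * b) * (b⁻¹ * c) := by group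
  rw [h]
  exact FreeGroup.norm_mul_le _ _

theorem len_inv (g : Γ) : t.len g⁻¹ = t.len g := by
  have h1 := dist_w t g 1
  have h2 := dist_w t 1 g
  rw [mul_one] at h1
  rw [inv_one, one_mul] at h2
  rw [← h1, ← h2, dist_comm]

theorem len_one : t.len 1 = 0 := by
  unfold TreeGroup.len
  rw [w_one, FreeGroup.norm_one]

theorem dist_w_one (g : Γ) : dist t (t.w g) 1 = t.len g := by
  have h := dist_w t g 1
  rw [w_one, mul_one, len_inv] at h
  exact h

theorem len_mul_le (g h : Γ) : t.len (g * h) ≤ t.len g + t.len h := by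
  unfold TreeGroup.len
  rw [t.cocycle]
  refine (FreeGroup.norm_mul_le _ _).trans ?_
  rw [norm_map (t.act g).injective]

/-- a vertex on the geodesic from `1` to `v` -/
theorem dist_prefix {v : FreeGroup t.E} {L : List (t.E × Bool)} (h : L <+: v.toWord) :
    dist t v (FreeGroup.mk L) ≤ v.norm := by
  obtain ⟨L', hL'⟩ := h
  have h1 : v = FreeGroup.mk L * FreeGroup.mk L' := by
    rw [FreeGroup.mul_mk, hL', FreeGroup.mk_toWord]
  rw [dist_comm]
  unfold dist
  have h2 : (FreeGroup.mk L)⁻¹ * v = FreeGroup.mk L' := by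
    rw [h1]; group
  rw [h2]
  refine FreeGroup.norm_mk_le.trans ?_
  unfold FreeGroup.norm
  rw [← hL', List.length_append]
  omega

/-- the letters of a lifted word are edges between vertices of the word -/
theorem mem_pl {u : FreeGroup t.E} {L : List (t.E × Bool)} {y : E' t r × Bool}
    (hy : y ∈ pl t r u L) :
    (∃ L', L' <+: L ∧ y.1.z.1 = u * FreeGroup.mk L') ∧
    (∃ L', L' <+: L ∧ y.1.z.1 * FreeGroup.of y.1.z.2 = u * FreeGroup.mk L') := by
  induction L generalizing u with
  | nil => simp [pl_nil] at hy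
  | cons x L ih =>
    rw [pl_cons, List.mem_cons] at hy
    rcases hy with hy | hy
    · have h0 : ∃ L', L' <+: x :: L ∧ u = u * FreeGroup.mk L' :=
        ⟨[], List.nil_prefix, by rw [← FreeGroup.one_eq_mk, mul_one]⟩
      have h1 : ∃ L', L' <+: x :: L ∧ u * FreeGroup.mk [x] = u * FreeGroup.mk L' :=
        ⟨[x], by simp, rfl⟩
      rw [hy]
      obtain ⟨e, b⟩ := x
      cases b
      · refine ⟨h1, ?_⟩
        show ∃ L', L' <+: _ ∧ u * FreeGroup.mk [(e, false)] * FreeGroup.of e = _
        rw [mul_assoc, mk_false_mul_of, mul_one]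
        exact h0
      · exact ⟨h0, h1⟩
    · obtain ⟨⟨L1, h1, h2⟩, ⟨L2, h3, h4⟩⟩ := ih hy
      refine ⟨⟨x :: L1, ?_, ?_⟩, ⟨x :: L2, ?_, ?_⟩⟩
      · rw [List.cons_prefix_cons]; exact ⟨rfl, h1⟩
      · rw [h2, mk_cons t x L1, mul_assoc]
      · rw [List.cons_prefix_cons]; exact ⟨rfl, h3⟩
      · rw [h4, mk_cons t x L2, mul_assoc]

end

end MP7e.Next
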