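import Pool.Agent.Lib.MP_7e9852_an.NextDefs
import Pool.Agent.Lib.MP_7e9852_an.NextGeo

section
/-!
# NEXT-A: the new group acts properly on the new tree
-/
set_option autoImplicit false

namespace MP7e.Next

open Classical

noncomputable section

variable {Γ : Type} [Group Γ] (t : TreeGroup Γ) (r : ℕ)

theorem finite_SV {u : FreeGroup t.E} (hu : u ∈ Set.range t.w) : (SV t r u).Finite := by
  obtain ⟨g, rfl⟩ := hu
  have hf : {h : Γ | (t.w h).norm ≤ r}.Finite := t.proper r
  refine Set.Finite.of_injOn (f := fun h => h⁻¹ * g) ?_ ?_ hf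
  · intro h hh
    rw [mem_SV, dist_w] at hh
    exact hh
  · intro a _ b _ hab
    exact inv_injective (mul_right_cancel hab)

theorem finite_off {A : Set Γ} (hA : A.Finite) (k0 : Γ →₀ ZMod 2) :
    {k : Γ →₀ ZMod 2 | off A k = k0}.Finite := by
  have : Finite A := hA
  have : Finite (A → ZMod 2) := inferInstance
  refine Set.Finite.of_injOn (f := fun (k : Γ →₀ ZMod 2) (h : A) => k h) (t := Set.univ) ?_ ?_
    Set.finite_univ
  · intro k _; exact Set.mem_univ _
  · intro k hk k' hk' h
    ext x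
    by_cases hx : x ∈ A
    · have h2 := congrFun h ⟨x, hx⟩
      simpa using h2
    · have h1 : off A k = off A k' := by
        rw [Set.mem_setOf_eq] at hk hk'; rw [hk, hk']
      have h2 := DFunLike.congr_fun h1 x
      rw [off_apply, off_apply, if_neg hx, if_neg hx] at h2
      exact h2

theorem star_mul_right (g : Γ) (v x : FreeGroup t.E) :
    star t g (v * x) = star t g v * FreeGroup.map (t.act g) x := by
  unfold star
  rw [map_mul, mul_assoc]

theorem finite_edges_out {u : FreeGroup t.E} (hu : u ∈ Set.range t.w) :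
    {e : t.E | u * FreeGroup.of e ∈ Set.range t.w}.Finite := by
  obtain ⟨h, rfl⟩ := hu
  have hf : (t.w '' {g : Γ | (t.w g).norm ≤ 1}).Finite := (t.proper 1).image _
  refine Set.Finite.of_injOn (f := fun e => FreeGroup.of (t.act h⁻¹ e)) ?_ ?_ hf
  · rintro e ⟨h', hh'⟩
    have h1 : FreeGroup.of (t.act h⁻¹ e) = t.w (h⁻¹ * h') := by
      rw [← star_w, hh', star_mul_of, star_w, inv_mul_cancel, w_one, one_mul]
    refine ⟨h⁻¹ * h', ?_, h1.symm⟩
    rw [Set.mem_setOf_eq, ← h1, FreeGroup.norm_of]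
  · intro a _ b _ hab
    exact (t.act h⁻¹).injective (FreeGroup.of_injective hab)

theorem finite_edges_in {u : FreeGroup t.E} (hu : u ∈ Set.range t.w) :
    {e : t.E | u * (FreeGroup.of e)⁻¹ ∈ Set.range t.w}.Finite := by
  obtain ⟨h, rfl⟩ := hu
  have hf : (t.w '' {g : Γ | (t.w g).norm ≤ 1}).Finite := (t.proper 1).image _
  refine Set.Finite.of_injOn (f := fun e => (FreeGroup.of (t.act h⁻¹ e))⁻¹) ?_ ?_ hf
  · rintro e ⟨h', hh'⟩
    have h1 : (FreeGroup.of (t.act h⁻¹ e))⁻¹ = t.w (h⁻¹ * h') := by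
      rw [← star_w, hh', star_mul_right, star_w, inv_mul_cancel, w_one, one_mul,
        map_inv (FreeGroup.map (t.act h⁻¹)), FreeGroup.map.of]
    refine ⟨h⁻¹ * h', ?_, h1.symm⟩
    rw [Set.mem_setOf_eq, ← h1, FreeGroup.norm_inv_eq, FreeGroup.norm_of]
  · intro a _ b _ hab
    exact (t.act h⁻¹).injective (FreeGroup.of_injective (inv_injective hab))

theorem finite_src {v : V' t r} (hv : Over t r v) :
    {a : E' t r | src t r a = v ∧ Over t r (tgt t r a)}.Finite := by
  have h1 := finite_off (finite_SV t r hv) v.k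
  have h2 := finite_edges_out t hv
  refine Set.Finite.of_injOn (f := fun a => (a.k, a.z.2)) ?_ ?_ (h1.prod h2)
  · rintro a ⟨ha, ho⟩
    have hz : a.z.1 = v.z := congrArg Cfg.z ha
    have hk : off (SV t r a.z.1) a.k = v.k := congrArg Cfg.k ha
    rw [hz] at hk
    refine ⟨hk, ?_⟩
    have h3 : a.z.1 * FreeGroup.of a.z.2 ∈ Set.range t.w := ho
    rw [hz] at h3
    exact h3
  · rintro a ⟨ha, -⟩ b ⟨hb, -⟩ hab
    have hza : a.z.1 = v.z := congrArg Cfg.z ha
    have hzb : b.z.1 = v.z := congrArg Cfg.z hb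
    have h3 := Prod.ext_iff.1 hab
    exact Cfg.ext' (Prod.ext (hza.trans hzb.symm) h3.2) h3.1

theorem finite_tgt {v : V' t r} (hv : Over t r v) :
    {a : E' t r | tgt t r a = v ∧ Over t r (src t r a)}.Finite := by
  have h1 := finite_off (finite_SV t r hv) v.k
  have h2 := finite_edges_in t hv
  refine Set.Finite.of_injOn (f := fun a => (a.k, a.z.2)) ?_ ?_ (h1.prod h2)
  · rintro a ⟨ha, ho⟩
    have hz : a.z.1 * FreeGroup.of a.z.2 = v.z := congrArg Cfg.z ha
    have hk : off (SV t r (a.z.1 * FreeGroup.of a.z.2)) a.k = v.k := congrArg Cfg.k ha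
    rw [hz] at hk
    refine ⟨hk, ?_⟩
    have h3 : a.z.1 ∈ Set.range t.w := ho
    have h4 : a.z.1 = v.z * (FreeGroup.of a.z.2)⁻¹ := by rw [← hz]; group
    rw [h4] at h3
    exact h3
  · rintro a ⟨ha, -⟩ b ⟨hb, -⟩ hab
    have hza : a.z.1 * FreeGroup.of a.z.2 = v.z := congrArg Cfg.z ha
    have hzb : b.z.1 * FreeGroup.of b.z.2 = v.z := congrArg Cfg.z hb
    have h3 := Prod.ext_iff.1 hab
    have h4 : a.z.2 = b.z.2 := h3.2
    rw [← h4] at hzb
    have h5 : a.z.1 = b.z.1 := mul_right_cancel (hza.trans hzb.symm)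
    exact Cfg.ext' (Prod.ext h5 h4) h3.1

theorem finite_letters {v : V' t r} (hv : Over t r v) :
    {x : E' t r × Bool | st t r x = v ∧ Over t r (en t r x)}.Finite := by
  have h1 := (finite_src t r hv).image (fun a => (a, true))
  have h2 := (finite_tgt t r hv).image (fun a => (a, false))
  refine (h1.union h2).subset ?_
  rintro ⟨a, b⟩ ⟨h3, h4⟩
  cases b
  · exact Or.inr ⟨a, ⟨h3, h4⟩, rfl⟩
  · exact Or.inl ⟨a, ⟨h3, h4⟩, rfl⟩

theorem finite_paths : ∀ (n : ℕ) (v : V' t r), Over t r v →
    {L : List (E' t r × Bool) | L.length = n ∧ ∃ v', Path t r L v v'}.Finite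
  | 0, v, _ => by
    refine (Set.finite_singleton ([] : List (E' t r × Bool))).subset ?_
    rintro L ⟨hL, -⟩
    exact List.length_eq_zero_iff.1 hL
  | n + 1, v, hv => by
    have h1 := Set.Finite.biUnion (finite_letters t r hv)
      (t := fun x => (List.cons x) '' {L : List (E' t r × Bool) | L.length = n ∧
        ∃ v', Path t r L (en t r x) v'})
      (fun x hx => (finite_paths n (en t r x) hx.2).image _)
    refine h1.subset ?_
    rintro L ⟨hL, v', hp⟩
    cases L with
    | nil => simp at hL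
    | cons x L =>
      rw [path_cons] at hp
      rw [Set.mem_iUnion₂]
      refine ⟨x, ⟨hp.1, hp.2.2.1⟩, L, ⟨?_, v', hp.2.2.2⟩, rfl⟩
      simpa using hL

theorem star_base (g : Γ) : star t g 1 = t.w g := by
  unfold star
  rw [map_one, mul_one]

theorem actV_v0_z (a : Lamp Γ) : (actV t r a (v0 t r)).z = t.w a.pos := star_base t a.pos

theorem actV_v0_k (a : Lamp Γ) : (actV t r a (v0 t r)).k = off (SV t r (t.w a.pos)) a.lamp := by
  show off (SV t r (star t a.pos 1)) (a.lamp + shift a.pos 0) = off (SV t r (t.w a.pos)) a.lamp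
  rw [star_base, shift_zero, add_zero]

theorem finite_stab (v : V' t r) (hv : Over t r v) :
    {a : Lamp Γ | actV t r a (v0 t r) = v}.Finite := by
  have h1 := finite_off (finite_SV t r hv) v.k
  have h2 := t.proper v.z.norm
  refine Set.Finite.of_injOn (f := fun a => (a.lamp, a.pos)) ?_ ?_ (h1.prod h2)
  · intro a ha
    have hz : t.w a.pos = v.z := by rw [← actV_v0_z, ha]
    have hk : off (SV t r v.z) a.lamp = v.k := by rw [← hz, ← actV_v0_k, ha]
    refine ⟨hk, ?_⟩
    show (t.w a.pos).norm ≤ v.z.norm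
    rw [hz]
  · intro a _ b _ hab
    have h3 := Prod.ext_iff.1 hab
    exact Lamp.ext h3.1 h3.2

theorem finite_word (L : List (E' t r × Bool)) :
    {γ : Gn t r | γ.1.left.toWord = L}.Finite := by
  by_cases hne : {γ : Gn t r | γ.1.left.toWord = L}.Nonempty
  · obtain ⟨γ0, h0⟩ := hne
    have hp0 := γ0.2
    rw [mem_Gn, h0] at hp0
    refine Set.Finite.of_injOn (f := fun γ => γ.1.right) ?_ ?_
      (finite_stab t r (actV t r γ0.1.right (v0 t r)) (over_act t r _ (over_v0 t r)))
    · intro γ hγ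
      have hp := γ.2
      rw [mem_Gn, hγ] at hp
      exact path_det t r hp hp0
    · intro γ hγ δ hδ h
      apply Subtype.ext
      refine SemidirectProduct.ext ?_ h
      exact FreeGroup.toWord_injective (hγ.trans hδ.symm)
  · rw [Set.not_nonempty_iff_eq_empty] at hne
    rw [hne]
    exact Set.finite_empty

theorem finite_norm (n : ℕ) : {γ : Gn t r | γ.1.left.norm ≤ n}.Finite := by
  have h1 : (⋃ m ∈ Set.Iic n, {L : List (E' t r × Bool) | L.length = m ∧
      ∃ v', Path t r L (v0 t r) v'}).Finite :=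
    Set.Finite.biUnion (Set.finite_Iic n) fun m _ => finite_paths t r m _ (over_v0 t r)
  have h2 := Set.Finite.biUnion h1 (t := fun L => {γ : Gn t r | γ.1.left.toWord = L})
    (fun L _ => finite_word t r L)
  refine h2.subset ?_
  intro γ hγ
  rw [Set.mem_iUnion₂]
  refine ⟨γ.1.left.toWord, ?_, rfl⟩
  rw [Set.mem_iUnion₂]
  exact ⟨γ.1.left.toWord.length, hγ, rfl, _, γ.2⟩

/-- every vertex over the orbit is a translate of the base vertex -/
theorem exists_translate (v : V' t r) (hv : Over t r v) :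
    ∃ a : Lamp Γ, actV t r a (v0 t r) = v ∧ a.lamp = v.k ∧ t.w a.pos = v.z := by
  obtain ⟨h, hh⟩ := hv
  refine ⟨⟨v.k, h⟩, ?_, rfl, hh⟩
  refine Cfg.ext' ?_ ?_
  · rw [actV_v0_z]; exact hh
  · rw [actV_v0_k]
    show off (SV t r (t.w h)) v.k = v.k
    rw [hh]; exact v.hk

/-- the tree structure of the new group -/
def tn : TreeGroup (Gn t r) where
  E := E' t r
  act := (actE t r).comp (SemidirectProduct.rightHom.comp (Gn t r).subtype)
  w γ := γ.1.left
  cocycle g h := rfl
  proper n := finite_norm t r n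
  pref g L hL := by
    obtain ⟨L', hL'⟩ := hL
    have hp := g.2
    rw [mem_Gn, ← hL', path_append] at hp
    obtain ⟨v, hv, -⟩ := hp
    obtain ⟨a, ha, -, -⟩ := exists_translate t r v (path_over t r hv (over_v0 t r))
    have hred : FreeGroup.IsReduced L := by
      have h1 : FreeGroup.IsReduced (L ++ L') := by
        rw [hL']; exact FreeGroup.isReduced_toWord
      unfold FreeGroup.IsReduced at h1 ⊢
      exact h1.left_of_append
    have hw : (FreeGroup.mk L).toWord = L := by
      rw [FreeGroup.toWord_mk]; exact hred.reduce_eq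
    refine ⟨⟨⟨FreeGroup.mk L, a⟩, ?_⟩, hw⟩
    rw [mem_Gn]
    show Path t r (FreeGroup.mk L).toWord (v0 t r) (actV t r a (v0 t r))
    rw [hw, ha]
    exact hv

theorem tn_w (γ : Gn t r) : (tn t r).w γ = γ.1.left := rfl

theorem tn_len (γ : Gn t r) : (tn t r).len γ = γ.1.left.norm := rfl

end

end MP7e.Next
end

section
/-!
# NEXT-B: the embedding `ι`, the lamps `β`, malnormality
-/
set_option autoImplicit false

namespace MP7e.Next

open Classical

noncomputable section

set_option linter.unusedSectionVars false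

variable {Γ : Type} [Group Γ] (t : TreeGroup Γ) (r : ℕ)

theorem actV_pos_v0 (g : Γ) : actV t r (pos g) (v0 t r) = zV t r (t.w g) := by
  rw [← zV_one, actV_pos_zV, star_one_right]

/-- the embedding -/
def iota : Γ →* Gn t r where
  toFun g := ⟨⟨PP t r 1 (t.w g), pos g⟩, by
    rw [mem_Gn]
    show Path t r (PP t r 1 (t.w g)).toWord (v0 t r) (actV t r (pos g) (v0 t r))
    rw [actV_pos_v0]
    exact path_PP_w t r g⟩
  map_one' := by
    apply Subtype.ext
    apply SemidirectProduct.ext
    · show PP t r 1 (t.w 1) = 1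
      rw [w_one, PP_one]
    · rfl
  map_mul' g h := by
    apply Subtype.ext
    apply SemidirectProduct.ext
    · exact PP_w_mul t r g h
    · exact pos_mul g h

theorem iota_left (g : Γ) : (iota t r g).1.left = PP t r 1 (t.w g) := rfl

theorem iota_right (g : Γ) : (iota t r g).1.right = pos g := rfl

theorem iota_inj : Function.Injective (iota t r) := by
  intro g h e
  have h1 := congrArg (fun x : Gn t r => x.1.right.pos) e
  exact h1

theorem norm_iota (g : Γ) : ((iota t r g).1.left).norm = t.len g := by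
  rw [iota_left, norm_PP]
  rfl

theorem mul_left' (x y : Gn t r) :
    (x * y).1.left = x.1.left * phi t r x.1.right y.1.left := rfl

theorem mul_right' (x y : Gn t r) : (x * y).1.right = x.1.right * y.1.right := rfl

theorem Gn_ext {x y : Gn t r} (h1 : x.1.left = y.1.left) (h2 : x.1.right = y.1.right) :
    x = y := Subtype.ext (SemidirectProduct.ext h1 h2)

/-! ### lamps -/

theorem actV_lamp_v0 (κ : Γ →₀ ZMod 2) (h : ∀ s ∈ κ.support, t.len s ≤ r) :
    actV t r ⟨κ, 1⟩ (v0 t r) = v0 t r := by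
  refine Cfg.ext' ?_ ?_
  · show star t 1 1 = 1
    rw [star_one]
  · show off (SV t r (star t 1 1)) (κ + shift 1 0) = 0
    rw [star_one, shift_zero, add_zero]
    ext s
    rw [off_apply]
    split_ifs with hs
    · rfl
    · by_contra hne
      apply hs
      rw [mem_SV, dist_w_one]
      exact h s (Finsupp.mem_support_iff.2 hne)

/-- the lamp `κ` as an element of the new group -/
def lampG (κ : Γ →₀ ZMod 2) (h : ∀ s ∈ κ.support, t.len s ≤ r) : Gn t r :=
  ⟨⟨1, ⟨κ, 1⟩⟩, by
    rw [mem_Gn]
    show Path t r (1 : FreeGroup (E' t r)).toWord (v0 t r) (actV t r ⟨κ, 1⟩ (v0 t r))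
    rw [actV_lamp_v0 t r κ h, FreeGroup.toWord_one]
    exact rfl⟩

/-- the maps `β` -/
def bet (κ : Γ →₀ ZMod 2) : Gn t r :=
  if h : ∀ s ∈ κ.support, t.len s ≤ r then lampG t r κ h else 1

theorem bet_eq {κ : Γ →₀ ZMod 2} (h : ∀ s ∈ κ.support, t.len s ≤ r) :
    bet t r κ = lampG t r κ h := by
  unfold bet
  rw [dif_pos h]

theorem lampG_left (κ : Γ →₀ ZMod 2) (h : ∀ s ∈ κ.support, t.len s ≤ r) :
    (lampG t r κ h).1.left = 1 := rfl

theorem lampG_right (κ : Γ →₀ ZMod 2) (h : ∀ s ∈ κ.support, t.len s ≤ r) :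
    (lampG t r κ h).1.right = ⟨κ, 1⟩ := rfl

theorem bet_add (κ κ' : Γ →₀ ZMod 2) (h : ∀ s ∈ κ.support, t.len s ≤ r)
    (h' : ∀ s ∈ κ'.support, t.len s ≤ r) : bet t r (κ + κ') = bet t r κ * bet t r κ' := by
  have h2 : ∀ s ∈ (κ + κ').support, t.len s ≤ r := by
    intro s hs
    rcases Finset.mem_union.1 (Finsupp.support_add hs) with h3 | h3
    · exact h s h3
    · exact h' s h3
  rw [bet_eq t r h, bet_eq t r h', bet_eq t r h2]
  apply Gn_ext
  · rw [mul_left', lampG_left, lampG_left, lampG_left, map_one, one_mul]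
  · rw [mul_right', lampG_right, lampG_right, lampG_right]
    apply Lamp.ext
    · rw [Lamp.mul_lamp]
      show κ + κ' = κ + shift 1 κ'
      rw [shift_one]
    · exact (mul_one (1 : Γ)).symm

theorem actE_lamp_fix (κ : Γ →₀ ZMod 2) (ε : FreeGroup t.E × t.E)
    (h : ∀ s ∈ κ.support, s ∈ SE t r ε) : actE t r ⟨κ, 1⟩ (zE t r ε) = zE t r ε := by
  have hz : (actE t r ⟨κ, 1⟩ (zE t r ε)).z = ε := by
    rw [actE_z]
    refine Prod.ext ?_ ?_
    · exact star_one t _
    · show t.act 1 ε.2 = ε.2
      rw [map_one]; rfl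
  refine Cfg.ext' hz ?_
  rw [← (actE t r ⟨κ, 1⟩ (zE t r ε)).hk, hz]
  rw [actE_k]
  ext s
  rw [off_apply, zE_k, shift_zero, add_zero]
  split_ifs with hs
  · rfl
  · have h1 : κ s = 0 := by
      by_contra hne
      exact hs (h s (Finsupp.mem_support_iff.2 hne))
    rw [off_apply]
    split_ifs
    · rfl
    · exact h1

theorem phi_lamp_PP (κ : Γ →₀ ZMod 2) (h : Γ)
    (hk : ∀ s ∈ κ.support, t.len (h⁻¹ * s) + t.len h ≤ r) :
    phi t r ⟨κ, 1⟩ (PP t r 1 (t.w h)) = PP t r 1 (t.w h) := by
  rw [← FreeGroup.toWord_inj, toWord_phi, toWord_PP]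
  have h1 : ∀ y ∈ pl t r 1 (t.w h).toWord, (actE t r ⟨κ, 1⟩ y.1, y.2) = y := by
    intro y hy
    have h2 : y.1 = zE t r y.1.z := zE_of_k t r (pl_k t r hy)
    obtain ⟨⟨L1, p1, q1⟩, ⟨L2, p2, q2⟩⟩ := mem_pl t r hy
    have key : ∀ (L : List (t.E × Bool)), L <+: (t.w h).toWord → ∀ s ∈ κ.support,
        s ∈ SV t r (1 * FreeGroup.mk L) := by
      intro L hL s hs
      rw [mem_SV, one_mul]
      refine (dist_triangle t _ (t.w h) _).trans ?_
      have h3 := dist_prefix t hL
      have h4 : dist t (t.w s) (t.w h) = t.len (h⁻¹ * s) := by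
        rw [dist_comm, dist_w]
      have h5 := hk s hs
      rw [h4]
      unfold TreeGroup.len at h5 ⊢
      omega
    refine Prod.ext ?_ rfl
    show actE t r ⟨κ, 1⟩ y.1 = y.1
    rw [h2]
    apply actE_lamp_fix
    intro s hs
    refine ⟨?_, ?_⟩
    · rw [q1]; exact key L1 p1 s hs
    · rw [q2]; exact key L2 p2 s hs
  conv_rhs => rw [← List.map_id (pl t r 1 (t.w h).toWord)]
  exact List.map_congr_left h1

theorem mem_support_shift {h : Γ} {κ : Γ →₀ ZMod 2} {s : Γ} :
    s ∈ (shift h κ).support ↔ h⁻¹ * s ∈ κ.support := by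
  rw [Finsupp.mem_support_iff, Finsupp.mem_support_iff, shift_apply]

theorem bet_conj (h : Γ) (κ : Γ →₀ ZMod 2)
    (hk : ∀ s ∈ κ.support, t.len h + t.len s ≤ r) :
    iota t r h * bet t r κ * (iota t r h)⁻¹ = bet t r (shift h κ) := by
  have h1 : ∀ s ∈ κ.support, t.len s ≤ r := fun s hs => by
    have := hk s hs; omega
  have h2 : ∀ s ∈ (shift h κ).support, t.len s ≤ r := by
    intro s hs
    rw [mem_support_shift] at hs
    have h3 := hk _ hs
    have h4 := len_mul_le t h (h⁻¹ * s)
    rw [mul_inv_cancel_left] at h4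
    omega
  rw [bet_eq t r h1, bet_eq t r h2, mul_inv_eq_iff_eq_mul]
  apply Gn_ext
  · rw [mul_left', mul_left', lampG_left, lampG_left, map_one, mul_one, one_mul, lampG_right,
      iota_left, phi_lamp_PP]
    intro s hs
    rw [mem_support_shift] at hs
    have h3 := hk _ hs
    omega
  · rw [mul_right', mul_right', lampG_right, lampG_right, iota_right]
    apply Lamp.ext
    · rw [Lamp.mul_lamp, Lamp.mul_lamp, pos_lamp, pos_pos, shift_zero, zero_add, add_zero]
    · rw [Lamp.mul_pos, Lamp.mul_pos, pos_pos]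
      show h * 1 = 1 * h
      rw [mul_one, one_mul]

theorem bet_ne (κ : Γ →₀ ZMod 2) (h0 : κ ≠ 0) (h : ∀ s ∈ κ.support, t.len s ≤ r) :
    bet t r κ ∉ Set.range (iota t r) := by
  rintro ⟨g, hg⟩
  rw [bet_eq t r h] at hg
  have h1 := congrArg (fun x : Gn t r => x.1.right.lamp) hg
  exact h0 h1.symm

theorem single_small : ∀ s ∈ (Finsupp.single (1 : Γ) (1 : ZMod 2)).support, t.len s ≤ r := by
  intro s hs
  have h1 := Finsupp.support_single_subset hs
  rw [Finset.mem_singleton] at h1
  rw [h1, len_one]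
  exact Nat.zero_le _

theorem escape (g : Γ) (hg : g ≠ 1) :
    bet t r (Finsupp.single 1 1) * iota t r g * (bet t r (Finsupp.single 1 1))⁻¹ ∉
      Set.range (iota t r) := by
  rintro ⟨g', hg'⟩
  rw [eq_mul_inv_iff_mul_eq, bet_eq t r (single_small t r)] at hg'
  have h1 := congrArg (fun x : Gn t r => x.1.right.lamp) hg'
  simp only [mul_right', Lamp.mul_lamp, lampG_right, iota_right, pos_lamp, pos_pos, shift_zero,
    zero_add, add_zero] at h1
  have h2 := congrArg (fun x : Gn t r => x.1.right.pos) hg'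
  simp only [mul_right', Lamp.mul_pos, lampG_right, iota_right, pos_pos, mul_one, one_mul] at h2
  rw [h2] at h1
  have h3 := DFunLike.congr_fun h1 1
  rw [shift_apply, mul_one, Finsupp.single_eq_same, Finsupp.single_apply] at h3
  have h4 : (1 : Γ) ≠ g⁻¹ := by
    intro h; apply hg; rw [← inv_inj, ← h, inv_one]
  rw [if_neg h4] at h3
  exact absurd h3 (by decide)

/-! ### malnormality -/

theorem shift_fix_finite {k : Γ →₀ ZMod 2} (hk : k ≠ 0) : {g : Γ | shift g k = k}.Finite := by
  obtain ⟨s, hs⟩ : ∃ s, k s ≠ 0 := by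
    by_contra hne
    push Not at hne
    exact hk (Finsupp.ext hne)
  have hfin : ((fun g : Γ => g * s) ⁻¹' (k.support : Set Γ)).Finite :=
    Set.Finite.preimage (mul_left_injective s).injOn k.support.finite_toSet
  refine hfin.subset ?_
  intro g hg
  have hg' : shift g k = k := hg
  show g * s ∈ (k.support : Set Γ)
  rw [Finset.mem_coe, Finsupp.mem_support_iff]
  have h1 := DFunLike.congr_fun hg' (g * s)
  rw [shift_apply, inv_mul_cancel_left] at h1
  rw [← h1]
  exact hs

theorem path_zero_sheet {L : List (E' t r × Bool)} (hL : ∀ y ∈ L, y.1.k = 0)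
    {u : FreeGroup t.E} {v' : V' t r} (hp : Path t r L (zV t r u) v') :
    ∃ M, L = pl t r u M ∧ v' = zV t r (u * FreeGroup.mk M) := by
  induction L generalizing u with
  | nil =>
    rw [path_nil] at hp
    refine ⟨[], rfl, ?_⟩
    rw [← hp, ← FreeGroup.one_eq_mk, mul_one]
  | cons x L ih =>
    rw [path_cons] at hp
    obtain ⟨h1, -, -, h4⟩ := hp
    have hx : x.1 = zE t r x.1.z := zE_of_k t r (hL x (List.mem_cons_self))
    obtain ⟨c, b⟩ := x
    have hx' : (c, b) = lt1 t r u (c.z.2, b) := by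
      cases b
      · have h5 : c.z.1 * FreeGroup.of c.z.2 = u := congrArg (fun v => v.z) h1
        refine Prod.ext ?_ rfl
        show c = zE t r (u * FreeGroup.mk [(c.z.2, false)], c.z.2)
        have h6 : u * FreeGroup.mk [(c.z.2, false)] = c.z.1 := by
          rw [← h5, mul_assoc, of_mul_mk_false, mul_one]
        rw [h6]
        exact hx
      · have h5 : c.z.1 = u := congrArg (fun v => v.z) h1
        refine Prod.ext ?_ rfl
        show c = zE t r (u, c.z.2)
        rw [← h5]
        exact hx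
    rw [hx', en_lt1] at h4
    obtain ⟨M, h7, h8⟩ := ih (fun y hy => hL y (List.mem_cons_of_mem _ hy)) h4
    refine ⟨(c.z.2, b) :: M, ?_, ?_⟩
    · rw [pl_cons, ← h7, ← hx']
    · rw [h8, mk_cons t (c.z.2, b) M, mul_assoc]

theorem path_mem_over {L : List (E' t r × Bool)} {v v' : V' t r} (hp : Path t r L v v')
    {y : E' t r × Bool} (hy : y ∈ L) : y.1.z.1 ∈ Set.range t.w := by
  induction L generalizing v with
  | nil => simp at hy
  | cons x L ih =>
    rw [path_cons] at hp
    obtain ⟨-, h2, h3, h4⟩ := hp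
    rw [List.mem_cons] at hy
    rcases hy with hy | hy
    · rw [hy]
      obtain ⟨c, b⟩ := x
      cases b
      · exact h3
      · exact h2
    · exact ih h4 hy

theorem w_fiber_finite (u : FreeGroup t.E) : {g : Γ | t.w g = u}.Finite :=
  (t.proper u.norm).subset (fun g hg => by
    show (t.w g).norm ≤ u.norm
    rw [show t.w g = u from hg])

theorem mem_toWord_mul {α : Type*} {x y : FreeGroup α} {z : α × Bool}
    (hz : z ∈ (x * y).toWord) : z ∈ x.toWord ∨ z ∈ y.toWord := by
  have h := (FreeGroup.toWord_mul_sublist x y).subset hz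
  exact List.mem_append.1 h

theorem mem_toWord_inv {α : Type*} {x : FreeGroup α} {z : α × Bool}
    (hz : z ∈ (x⁻¹).toWord) : (z.1, !z.2) ∈ x.toWord := by
  rw [FreeGroup.toWord_inv] at hz
  unfold FreeGroup.invRev at hz
  rw [List.mem_reverse, List.mem_map] at hz
  obtain ⟨y, hy, rfl⟩ := hz
  simpa using hy

theorem mal_one (x : Gn t r) (hx : x ∉ Set.range (iota t r)) (h1 : x.1.right = 1) :
    {g : Γ | ∃ g', iota t r g * x = x * iota t r g'}.Finite := by
  have hp : Path t r x.1.left.toWord (v0 t r) (v0 t r) := by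
    have h := (mem_Gn t r x.1).1 x.2
    rw [h1, map_one] at h
    exact h
  have hne : ∃ y0 ∈ x.1.left.toWord, y0.1.k ≠ 0 := by
    by_contra hcon
    push Not at hcon
    rw [← zV_one] at hp
    obtain ⟨M, h2, h3⟩ := path_zero_sheet t r hcon hp
    have h4 : (1 : FreeGroup t.E) = FreeGroup.mk M := by
      have := congrArg (fun v => v.z) h3
      rw [one_mul] at this
      exact this
    have h5 : x.1.left = 1 := by
      rw [← FreeGroup.mk_toWord (x := x.1.left), h2, mk_pl, ← h4, PP_one]
    apply hx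
    refine ⟨1, ?_⟩
    rw [map_one]
    apply Gn_ext
    · exact h5.symm
    · exact h1.symm
  obtain ⟨y0, hy0, hk0⟩ := hne
  obtain ⟨h, hh⟩ := path_mem_over t r hp hy0
  have hfin : (⋃ c ∈ {c : E' t r × Bool | c ∈ x.1.left.toWord},
      {g : Γ | t.w (g * h) = c.1.z.1}).Finite := by
    apply Set.Finite.biUnion
    · exact List.finite_toSet _
    · intro c _
      exact (w_fiber_finite t c.1.z.1).preimage (mul_left_injective h).injOn
  refine hfin.subset ?_
  rintro g ⟨g', hg'⟩
  have h2 := congrArg (fun x : Gn t r => x.1.left) hg'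
  simp only [mul_left', iota_left, iota_right, h1, map_one, MulAut.one_apply] at h2
  have h3 : phi t r (pos g) x.1.left =
      (PP t r 1 (t.w g))⁻¹ * (x.1.left * PP t r 1 (t.w g')) := by
    rw [← h2, inv_mul_cancel_left]
  have h4 : (actE t r (pos g) y0.1, y0.2) ∈ (phi t r (pos g) x.1.left).toWord := by
    rw [toWord_phi]
    exact List.mem_map.2 ⟨y0, hy0, rfl⟩
  have h5 : (actE t r (pos g) y0.1).k ≠ 0 := by
    rw [actE_pos_k]
    intro h6
    apply hk0
    have h7 := congrArg (shift g⁻¹) h6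
    rw [← shift_mul, inv_mul_cancel, shift_one, shift_zero] at h7
    exact h7
  rw [h3] at h4
  have h6 : (actE t r (pos g) y0.1, y0.2) ∈ x.1.left.toWord := by
    rcases mem_toWord_mul h4 with h7 | h7
    · exfalso
      have h8 := mem_toWord_inv h7
      rw [toWord_PP] at h8
      exact h5 (pl_k t r h8)
    · rcases mem_toWord_mul h7 with h8 | h8
      · exact h8
      · exfalso
        rw [toWord_PP] at h8
        exact h5 (pl_k t r h8)
  rw [Set.mem_iUnion₂]
  refine ⟨_, h6, ?_⟩
  show t.w (g * h) = star t g y0.1.z.1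
  rw [← hh, star_w]

theorem mal (x : Gn t r) (hx : x ∉ Set.range (iota t r)) :
    {g : Γ | ∃ g', iota t r g * x = x * iota t r g'}.Finite := by
  by_cases hk : x.1.right.lamp = 0
  · have hr : x.1.right = pos x.1.right.pos := Lamp.ext hk rfl
    have h1 : (x * (iota t r x.1.right.pos)⁻¹).1.right = 1 := by
      have h2 : (x * (iota t r x.1.right.pos)⁻¹).1.right =
        x.1.right * (pos x.1.right.pos)⁻¹ := rfl
      rw [h2, ← hr, mul_inv_cancel]
    have h3 : x * (iota t r x.1.right.pos)⁻¹ ∉ Set.range (iota t r) := by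
      rintro ⟨g, hg⟩
      apply hx
      refine ⟨g * x.1.right.pos, ?_⟩
      rw [map_mul, hg, inv_mul_cancel_right]
    refine (mal_one t r _ h3 h1).subset ?_
    rintro g ⟨g', hg'⟩
    refine ⟨x.1.right.pos * g' * (x.1.right.pos)⁻¹, ?_⟩
    rw [← mul_assoc, hg', map_mul, map_mul, map_inv]
    group
  · refine (shift_fix_finite hk).subset ?_
    rintro g ⟨g', hg'⟩
    have h1 := congrArg (fun x : Gn t r => x.1.right.lamp) hg'
    simp only [mul_right', Lamp.mul_lamp, iota_right, pos_lamp, pos_pos, shift_zero,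
      zero_add, add_zero] at h1
    exact h1

end

end MP7e.Next
end

section
/-!
# NEXT: the specification
-/
set_option autoImplicit false

namespace MP7e

open Classical

/-- NEXT: existence of the next group -/
theorem specNext : SpecNext := by
  intro Γ _ t r
  refine ⟨Next.Gn t r, inferInstance, Next.tn t r, ⟨?_⟩⟩
  exact
    { ι := Next.iota t r
      inj := Next.iota_inj t r
      len_eq := fun g => Next.norm_iota t r g
      mal := fun x hx => Next.mal t r x hx
      β := Next.bet t r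
      β_add := fun κ κ' h h' => Next.bet_add t r κ κ' h h'
      β_conj := fun h κ hk => Next.bet_conj t r h κ hk
      β_ne := fun κ h0 h => Next.bet_ne t r κ h0 h
      esc := fun g hg => Next.escape t r g hg }

end MP7e
end
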