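import Pool.Agent.Lib.MP_7e9852_an.Spec
import Pool.Agent.Lib.MP_7e9852_an.Inv

section
/-!
Module NA: the group von Neumann algebra of a group which contains a free group is not amenable.
-/
namespace MP7e

open scoped InnerProductSpace TensorProduct ENNReal
open Filter Topology Classical

noncomputable section

namespace NA

theorem summable_ind {X : Type*} (S : Set X) (f : L2 X) :
    Summable (fun x => ‖(if x ∈ S then f x else 0 : ℂ)‖ ^ 2) := by
  refine (summable_normSq f).of_nonneg_of_le (fun x => by positivity) ?_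
  intro x
  by_cases h : x ∈ S
  · simp [h]
  · rw [if_neg h, norm_zero, zero_pow two_ne_zero]
    exact sq_nonneg _

theorem norm_ind_le {X : Type*} (S : Set X) (f : L2 X) :
    ‖mk2 (fun x => (if x ∈ S then f x else 0 : ℂ)) (summable_ind S f)‖ ≤ ‖f‖ := by
  have h1 := normSq_eq_tsum (mk2 (fun x => (if x ∈ S then f x else 0 : ℂ)) (summable_ind S f))
  have h2 := normSq_eq_tsum f
  have h3 : (∑' x, ‖(if x ∈ S then f x else 0 : ℂ)‖ ^ 2) ≤ ∑' x, ‖f x‖ ^ 2 := by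
    refine (summable_ind S f).tsum_le_tsum ?_ (summable_normSq f)
    intro x
    by_cases h : x ∈ S
    · simp [h]
    · rw [if_neg h, norm_zero, zero_pow two_ne_zero]
      exact sq_nonneg _
  simp only [mk2_apply] at h1
  rw [← h1, ← h2] at h3
  exact (sq_le_sq₀ (norm_nonneg _) (norm_nonneg _)).1 h3

/-- multiplication by the indicator function of a set -/
def ind {X : Type*} (S : Set X) : Op X :=
  LinearMap.mkContinuous
    { toFun := fun f => mk2 (fun x => (if x ∈ S then f x else 0 : ℂ)) (summable_ind S f)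
      map_add' := by
        intro f g
        apply Subtype.ext; funext x
        show (if x ∈ S then (f + g : L2 X) x else 0 : ℂ) =
          (if x ∈ S then f x else 0) + (if x ∈ S then g x else 0)
        by_cases h : x ∈ S
        · simp only [if_pos h, lp.coeFn_add, Pi.add_apply]
        · simp only [if_neg h, add_zero]
      map_smul' := by
        intro c f
        apply Subtype.ext; funext x
        show (if x ∈ S then (c • f : L2 X) x else 0 : ℂ) = c * (if x ∈ S then f x else 0)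
        by_cases h : x ∈ S
        · simp only [if_pos h, lp.coeFn_smul, Pi.smul_apply, smul_eq_mul]
        · simp only [if_neg h, mul_zero] }
    1 (by
      intro f
      rw [one_mul]
      exact norm_ind_le S f)

theorem ind_apply {X : Type*} (S : Set X) (f : L2 X) (x : X) :
    (ind S f : X → ℂ) x = if x ∈ S then f x else 0 := rfl

theorem ind_univ {X : Type*} : ind (Set.univ : Set X) = 1 := by
  apply ContinuousLinearMap.ext
  intro f
  apply Subtype.ext; funext x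
  rw [ind_apply, if_pos (Set.mem_univ x)]
  rfl

theorem ind_union {X : Type*} (S T : Set X) (h : Disjoint S T) :
    ind (S ∪ T) = ind S + ind T := by
  apply ContinuousLinearMap.ext
  intro f
  apply Subtype.ext; funext x
  show (ind (S ∪ T) f : X → ℂ) x = (ind S f : X → ℂ) x + (ind T f : X → ℂ) x
  rw [ind_apply, ind_apply, ind_apply]
  by_cases h1 : x ∈ S
  · have h2 : x ∉ T := fun h2 => (Set.disjoint_left.1 h) h1 h2
    have h3 : x ∈ S ∪ T := Or.inl h1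
    rw [if_pos h3, if_pos h1, if_neg h2, add_zero]
  · by_cases h2 : x ∈ T
    · have h3 : x ∈ S ∪ T := Or.inr h2
      rw [if_pos h3, if_neg h1, if_pos h2, zero_add]
    · have h3 : x ∉ S ∪ T := by
        rintro (h3 | h3)
        · exact h1 h3
        · exact h2 h3
      rw [if_neg h3, if_neg h1, if_neg h2, add_zero]

theorem norm_refl {X : Type*} (S : Set X) : ‖(1 : Op X) - (2 : ℂ) • ind S‖ ≤ 1 := by
  apply ContinuousLinearMap.opNorm_le_bound _ zero_le_one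
  intro f
  rw [one_mul]
  have h1 := normSq_eq_tsum (((1 : Op X) - (2 : ℂ) • ind S) f)
  have h2 := normSq_eq_tsum f
  have h3 : (∑' x, ‖((((1 : Op X) - (2 : ℂ) • ind S) f : L2 X) : X → ℂ) x‖ ^ 2) =
      ∑' x, ‖f x‖ ^ 2 := by
    apply tsum_congr
    intro x
    have h4 : ((((1 : Op X) - (2 : ℂ) • ind S) f : L2 X) : X → ℂ) x =
      f x - 2 * (ind S f : X → ℂ) x := rfl
    rw [h4, ind_apply]
    by_cases h : x ∈ S
    · rw [if_pos h]
      have : f x - 2 * f x = - f x := by ring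
      rw [this, norm_neg]
    · rw [if_neg h, mul_zero, sub_zero]
  rw [h3, ← h2] at h1
  exact ((sq_eq_sq₀ (norm_nonneg _) (norm_nonneg _)).1 h1).le

theorem state_ind {X : Type*} {φ : Op X →ₗ[ℂ] ℂ} (hφ : IsState φ) (S : Set X) :
    0 ≤ (φ (ind S)).re := by
  have h1 := (hφ.2 ((1 : Op X) - (2 : ℂ) • ind S)).trans (norm_refl S)
  rw [map_sub, map_smul, hφ.1, smul_eq_mul] at h1
  have h2 : |(1 - 2 * φ (ind S)).re| ≤ 1 := (Complex.abs_re_le_norm _).trans h1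
  have h3 : (1 - 2 * φ (ind S)).re = 1 - 2 * (φ (ind S)).re := by simp
  rw [h3] at h2
  have h4 := (abs_le.1 h2).2
  linarith

theorem ind_preimage {G : Type*} [Group G] (g : G) (S : Set G) :
    ind ((fun x => g * x) ⁻¹' S) = lam g⁻¹ * (ind S * lam g) := by
  apply ContinuousLinearMap.ext
  intro f
  apply Subtype.ext; funext x
  have h1 : ((lam g⁻¹ * (ind S * lam g)) f : G → ℂ) x = (ind S (lam g f) : G → ℂ) (g⁻¹⁻¹ * x) :=
    rfl
  rw [h1, ind_apply, ind_apply, lam_apply, inv_inv, inv_mul_cancel_left]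
  rfl

/-- there is no invariant mean on the free group of rank two -/
theorem no_mean (m : Set (FreeGroup Bool) → ℝ) (h0 : ∀ S, 0 ≤ m S)
    (hadd : ∀ A B, Disjoint A B → m (A ∪ B) = m A + m B) (h1 : m Set.univ = 1)
    (hinv : ∀ (g : FreeGroup Bool) S, m ((fun x => g * x) ⁻¹' S) = m S) : False := by
  have hmono : ∀ A B : Set (FreeGroup Bool), A ⊆ B → m A ≤ m B := by
    intro A B hAB
    have h2 := hadd A (B \ A) disjoint_sdiff_self_right
    rw [Set.union_sdiff_cancel hAB] at h2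
    have h3 := h0 (B \ A)
    linarith
  have hsub : ∀ A B : Set (FreeGroup Bool), m (A ∪ B) ≤ m A + m B := by
    intro A B
    have h2 := hadd A (B \ A) disjoint_sdiff_self_right
    rw [Set.union_sdiff_self] at h2
    have h3 := hmono (B \ A) B Set.sdiff_subset
    linarith
  have hW : ∀ w : Bool × Bool, 1 ≤ m (FreeGroup.startsWith (w.1, !w.2)) +
      m (FreeGroup.startsWith w) := by
    intro w
    have h2 : (Set.univ : Set (FreeGroup Bool)) ⊆ FreeGroup.startsWith (w.1, !w.2) ∪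
        (fun x => FreeGroup.mk [w] * x) ⁻¹' FreeGroup.startsWith w := by
      intro g _
      by_cases hg : g ∈ FreeGroup.startsWith (w.1, !w.2)
      · exact Or.inl hg
      · exact Or.inr (FreeGroup.startsWith_mk_mul g hg)
    have h3 := hmono _ _ h2
    have h4 := hsub (FreeGroup.startsWith (w.1, !w.2))
      ((fun x => FreeGroup.mk [w] * x) ⁻¹' FreeGroup.startsWith w)
    rw [hinv] at h4
    rw [h1] at h3
    exact h3.trans h4
  have e1 := hW (false, false)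
  have e2 := hW (true, false)
  simp only [Bool.not_false] at e1 e2
  have d : ∀ a b : Bool × Bool, a ≠ b → Disjoint (FreeGroup.startsWith a)
      (FreeGroup.startsWith b) := fun a b h => FreeGroup.startsWith.disjoint_iff_ne.2 h
  have a1 := hadd (FreeGroup.startsWith (false, true)) (FreeGroup.startsWith (false, false))
    (d _ _ (by decide))
  have a2 := hadd (FreeGroup.startsWith (true, true)) (FreeGroup.startsWith (true, false))
    (d _ _ (by decide))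
  have a3 := hadd (FreeGroup.startsWith (false, true) ∪ FreeGroup.startsWith (false, false))
    (FreeGroup.startsWith (true, true) ∪ FreeGroup.startsWith (true, false)) (by
      rw [Set.disjoint_union_left, Set.disjoint_union_right, Set.disjoint_union_right]
      exact ⟨⟨d _ _ (by decide), d _ _ (by decide)⟩, ⟨d _ _ (by decide), d _ _ (by decide)⟩⟩)
  have a4 := hmono _ _ (Set.subset_univ
    ((FreeGroup.startsWith (false, true) ∪ FreeGroup.startsWith (false, false)) ∪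
    (FreeGroup.startsWith (true, true) ∪ FreeGroup.startsWith (true, false)) :
      Set (FreeGroup Bool)))
  linarith

/-- an equivariant map to the free group -/
theorem exists_equivariant {G F : Type*} [Group G] [Group F] (f : F →* G)
    (hf : Function.Injective f) : ∃ p : G → F, ∀ u x, p (f u * x) = u * p x := by
  let rep : G → G := fun x => Quotient.out (Quotient.mk (QuotientGroup.rightRel f.range) x)
  have hrep : ∀ x, x * (rep x)⁻¹ ∈ f.range := by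
    intro x
    have h1 : (QuotientGroup.rightRel f.range) (rep x) x :=
      Quotient.exact (Quotient.out_eq (Quotient.mk (QuotientGroup.rightRel f.range) x))
    exact QuotientGroup.rightRel_apply.1 h1
  have hrep2 : ∀ u x, rep (f u * x) = rep x := by
    intro u x
    have h1 : Quotient.mk (QuotientGroup.rightRel f.range) (f u * x) =
        Quotient.mk (QuotientGroup.rightRel f.range) x := by
      apply Quotient.sound
      apply QuotientGroup.rightRel_apply.2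
      refine ⟨u⁻¹, ?_⟩
      rw [map_inv]
      group
    show Quotient.out (Quotient.mk (QuotientGroup.rightRel f.range) (f u * x)) = _
    rw [h1]
  choose p hp using hrep
  refine ⟨p, ?_⟩
  intro u x
  apply hf
  rw [hp, map_mul, hp, hrep2, mul_assoc]

end NA

open NA

theorem specNA : SpecNA := by
  rintro G _ ⟨f, hf⟩ ⟨φ, hφ, -, hcent⟩
  obtain ⟨p, hp⟩ := exists_equivariant f hf
  refine no_mean (fun S => (φ (ind (p ⁻¹' S))).re) ?_ ?_ ?_ ?_
  · intro S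
    exact state_ind hφ _
  · intro A B hAB
    show (φ (ind (p ⁻¹' (A ∪ B)))).re = (φ (ind (p ⁻¹' A))).re + (φ (ind (p ⁻¹' B))).re
    rw [Set.preimage_union, ind_union _ _ (hAB.preimage p), map_add, Complex.add_re]
  · show (φ (ind (p ⁻¹' Set.univ))).re = 1
    rw [Set.preimage_univ, ind_univ, hφ.1, Complex.one_re]
  · intro g S
    show (φ (ind (p ⁻¹' ((fun x => g * x) ⁻¹' S)))).re = (φ (ind (p ⁻¹' S))).re
    have h1 : p ⁻¹' ((fun x => g * x) ⁻¹' S) = (fun x => f g * x) ⁻¹' (p ⁻¹' S) := by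
      ext x
      show g * p x ∈ S ↔ p (f g * x) ∈ S
      rw [hp]
    rw [h1, ind_preimage, hcent _ (lam_mem _), mul_assoc, ← lam_mul, mul_inv_cancel, lam_one,
      mul_one]

end

end MP7e
end

section
/-!
Module PS1: from an almost positive `y` in a C*-algebra with trace to a positive square root.
-/
namespace MP7e

open scoped InnerProductSpace TensorProduct ENNReal
open Filter Topology Classical

noncomputable section

namespace PS1

variable {K : Type} [NormedAddCommGroup K] [InnerProductSpace ℂ K] [CompleteSpace K]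

/-- the elements obtained by functional calculus from a positive operator `a` -/
theorem calc_aux (B : StarSubalgebra ℂ (K →L[ℂ] K)) (hB : IsClosed (B : Set (K →L[ℂ] K)))
    (a : K →L[ℂ] K) (ha : a ∈ B) (ha0 : 0 ≤ a) (δ : ℝ) (hδ : 0 < δ) :
    ∃ k ξ r q : K →L[ℂ] K, k ∈ B ∧ ξ ∈ B ∧ r ∈ B ∧ q ∈ B ∧ star ξ = ξ ∧ star k = k ∧ star r = r ∧
      star q = q ∧ 0 ≤ ξ ∧
      ξ * ξ = k ∧ k * k = a ∧ r * k = q ∧ k * r = q ∧ 1 - q = (δ : ℂ) • r ∧ ‖q‖ ≤ 1 := by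
  have := hB
  have hsa : IsSelfAdjoint a := ha0.isSelfAdjoint
  have hsp : ∀ t ∈ spectrum ℝ a, 0 ≤ t := fun t ht => spectrum_nonneg_of_nonneg ha0 ht
  have hpos : ∀ t : ℝ, 0 < Real.sqrt t + δ := fun t => by positivity
  have c1 : Continuous fun t : ℝ => Real.sqrt t := Real.continuous_sqrt
  have c2 : Continuous fun t : ℝ => Real.sqrt (Real.sqrt t) :=
    Real.continuous_sqrt.comp Real.continuous_sqrt
  have c3 : Continuous fun t : ℝ => (Real.sqrt t + δ)⁻¹ :=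
    (c1.add continuous_const).inv₀ fun t => (hpos t).ne'
  have hsa' : ∀ f : ℝ → ℝ, star (cfc f a) = cfc f a := by
    intro f
    have h1 : IsSelfAdjoint (cfc f a) := cfc_predicate f a
    exact h1
  refine ⟨cfc (fun t : ℝ => Real.sqrt t) a, cfc (fun t : ℝ => Real.sqrt (Real.sqrt t)) a,
    cfc (fun t : ℝ => (Real.sqrt t + δ)⁻¹) a,
    cfc (fun t : ℝ => (Real.sqrt t + δ)⁻¹ * Real.sqrt t) a,
    cfc_mem _ ha, cfc_mem _ ha, cfc_mem _ ha, cfc_mem _ ha, hsa' _, hsa' _, hsa' _, hsa' _,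
    ?_, ?_, ?_, ?_, ?_, ?_, ?_⟩
  · exact cfc_nonneg fun t _ => Real.sqrt_nonneg _
  · rw [← cfc_mul (fun t : ℝ => Real.sqrt (Real.sqrt t)) (fun t : ℝ => Real.sqrt (Real.sqrt t)) a
      c2.continuousOn c2.continuousOn]
    apply cfc_congr
    intro t _
    exact Real.mul_self_sqrt (Real.sqrt_nonneg _)
  · rw [← cfc_mul (fun t : ℝ => Real.sqrt t) (fun t : ℝ => Real.sqrt t) a
      c1.continuousOn c1.continuousOn]
    conv_rhs => rw [← cfc_id ℝ a hsa]
    apply cfc_congr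
    intro t ht
    exact Real.mul_self_sqrt (hsp t ht)
  · rw [← cfc_mul (fun t : ℝ => (Real.sqrt t + δ)⁻¹) (fun t : ℝ => Real.sqrt t) a
      c3.continuousOn c1.continuousOn]
  · rw [← cfc_mul (fun t : ℝ => Real.sqrt t) (fun t : ℝ => (Real.sqrt t + δ)⁻¹) a
      c1.continuousOn c3.continuousOn]
    apply cfc_congr
    intro t _
    exact mul_comm _ _
  · have e1 : ((δ : ℝ) : ℂ) • cfc (fun t : ℝ => (Real.sqrt t + δ)⁻¹) a =
        (δ : ℝ) • cfc (fun t : ℝ => (Real.sqrt t + δ)⁻¹) a := by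
      exact (RCLike.real_smul_eq_coe_smul (K := ℂ) δ _).symm
    rw [e1, ← cfc_const_mul δ (fun t : ℝ => (Real.sqrt t + δ)⁻¹) a c3.continuousOn]
    rw [sub_eq_iff_eq_add]
    rw [← cfc_add a (fun t : ℝ => δ * (Real.sqrt t + δ)⁻¹)
      (fun t : ℝ => (Real.sqrt t + δ)⁻¹ * Real.sqrt t)
      (continuous_const.mul c3).continuousOn (c3.mul c1).continuousOn]
    rw [← cfc_one ℝ a hsa]
    apply cfc_congr
    intro t _
    show (1 : ℝ) = δ * (Real.sqrt t + δ)⁻¹ + (Real.sqrt t + δ)⁻¹ * Real.sqrt t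
    have h1 := (hpos t).ne'
    field_simp
    ring
  · apply norm_cfc_le zero_le_one
    intro t _
    have h1 := hpos t
    have h2 := Real.sqrt_nonneg t
    rw [Real.norm_of_nonneg (by positivity), inv_mul_le_iff₀ h1]
    linarith

theorem norm_tau_le (Ω : K) (h1 : ‖Ω‖ = 1) (x : K →L[ℂ] K) : ‖⟪Ω, x Ω⟫_ℂ‖ ≤ ‖x‖ := by
  calc ‖⟪Ω, x Ω⟫_ℂ‖ ≤ ‖Ω‖ * ‖x Ω‖ := norm_inner_le_norm _ _
    _ ≤ 1 * (‖x‖ * 1) := by
        rw [h1]
        have := x.le_opNorm Ω
        rw [h1] at this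
        gcongr
    _ = ‖x‖ := by ring

end PS1

open PS1

theorem specPS1 : SpecPS1 := by
  intro K _ _ _ B Ω hB hΩ htr y hy ε h0 h1 hz hy1
  have haB : y * star y ∈ B := mul_mem hy (star_mem hy)
  obtain ⟨k, ξ, r, q, hk, hξ, hr, hq, sξ, sk, sr, sq, pξ, e1, e2, e3, e4, e5, nq⟩ :=
    calc_aux B hB (y * star y) haB (mul_star_self_nonneg y) ε h0
  set v : K →L[ℂ] K := star y * r with hv
  have hvB : v ∈ B := mul_mem (star_mem hy) hr
  have hsv : star v = r * y := by rw [hv, star_mul, star_star, sr]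
  -- the trace functional
  let T : (K →L[ℂ] K) → ℂ := fun x => ⟪Ω, x Ω⟫_ℂ
  have hTadd : ∀ x z, T (x + z) = T x + T z := fun x z => inner_add_right _ _ _
  have hTsub : ∀ x z, T (x - z) = T x - T z := fun x z => inner_sub_right _ _ _
  have hTsmul : ∀ (c : ℂ) x, T (c • x) = c * T x := fun c x => inner_smul_right _ _ _
  have hTn : ∀ x, ‖T x‖ ≤ ‖x‖ := norm_tau_le Ω hΩ
  have hTtr : ∀ x ∈ B, ∀ z ∈ B, T (x * z) = T (z * x) := htr
  -- norms
  have nv : ‖v‖ ≤ 1 := by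
    have h2 : ‖v‖ * ‖v‖ = ‖star v * v‖ := (CStarRing.norm_star_mul_self).symm
    have h3 : star v * v = q * q := by
      rw [hsv, hv, ← mul_assoc, mul_assoc r y, ← e2, ← mul_assoc, e3, mul_assoc, e4]
    rw [h3] at h2
    have h4 := norm_mul_le q q
    have h5 : ‖v‖ * ‖v‖ ≤ 1 := by
      rw [h2]
      exact h4.trans (mul_le_one₀ nq (norm_nonneg _) nq)
    nlinarith [norm_nonneg v]
  -- `star y - v k = ε v`
  have hvk : star y = v * k + (ε : ℂ) • v := by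
    have h2 : v * k = star y * q := by rw [hv, mul_assoc, e3]
    rw [h2, hv, ← mul_smul_comm, ← e5, ← mul_add, add_sub_cancel, mul_one]
  have hvv : star v * star y = k - (ε : ℂ) • q := by
    have h2 : star v * star y = r * (k * k) := by rw [hsv, e2, mul_assoc]
    have h3 : r * (k * k) = q * k := by rw [← mul_assoc, e3]
    have h4 : q = 1 - (ε : ℂ) • r := by rw [← e5, sub_sub_cancel]
    rw [h2, h3]
    nth_rw 1 [h4]
    rw [sub_mul, one_mul, smul_mul_assoc, e3]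
  -- the norm of `ξ Ω`
  have hs : T k = ((‖ξ Ω‖ ^ 2 : ℝ) : ℂ) := by
    show ⟪Ω, k Ω⟫_ℂ = _
    have h2 : k Ω = ξ (ξ Ω) := by rw [← e1]; rfl
    have h3 : ⟪Ω, ξ (ξ Ω)⟫_ℂ = ⟪ξ Ω, ξ Ω⟫_ℂ := by
      conv_lhs => rw [← sξ]
      rw [ContinuousLinearMap.star_eq_adjoint, ContinuousLinearMap.adjoint_inner_right,
        ← ContinuousLinearMap.star_eq_adjoint, sξ]
    rw [h2, h3, inner_self_eq_norm_sq_to_K]
    norm_cast
  have hin : ∀ x : K →L[ℂ] K, x ∈ B → T (x * k) = ⟪ξ Ω, x (ξ Ω)⟫_ℂ := by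
    intro x hx
    rw [← e1, ← mul_assoc, hTtr (x * ξ) (mul_mem hx hξ) ξ hξ]
    show ⟪Ω, ξ (x (ξ Ω))⟫_ℂ = _
    have h3 : ⟪Ω, ξ (x (ξ Ω))⟫_ℂ = ⟪Ω, (star ξ) (x (ξ Ω))⟫_ℂ := by rw [sξ]
    rw [h3, ContinuousLinearMap.star_eq_adjoint, ContinuousLinearMap.adjoint_inner_right]
  set s : ℝ := ‖ξ Ω‖ ^ 2 with hsdef
  have hs0 : 0 ≤ s := by positivity
  have hs1 : s ≤ 1 + 2 * ε := by
    have h2 := hz (star v) (star_mem hvB)
    have h3 : ‖T (star v * star y)‖ ≤ (1 + ε) * 1 := by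
      refine h2.trans (mul_le_mul_of_nonneg_left ?_ (by linarith))
      rw [norm_star]
      exact nv
    have h4 : T k = T (star v * star y) + (ε : ℂ) * T q := by
      rw [hvv, hTsub, hTsmul]
      ring
    have h5 : ‖T k‖ ≤ (1 + ε) * 1 + ε * 1 := by
      rw [h4]
      refine (norm_add_le _ _).trans (add_le_add h3 ?_)
      rw [norm_mul, Complex.norm_real, Real.norm_of_nonneg h0.le]
      exact mul_le_mul_of_nonneg_left ((hTn q).trans nq) h0.le
    rw [hs, Complex.norm_real, Real.norm_of_nonneg hs0] at h5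
    linarith
  have hTy : T (star y) = ⟪ξ Ω, v (ξ Ω)⟫_ℂ + (ε : ℂ) * T v := by
    conv_lhs => rw [hvk]
    rw [hTadd, hTsmul, hin v hvB]
  have hre : 1 - 2 * ε ≤ (⟪ξ Ω, v (ξ Ω)⟫_ℂ).re := by
    have h2 : ⟪ξ Ω, v (ξ Ω)⟫_ℂ = 1 + ((T (star y) - 1) - (ε : ℂ) * T v) := by
      rw [hTy]; ring
    have h3 : ‖(T (star y) - 1) - (ε : ℂ) * T v‖ ≤ ε + ε * 1 := by
      refine (norm_sub_le _ _).trans (add_le_add hy1 ?_)
      rw [norm_mul, Complex.norm_real, Real.norm_of_nonneg h0.le]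
      exact mul_le_mul_of_nonneg_left ((hTn v).trans nv) h0.le
    have h4 := (abs_le.1 ((Complex.abs_re_le_norm _).trans h3)).1
    rw [h2, Complex.add_re, Complex.one_re]
    linarith
  have hnv : ‖v (ξ Ω)‖ ≤ ‖ξ Ω‖ := by
    calc ‖v (ξ Ω)‖ ≤ ‖v‖ * ‖ξ Ω‖ := v.le_opNorm _
      _ ≤ 1 * ‖ξ Ω‖ := mul_le_mul_of_nonneg_right nv (norm_nonneg _)
      _ = ‖ξ Ω‖ := one_mul _
  have hs2 : 1 - 2 * ε ≤ s := by
    have h2 : (⟪ξ Ω, v (ξ Ω)⟫_ℂ).re ≤ ‖ξ Ω‖ * ‖v (ξ Ω)‖ :=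
      (Complex.re_le_norm _).trans (norm_inner_le_norm _ _)
    have h3 : ‖ξ Ω‖ * ‖v (ξ Ω)‖ ≤ ‖ξ Ω‖ * ‖ξ Ω‖ :=
      mul_le_mul_of_nonneg_left hnv (norm_nonneg _)
    rw [hsdef]
    nlinarith
  have hd : ‖v (ξ Ω) - ξ Ω‖ ^ 2 ≤ 8 * ε := by
    have h2 := norm_sub_sq (𝕜 := ℂ) (v (ξ Ω)) (ξ Ω)
    have h3 : RCLike.re (⟪v (ξ Ω), ξ Ω⟫_ℂ) = (⟪ξ Ω, v (ξ Ω)⟫_ℂ).re := by
      rw [← inner_conj_symm]
      exact Complex.conj_re _
    rw [h3] at h2
    have h4 : ‖v (ξ Ω)‖ ^ 2 ≤ ‖ξ Ω‖ ^ 2 := by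
      have := norm_nonneg (v (ξ Ω))
      exact pow_le_pow_left₀ this hnv 2
    rw [h2]
    have h5 : ‖ξ Ω‖ ^ 2 = s := rfl
    rw [h5] at h4 ⊢
    linarith
  refine ⟨ξ, hξ, (ContinuousLinearMap.nonneg_iff_isPositive ξ).1 pξ, ?_, ?_⟩
  · rw [abs_le]
    constructor <;> linarith
  · intro z hzB
    have h2 : ⟪Ω, (z * star y) Ω⟫_ℂ - ⟪Ω, (z * (ξ * ξ)) Ω⟫_ℂ =
        ⟪ξ Ω, z (v (ξ Ω) - ξ Ω)⟫_ℂ + (ε : ℂ) * T (z * v) := by
      have h3 : T (z * star y) = ⟪ξ Ω, z (v (ξ Ω))⟫_ℂ + (ε : ℂ) * T (z * v) := by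
        rw [hvk, mul_add, hTadd, mul_smul_comm, hTsmul, ← mul_assoc, hin (z * v) (mul_mem hzB hvB)]
        rfl
      have h4 : T (z * (ξ * ξ)) = ⟪ξ Ω, z (ξ Ω)⟫_ℂ := by
        rw [e1, hin z hzB]
      show T (z * star y) - T (z * (ξ * ξ)) = _
      rw [h3, h4, map_sub, inner_sub_right]
      ring
    rw [h2]
    have h5 : ‖⟪ξ Ω, z (v (ξ Ω) - ξ Ω)⟫_ℂ‖ ≤ ‖ξ Ω‖ * (‖z‖ * ‖v (ξ Ω) - ξ Ω‖) :=
      (norm_inner_le_norm _ _).trans
        (mul_le_mul_of_nonneg_left (z.le_opNorm _) (norm_nonneg _))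
    have h6 : ‖(ε : ℂ) * T (z * v)‖ ≤ ε * ‖z‖ := by
      rw [norm_mul, Complex.norm_real, Real.norm_of_nonneg h0.le]
      refine mul_le_mul_of_nonneg_left ?_ h0.le
      refine (hTn _).trans ((norm_mul_le _ _).trans ?_)
      calc ‖z‖ * ‖v‖ ≤ ‖z‖ * 1 := mul_le_mul_of_nonneg_left nv (norm_nonneg _)
        _ = ‖z‖ := mul_one _
    have hsq : Real.sqrt ε ^ 2 = ε := Real.sq_sqrt h0.le
    have hsq0 : 0 < Real.sqrt ε := Real.sqrt_pos.2 h0
    have h7 : ‖ξ Ω‖ * ‖v (ξ Ω) - ξ Ω‖ ≤ 5 * Real.sqrt ε := by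
      refine (sq_le_sq₀ (by positivity) (by positivity)).1 ?_
      rw [mul_pow, mul_pow, hsq]
      have h8 : ‖ξ Ω‖ ^ 2 ≤ 3 := by
        have h9 : ‖ξ Ω‖ ^ 2 = s := rfl
        rw [h9]
        linarith
      calc ‖ξ Ω‖ ^ 2 * ‖v (ξ Ω) - ξ Ω‖ ^ 2 ≤ 3 * (8 * ε) :=
            mul_le_mul h8 hd (sq_nonneg _) (by norm_num)
        _ ≤ 5 ^ 2 * ε := by nlinarith
    have h9 : ε ≤ Real.sqrt ε := by
      have h10 : Real.sqrt ε ≤ 1 := by
        rw [← Real.sqrt_one]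
        exact Real.sqrt_le_sqrt h1
      nlinarith
    have hz0 := norm_nonneg z
    calc ‖⟪ξ Ω, z (v (ξ Ω) - ξ Ω)⟫_ℂ + (ε : ℂ) * T (z * v)‖
        ≤ ‖ξ Ω‖ * (‖z‖ * ‖v (ξ Ω) - ξ Ω‖) + ε * ‖z‖ :=
          (norm_add_le _ _).trans (add_le_add h5 h6)
      _ = (‖ξ Ω‖ * ‖v (ξ Ω) - ξ Ω‖) * ‖z‖ + ε * ‖z‖ := by ring
      _ ≤ (5 * Real.sqrt ε) * ‖z‖ + Real.sqrt ε * ‖z‖ :=
          add_le_add (mul_le_mul_of_nonneg_right h7 hz0) (mul_le_mul_of_nonneg_right h9 hz0)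
      _ ≤ 8 * Real.sqrt ε * ‖z‖ := by nlinarith [mul_nonneg hsq0.le hz0]

end

end MP7e
end

section
/-!
Module SD, part 1: Hahn-Banach (normal functionals are dense, with Day's convexity argument).
-/
namespace MP7e.SD

open scoped InnerProductSpace
open ContinuousLinearMap

noncomputable section

variable {K : Type*} [NormedAddCommGroup K] [InnerProductSpace ℂ K] [CompleteSpace K]

/-- the functional `T ↦ ⟪ξ, T η⟫` -/
def om (ξ η : K) : StrongDual ℂ (K →L[ℂ] K) := (innerSL ℂ ξ).comp (ContinuousLinearMap.apply ℂ K η)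

theorem om_apply (ξ η : K) (T : K →L[ℂ] K) : om ξ η T = ⟪ξ, T η⟫_ℂ := rfl

theorem norm_om_le (ξ η : K) : ‖om ξ η‖ ≤ ‖ξ‖ * ‖η‖ := by
  refine opNorm_le_bound _ (by positivity) fun T => ?_
  rw [om_apply]
  calc ‖⟪ξ, T η⟫_ℂ‖ ≤ ‖ξ‖ * ‖T η‖ := norm_inner_le_norm _ _
    _ ≤ ‖ξ‖ * (‖T‖ * ‖η‖) := by gcongr; exact T.le_opNorm η
    _ = ‖ξ‖ * ‖η‖ * ‖T‖ := by ring

/-- a bounded functional on the dual restricts to an operator -/
theorem exists_op (F : StrongDual ℂ (StrongDual ℂ (K →L[ℂ] K))) :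
    ∃ X : K →L[ℂ] K, ∀ ξ η, F (om ξ η) = ⟪ξ, X η⟫_ℂ := by
  let B0 : K →ₗ⋆[ℂ] K →ₗ[ℂ] ℂ :=
    LinearMap.mk₂'ₛₗ (starRingEnd ℂ) (RingHom.id ℂ) (fun ξ η => F (om ξ η))
      (by
        intro a b c
        rw [← map_add]
        congr 1
        ext T
        simp [om_apply])
      (by
        intro c a b
        have : om (c • a) b = (starRingEnd ℂ) c • om a b := by
          ext T
          simp [om_apply, mul_comm]
        rw [this, map_smul])
      (by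
        intro a b c
        rw [← map_add]
        congr 1
        ext T
        simp [om_apply])
      (by
        intro c a b
        have : om a (c • b) = c • om a b := by
          ext T
          simp [om_apply]
        rw [this, map_smul]
        rfl)
  let B : K →L⋆[ℂ] K →L[ℂ] ℂ := LinearMap.mkContinuous₂ B0 ‖F‖ (by
    intro x y
    show ‖F (om x y)‖ ≤ _
    calc ‖F (om x y)‖ ≤ ‖F‖ * ‖om x y‖ := F.le_opNorm _
      _ ≤ ‖F‖ * (‖x‖ * ‖y‖) := by gcongr; exact norm_om_le x y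
      _ = ‖F‖ * ‖x‖ * ‖y‖ := by ring)
  refine ⟨adjoint (InnerProductSpace.continuousLinearMapOfBilin B), fun ξ η => ?_⟩
  rw [adjoint_inner_right, InnerProductSpace.continuousLinearMapOfBilin_apply]
  rfl

/-- a state vanishes on no strictly accretive operator -/
theorem state_ne {φ : (K →L[ℂ] K) →ₗ[ℂ] ℂ} (hφ : IsState φ) (Y : K →L[ℂ] K) {d : ℝ} (hd : 0 < d)
    (hY : ∀ ξ : K, d * ‖ξ‖ ^ 2 ≤ (⟪ξ, Y ξ⟫_ℂ).re) : φ Y ≠ 0 := by
  intro h0
  set N := ‖Y‖ with hN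
  have hN0 : 0 ≤ N := norm_nonneg _
  set t := min (d / (N ^ 2 + 1)) (1 / (2 * d)) with ht
  have ht0 : 0 < t := by positivity
  have ht1 : t * (N ^ 2 + 1) ≤ d := by
    calc t * (N ^ 2 + 1) ≤ d / (N ^ 2 + 1) * (N ^ 2 + 1) := by gcongr; exact min_le_left _ _
      _ = d := by field_simp
  have ht2 : t * d ≤ 1 / 2 := by
    calc t * d ≤ 1 / (2 * d) * d := by gcongr; exact min_le_right _ _
      _ = 1 / 2 := by field_simp
  -- norm of 1 - tY
  have h1 : ‖(1 : K →L[ℂ] K) - (t : ℂ) • Y‖ ≤ Real.sqrt (1 - t * d) := by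
    refine opNorm_le_bound _ (Real.sqrt_nonneg _) fun ξ => ?_
    have h2 : ‖((1 : K →L[ℂ] K) - (t : ℂ) • Y) ξ‖ ^ 2 ≤ (1 - t * d) * ‖ξ‖ ^ 2 := by
      have e : ((1 : K →L[ℂ] K) - (t : ℂ) • Y) ξ = ξ - (t : ℂ) • Y ξ := by
        simp
      rw [e, @norm_sub_sq ℂ]
      have e2 : RCLike.re ⟪ξ, (t : ℂ) • Y ξ⟫_ℂ = t * (⟪ξ, Y ξ⟫_ℂ).re := by
        rw [inner_smul_right]
        exact Complex.re_ofReal_mul _ _
      rw [e2, norm_smul]
      have e3 : ‖(t : ℂ)‖ = t := by simp [abs_of_pos ht0]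
      rw [e3]
      have h3 := hY ξ
      have h4 : ‖Y ξ‖ ≤ N * ‖ξ‖ := Y.le_opNorm ξ
      have h5 : ‖Y ξ‖ ^ 2 ≤ (N * ‖ξ‖) ^ 2 := by gcongr
      have h6 : t ^ 2 * ‖Y ξ‖ ^ 2 ≤ t ^ 2 * (N * ‖ξ‖) ^ 2 := by gcongr
      have h7 : t ^ 2 * (N * ‖ξ‖) ^ 2 ≤ t * d * ‖ξ‖ ^ 2 := by
        have : t ^ 2 * (N * ‖ξ‖) ^ 2 = t * (t * N ^ 2) * ‖ξ‖ ^ 2 := by ring
        rw [this]
        have : t * N ^ 2 ≤ d := by nlinarith
        gcongr
      have h8 : t * (d * ‖ξ‖ ^ 2) ≤ t * (⟪ξ, Y ξ⟫_ℂ).re := by gcongr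
      nlinarith
    have h9 : (0 : ℝ) ≤ 1 - t * d := by linarith
    apply le_of_sq_le_sq _ (by positivity)
    rw [mul_pow, Real.sq_sqrt h9]
    exact h2
  have h10 := hφ.2 ((1 : K →L[ℂ] K) - (t : ℂ) • Y)
  rw [map_sub, map_smul, h0, hφ.1, smul_zero, sub_zero, norm_one] at h10
  have h11 : (1 : ℝ) ≤ Real.sqrt (1 - t * d) := h10.trans h1
  have h12 : (0 : ℝ) ≤ 1 - t * d := by linarith
  have h13 := Real.sq_sqrt h12
  have h14 : 0 < t * d := by positivity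
  nlinarith

/-- vector functionals are dense among invariant states, in norm for the invariance -/
theorem approx {φ : (K →L[ℂ] K) →ₗ[ℂ] ℂ} (hφ : IsState φ) (us xs : Finset (K →L[ℂ] K))
    (hus : ∀ u ∈ us, u ∈ unitary (K →L[ℂ] K) ∧ ∀ T, φ (u * T * star u) = φ T) {δ : ℝ}
    (hδ : 0 < δ) :
    ∃ (ι : Type) (_ : Fintype ι) (ξ : ι → K), ∑ i, ‖ξ i‖ ^ 2 = 1 ∧
      (∀ u ∈ us, ∀ T : K →L[ℂ] K,
        ‖∑ i, ⟪u (ξ i), T (u (ξ i))⟫_ℂ - ∑ i, ⟪ξ i, T (ξ i)⟫_ℂ‖ ≤ δ * ‖T‖) ∧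
      ∀ x ∈ xs, ‖∑ i, ⟪ξ i, x (ξ i)⟫_ℂ - φ x‖ ≤ δ := by
  classical
  let W := (us → StrongDual ℂ (K →L[ℂ] K)) × (xs → ℂ)
  let Φ : K → W := fun ξ =>
    (fun u => om ((u : K →L[ℂ] K) ξ) ((u : K →L[ℂ] K) ξ) - om ξ ξ,
      fun x => ⟪ξ, (x : K →L[ℂ] K) ξ⟫_ℂ - φ x * ((‖ξ‖ ^ 2 : ℝ) : ℂ))
  let S0 : Set W := Φ '' {ξ | ‖ξ‖ = 1}
  have key : (0 : W) ∈ closure (convexHull ℝ S0) := by
    by_contra hcon
    obtain ⟨f, d, hd0, hd⟩ := RCLike.geometric_hahn_banach_point_closed (𝕜 := ℂ)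
      (convex_convexHull ℝ S0).closure isClosed_closure hcon
    rw [map_zero, map_zero] at hd0
    -- the components of `f`
    have hdec : ∀ w : W, f w = ∑ u, f ((Pi.single u (w.1 u), 0) : W) +
        ∑ x, w.2 x * f ((0, Pi.single x 1) : W) := by
      intro w
      have h1 : w = (∑ u, ((Pi.single u (w.1 u), 0) : W)) + ∑ x, w.2 x • ((0, Pi.single x 1) : W) := by
        apply Prod.ext
        · funext u
          simp [Prod.fst_sum, Finset.sum_apply, Pi.single_apply]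
          refine Finset.sum_eq_zero fun x _ => ?_
          ext T
          exact mul_zero (w.2 x)
        · funext x
          simp [Prod.snd_sum, Finset.sum_apply, Pi.single_apply]
      conv_lhs => rw [h1]
      rw [map_add, map_sum, map_sum]
      congr 1
      apply Finset.sum_congr rfl
      intro x _
      rw [map_smul, smul_eq_mul]
    have hX : ∀ u : us, ∃ X : K →L[ℂ] K, ∀ ξ η,
        f ((Pi.single u (om ξ η), 0) : W) = ⟪ξ, X η⟫_ℂ := by
      intro u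
      have := exists_op (f.comp ((ContinuousLinearMap.inl ℂ (us → StrongDual ℂ (K →L[ℂ] K))
        (xs → ℂ)).comp (ContinuousLinearMap.single ℂ (fun _ : us => StrongDual ℂ (K →L[ℂ] K)) u)))
      exact this
    choose X hX using hX
    let Y : K →L[ℂ] K := ∑ u : us, (star (u : K →L[ℂ] K) * X u * (u : K →L[ℂ] K) - X u) +
      ∑ x : xs, f ((0, Pi.single x 1) : W) • ((x : K →L[ℂ] K) - φ x • 1)
    have hY : ∀ ξ : K, f (Φ ξ) = ⟪ξ, Y ξ⟫_ℂ := by
      intro ξ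
      have e1 : Y ξ = ∑ u : us, (star (u : K →L[ℂ] K) (X u ((u : K →L[ℂ] K) ξ)) - X u ξ) +
          ∑ x : xs, f ((0, Pi.single x 1) : W) • ((x : K →L[ℂ] K) ξ - φ x • ξ) := by
        simp only [Y, add_apply, sum_apply, sub_apply, smul_apply, one_apply]
        rfl
      rw [hdec, e1, inner_add_right, inner_sum, inner_sum]
      congr 1
      · apply Finset.sum_congr rfl
        intro u _
        have e2 : ((Pi.single u ((Φ ξ).1 u), 0) : W) =
            ((Pi.single u (om ((u : K →L[ℂ] K) ξ) ((u : K →L[ℂ] K) ξ)), 0) : W) -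
            ((Pi.single u (om ξ ξ), 0) : W) := by
          apply Prod.ext
          · exact Pi.single_sub (f := fun _ : us => StrongDual ℂ (K →L[ℂ] K)) u
              (om ((u : K →L[ℂ] K) ξ) ((u : K →L[ℂ] K) ξ)) (om ξ ξ)
          · simp
        rw [e2, map_sub, hX, hX, inner_sub_right]
        congr 1
        exact (adjoint_inner_right (u : K →L[ℂ] K) ξ _).symm
      · apply Finset.sum_congr rfl
        intro x _
        rw [inner_smul_right, inner_sub_right, inner_smul_right, inner_self_eq_norm_sq_to_K]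
        show (⟪ξ, (x : K →L[ℂ] K) ξ⟫_ℂ - φ x * ((‖ξ‖ ^ 2 : ℝ) : ℂ)) * _ = _
        rw [mul_comm]
        congr 3
        push_cast
        rfl
    have hφY : φ Y = 0 := by
      have h1 : ∀ u : us, φ (star (u : K →L[ℂ] K) * X u * (u : K →L[ℂ] K)) = φ (X u) := by
        intro u
        obtain ⟨hu1, hu2⟩ := hus u u.2
        have h2 := hu2 (star (u : K →L[ℂ] K) * X u * (u : K →L[ℂ] K))
        have h3 : (u : K →L[ℂ] K) * star (u : K →L[ℂ] K) = 1 := (Unitary.mem_iff.1 hu1).2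
        rw [← h2]
        congr 1
        calc (u : K →L[ℂ] K) * (star (u : K →L[ℂ] K) * X u * u) * star (u : K →L[ℂ] K)
            = ((u : K →L[ℂ] K) * star (u : K →L[ℂ] K)) * X u *
              ((u : K →L[ℂ] K) * star (u : K →L[ℂ] K)) := by noncomm_ring
          _ = X u := by rw [h3, one_mul, mul_one]
      simp only [Y, map_add, map_sum, map_sub, map_smul, h1, hφ.1, sub_self, smul_eq_mul, mul_one,
        mul_zero, Finset.sum_const_zero, add_zero]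
    refine state_ne hφ Y hd0 ?_ hφY
    intro ξ
    by_cases h0 : ξ = 0
    · simp [h0]
    have hn : 0 < ‖ξ‖ := norm_pos_iff.2 h0
    set η : K := ((‖ξ‖⁻¹ : ℝ) : ℂ) • ξ with hη
    have hη1 : ‖η‖ = 1 := by
      rw [hη, norm_smul, Complex.norm_real, Real.norm_of_nonneg (by positivity)]
      field_simp
    have hξη : ξ = ((‖ξ‖ : ℝ) : ℂ) • η := by
      rw [hη, smul_smul, ← Complex.ofReal_mul, mul_inv_cancel₀ hn.ne', Complex.ofReal_one,
        one_smul]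
    have h2 := hd (Φ η) (subset_closure (subset_convexHull ℝ S0 ⟨η, hη1, rfl⟩))
    rw [hY] at h2
    have h3 : ⟪ξ, Y ξ⟫_ℂ = ((‖ξ‖ ^ 2 : ℝ) : ℂ) * ⟪η, Y η⟫_ℂ := by
      conv_lhs => rw [hξη, map_smul, inner_smul_left, inner_smul_right]
      rw [Complex.conj_ofReal]
      push_cast
      ring
    rw [h3, Complex.re_ofReal_mul]
    have h4 : d ≤ (⟪η, Y η⟫_ℂ).re := h2.le
    nlinarith [sq_nonneg ‖ξ‖]
  obtain ⟨b, hb, hb2⟩ := Metric.mem_closure_iff.1 key δ hδ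
  rw [mem_convexHull_iff_exists_fintype] at hb
  obtain ⟨ι, _, w, z, hw0, hw1, hz, hb1⟩ := hb
  rw [dist_zero_left] at hb2
  choose η hη1 hη2 using hz
  have hη1' : ∀ i, ‖η i‖ = 1 := hη1
  have hsq : ∀ i, ((Real.sqrt (w i) : ℝ) : ℂ) * ((Real.sqrt (w i) : ℝ) : ℂ) = ((w i : ℝ) : ℂ) := by
    intro i
    rw [← Complex.ofReal_mul, Real.mul_self_sqrt (hw0 i)]
  have hin : ∀ (T : K →L[ℂ] K) (i : ι) (v : K), ⟪((Real.sqrt (w i) : ℝ) : ℂ) • v,
      T (((Real.sqrt (w i) : ℝ) : ℂ) • v)⟫_ℂ = ((w i : ℝ) : ℂ) * ⟪v, T v⟫_ℂ := by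
    intro T i v
    rw [map_smul, inner_smul_left, inner_smul_right, Complex.conj_ofReal, ← mul_assoc, hsq]
  refine ⟨ι, inferInstance, fun i => ((Real.sqrt (w i) : ℝ) : ℂ) • η i, ?_, ?_, ?_⟩
  · rw [← hw1]
    apply Finset.sum_congr rfl
    intro i _
    rw [norm_smul, hη1', mul_one, Complex.norm_real, Real.norm_of_nonneg (Real.sqrt_nonneg _),
      Real.sq_sqrt (hw0 i)]
  · intro u hu T
    have e1 : ∑ i, ⟪u (((Real.sqrt (w i) : ℝ) : ℂ) • η i),
        T (u (((Real.sqrt (w i) : ℝ) : ℂ) • η i))⟫_ℂ -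
        ∑ i, ⟪((Real.sqrt (w i) : ℝ) : ℂ) • η i, T (((Real.sqrt (w i) : ℝ) : ℂ) • η i)⟫_ℂ =
        b.1 ⟨u, hu⟩ T := by
      rw [← hb1, Prod.fst_sum, Finset.sum_apply, sum_apply, ← Finset.sum_sub_distrib]
      apply Finset.sum_congr rfl
      intro i _
      rw [hin, map_smul, hin, ← hη2]
      show _ = (w i) • (⟪u (η i), T (u (η i))⟫_ℂ - ⟪η i, T (η i)⟫_ℂ)
      rw [Complex.real_smul]
      ring
    rw [e1]
    calc ‖b.1 ⟨u, hu⟩ T‖ ≤ ‖b.1 ⟨u, hu⟩‖ * ‖T‖ := le_opNorm _ _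
      _ ≤ δ * ‖T‖ := by
        gcongr
        exact (norm_le_pi_norm b.1 ⟨u, hu⟩).trans ((norm_fst_le b).trans hb2.le)
  · intro x hx
    have e1 : ∑ i, ⟪((Real.sqrt (w i) : ℝ) : ℂ) • η i, x (((Real.sqrt (w i) : ℝ) : ℂ) • η i)⟫_ℂ -
        φ x = b.2 ⟨x, hx⟩ := by
      have e2 : φ x = ∑ i, ((w i : ℝ) : ℂ) * φ x := by
        rw [← Finset.sum_mul, ← Complex.ofReal_sum, hw1, Complex.ofReal_one, one_mul]
      rw [e2, ← hb1, Prod.snd_sum, Finset.sum_apply, ← Finset.sum_sub_distrib]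
      apply Finset.sum_congr rfl
      intro i _
      rw [hin, ← hη2]
      show _ = (w i) • (⟪η i, x (η i)⟫_ℂ - φ x * ((‖η i‖ ^ 2 : ℝ) : ℂ))
      rw [Complex.real_smul, hη1']
      push_cast
      ring
    rw [e1]
    exact (norm_le_pi_norm b.2 ⟨x, hx⟩).trans ((norm_snd_le b).trans hb2.le)

end

end MP7e.SD
end

section
/-!
Module SD: almost central Hilbert-Schmidt vectors from invariant states.
-/
namespace MP7e.SD

open scoped InnerProductSpace
open ContinuousLinearMap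

noncomputable section

variable {K : Type*} [NormedAddCommGroup K] [InnerProductSpace ℂ K] [CompleteSpace K]

/-- orthogonalisation: a finite sum of vector functionals can be written with pairwise
orthogonal vectors -/
theorem orthogonalise {ι : Type} [Fintype ι] (ξ : ι → K) :
    ∃ ζ : ι → K, (∀ i j, i ≠ j → ⟪ζ i, ζ j⟫_ℂ = 0) ∧
      ∀ S T : K →L[ℂ] K, ∑ i, ⟪S (ζ i), T (ζ i)⟫_ℂ = ∑ i, ⟪S (ξ i), T (ξ i)⟫_ℂ := by
  classical
  let G : Matrix ι ι ℂ := fun j k => ⟪ξ j, ξ k⟫_ℂ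
  have hG : G.IsHermitian := Matrix.IsHermitian.ext fun i j => inner_conj_symm _ _
  let U : Matrix ι ι ℂ := (hG.eigenvectorUnitary : Matrix ι ι ℂ)
  have hU1 : U * star U = 1 := Unitary.coe_mul_star_self hG.eigenvectorUnitary
  have hU2 : star U * G * U = Matrix.diagonal (RCLike.ofReal ∘ hG.eigenvalues) := by
    have h := hG.conjStarAlgAut_star_eigenvectorUnitary
    rwa [Unitary.conjStarAlgAut_star_apply] at h
  refine ⟨fun i => ∑ k, U k i • ξ k, ?_, ?_⟩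
  · intro i j hij
    have h1 : (star U * G * U) i j = 0 := by
      rw [hU2, Matrix.diagonal_apply_ne _ hij]
    rw [← h1, sum_inner]
    simp only [inner_sum, inner_smul_left, inner_smul_right, Matrix.mul_apply, Finset.sum_mul,
      Matrix.star_apply, RCLike.star_def]
    rw [Finset.sum_comm]
    apply Finset.sum_congr rfl
    intro k _
    apply Finset.sum_congr rfl
    intro l _
    simp only [G]
    ring
  · intro S T
    have h2 : ∀ i, ⟪S (∑ k, U k i • ξ k), T (∑ k, U k i • ξ k)⟫_ℂ =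
        ∑ j, ∑ k, (U k i * (starRingEnd ℂ) (U j i)) * ⟪S (ξ j), T (ξ k)⟫_ℂ := by
      intro i
      rw [map_sum, map_sum, sum_inner]
      apply Finset.sum_congr rfl
      intro j _
      rw [inner_sum]
      apply Finset.sum_congr rfl
      intro k _
      rw [map_smul, map_smul, inner_smul_left, inner_smul_right]
      ring
    simp only [h2]
    rw [Finset.sum_comm]
    apply Finset.sum_congr rfl
    intro j _
    rw [Finset.sum_comm]
    have h3 : ∀ k, ∑ i, (U k i * (starRingEnd ℂ) (U j i)) * ⟪S (ξ j), T (ξ k)⟫_ℂ =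
        (if k = j then 1 else 0) * ⟪S (ξ j), T (ξ k)⟫_ℂ := by
      intro k
      rw [← Finset.sum_mul]
      congr 1
      have h4 := congrFun (congrFun hU1 k) j
      rw [Matrix.mul_apply, Matrix.one_apply] at h4
      exact h4
    simp [h3]

/-- the rank one sum `∑ μ_i |e_i⟩⟨e_i|` -/
def rk {ι : Type} [Fintype ι] (μ : ι → ℝ) (e : ι → K) : K →L[ℂ] K :=
  ∑ i, ((μ i : ℝ) : ℂ) • InnerProductSpace.rankOne ℂ (e i) (e i)

theorem rk_apply {ι : Type} [Fintype ι] (μ : ι → ℝ) (e : ι → K) (v : K) :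
    rk μ e v = ∑ i, ((μ i : ℝ) : ℂ) • ⟪e i, v⟫_ℂ • e i := by
  simp [rk, sum_apply]

theorem rk_sa {ι : Type} [Fintype ι] (μ : ι → ℝ) (e : ι → K) : IsSelfAdjoint (rk μ e) := by
  rw [isSelfAdjoint_iff']
  apply ContinuousLinearMap.ext
  intro v
  apply ext_inner_left ℂ
  intro w
  rw [adjoint_inner_right, rk_apply, rk_apply, sum_inner, inner_sum]
  apply Finset.sum_congr rfl
  intro i _
  rw [inner_smul_left, inner_smul_left, inner_smul_right, inner_smul_right, Complex.conj_ofReal,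
    inner_conj_symm]
  ring

/-- the cross terms -/
theorem cross {ι : Type} [Fintype ι] (μ : ι → ℝ) (e f : ι → K) {s : K →L[ℂ] K}
    (hs : IsSelfAdjoint s) :
    (∑ j, ((μ j : ℝ) : ℂ) * ⟪f j, s (rk μ e (f j))⟫_ℂ).re =
      (∑ j, ((μ j : ℝ) : ℂ) * ⟪e j, s (rk μ f (e j))⟫_ℂ).re := by
  rw [← Complex.conj_re (∑ j, ((μ j : ℝ) : ℂ) * ⟪e j, s (rk μ f (e j))⟫_ℂ)]
  congr 1
  simp only [rk_apply, map_sum, map_smul, inner_sum, inner_smul_right, Finset.mul_sum, map_mul,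
    Complex.conj_ofReal, inner_conj_symm]
  rw [Finset.sum_comm]
  apply Finset.sum_congr rfl
  intro i _
  apply Finset.sum_congr rfl
  intro j _
  have : ⟪s (f j), e i⟫_ℂ = ⟪f j, s (e i)⟫_ℂ := by
    conv_lhs => rw [← hs.adjoint_eq]
    rw [adjoint_inner_left]
  rw [this]
  ring

/-- finite rank Powers-Stormer inequality -/
theorem powersStormer {ι : Type} [Fintype ι] (μ : ι → ℝ) (hμ : ∀ i, 0 ≤ μ i) (e f : ι → K)
    (he : ∀ j, rk μ e (e j) = ((μ j : ℝ) : ℂ) • e j)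
    (hf : ∀ j, rk μ f (f j) = ((μ j : ℝ) : ℂ) • f j)
    (he1 : ∀ j, μ j * ‖e j‖ ^ 2 = μ j) (hf1 : ∀ j, μ j * ‖f j‖ ^ 2 = μ j) {η : ℝ}
    (h : ∀ s : K →L[ℂ] K, IsSelfAdjoint s → ‖s‖ ≤ 1 →
      (∑ j, ((μ j ^ 2 : ℝ) : ℂ) * ⟪f j, s (f j)⟫_ℂ).re -
        (∑ j, ((μ j ^ 2 : ℝ) : ℂ) * ⟪e j, s (e j)⟫_ℂ).re ≤ η) :
    2 * ∑ j, μ j ^ 2 - 2 * (∑ j, ((μ j : ℝ) : ℂ) * ⟪f j, rk μ e (f j)⟫_ℂ).re ≤ η := by
  set c := rk μ f with hc
  set d := rk μ e with hd
  set g := c - d with hg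
  have hgs : IsSelfAdjoint g := (rk_sa μ f).sub (rk_sa μ e)
  apply le_of_forall_pos_le_add
  intro ε hε
  set C := ∑ j, μ j with hC
  have hCn : 0 ≤ C := Finset.sum_nonneg fun i _ => hμ i
  set δ := ε / (2 * C + 1) with hδ
  have hδ0 : 0 < δ := by positivity
  obtain ⟨s, -, hss, hs1, hse, hp1, hp2⟩ := PS2.exists_sign g hgs hδ0
  have hh := h s hss hs1
  -- lower bounds
  have k1 : ∀ j, μ j * (⟪f j, g (f j)⟫_ℂ).re - δ * μ j ≤ μ j * (⟪f j, s (g (f j))⟫_ℂ).re := by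
    intro j
    have h1 := hp1.re_inner_nonneg_right (f j)
    have e1 : (s * g - g + algebraMap ℝ (K →L[ℂ] K) δ) (f j) =
        s (g (f j)) - g (f j) + ((δ : ℝ) : ℂ) • f j := by
      rw [Algebra.algebraMap_eq_smul_one]
      simp
    rw [e1, inner_add_right, inner_sub_right, inner_smul_right, inner_self_eq_norm_sq_to_K] at h1
    have h2 : 0 ≤ (⟪f j, s (g (f j))⟫_ℂ).re - (⟪f j, g (f j)⟫_ℂ).re + δ * ‖f j‖ ^ 2 := by
      have e2 : (((δ : ℝ) : ℂ) * ((‖f j‖ : ℝ) : ℂ) ^ 2).re = δ * ‖f j‖ ^ 2 := by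
        rw [← Complex.ofReal_pow, Complex.re_ofReal_mul, Complex.ofReal_re]
      have h3 : 0 ≤ (⟪f j, s (g (f j))⟫_ℂ - ⟪f j, g (f j)⟫_ℂ +
          ((δ : ℝ) : ℂ) * ((‖f j‖ : ℝ) : ℂ) ^ 2).re := h1
      rw [Complex.add_re, Complex.sub_re, e2] at h3
      exact h3
    have h4 := mul_nonneg (hμ j) h2
    have h5 := hf1 j
    nlinarith
  have k2 : ∀ j, -(μ j * (⟪e j, g (e j)⟫_ℂ).re) - δ * μ j ≤ μ j * (⟪e j, s (g (e j))⟫_ℂ).re := by
    intro j
    have h1 := hp2.re_inner_nonneg_right (e j)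
    have e1 : (s * g + g + algebraMap ℝ (K →L[ℂ] K) δ) (e j) =
        s (g (e j)) + g (e j) + ((δ : ℝ) : ℂ) • e j := by
      rw [Algebra.algebraMap_eq_smul_one]
      simp
    rw [e1, inner_add_right, inner_add_right, inner_smul_right, inner_self_eq_norm_sq_to_K] at h1
    have h2 : 0 ≤ (⟪e j, s (g (e j))⟫_ℂ).re + (⟪e j, g (e j)⟫_ℂ).re + δ * ‖e j‖ ^ 2 := by
      have e2 : (((δ : ℝ) : ℂ) * ((‖e j‖ : ℝ) : ℂ) ^ 2).re = δ * ‖e j‖ ^ 2 := by
        rw [← Complex.ofReal_pow, Complex.re_ofReal_mul, Complex.ofReal_re]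
      have h3 : 0 ≤ (⟪e j, s (g (e j))⟫_ℂ + ⟪e j, g (e j)⟫_ℂ +
          ((δ : ℝ) : ℂ) * ((‖e j‖ : ℝ) : ℂ) ^ 2).re := h1
      rw [Complex.add_re, Complex.add_re, e2] at h3
      exact h3
    have h4 := mul_nonneg (hμ j) h2
    have h5 := he1 j
    nlinarith
  have K1 := Finset.sum_le_sum (fun j (_ : j ∈ Finset.univ) => k1 j)
  have K2 := Finset.sum_le_sum (fun j (_ : j ∈ Finset.univ) => k2 j)
  rw [Finset.sum_sub_distrib, ← Finset.mul_sum] at K1 K2
  rw [Finset.sum_neg_distrib] at K2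
  -- expand the sums
  have re_sum : ∀ (F : ι → ℂ) (ν : ι → ℝ), (∑ j, ((ν j : ℝ) : ℂ) * F j).re = ∑ j, ν j * (F j).re := by
    intro F ν
    rw [Complex.re_sum]
    exact Finset.sum_congr rfl fun j _ => Complex.re_ofReal_mul _ _
  have x1 : ∀ (t : K →L[ℂ] K), ∑ j, μ j * (⟪f j, t (g (f j))⟫_ℂ).re =
      (∑ j, ((μ j ^ 2 : ℝ) : ℂ) * ⟪f j, t (f j)⟫_ℂ).re -
      (∑ j, ((μ j : ℝ) : ℂ) * ⟪f j, t (d (f j))⟫_ℂ).re := by
    intro t
    rw [re_sum, re_sum, ← Finset.sum_sub_distrib]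
    apply Finset.sum_congr rfl
    intro j _
    rw [hg, sub_apply, hf, map_sub, map_smul, inner_sub_right, inner_smul_right, Complex.sub_re,
      Complex.re_ofReal_mul]
    ring
  have x2 : ∀ (t : K →L[ℂ] K), ∑ j, μ j * (⟪e j, t (g (e j))⟫_ℂ).re =
      (∑ j, ((μ j : ℝ) : ℂ) * ⟪e j, t (c (e j))⟫_ℂ).re -
      (∑ j, ((μ j ^ 2 : ℝ) : ℂ) * ⟪e j, t (e j)⟫_ℂ).re := by
    intro t
    rw [re_sum, re_sum, ← Finset.sum_sub_distrib]
    apply Finset.sum_congr rfl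
    intro j _
    rw [hg, sub_apply, he, map_sub, map_smul, inner_sub_right, inner_smul_right, Complex.sub_re,
      Complex.re_ofReal_mul]
    ring
  have y1 := x1 s
  have y2 := x2 s
  have y3 := x1 1
  have y4 := x2 1
  have z1 := cross μ e f hss
  have z2 := cross μ e f (IsSelfAdjoint.one (K →L[ℂ] K))
  simp only [one_apply_eq_self] at y3 y4 z2
  have w1 : (∑ j, ((μ j ^ 2 : ℝ) : ℂ) * ⟪f j, f j⟫_ℂ).re = ∑ j, μ j ^ 2 := by
    rw [re_sum]
    apply Finset.sum_congr rfl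
    intro j _
    rw [inner_self_eq_norm_sq_to_K]
    have : ((((‖f j‖ : ℝ) : ℂ)) ^ 2).re = ‖f j‖ ^ 2 := by
      rw [← Complex.ofReal_pow, Complex.ofReal_re]
    show μ j ^ 2 * ((((‖f j‖ : ℝ) : ℂ)) ^ 2).re = _
    rw [this]
    have := hf1 j
    calc μ j ^ 2 * ‖f j‖ ^ 2 = μ j * (μ j * ‖f j‖ ^ 2) := by ring
      _ = μ j ^ 2 := by rw [this]; ring
  have w2 : (∑ j, ((μ j ^ 2 : ℝ) : ℂ) * ⟪e j, e j⟫_ℂ).re = ∑ j, μ j ^ 2 := by
    rw [re_sum]
    apply Finset.sum_congr rfl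
    intro j _
    rw [inner_self_eq_norm_sq_to_K]
    have : ((((‖e j‖ : ℝ) : ℂ)) ^ 2).re = ‖e j‖ ^ 2 := by
      rw [← Complex.ofReal_pow, Complex.ofReal_re]
    show μ j ^ 2 * ((((‖e j‖ : ℝ) : ℂ)) ^ 2).re = _
    rw [this]
    have := he1 j
    calc μ j ^ 2 * ‖e j‖ ^ 2 = μ j * (μ j * ‖e j‖ ^ 2) := by ring
      _ = μ j ^ 2 := by rw [this]; ring
  have hδC : 2 * (δ * C) ≤ ε := by
    calc 2 * (δ * C) ≤ δ * (2 * C + 1) := by nlinarith
      _ = ε := by rw [hδ]; field_simp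
  rw [w1] at y3
  rw [w2] at y4
  linarith

/-- eigenvectors of `rk` -/
theorem rk_eig {ι : Type} [Fintype ι] (μ : ι → ℝ) (e : ι → K)
    (h0 : ∀ i j, i ≠ j → ⟪e i, e j⟫_ℂ = 0) (h1 : ∀ j, μ j * ‖e j‖ ^ 2 = μ j) (j : ι) :
    rk μ e (e j) = ((μ j : ℝ) : ℂ) • e j := by
  classical
  rw [rk_apply, Finset.sum_eq_single j]
  · rw [inner_self_eq_norm_sq_to_K, smul_smul]
    congr 1
    have := h1 j
    show ((μ j : ℝ) : ℂ) * ((‖e j‖ : ℝ) : ℂ) ^ 2 = ((μ j : ℝ) : ℂ)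
    rw [← Complex.ofReal_pow, ← Complex.ofReal_mul, this]
  · intro i _ hij
    rw [h0 i j hij, zero_smul, smul_zero]
  · intro h
    exact absurd (Finset.mem_univ j) h

theorem unitary_inner {u : K →L[ℂ] K} (hu : u ∈ unitary (K →L[ℂ] K)) (v w : K) :
    ⟪u v, u w⟫_ℂ = ⟪v, w⟫_ℂ := by
  have h := (Unitary.mem_iff.1 hu).1
  calc ⟪u v, u w⟫_ℂ = ⟪v, (adjoint u) (u w)⟫_ℂ := (adjoint_inner_right u _ _).symm
    _ = ⟪v, (star u * u) w⟫_ℂ := rfl
    _ = ⟪v, w⟫_ℂ := by rw [h, one_apply_eq_self]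

theorem unitary_norm {u : K →L[ℂ] K} (hu : u ∈ unitary (K →L[ℂ] K)) : ‖u‖ ≤ 1 := by
  refine opNorm_le_bound _ zero_le_one fun v => ?_
  have h := unitary_inner hu v v
  rw [inner_self_eq_norm_sq_to_K, inner_self_eq_norm_sq_to_K] at h
  have h2 : ‖u v‖ ^ 2 = ‖v‖ ^ 2 := by exact_mod_cast h
  rw [one_mul]
  exact ((sq_eq_sq₀ (norm_nonneg _) (norm_nonneg _)).1 h2).le

theorem main (X : Type) (φ : Op X →ₗ[ℂ] ℂ) (hφ : IsState φ) (us xs : Finset (Op X))
    (hus : ∀ u ∈ us, u ∈ unitary (Op X) ∧ ∀ T, φ (u * T * star u) = φ T) (ε : ℝ) (hε : 0 < ε) :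
    ∃ t : L2 (X × X), ‖t‖ = 1 ∧
      (∀ u ∈ us, ‖op2 u (cjOp u) t - t‖ ≤ ε) ∧
      ∀ x ∈ xs, ‖⟪t, opL X X x t⟫_ℂ - φ x‖ ≤ ε := by
  classical
  obtain ⟨ι, hι, ξ, hξ1, hξ2, hξ3⟩ := approx hφ us xs hus (δ := min ε (ε ^ 2)) (by positivity)
  obtain ⟨ζ, hζ1, hζ2⟩ := orthogonalise ξ
  set μ : ι → ℝ := fun i => ‖ζ i‖ with hμ
  set e : ι → L2 X := fun i => (((μ i)⁻¹ : ℝ) : ℂ) • ζ i with he
  have hμ0 : ∀ i, 0 ≤ μ i := fun i => norm_nonneg _
  have hζe : ∀ i, ζ i = ((μ i : ℝ) : ℂ) • e i := by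
    intro i
    by_cases h : μ i = 0
    · have : ζ i = 0 := norm_eq_zero.1 h
      rw [h, this]
      simp
    · rw [he]
      show ζ i = ((μ i : ℝ) : ℂ) • ((((μ i)⁻¹ : ℝ) : ℂ) • ζ i)
      rw [smul_smul, ← Complex.ofReal_mul, mul_inv_cancel₀ h, Complex.ofReal_one, one_smul]
  have he1 : ∀ j, μ j * ‖e j‖ ^ 2 = μ j := by
    intro j
    by_cases h : μ j = 0
    · rw [h, zero_mul]
    · rw [he]
      show μ j * ‖(((μ j)⁻¹ : ℝ) : ℂ) • ζ j‖ ^ 2 = μ j
      rw [norm_smul, Complex.norm_real, Real.norm_of_nonneg (inv_nonneg.2 (hμ0 j))]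
      show μ j * ((μ j)⁻¹ * μ j) ^ 2 = μ j
      rw [inv_mul_cancel₀ h]
      ring
  have heo : ∀ i j, i ≠ j → ⟪e i, e j⟫_ℂ = 0 := by
    intro i j hij
    show ⟪(((μ i)⁻¹ : ℝ) : ℂ) • ζ i, (((μ j)⁻¹ : ℝ) : ℂ) • ζ j⟫_ℂ = 0
    rw [inner_smul_left, inner_smul_right, hζ1 i j hij]
    ring
  clear_value e
  clear_value μ
  have hμe : ∀ j, ((μ j : ℝ) : ℂ) * ⟪e j, e j⟫_ℂ = ((μ j : ℝ) : ℂ) := by
    intro j
    rw [inner_self_eq_norm_sq_to_K]
    show ((μ j : ℝ) : ℂ) * ((‖e j‖ : ℝ) : ℂ) ^ 2 = ((μ j : ℝ) : ℂ)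
    rw [← Complex.ofReal_pow, ← Complex.ofReal_mul, he1 j]
  have hsum : ∑ i, μ i ^ 2 = 1 := by
    have h1 := hζ2 1 1
    simp only [one_apply_eq_self] at h1
    rw [← hξ1]
    have h2 : ∀ v : L2 X, ⟪v, v⟫_ℂ = ((‖v‖ ^ 2 : ℝ) : ℂ) := by
      intro v
      rw [inner_self_eq_norm_sq_to_K]
      push_cast
      rfl
    simp only [h2] at h1
    have h4 : ∑ i, ‖ζ i‖ ^ 2 = ∑ i, ‖ξ i‖ ^ 2 := by exact_mod_cast h1
    rw [← h4, hμ]
  set t : L2 (X × X) := ∑ i, tens (ζ i) (cj (e i)) with ht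
  have hin : ∀ A B : Op X, ⟪t, op2 A (cjOp B) t⟫_ℂ =
      ∑ j, ∑ i, ⟪ζ i, A (ζ j)⟫_ℂ * ⟪B (e j), e i⟫_ℂ := by
    intro A B
    rw [ht, map_sum, inner_sum]
    apply Finset.sum_congr rfl
    intro j _
    rw [sum_inner]
    apply Finset.sum_congr rfl
    intro i _
    rw [op2_tens, inner_tens, cjOp_apply, cj_cj, inner_cj_cj]
  have hx : ∀ x : Op X, ⟪t, opL X X x t⟫_ℂ = ∑ i, ⟪ξ i, x (ξ i)⟫_ℂ := by
    intro x
    have h1 := hin x 1
    rw [cjOp_one] at h1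
    have h2 : ⟪t, opL X X x t⟫_ℂ = ⟪t, op2 x 1 t⟫_ℂ := rfl
    rw [h2, h1]
    have h3 := hζ2 1 x
    simp only [one_apply_eq_self] at h3
    rw [← h3]
    apply Finset.sum_congr rfl
    intro j _
    rw [Finset.sum_eq_single j]
    · rw [one_apply_eq_self]
      conv_lhs => rw [hζe j, inner_smul_left, Complex.conj_ofReal]
      conv_rhs => rw [hζe j, inner_smul_left, Complex.conj_ofReal]
      rw [mul_right_comm, hμe]
    · intro i _ hij
      rw [one_apply_eq_self, heo j i (Ne.symm hij), mul_zero]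
    · intro h
      exact absurd (Finset.mem_univ j) h
  have htn : ‖t‖ = 1 := by
    have h1 := hx 1
    rw [map_one] at h1
    simp only [one_apply_eq_self] at h1
    have h2 : ∀ {Z : Type} (v : L2 Z), ⟪v, v⟫_ℂ = ((‖v‖ ^ 2 : ℝ) : ℂ) := by
      intro Z v
      rw [inner_self_eq_norm_sq_to_K]
      push_cast
      rfl
    rw [h2] at h1
    simp only [h2] at h1
    have h3 : ‖t‖ ^ 2 = 1 := by
      rw [← hξ1]
      exact_mod_cast h1
    nlinarith [norm_nonneg t]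
  refine ⟨t, htn, ?_, ?_⟩
  · intro u hu
    obtain ⟨hu1, -⟩ := hus u hu
    have hfo : ∀ i j, i ≠ j → ⟪u (e i), u (e j)⟫_ℂ = 0 := by
      intro i j hij
      rw [unitary_inner hu1, heo i j hij]
    have hf1 : ∀ j, μ j * ‖u (e j)‖ ^ 2 = μ j := by
      intro j
      have h1 := unitary_inner hu1 (e j) (e j)
      rw [inner_self_eq_norm_sq_to_K, inner_self_eq_norm_sq_to_K] at h1
      have h2 : ‖u (e j)‖ ^ 2 = ‖e j‖ ^ 2 := by exact_mod_cast h1
      rw [h2, he1]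
    have key := powersStormer μ hμ0 e (fun i => u (e i)) (rk_eig μ e heo he1)
      (rk_eig μ (fun i => u (e i)) hfo hf1) he1 hf1 (η := min ε (ε ^ 2)) (by
        intro s _ hs1
        have h1 := hξ2 u hu s
        have h2 := hζ2 u (s * u)
        have h3 := hζ2 1 s
        have a1 : ∀ v : L2 X, (s * u) v = s (u v) := fun v => rfl
        simp only [a1] at h2
        simp only [one_apply_eq_self] at h3
        have a2 : ∑ j, ((μ j ^ 2 : ℝ) : ℂ) * ⟪u (e j), s (u (e j))⟫_ℂ =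
            ∑ i, ⟪u (ζ i), s (u (ζ i))⟫_ℂ := by
          apply Finset.sum_congr rfl
          intro i _
          conv_rhs => rw [hζe i]
          rw [map_smul, map_smul, inner_smul_left, inner_smul_right, Complex.conj_ofReal]
          push_cast
          ring
        have a3 : ∑ j, ((μ j ^ 2 : ℝ) : ℂ) * ⟪e j, s (e j)⟫_ℂ = ∑ i, ⟪ζ i, s (ζ i)⟫_ℂ := by
          apply Finset.sum_congr rfl
          intro i _
          conv_rhs => rw [hζe i]
          rw [map_smul, inner_smul_left, inner_smul_right, Complex.conj_ofReal]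
          push_cast
          ring
        rw [a2, a3, h2, h3, ← Complex.sub_re]
        refine (Complex.re_le_norm _).trans (h1.trans ?_)
        have : 0 ≤ min ε (ε ^ 2) := by positivity
        calc min ε (ε ^ 2) * ‖s‖ ≤ min ε (ε ^ 2) * 1 := by gcongr
          _ = min ε (ε ^ 2) := mul_one _)
    rw [hsum] at key
    have h1 : ⟪t, op2 u (cjOp u) t⟫_ℂ =
        ∑ j, ((μ j : ℝ) : ℂ) * ⟪u (e j), rk μ e (u (e j))⟫_ℂ := by
      rw [hin]
      apply Finset.sum_congr rfl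
      intro j _
      rw [rk_apply, inner_sum, Finset.mul_sum]
      apply Finset.sum_congr rfl
      intro i _
      rw [inner_smul_right, inner_smul_right]
      conv_lhs => rw [hζe i, hζe j, map_smul, inner_smul_left, inner_smul_right,
        Complex.conj_ofReal]
      ring
    have h2 : ‖op2 u (cjOp u) t‖ ≤ 1 := by
      calc ‖op2 u (cjOp u) t‖ ≤ ‖op2 u (cjOp u)‖ * ‖t‖ := le_opNorm _ _
        _ ≤ (‖u‖ * ‖cjOp u‖) * ‖t‖ := by gcongr; exact norm_op2_le _ _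
        _ ≤ (1 * 1) * 1 := by
          rw [norm_cjOp, htn]
          have := unitary_norm hu1
          gcongr
        _ = 1 := by ring
    have h3 : ‖op2 u (cjOp u) t - t‖ ^ 2 ≤ ε ^ 2 := by
      rw [@norm_sub_sq ℂ, htn]
      have h4 : RCLike.re ⟪op2 u (cjOp u) t, t⟫_ℂ =
          (∑ j, ((μ j : ℝ) : ℂ) * ⟪u (e j), rk μ e (u (e j))⟫_ℂ).re := by
        rw [← h1]
        exact inner_re_symm (𝕜 := ℂ) _ _
      rw [h4]
      have h5 : ‖op2 u (cjOp u) t‖ ^ 2 ≤ 1 := by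
        have := norm_nonneg (op2 u (cjOp u) t)
        nlinarith
      have h6 : min ε (ε ^ 2) ≤ ε ^ 2 := min_le_right _ _
      linarith
    exact le_of_sq_le_sq h3 hε.le
  · intro x hxs
    rw [hx]
    exact (hξ3 x hxs).trans (min_le_left _ _)

end

end MP7e.SD

/-- module SD -/
theorem MP7e.specSD : MP7e.SpecSD := fun X φ hφ us xs hus ε hε =>
  MP7e.SD.main X φ hφ us xs hus ε hε
end
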