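import Pool.Agent.Lib.MP_7e9852_an.UltraDefs

/-!
From representing sequences to the ultrapower.
-/

namespace MP7e

open scoped InnerProductSpace
open Filter Topology

noncomputable section

/-- a `*`-homomorphism as a map of the elements -/
def mkHom (N M : TVN) (ι : N.vna.El →⋆ₐ[ℂ] M.vna.El) (x : N.El) : M.El := ι x

theorem isEmbedding_mkHom (N M : TVN) (ι : N.vna.El →⋆ₐ[ℂ] M.vna.El)
    (hι : ∀ x : N.vna.El, M.vna.τ (ι x : M.K →L[ℂ] M.K) = N.vna.τ (x : N.K →L[ℂ] N.K)) :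
    IsEmbedding N M (mkHom N M ι) :=
  ⟨⟨map_one ι, map_add ι, map_mul ι, map_smul ι, map_star ι⟩, hι⟩

theorem isExistential_of_lift (N M : TVN) (ι : N.vna.El →⋆ₐ[ℂ] M.vna.El)
    (U : Ultrafilter ℕ) (h : ExistentialLift N.vna M.vna ι U) :
    IsExistential (mkHom N M ι) U := by
  obtain ⟨θ, hb, hadd, hmul, hsmul, hstar, htr, hθι⟩ := h
  let Θ : M.El → N.BddSeq := fun z => ⟨θ z, hb z⟩
  have hι' : ∀ x : N.El, TVN.cls U (Θ (mkHom N M ι x)) = N.diag U x := fun x =>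
    TVN.cls_eq (hθι x)
  have h1 : TVN.cls U (Θ 1) = 1 := by
    have h2 : mkHom N M ι 1 = 1 := map_one ι
    have h := hι' 1
    rw [h2] at h
    exact h
  exact ⟨fun z => TVN.cls U (Θ z), ⟨⟨h1, fun z w => TVN.cls_eq (hadd z w),
    fun z w => TVN.cls_eq (hmul z w), fun c z => TVN.cls_eq (hsmul c z),
    fun z => TVN.cls_eq (hstar z)⟩, fun z => TVN.tr_cls (Θ z) (htr z)⟩, hι'⟩

end

end MP7e
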