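import Pool.Agent.Lib.MP_7e9852_an.Spec

/-!
Module W1: the diagonal functional of a multiplier is bounded on `C*(L(Γ) ⊗ Q̄)`, `Q` amenable.
-/

namespace MP7e

open scoped InnerProductSpace TensorProduct ENNReal
open Filter Topology Classical

noncomputable section

namespace W1

/-! ### von Neumann algebras -/

section VNA

variable {K : Type*} [NormedAddCommGroup K] [InnerProductSpace ℂ K] [CompleteSpace K]

theorem vna_closed (Q : VonNeumannAlgebra K) :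
    IsClosed (Q.toStarSubalgebra : Set (K →L[ℂ] K)) := by
  have h : (Q.toStarSubalgebra : Set (K →L[ℂ] K)) =
      Set.centralizer (Set.centralizer (Q.toStarSubalgebra : Set (K →L[ℂ] K))) :=
    Q.centralizer_centralizer'.symm
  rw [h]
  exact Set.isClosed_centralizer _

/-- an element of a von Neumann algebra is a combination of four unitaries of the algebra -/
theorem vna_unitaries (Q : VonNeumannAlgebra K) {b : K →L[ℂ] K} (hb : b ∈ Q) :
    ∃ (u : Fin 4 → K →L[ℂ] K) (c : Fin 4 → ℂ),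
      (∀ i, u i ∈ Q ∧ u i ∈ unitary (K →L[ℂ] K)) ∧ b = ∑ i, c i • u i := by
  have hcl : IsClosed (Q.toStarSubalgebra : Set (K →L[ℂ] K)) := vna_closed Q
  let _ : CStarAlgebra Q.toStarSubalgebra := StarSubalgebra.cstarAlgebra _ (h_closed := hcl)
  obtain ⟨u, c, h, _⟩ := CStarAlgebra.exists_sum_four_unitary
    (⟨b, hb⟩ : Q.toStarSubalgebra)
  refine ⟨fun i => ((u i : Q.toStarSubalgebra) : K →L[ℂ] K), c, fun i => ⟨?_, ?_⟩, ?_⟩
  · exact (u i : Q.toStarSubalgebra).2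
  · have h1 := (u i).2
    rw [Unitary.mem_iff] at h1 ⊢
    exact ⟨congrArg Subtype.val h1.1, congrArg Subtype.val h1.2⟩
  · have h1 := congrArg (fun x : Q.toStarSubalgebra => (x : K →L[ℂ] K)) h
    simpa using h1

end VNA

/-! ### the multiplier on operators -/

variable {Γ : Type} [Group Γ]

/-- the multiplier applied to an element of `L(Γ)` -/
def mx (m : Multiplier Γ) (x : Op Γ) : Op Γ :=
  ∑ g ∈ m.supp, ((m.φ g : ℂ) * (x (dl 1) : Γ → ℂ) g) • lam g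

theorem mx_mem (m : Multiplier Γ) (x : Op Γ) : mx m x ∈ LG Γ := by
  refine sum_mem fun g _ => ?_
  exact (LG Γ).toStarSubalgebra.toSubalgebra.smul_mem (lam_mem g) _

theorem sum_op_apply {X : Type*} {ι : Type*} (s : Finset ι) (T : ι → Op X) (f : L2 X) :
    (∑ i ∈ s, T i) f = ∑ i ∈ s, T i f := by
  exact sum_apply s T f

theorem sum_coe_apply {X : Type*} {ι : Type*} (s : Finset ι) (f : ι → L2 X) (x : X) :
    ((∑ i ∈ s, f i : L2 X) : X → ℂ) x = ∑ i ∈ s, (f i : X → ℂ) x := by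
  induction s using Finset.induction_on with
  | empty => simp
  | insert a s ha ih =>
    rw [Finset.sum_insert ha, Finset.sum_insert ha, lp.coeFn_add, Pi.add_apply, ih]

theorem smul_coe_apply {X : Type*} (c : ℂ) (f : L2 X) (x : X) :
    ((c • f : L2 X) : X → ℂ) x = c * (f : X → ℂ) x := by
  rw [lp.coeFn_smul, Pi.smul_apply, smul_eq_mul]

theorem mx_coeff (m : Multiplier Γ) (x : Op Γ) (a a' : Γ) :
    (mx m x (dl a) : Γ → ℂ) a' =
      (m.φ (a' * a⁻¹) : ℂ) * (x (dl 1) : Γ → ℂ) (a' * a⁻¹) := by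
  unfold mx
  rw [sum_op_apply, sum_coe_apply]
  have h : ∀ g ∈ m.supp, ((((m.φ g : ℂ) * (x (dl 1) : Γ → ℂ) g) • lam g) (dl a) : Γ → ℂ) a' =
      if g = a' * a⁻¹ then (m.φ g : ℂ) * (x (dl 1) : Γ → ℂ) g else 0 := by
    intro g _
    rw [smul_apply, smul_coe_apply, lam_dl, dl_apply]
    by_cases hg : g = a' * a⁻¹
    · have : a' = g * a := by rw [hg]; group
      rw [if_pos this, if_pos hg, mul_one]
    · have : ¬ a' = g * a := fun h' => hg (by rw [h']; group)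
      rw [if_neg this, if_neg hg, mul_zero]
  rw [Finset.sum_congr rfl h, Finset.sum_ite_eq']
  by_cases hs : a' * a⁻¹ ∈ m.supp
  · rw [if_pos hs]
  · rw [if_neg hs, m.hsupp _ hs]
    simp

/-- the vector functions of the Schur multiplier -/
def al (m : Multiplier Γ) : Γ × Γ → L2 m.Y := fun p => m.α p.1⁻¹

def be (m : Multiplier Γ) : Γ × Γ → L2 m.Y := fun p => m.β p.1⁻¹

theorem hal (m : Multiplier Γ) : BddBy (al m) m.C := ⟨m.hα.1, fun _ => m.hα.2 _⟩

theorem hbe (m : Multiplier Γ) : BddBy (be m) m.C := ⟨m.hβ.1, fun _ => m.hβ.2 _⟩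

/-- the multiplier on the first leg -/
def mL (m : Multiplier Γ) (T : Op (Γ × Γ)) : Op (Γ × Γ) := schur (al m) (be m) (hal m) (hbe m) T

theorem mL_add (m : Multiplier Γ) (S T : Op (Γ × Γ)) : mL m (S + T) = mL m S + mL m T :=
  schur_add _ _ _ _ _ _

theorem mL_smul (m : Multiplier Γ) (c : ℂ) (T : Op (Γ × Γ)) : mL m (c • T) = c • mL m T :=
  schur_smul _ _ _ _ _ _

theorem norm_mL (m : Multiplier Γ) (T : Op (Γ × Γ)) : ‖mL m T‖ ≤ m.C ^ 2 * ‖T‖ := by
  have := norm_schur_le (al m) (be m) (hal m) (hbe m) T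
  rw [sq]
  exact this

theorem mL_op2 (m : Multiplier Γ) {x : Op Γ} (hx : x ∈ LG Γ) (S : Op Γ) :
    mL m (op2 x S) = op2 (mx m x) S := by
  apply op_ext
  rintro ⟨a, b⟩ ⟨a', b'⟩
  unfold mL
  rw [schur_coeff, dl_prod, op2_tens, op2_tens, tens_apply, tens_apply, mx_coeff, LG_coeff hx]
  show ⟪m.β a'⁻¹, m.α a⁻¹⟫_ℂ * _ = _
  rw [m.fact, inv_inv]
  ring

/-! ### the diagonal functional -/

theorem Dm_add (m : Multiplier Γ) (S T : Op (Γ × Γ)) : Dm m (S + T) = Dm m S + Dm m T := by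
  unfold Dm
  rw [← Finset.sum_add_distrib]
  refine Finset.sum_congr rfl fun g _ => ?_
  rw [add_apply, lp.coeFn_add, Pi.add_apply]
  ring

theorem Dm_smul (m : Multiplier Γ) (c : ℂ) (T : Op (Γ × Γ)) : Dm m (c • T) = c * Dm m T := by
  unfold Dm
  rw [Finset.mul_sum]
  refine Finset.sum_congr rfl fun g _ => ?_
  rw [smul_apply, smul_coe_apply]
  ring

theorem Dm_cont (m : Multiplier Γ) : Continuous (Dm m) := by
  unfold Dm
  refine continuous_finsetSum _ fun g _ => ?_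
  refine continuous_const.mul ?_
  have h : (fun z : Op (Γ × Γ) => (z (dl (1, 1)) : Γ × Γ → ℂ) (g, g)) =
      fun z : Op (Γ × Γ) => ⟪dl (g, g), z (dl (1, 1))⟫_ℂ := by
    funext z
    rw [inner_dl_left]
  rw [h]
  exact continuous_const.inner
    ((ContinuousLinearMap.apply ℂ (L2 (Γ × Γ)) (dl (1, 1))).continuous)

theorem tr_lam_mul {b : Op Γ} (hb : b ∈ LG Γ) (g : Γ) :
    tr (lam g * star b) = star ((b (dl 1) : Γ → ℂ) g) := by
  unfold tr
  rw [mulA, lam_apply, mul_one, LG_star_coeff hb, inv_inv]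

theorem tr_sum {ι : Type*} (s : Finset ι) (T : ι → Op Γ) :
    tr (∑ i ∈ s, T i) = ∑ i ∈ s, tr (T i) := by
  unfold tr
  rw [sum_op_apply, sum_coe_apply]

theorem Dm_op2 (m : Multiplier Γ) (x : Op Γ) {b : Op Γ} (hb : b ∈ LG Γ) :
    Dm m (op2 x (cjOp b)) = tr (mx m x * star b) := by
  unfold Dm mx
  rw [Finset.sum_mul, tr_sum]
  refine Finset.sum_congr rfl fun g _ => ?_
  rw [smul_mul_assoc, tr_smul, tr_lam_mul hb, dl_prod, op2_tens, tens_apply, cjOp_apply,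
    cj_apply, cj_dl]
  ring

/-! ### the estimate on the span -/

/-- on almost central vectors `⟪t, mL z t⟫` is close to `Dm m z` -/
def Est (m : Multiplier Γ) (Q : VonNeumannAlgebra (L2 Γ)) (z : Op (Γ × Γ)) : Prop :=
  ∃ (us xs : Finset (Op Γ)) (k : ℝ), 0 ≤ k ∧ (∀ u ∈ us, u ∈ Q ∧ u ∈ unitary (Op Γ)) ∧
    (∀ x ∈ xs, x ∈ LG Γ) ∧
    ∀ (t : L2 (Γ × Γ)) (ε : ℝ), 0 < ε → ‖t‖ = 1 → (∀ u ∈ us, ‖op2 u (cjOp u) t - t‖ ≤ ε) →
      (∀ x ∈ xs, ‖⟪t, opL Γ Γ x t⟫_ℂ - tr x‖ ≤ ε) → ‖⟪t, mL m z t⟫_ℂ - Dm m z‖ ≤ k * ε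

theorem mL_zero (m : Multiplier Γ) : mL m 0 = 0 := by
  have := mL_smul m 0 0
  simpa using this

theorem Dm_zero (m : Multiplier Γ) : Dm m 0 = 0 := by
  have := Dm_smul m 0 0
  simpa using this

theorem Est.zero (m : Multiplier Γ) (Q : VonNeumannAlgebra (L2 Γ)) : Est m Q 0 := by
  refine ⟨∅, ∅, 0, le_rfl, by simp, by simp, ?_⟩
  intro t ε _ _ _ _
  rw [mL_zero, Dm_zero]
  simp

theorem Est.add {m : Multiplier Γ} {Q : VonNeumannAlgebra (L2 Γ)} {z w : Op (Γ × Γ)}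
    (hz : Est m Q z) (hw : Est m Q w) : Est m Q (z + w) := by
  obtain ⟨us, xs, k, hk, hu, hx, h⟩ := hz
  obtain ⟨us', xs', k', hk', hu', hx', h'⟩ := hw
  refine ⟨us ∪ us', xs ∪ xs', k + k', add_nonneg hk hk', ?_, ?_, ?_⟩
  · intro u hu1
    rcases Finset.mem_union.1 hu1 with h1 | h1
    · exact hu u h1
    · exact hu' u h1
  · intro x hx1
    rcases Finset.mem_union.1 hx1 with h1 | h1
    · exact hx x h1
    · exact hx' x h1
  · intro t ε hε ht h1 h2
    have e1 := h t ε hε ht (fun u hu => h1 u (Finset.mem_union_left _ hu))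
      (fun x hx => h2 x (Finset.mem_union_left _ hx))
    have e2 := h' t ε hε ht (fun u hu => h1 u (Finset.mem_union_right _ hu))
      (fun x hx => h2 x (Finset.mem_union_right _ hx))
    rw [mL_add, Dm_add, add_apply, inner_add_right]
    calc ‖⟪t, mL m z t⟫_ℂ + ⟪t, mL m w t⟫_ℂ - (Dm m z + Dm m w)‖
        = ‖(⟪t, mL m z t⟫_ℂ - Dm m z) + (⟪t, mL m w t⟫_ℂ - Dm m w)‖ := by
          congr 1; ring
      _ ≤ k * ε + k' * ε := (norm_add_le _ _).trans (add_le_add e1 e2)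
      _ = (k + k') * ε := by ring

theorem Est.smul {m : Multiplier Γ} {Q : VonNeumannAlgebra (L2 Γ)} {z : Op (Γ × Γ)} (c : ℂ)
    (hz : Est m Q z) : Est m Q (c • z) := by
  obtain ⟨us, xs, k, hk, hu, hx, h⟩ := hz
  refine ⟨us, xs, ‖c‖ * k, mul_nonneg (norm_nonneg _) hk, hu, hx, ?_⟩
  intro t ε hε ht h1 h2
  have e1 := h t ε hε ht h1 h2
  rw [mL_smul, Dm_smul, smul_apply, inner_smul_right, ← mul_sub, norm_mul, mul_assoc]
  exact mul_le_mul_of_nonneg_left e1 (norm_nonneg _)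

/-- the generators -/
def Gen (Q : VonNeumannAlgebra (L2 Γ)) : Set (Op (Γ × Γ)) :=
  {T | ∃ x ∈ LG Γ, ∃ u ∈ Q, u ∈ unitary (Op Γ) ∧ T = op2 x (cjOp u)}

theorem Est.gen (m : Multiplier Γ) {Q : VonNeumannAlgebra (L2 Γ)} (hQ : Q ≤ LG Γ) {x u : Op Γ}
    (hx : x ∈ LG Γ) (hu : u ∈ Q) (huu : u ∈ unitary (Op Γ)) : Est m Q (op2 x (cjOp u)) := by
  have huL : u ∈ LG Γ := hQ hu
  set y := mx m x with hy
  have hyL : y ∈ LG Γ := mx_mem m x
  refine ⟨{u}, {y * star u}, ‖y * star u‖ + 1, by positivity, ?_, ?_, ?_⟩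
  · intro v hv
    rw [Finset.mem_singleton.1 hv]
    exact ⟨hu, huu⟩
  · intro v hv
    rw [Finset.mem_singleton.1 hv]
    exact mul_mem hyL (star_mem huL)
  · intro t ε hε ht h1 h2
    have e1 := h1 u (Finset.mem_singleton_self _)
    have e2 := h2 _ (Finset.mem_singleton_self _)
    have e3 : op2 y (cjOp u) = opL Γ Γ (y * star u) * op2 u (cjOp u) := by
      show _ = op2 (y * star u) 1 * op2 u (cjOp u)
      rw [← op2_mul, mul_assoc, (Unitary.mem_iff.1 huu).1, mul_one, one_mul]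
    rw [mL_op2 m hx, Dm_op2 m x huL, ← hy, e3, mulA]
    have e4 : ⟪t, opL Γ Γ (y * star u) (op2 u (cjOp u) t)⟫_ℂ - tr (y * star u) =
        ⟪t, opL Γ Γ (y * star u) (op2 u (cjOp u) t - t)⟫_ℂ +
          (⟪t, opL Γ Γ (y * star u) t⟫_ℂ - tr (y * star u)) := by
      rw [map_sub, inner_sub_right]
      ring
    rw [e4]
    have e5 : ‖⟪t, opL Γ Γ (y * star u) (op2 u (cjOp u) t - t)⟫_ℂ‖ ≤ ‖y * star u‖ * ε := by
      calc _ ≤ ‖t‖ * ‖opL Γ Γ (y * star u) (op2 u (cjOp u) t - t)‖ := norm_inner_le_norm _ _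
        _ ≤ 1 * (‖opL Γ Γ (y * star u)‖ * ‖op2 u (cjOp u) t - t‖) := by
            rw [ht]
            gcongr
            exact ContinuousLinearMap.le_opNorm _ _
        _ ≤ 1 * (‖y * star u‖ * ε) := by
            have := norm_opL_le (X := Γ) (Y := Γ) (y * star u)
            gcongr
        _ = _ := one_mul _
    calc _ ≤ ‖y * star u‖ * ε + ε := (norm_add_le _ _).trans (add_le_add e5 e2)
      _ = _ := by ring

theorem Est.span (m : Multiplier Γ) {Q : VonNeumannAlgebra (L2 Γ)} (hQ : Q ≤ LG Γ)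
    {z : Op (Γ × Γ)} (hz : z ∈ Submodule.span ℂ (Gen Q)) : Est m Q z := by
  induction hz using Submodule.span_induction with
  | mem z hz =>
    obtain ⟨x, hx, u, hu, huu, rfl⟩ := hz
    exact Est.gen m hQ hx hu huu
  | zero => exact Est.zero m Q
  | add z w _ _ hz hw => exact hz.add hw
  | smul c z _ hz => exact hz.smul c

theorem Est.bound (hSD : SpecSD) {m : Multiplier Γ} {Q : VonNeumannAlgebra (L2 Γ)}
    (hA : Amenable (LGt Γ) Q) {z : Op (Γ × Γ)} (hz : Est m Q z) :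
    ‖Dm m z‖ ≤ m.C ^ 2 * ‖z‖ := by
  obtain ⟨us, xs, k, hk, hu, hx, h⟩ := hz
  obtain ⟨φ, hφ, hφτ, hφc⟩ := hA
  refine le_of_forall_pos_le_add fun δ hδ => ?_
  set ε := δ / (k + 1) with hε
  have hε0 : 0 < ε := by positivity
  obtain ⟨t, ht, h1, h2⟩ := hSD Γ φ hφ us xs (fun u huu => by
    obtain ⟨hq, hun⟩ := hu u huu
    refine ⟨hun, fun T => ?_⟩
    rw [mul_assoc, hφc u hq, mul_assoc, (Unitary.mem_iff.1 hun).1, mul_one]) ε hε0
  have e1 := h t ε hε0 ht h1 (fun x hxx => by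
    rw [← LGt_τ, ← hφτ x (hx x hxx)]
    exact h2 x hxx)
  have e2 : ‖⟪t, mL m z t⟫_ℂ‖ ≤ m.C ^ 2 * ‖z‖ := by
    calc _ ≤ ‖t‖ * ‖mL m z t‖ := norm_inner_le_norm _ _
      _ ≤ 1 * (‖mL m z‖ * ‖t‖) := by
          rw [ht]
          gcongr
          have := (mL m z).le_opNorm t
          rwa [ht] at this
      _ = ‖mL m z‖ := by rw [ht]; ring
      _ ≤ _ := norm_mL m z
  have e3 : k * ε ≤ δ := by
    rw [hε, mul_div_assoc', div_le_iff₀ (by positivity)]
    nlinarith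
  calc ‖Dm m z‖ = ‖⟪t, mL m z t⟫_ℂ - (⟪t, mL m z t⟫_ℂ - Dm m z)‖ := by congr 1; ring
    _ ≤ ‖⟪t, mL m z t⟫_ℂ‖ + ‖⟪t, mL m z t⟫_ℂ - Dm m z‖ := norm_sub_le _ _
    _ ≤ m.C ^ 2 * ‖z‖ + k * ε := add_le_add e2 e1
    _ ≤ _ := by gcongr

/-! ### the generated algebra -/

theorem op2_sum_right {ι : Type*} (s : Finset ι) (T : Op Γ) (S : ι → Op Γ) :
    op2 T (∑ i ∈ s, S i) = ∑ i ∈ s, op2 T (S i) := by
  induction s using Finset.induction_on with
  | empty =>
    have := op2_smul_right (0 : ℂ) T (0 : Op Γ)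
    simpa using this
  | insert a s ha ih => rw [Finset.sum_insert ha, Finset.sum_insert ha, op2_add_right, ih]

theorem gen_span {Q : VonNeumannAlgebra (L2 Γ)} {x b : Op Γ} (hx : x ∈ LG Γ) (hb : b ∈ Q) :
    op2 x (cjOp b) ∈ Submodule.span ℂ (Gen Q) := by
  obtain ⟨u, c, hu, rfl⟩ := vna_unitaries Q hb
  rw [cjOp_sum, op2_sum_right]
  refine Submodule.sum_mem _ fun i _ => ?_
  rw [cjOp_smul, op2_smul_right]
  exact Submodule.smul_mem _ _ (Submodule.subset_span ⟨x, hx, u i, (hu i).1, (hu i).2, rfl⟩)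

theorem gen_mul {Q : VonNeumannAlgebra (L2 Γ)} {z w : Op (Γ × Γ)}
    (hz : z ∈ Submodule.span ℂ (Gen Q)) (hw : w ∈ Submodule.span ℂ (Gen Q)) :
    z * w ∈ Submodule.span ℂ (Gen Q) := by
  have h := Submodule.mul_mem_mul hz hw
  rw [Submodule.span_mul_span] at h
  refine Submodule.span_mono ?_ h
  rintro _ ⟨_, ⟨x, hx, u, hu, huu, rfl⟩, _, ⟨y, hy, v, hv, hvv, rfl⟩, rfl⟩
  refine ⟨x * y, mul_mem hx hy, u * v, mul_mem hu hv, mul_mem huu hvv, ?_⟩
  show op2 x (cjOp u) * op2 y (cjOp v) = _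
  rw [← op2_mul, cjOp_mul]

theorem gen_star {Q : VonNeumannAlgebra (L2 Γ)} {z : Op (Γ × Γ)}
    (hz : z ∈ Submodule.span ℂ (Gen Q)) : star z ∈ Submodule.span ℂ (Gen Q) := by
  induction hz using Submodule.span_induction with
  | mem z hz =>
    obtain ⟨x, hx, u, hu, huu, rfl⟩ := hz
    rw [op2_star, ← cjOp_star]
    exact Submodule.subset_span ⟨star x, star_mem hx, star u, star_mem hu, Unitary.star_mem huu,
      rfl⟩
  | zero => rw [star_zero]; exact Submodule.zero_mem _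
  | add z w _ _ hz hw => rw [star_add]; exact Submodule.add_mem _ hz hw
  | smul c z _ hz => rw [star_smul]; exact Submodule.smul_mem _ _ hz

theorem gen_one (Q : VonNeumannAlgebra (L2 Γ)) :
    (1 : Op (Γ × Γ)) ∈ Submodule.span ℂ (Gen Q) := by
  refine Submodule.subset_span ⟨1, one_mem _, 1, one_mem _, one_mem _, ?_⟩
  rw [cjOp_one, op2_one]

theorem adjoin_span (Q : VonNeumannAlgebra (L2 Γ)) {z : Op (Γ × Γ)}
    (hz : z ∈ StarAlgebra.adjoin ℂ
      {T : Op (Γ × Γ) | ∃ x ∈ LG Γ, ∃ b ∈ Q, T = op2 x (cjOp b)}) :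
    z ∈ Submodule.span ℂ (Gen Q) := by
  induction hz using StarAlgebra.adjoin_induction with
  | mem z hz =>
    obtain ⟨x, hx, b, hb, rfl⟩ := hz
    exact gen_span hx hb
  | algebraMap c =>
    rw [Algebra.algebraMap_eq_smul_one]
    exact Submodule.smul_mem _ _ (gen_one Q)
  | add z w _ _ hz hw => exact Submodule.add_mem _ hz hw
  | mul z w _ _ hz hw => exact gen_mul hz hw
  | star z _ hz => exact gen_star hz

end W1

/-- module W1 -/
theorem specW1 (hSD : SpecSD) : SpecW1 := by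
  intro Γ _ m Q hQ hA z hz
  have hcl : IsClosed {z : Op (Γ × Γ) | ‖Dm m z‖ ≤ m.C ^ 2 * ‖z‖} :=
    isClosed_le (W1.Dm_cont m).norm (continuous_const.mul continuous_norm)
  have hz' : z ∈ closure ((StarAlgebra.adjoin ℂ
      {T : Op (Γ × Γ) | ∃ x ∈ LG Γ, ∃ b ∈ Q, T = op2 x (cjOp b)} :
        StarSubalgebra ℂ (Op (Γ × Γ))) : Set (Op (Γ × Γ))) := hz
  refine (hcl.closure_subset_iff.2 ?_) hz'
  intro w hw
  exact (W1.Est.span m hQ (W1.adjoin_span Q hw)).bound hSD hA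

end

end MP7e
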