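import Pool.Agent.Lib.MP_7e9852_an.Spec2

section
/-!
M3: the two-leg multiplier on elementary tensors.
-/
namespace MP7e

open scoped InnerProductSpace TensorProduct ENNReal
open Filter Topology Classical

noncomputable section

namespace M3

variable {Γ : Type} [Group Γ]

/-- coefficients of an elementary tensor of operators -/
theorem op2_coeff {X Y X' Y' : Type*} (T : L2 X →L[ℂ] L2 X') (S : L2 Y →L[ℂ] L2 Y')
    (x : X) (y : Y) (p : X' × Y') :
    (op2 T S (dl (x, y)) : X' × Y' → ℂ) p =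
      (T (dl x) : X' → ℂ) p.1 * (S (dl y) : Y' → ℂ) p.2 := by
  rw [dl_prod, op2_tens, tens_apply]

/-- coefficients of `mulBy` -/
theorem mulBy_coeff (m : Multiplier Γ) (x : Op Γ) (a a' : Γ) :
    (mulBy m x (dl a) : Γ → ℂ) a' =
      (m.φ (a' * a⁻¹) : ℂ) * (x (dl 1) : Γ → ℂ) (a' * a⁻¹) := by
  have h1 : mulBy m x (dl a) =
      ∑ g ∈ m.supp, ((m.φ g : ℂ) * (x (dl 1) : Γ → ℂ) g) • dl (g * a) := by
    unfold mulBy
    rw [sum_apply]
    refine Finset.sum_congr rfl fun g _ => ?_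
    rw [smul_apply, lam_dl]
  have h2 : (mulBy m x (dl a) : Γ → ℂ) a' = ⟪dl a', mulBy m x (dl a)⟫_ℂ :=
    (inner_dl_left _ _).symm
  rw [h2, h1, inner_sum]
  have h3 : ∀ g ∈ m.supp, ⟪(dl a' : L2 Γ), ((m.φ g : ℂ) * (x (dl 1) : Γ → ℂ) g) • dl (g * a)⟫_ℂ =
      if g = a' * a⁻¹ then (m.φ (a' * a⁻¹) : ℂ) * (x (dl 1) : Γ → ℂ) (a' * a⁻¹) else 0 := by
    intro g _
    rw [inner_smul_right, inner_dl_dl]
    by_cases hg : g = a' * a⁻¹
    · subst hg
      simp
    · have : ¬ a' = g * a := fun h => hg (by rw [h]; group)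
      rw [if_neg hg, if_neg this, mul_zero]
  rw [Finset.sum_congr rfl h3, Finset.sum_ite_eq']
  by_cases hm : a' * a⁻¹ ∈ m.supp
  · rw [if_pos hm]
  · rw [if_neg hm, m.hsupp _ hm]
    simp

theorem mulBy_coeff' (m : Multiplier Γ) {x : Op Γ} (hx : x ∈ LG Γ) (a a' : Γ) :
    (mulBy m x (dl a) : Γ → ℂ) a' =
      (m.φ (a' * a⁻¹) : ℂ) * (x (dl a) : Γ → ℂ) a' := by
  rw [mulBy_coeff, LG_coeff hx a a']

/-- coefficients of the right multiplication -/
theorem rgt_star_coeff (y : Op Γ) (b b' : Γ) :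
    (rgt (star y) (dl b) : Γ → ℂ) b' = star ((y (dl b⁻¹) : Γ → ℂ) b'⁻¹) := by
  unfold rgt
  rw [star_star, mulA, mulA, perm_dl, perm_apply]
  simp only [Equiv.inv_apply, Equiv.inv_symm]
  rw [cjOp_coeff]

theorem fact_inv (m : Multiplier Γ) (a a' : Γ) :
    ⟪m.β a'⁻¹, m.α a⁻¹⟫_ℂ = (m.φ (a' * a⁻¹) : ℂ) := by
  rw [m.fact, inv_inv]

theorem mulBy_eq_schur (m : Multiplier Γ) {x : Op Γ} (hx : x ∈ LG Γ) :
    mulBy m x = schur (fun a => m.α a⁻¹) (fun a => m.β a⁻¹) ⟨m.hα.1, fun _ => m.hα.2 _⟩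
      ⟨m.hβ.1, fun _ => m.hβ.2 _⟩ x := by
  refine op_ext fun a a' => ?_
  refine (mulBy_coeff' m hx a a').trans ?_
  refine Eq.trans ?_ (schur_coeff (fun a => m.α a⁻¹) (fun a => m.β a⁻¹) _ _ x a a').symm
  rw [fact_inv]

theorem mulBy_mem (m : Multiplier Γ) (x : Op Γ) : mulBy m x ∈ LG Γ := by
  unfold mulBy
  exact sum_mem fun g _ => smul_mem_LG _ (lam_mem g)

end M3

open M3 in
theorem specM3 : SpecM3 := by
  intro Γ _ m
  refine ⟨?_, ?_, mulBy_mem m⟩
  · intro x hx y hy S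
    apply op_ext
    rintro ⟨a, b, c⟩ ⟨a', b', c'⟩
    unfold m3
    rw [schur_coeff, op2_coeff, op2_coeff, op2_coeff, op2_coeff]
    unfold α3 β3
    rw [inner_tens]
    simp only
    rw [fact_inv, m.fact, mulBy_coeff' m hx, rgt_star_coeff, rgt_star_coeff,
      mulBy_coeff' m hy, inv_inv, star_mul', RCLike.star_def, Complex.conj_ofReal]
    ring
  · intro x hx
    rw [mulBy_eq_schur m hx]
    refine (norm_schur_le _ _ _ _ _).trans ?_
    rw [sq]

end

end MP7e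
end

section
/-!
MC: convergence of the multipliers in 2-norm (dominated convergence).
-/
namespace MP7e

open scoped InnerProductSpace TensorProduct ENNReal
open Filter Topology Classical

noncomputable section

namespace MC

variable {Γ : Type} [Group Γ]

theorem mulBy_coeff (m : Multiplier Γ) (x : Op Γ) (g : Γ) :
    ((mulBy m x) (dl 1) : Γ → ℂ) g = (m.φ g : ℂ) * (x (dl 1) : Γ → ℂ) g := by
  unfold mulBy
  rw [ContinuousLinearMap.sum_apply]
  have h1 : ∀ h ∈ m.supp, (((m.φ h : ℂ) * (x (dl 1) : Γ → ℂ) h) • (lam h : Op Γ)) (dl 1) =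
      ((m.φ h : ℂ) * (x (dl 1) : Γ → ℂ) h) • (dl h : L2 Γ) := by
    intro h _
    rw [ContinuousLinearMap.smul_apply, lam_dl, mul_one]
  rw [Finset.sum_congr rfl h1]
  have h2 : ((∑ h ∈ m.supp, ((m.φ h : ℂ) * (x (dl 1) : Γ → ℂ) h) • (dl h : L2 Γ) : L2 Γ) :
      Γ → ℂ) g = ∑ h ∈ m.supp, ((m.φ h : ℂ) * (x (dl 1) : Γ → ℂ) h) * (dl h : Γ → ℂ) g := by
    rw [lp.coeFn_sum, Finset.sum_apply]
    rfl
  rw [h2]
  simp only [dl_apply]
  rw [Finset.sum_congr rfl (fun h _ => by rw [mul_ite, mul_one, mul_zero]),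
    Finset.sum_ite_eq m.supp g]
  by_cases hg : g ∈ m.supp
  · rw [if_pos hg]
  · rw [if_neg hg, m.hsupp g hg]
    simp

theorem norm_phi_le (m : Multiplier Γ) (g : Γ) : |m.φ g| ≤ m.C ^ 2 := by
  have h := m.fact 1 g
  rw [inv_one, one_mul] at h
  have h2 : ‖⟪m.β 1, m.α g⟫_ℂ‖ = |m.φ g| := by
    rw [h, Complex.norm_real, Real.norm_eq_abs]
  rw [← h2, sq]
  exact (norm_inner_le_norm _ _).trans
    (mul_le_mul (m.hβ.2 1) (m.hα.2 g) (norm_nonneg _) m.hβ.1)

end MC

theorem specMC : SpecMC := by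
  intro Γ _ c x hx
  have hC := c.hC
  -- eventual bound
  have hb : ∀ᶠ n in atTop, (c.m n).C ≤ 2 := by
    filter_upwards [hC.eventually (gt_mem_nhds (show (1 : ℝ) < 2 by norm_num))] with n hn
    exact hn.le
  have hb2 : ∀ᶠ n in atTop, ∀ g, |(c.m n).φ g| ≤ 4 := by
    filter_upwards [hb] with n hn g
    refine (MC.norm_phi_le _ g).trans ?_
    have h0 := (c.m n).hα.1
    nlinarith
  constructor
  · have h1 : ∀ n, ‖(mulBy (c.m n) x - x) (dl 1)‖ =
        Real.sqrt (∑' g, ((c.m n).φ g - 1) ^ 2 * ‖(x (dl 1) : Γ → ℂ) g‖ ^ 2) := by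
      intro n
      rw [← Real.sqrt_sq (norm_nonneg ((mulBy (c.m n) x - x) (dl 1))), normSq_eq_tsum]
      congr 1
      apply tsum_congr
      intro g
      rw [ContinuousLinearMap.sub_apply, lp.coeFn_sub, Pi.sub_apply, MC.mulBy_coeff]
      have h2 : ((c.m n).φ g : ℂ) * (x (dl 1) : Γ → ℂ) g - (x (dl 1) : Γ → ℂ) g =
          (((c.m n).φ g - 1 : ℝ) : ℂ) * (x (dl 1) : Γ → ℂ) g := by
        push_cast; ring
      rw [h2, norm_mul, mul_pow, Complex.norm_real, Real.norm_eq_abs, sq_abs]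
    have h3 : Tendsto (fun n => ∑' g, ((c.m n).φ g - 1) ^ 2 * ‖(x (dl 1) : Γ → ℂ) g‖ ^ 2) atTop
        (𝓝 (∑' g : Γ, (0 : ℝ))) := by
      apply tendsto_tsum_of_dominated_convergence
        (bound := fun g => 25 * ‖(x (dl 1) : Γ → ℂ) g‖ ^ 2)
      · exact (summable_normSq _).mul_left _
      · intro g
        have h4 := ((c.hφ g).sub_const 1).pow 2
        have h5 := h4.mul_const (‖(x (dl 1) : Γ → ℂ) g‖ ^ 2)
        simpa using h5
      · filter_upwards [hb2] with n hn g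
        rw [Real.norm_eq_abs, abs_of_nonneg (by positivity)]
        have h6 := abs_le.1 (hn g)
        have h7 : ((c.m n).φ g - 1) ^ 2 ≤ 25 := by nlinarith
        exact mul_le_mul_of_nonneg_right h7 (by positivity)
    rw [tsum_zero] at h3
    have h4 := (Real.continuous_sqrt.tendsto 0).comp h3
    rw [Real.sqrt_zero] at h4
    refine h4.congr fun n => ?_
    exact (h1 n).symm
  · have h1 : ∀ n, ∑ g ∈ (c.m n).supp, (c.m n).φ g * ‖(x (dl 1) : Γ → ℂ) g‖ ^ 2 =
        ∑' g, (c.m n).φ g * ‖(x (dl 1) : Γ → ℂ) g‖ ^ 2 := by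
      intro n
      rw [tsum_eq_sum]
      intro g hg
      rw [(c.m n).hsupp g hg, zero_mul]
    rw [normSq_eq_tsum]
    have h3 : Tendsto (fun n => ∑' g, (c.m n).φ g * ‖(x (dl 1) : Γ → ℂ) g‖ ^ 2) atTop
        (𝓝 (∑' g : Γ, ‖(x (dl 1) : Γ → ℂ) g‖ ^ 2)) := by
      apply tendsto_tsum_of_dominated_convergence
        (bound := fun g => 4 * ‖(x (dl 1) : Γ → ℂ) g‖ ^ 2)
      · exact (summable_normSq _).mul_left _
      · intro g
        have h5 := (c.hφ g).mul_const (‖(x (dl 1) : Γ → ℂ) g‖ ^ 2)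
        simpa using h5
      · filter_upwards [hb2] with n hn g
        rw [norm_mul, Real.norm_eq_abs, Real.norm_eq_abs,
          abs_of_nonneg (show (0 : ℝ) ≤ ‖(x (dl 1) : Γ → ℂ) g‖ ^ 2 by positivity)]
        exact mul_le_mul_of_nonneg_right (hn g) (by positivity)
    refine h3.congr fun n => ?_
    exact (h1 n).symm

end

end MP7e
end

section
/-!
MASS: a block operator with coefficients tending to zero kills an escaping sequence.
-/
namespace MP7e

open scoped InnerProductSpace TensorProduct ENNReal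
open Filter Topology Classical

noncomputable section

namespace Mass

variable {X Y : Type*}

/-- the norm of `vop α f` -/
theorem hasSum_vop (α : X → L2 Y) {C : ℝ} (hα : BddBy α C) (f : L2 X) :
    HasSum (fun x => ‖α x‖ ^ 2 * ‖f x‖ ^ 2) (‖vop α hα f‖ ^ 2) := by
  have h1 := hasSum_normSq (vop α hα f)
  simp only [vop_apply] at h1
  have h2 := (Equiv.hasSum_iff (Equiv.prodComm X Y)).2 h1
  refine HasSum.prod_fiberwise h2 fun x => ?_
  have h := (hasSum_normSq (α x)).mul_right (‖f x‖ ^ 2)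
  have e : (fun y => ‖α x y‖ ^ 2 * ‖f x‖ ^ 2) = fun y => ‖α x y * f x‖ ^ 2 := by
    funext y; rw [norm_mul, mul_pow]
  rw [e] at h
  exact h

/-- the mass over a finite set of first coordinates -/
theorem hasSum_slice (f : L2 (X × Y)) (F : Finset X) :
    HasSum (fun p : X × Y => if p.1 ∈ F then ‖f p‖ ^ 2 else 0)
      (∑ g ∈ F, ∑' z, ‖f (g, z)‖ ^ 2) := by
  have key : ∀ g : X, HasSum (fun p : X × Y => if p.1 = g then ‖f p‖ ^ 2 else 0)
      (∑' z, ‖f (g, z)‖ ^ 2) := by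
    intro g
    have hinj : Function.Injective (fun z : Y => (g, z)) := fun a b h => by
      simpa using h
    have hs : Summable (fun z : Y => ‖f (g, z)‖ ^ 2) :=
      (summable_normSq f).comp_injective hinj
    refine (Function.Injective.hasSum_iff hinj ?_).1 ?_
    · rintro ⟨a, b⟩ h
      by_cases hab : a = g
      · exact absurd ⟨b, by rw [hab]⟩ h
      · simp [hab]
    · have e : ((fun p : X × Y => if p.1 = g then ‖f p‖ ^ 2 else 0) ∘ fun z : Y => (g, z)) =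
          fun z => ‖f (g, z)‖ ^ 2 := by
        funext z; simp
      rw [e]
      exact hs.hasSum
  have h := hasSum_sum (s := F) fun g _ => key g
  have e : (fun p : X × Y => ∑ g ∈ F, if p.1 = g then ‖f p‖ ^ 2 else 0) =
      fun p : X × Y => if p.1 ∈ F then ‖f p‖ ^ 2 else 0 := by
    funext p
    simp
  rw [e] at h
  exact h

/-- the basic estimate -/
theorem vop_le {Z : Type*} (α : X × Y → L2 Z) {C : ℝ} (hα : BddBy α C) (f : L2 (X × Y))
    (F : Finset X) (ε : ℝ) (hF : ∀ p : X × Y, p.1 ∉ F → ‖α p‖ ≤ ε) :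
    ‖vop α hα f‖ ^ 2 ≤ ε ^ 2 * ‖f‖ ^ 2 + C ^ 2 * ∑ g ∈ F, ∑' z, ‖f (g, z)‖ ^ 2 := by
  have h1 := hasSum_vop α hα f
  have h2 := ((hasSum_normSq f).mul_left (ε ^ 2)).add ((hasSum_slice f F).mul_left (C ^ 2))
  refine hasSum_le (fun p => ?_) h1 h2
  by_cases hp : p.1 ∈ F
  · rw [if_pos hp]
    have h3 : ‖α p‖ ^ 2 ≤ C ^ 2 := pow_le_pow_left₀ (norm_nonneg _) (hα.2 p) 2
    have h4 : 0 ≤ ‖f p‖ ^ 2 := by positivity
    nlinarith [mul_le_mul_of_nonneg_right h3 h4, mul_nonneg (sq_nonneg ε) h4]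
  · rw [if_neg hp]
    have h3 : ‖α p‖ ^ 2 ≤ ε ^ 2 := pow_le_pow_left₀ (norm_nonneg _) (hF p hp) 2
    have h4 : 0 ≤ ‖f p‖ ^ 2 := by positivity
    nlinarith [mul_le_mul_of_nonneg_right h3 h4]

end Mass

open Mass in
theorem specMass : SpecMass := by
  intro Γ Y ξ hξ hesc α C hα c hc hc0
  rw [Metric.tendsto_atTop]
  intro ε hε
  -- choose the finite set
  set δ : ℝ := ε / 4 with hδ
  have hδ0 : 0 < δ := by positivity
  have hfin : {g | ¬ (|c g| < δ)}.Finite := by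
    have := (tendsto_order.1 hc0.norm).2 δ (by simpa using hδ0)
    simpa [Filter.eventually_cofinite] using this
  set F : Finset Γ := hfin.toFinset with hFdef
  have hF : ∀ p : Γ × Γ, p.1 ∉ F → ‖α p‖ ≤ δ := by
    rintro ⟨g, z⟩ hg
    have h1 : |c g| < δ := by
      by_contra h
      exact hg (by rw [hFdef, Set.Finite.mem_toFinset]; exact h)
    exact (hc g z).trans ((le_abs_self _).trans h1.le)
  have hlim : Tendsto (fun n => δ ^ 2 * ‖ξ n‖ ^ 2 +
      C ^ 2 * ∑ g ∈ F, ∑' z, ‖(ξ n : Γ × Γ → ℂ) (g, z)‖ ^ 2) atTop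
      (𝓝 (δ ^ 2 * 1 ^ 2 + C ^ 2 * ∑ g ∈ F, (0 : ℝ))) :=
    ((hξ.pow 2).const_mul _).add ((tendsto_finsetSum F fun g _ => hesc g).const_mul _)
  have hlt : δ ^ 2 * 1 ^ 2 + C ^ 2 * ∑ g ∈ F, (0 : ℝ) < ε ^ 2 := by
    rw [Finset.sum_const_zero, hδ]
    nlinarith
  have hev := (tendsto_order.1 hlim).2 _ hlt
  rw [Filter.eventually_atTop] at hev
  obtain ⟨N, hN⟩ := hev
  refine ⟨N, fun n hn => ?_⟩
  have h1 := vop_le α hα (ξ n) F δ hF
  have h2 := h1.trans_lt (hN n hn)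
  rw [Real.dist_eq, sub_zero, abs_of_nonneg (norm_nonneg _)]
  exact lt_of_pow_lt_pow_left₀ 2 hε.le h2

end

end MP7e
end

section
/-!
VBI: the isometry `VBi` asymptotically intertwines left and right translations.
-/
namespace MP7e

open scoped InnerProductSpace TensorProduct ENNReal
open Filter Topology Classical

noncomputable section

namespace VBI

variable {X Y X' Y' : Type*}

theorem op2_perm (a : X ≃ X') (b : Y ≃ Y') : op2 (perm a) (perm b) = perm (a.prodCongr b) := by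
  apply clm_ext
  rintro ⟨x, y⟩
  rw [dl_prod, op2_tens, perm_dl, perm_dl, ← dl_prod, ← dl_prod, perm_dl]
  rfl

/-- the slice of a function of two variables -/
def slice (x : X) : L2 (X × Y) →L[ℂ] L2 Y :=
  LinearMap.mkContinuous
    { toFun := fun f => mk2 (fun y => f (x, y))
        ((summable_normSq f).comp_injective (fun a b h => by simpa using h))
      map_add' := fun f g => by
        apply Subtype.ext; funext p; rfl
      map_smul' := fun c f => by
        apply Subtype.ext; funext p; rfl } 1 (fun f => by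
      have h1 := normSq_eq_tsum (mk2 (fun y => f (x, y))
        ((summable_normSq f).comp_injective (fun a b h => by simpa using h)))
      simp only [mk2_apply] at h1
      have hs : Summable (fun y : Y => ‖f (x, y)‖ ^ 2) :=
        (summable_normSq f).comp_injective (fun a b h => by simpa using h)
      have h2 : ∑' y : Y, ‖f (x, y)‖ ^ 2 ≤ ∑' p : X × Y, ‖f p‖ ^ 2 :=
        hs.tsum_le_tsum_of_inj (fun y => (x, y)) (fun a b h => by simpa using h)
          (fun p _ => by positivity) (fun y => le_rfl) (summable_normSq f)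
      rw [← h1, ← normSq_eq_tsum] at h2
      rw [one_mul]
      exact (sq_le_sq₀ (norm_nonneg _) (norm_nonneg _)).1 h2)

@[simp] theorem slice_apply (x : X) (f : L2 (X × Y)) (y : Y) :
    (slice x f : Y → ℂ) y = f (x, y) := rfl

theorem slice_opR (x : X) (S : Op Y) (f : L2 (X × Y)) :
    slice x (opR X Y S f) = S (slice x f) := by
  have h : slice x ∘L opR X Y S = S ∘L slice x := by
    apply clm_ext_tens
    intro u v
    rw [ContinuousLinearMap.comp_apply, ContinuousLinearMap.comp_apply, opR_tens]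
    have e : ∀ w : L2 Y, slice x (tens u w) = u x • w := by
      intro w
      apply Subtype.ext; funext y
      rw [slice_apply, tens_apply, lp.coeFn_smul, Pi.smul_apply, smul_eq_mul]
    rw [e, e, map_smul]
  exact congrArg (fun R : L2 (X × Y) →L[ℂ] L2 Y => R f) h

theorem slice_ext {f g : L2 (X × Y)} (h : ∀ x, slice x f = slice x g) : f = g := by
  apply Subtype.ext
  funext p
  obtain ⟨x, y⟩ := p
  have := congrArg (fun u : L2 Y => (u : Y → ℂ) y) (h x)
  simpa using this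

variable {Γ : Type} [Group Γ]

theorem VBi_apply {ζ : Γ → L2 Γ} (hζ : UnitField ζ) (f : L2 (Γ × Γ)) (x x' z : Γ) :
    (VBi hζ f : Γ × (Γ × Γ) → ℂ) (x, (x', z)) = ζ (x * x') x * f (x * x', z) := by
  unfold VBi
  rw [ContinuousLinearMap.comp_apply, perm_apply, vop_apply]
  rfl

theorem norm_VBi {ζ : Γ → L2 Γ} (hζ : UnitField ζ) (f : L2 (Γ × Γ)) : ‖VBi hζ f‖ = ‖f‖ := by
  unfold VBi
  rw [ContinuousLinearMap.comp_apply, norm_perm]
  have h1 := Mass.hasSum_vop (fun p : Γ × Γ => ζ p.1) hζ.bdd f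
  have h2 := hasSum_normSq f
  have e : (fun x : Γ × Γ => ‖ζ x.1‖ ^ 2 * ‖(f : Γ × Γ → ℂ) x‖ ^ 2) =
      fun x => ‖(f : Γ × Γ → ℂ) x‖ ^ 2 := by
    funext x
    rw [hζ, one_pow, one_mul]
  rw [e] at h1
  exact (sq_eq_sq₀ (norm_nonneg _) (norm_nonneg _)).1 (h1.unique h2)

theorem slice_VBi {ζ : Γ → L2 Γ} (hζ : UnitField ζ) (f : L2 (Γ × Γ)) (x x' : Γ) :
    slice x' (slice x (VBi hζ f)) = ζ (x * x') x • slice (x * x') f := by
  apply Subtype.ext; funext z
  rw [slice_apply, slice_apply, VBi_apply, lp.coeFn_smul, Pi.smul_apply, smul_eq_mul,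
    slice_apply]

theorem VBi_comm {ζ : Γ → L2 Γ} (hζ : UnitField ζ) (S : Op Γ) :
    opR Γ (Γ × Γ) (opR Γ Γ S) ∘L VBi hζ = VBi hζ ∘L opR Γ Γ S := by
  ext f : 1
  rw [ContinuousLinearMap.comp_apply, ContinuousLinearMap.comp_apply]
  apply slice_ext
  intro x
  apply slice_ext
  intro x'
  rw [slice_opR, slice_opR, slice_VBi, slice_VBi, slice_opR, map_smul]

/-- the defect of equivariance of the field -/
def defect (ζ : Γ → L2 Γ) (s t : Γ) (p : Γ × Γ) : L2 Γ :=
  lam s (ζ p.1) - ζ (s * p.1 * t⁻¹)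

theorem defect_bdd {ζ : Γ → L2 Γ} (hζ : UnitField ζ) (s t : Γ) : BddBy (defect ζ s t) 2 := by
  refine ⟨by norm_num, fun p => ?_⟩
  unfold defect
  refine (norm_sub_le _ _).trans ?_
  rw [norm_lam_apply, hζ, hζ]
  norm_num

/-- the bijection `(x, (g, z)) ↦ (x, (x⁻¹ s g t⁻¹, z))` -/
def e2 (s t : Γ) : Γ × (Γ × Γ) ≃ Γ × (Γ × Γ) where
  toFun p := (p.1, (p.1⁻¹ * s * p.2.1 * t⁻¹, p.2.2))
  invFun p := (p.1, (s⁻¹ * p.1 * p.2.1 * t, p.2.2))
  left_inv p := by
    obtain ⟨x, g, z⟩ := p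
    simp [mul_assoc]
  right_inv p := by
    obtain ⟨x, g, z⟩ := p
    simp [mul_assoc]

theorem defect_eq {ζ : Γ → L2 Γ} (hζ : UnitField ζ) (s t : Γ) (f : L2 (Γ × Γ)) :
    op2 (lam s) (op2 (rho t) (1 : Op Γ)) (VBi hζ f) -
      VBi hζ (op2 (lam s * rho t) (1 : Op Γ) f) =
    perm (e2 s t) (vop (defect ζ s t) (defect_bdd hζ s t) f) := by
  apply Subtype.ext
  funext p
  obtain ⟨x, x', z⟩ := p
  have h1 : op2 (lam s) (op2 (rho t) (1 : Op Γ)) =
      perm ((Equiv.mulLeft s).prodCongr ((Equiv.mulRight t⁻¹).prodCongr (Equiv.refl Γ))) := by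
    rw [← op2_perm, ← op2_perm, perm_refl]
    rfl
  have h2 : op2 (lam s * rho t) (1 : Op Γ) =
      perm (((Equiv.mulRight t⁻¹).trans (Equiv.mulLeft s)).prodCongr (Equiv.refl Γ)) := by
    rw [← op2_perm, perm_refl, ← perm_comp]
    rfl
  rw [lp.coeFn_sub, Pi.sub_apply, perm_apply, vop_apply, VBi_apply, h1, h2, perm_apply,
    perm_apply]
  have h3 : ((Equiv.mulLeft s).prodCongr
      ((Equiv.mulRight t⁻¹).prodCongr (Equiv.refl Γ))).symm (x, (x', z)) =
      (s⁻¹ * x, (x' * t, z)) := by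
    simp [Equiv.prodCongr]
  have h4 : (((Equiv.mulRight t⁻¹).trans (Equiv.mulLeft s)).prodCongr
      (Equiv.refl Γ)).symm (x * x', z) = (s⁻¹ * x * x' * t, z) := by
    simp [Equiv.prodCongr, mul_assoc]
  have h5 : (e2 s t).symm (x, (x', z)) = (x, (s⁻¹ * x * x' * t, z)) := rfl
  rw [h3, h4, h5, VBi_apply]
  simp only [defect]
  rw [lp.coeFn_sub, Pi.sub_apply, lam_apply]
  have h6 : s⁻¹ * x * (x' * t) = s⁻¹ * x * x' * t := by simp only [mul_assoc]
  have h7 : s * (s⁻¹ * x * x' * t) * t⁻¹ = x * x' := by simp [mul_assoc]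
  rw [h6, h7]
  ring

end VBI

open VBI in
theorem specVBi : SpecVBi := by
  intro Γ _ ζ hζ
  refine ⟨norm_VBi hζ, VBi_comm hζ, ?_⟩
  intro ξ hξ hesc s t hst
  have h := specMass Γ Γ ξ hξ hesc (defect ζ s t) 2 (defect_bdd hζ s t)
    (fun g => ‖lam s (ζ g) - ζ (s * g * t⁻¹)‖) (fun g z => le_rfl) hst
  refine h.congr fun n => ?_
  rw [defect_eq, norm_perm]

end

end MP7e
end

section
/-!
WU: the value of the two-leg functional in the limit.
-/
namespace MP7e

open scoped InnerProductSpace TensorProduct ENNReal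
open Filter Topology Classical

noncomputable section

namespace Wu

variable {Γ : Type} [Group Γ]

/-- the coefficients of `mulBy` -/
def cf (m : Multiplier Γ) (x : Op Γ) (g : Γ) : ℂ := (m.φ g : ℂ) * (x (dl 1) : Γ → ℂ) g

theorem mulBy_eq (m : Multiplier Γ) (x : Op Γ) :
    mulBy m x = ∑ g ∈ m.supp, cf m x g • lam g := rfl

theorem rgt_star_mulBy (m : Multiplier Γ) (y : Op Γ) :
    rgt (star (mulBy m y)) = ∑ t ∈ m.supp, star (cf m y t) • rho t := by
  rw [mulBy_eq, star_sum, rgt_sum]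
  apply Finset.sum_congr rfl
  intro t _
  rw [star_smul, rgt_smul, star_lam, rgt_lam, inv_inv]

theorem op2_sum_left {X Y X' Y' ι : Type*} (s : Finset ι) (T : ι → (L2 X →L[ℂ] L2 Y))
    (S : L2 X' →L[ℂ] L2 Y') : op2 (∑ i ∈ s, T i) S = ∑ i ∈ s, op2 (T i) S := by
  classical
  induction s using Finset.induction_on with
  | empty =>
    have h := op2_smul_left (0 : ℂ) (0 : L2 X →L[ℂ] L2 Y) S
    simpa using h
  | insert a s ha ih => rw [Finset.sum_insert ha, Finset.sum_insert ha, op2_add_left, ih]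

theorem op2_sum_right {X Y X' Y' ι : Type*} (s : Finset ι) (T : (L2 X →L[ℂ] L2 Y))
    (S : ι → L2 X' →L[ℂ] L2 Y') : op2 T (∑ i ∈ s, S i) = ∑ i ∈ s, op2 T (S i) := by
  classical
  induction s using Finset.induction_on with
  | empty =>
    have h := op2_smul_right (0 : ℂ) T (0 : L2 X' →L[ℂ] L2 Y')
    simpa using h
  | insert a s ha ih => rw [Finset.sum_insert ha, Finset.sum_insert ha, op2_add_right, ih]

theorem expand3 (m : Multiplier Γ) (x y S : Op Γ) :
    op2 (mulBy m x) (op2 (rgt (star (mulBy m y))) S) =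
      ∑ s ∈ m.supp, ∑ t ∈ m.supp, (cf m x s * star (cf m y t)) •
        (opR Γ (Γ × Γ) (opR Γ Γ S) * op2 (lam s) (op2 (rho t) (1 : Op Γ))) := by
  rw [rgt_star_mulBy, mulBy_eq, op2_sum_left]
  apply Finset.sum_congr rfl
  intro s _
  rw [op2_sum_left, op2_smul_left, op2_sum_right, Finset.smul_sum]
  apply Finset.sum_congr rfl
  intro t _
  rw [op2_smul_left, op2_smul_right, smul_smul, opR_eq, opR_eq, ← op2_mul, one_mul, ← op2_mul,
    one_mul, mul_one]

theorem expand2 (m : Multiplier Γ) (x y S : Op Γ) :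
    op2 (mulBy m x * rgt (star (mulBy m y))) S =
      ∑ s ∈ m.supp, ∑ t ∈ m.supp, (cf m x s * star (cf m y t)) •
        (opR Γ Γ S * op2 (lam s * rho t) (1 : Op Γ)) := by
  rw [rgt_star_mulBy, mulBy_eq, Finset.sum_mul, op2_sum_left]
  apply Finset.sum_congr rfl
  intro s _
  rw [smul_mul_assoc, Finset.mul_sum, op2_smul_left, op2_sum_left, Finset.smul_sum]
  apply Finset.sum_congr rfl
  intro t _
  rw [mul_smul_comm, op2_smul_left, smul_smul, opR_eq, ← op2_mul, one_mul, mul_one]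

theorem isom_inner {X Y : Type*} (V : L2 X →L[ℂ] L2 Y) (h : ∀ f, ‖V f‖ = ‖f‖) (f g : L2 X) :
    ⟪V f, V g⟫_ℂ = ⟪f, g⟫_ℂ := by
  let V' : L2 X →ₗᵢ[ℂ] L2 Y := ⟨V.toLinearMap, h⟩
  exact V'.inner_map_map f g

end Wu

open Wu in
theorem specWu (hV : SpecVBi) (hM : SpecM3) : SpecWu := by
  intro Γ _ m ζ hζ hζc ξ hξ hesc x hx y hy S
  obtain ⟨hiso, hcomm, hlim⟩ := hV Γ ζ hζ
  obtain ⟨hM1, -, -⟩ := hM Γ m
  rw [show (0 : ℂ) = ∑ s ∈ m.supp, ∑ t ∈ m.supp, (0 : ℂ) by simp]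
  have key : ∀ n, ⟪VBi hζ (ξ n), m3 m (op2 x (op2 (rgt (star y)) S)) (VBi hζ (ξ n))⟫_ℂ -
        ⟪ξ n, op2 (mulBy m x * rgt (star (mulBy m y))) S (ξ n)⟫_ℂ =
      ∑ s ∈ m.supp, ∑ t ∈ m.supp, (cf m x s * star (cf m y t)) *
        ⟪VBi hζ (ξ n), opR Γ (Γ × Γ) (opR Γ Γ S)
          (op2 (lam s) (op2 (rho t) (1 : Op Γ)) (VBi hζ (ξ n)) -
            VBi hζ (op2 (lam s * rho t) (1 : Op Γ) (ξ n)))⟫_ℂ := by
    intro n
    rw [hM1 x hx y hy S, expand3, expand2]
    simp only [ContinuousLinearMap.sum_apply, inner_sum, ContinuousLinearMap.smul_apply,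
      inner_smul_right]
    rw [← Finset.sum_sub_distrib]
    apply Finset.sum_congr rfl
    intro s _
    rw [← Finset.sum_sub_distrib]
    apply Finset.sum_congr rfl
    intro t _
    rw [← mul_sub]
    congr 1
    rw [map_sub, inner_sub_right, mulA, mulA]
    congr 1
    have h1 := congrArg (fun T : L2 (Γ × Γ) →L[ℂ] L2 (Γ × (Γ × Γ)) =>
      T (op2 (lam s * rho t) (1 : Op Γ) (ξ n))) (hcomm S)
    simp only [ContinuousLinearMap.comp_apply] at h1
    rw [h1, isom_inner _ hiso]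
  refine Tendsto.congr (fun n => (key n).symm) ?_
  apply tendsto_finsetSum
  intro s hs
  apply tendsto_finsetSum
  intro t ht
  have h1 := hlim ξ hξ hesc s t (hζc s hs t ht)
  rw [show (0 : ℂ) = (cf m x s * star (cf m y t)) * 0 by simp]
  apply Tendsto.const_mul
  rw [tendsto_zero_iff_norm_tendsto_zero]
  have h2 : Tendsto (fun n => ‖ξ n‖ * (‖opR Γ (Γ × Γ) (opR Γ Γ S)‖ *
      ‖op2 (lam s) (op2 (rho t) (1 : Op Γ)) (VBi hζ (ξ n)) -
            VBi hζ (op2 (lam s * rho t) (1 : Op Γ) (ξ n))‖)) atTop (𝓝 0) := by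
    have h3 := hξ.mul (h1.const_mul ‖opR Γ (Γ × Γ) (opR Γ Γ S)‖)
    simpa using h3
  refine squeeze_zero (fun n => norm_nonneg _) (fun n => ?_) h2
  refine (norm_inner_le_norm _ _).trans ?_
  rw [hiso]
  exact mul_le_mul_of_nonneg_left (ContinuousLinearMap.le_opNorm _ _) (norm_nonneg _)

end

end MP7e
end
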