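import Pool.Agent.Lib.MP_7e9852_an.Fin
import Pool.Agent.Lib.MP_7e9852_an.Wu
import Pool.Agent.Lib.MP_7e9852_an.SD
import Pool.Agent.Lib.MP_7e9852_an.W1
import Pool.Agent.Lib.MP_7e9852_an.Inv
import Pool.Agent.Lib.MP_7e9852_an.MT
import Pool.Agent.Lib.MP_7e9852_an.Next
import Pool.Agent.Lib.MP_7e9852_an.Lim
import Pool.Agent.Lib.MP_7e9852_an.Car
import Pool.Agent.Lib.MP_7e9852_an.Ultra

/-!
The assembly.
-/

namespace MP7e

open scoped InnerProductSpace
open Filter Topology Classical

noncomputable section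

theorem allWC : SpecWC := specWC specPS1 specPS2' (specW1 specSD) specInv specAU specMC

theorem allFin : SpecFin :=
  specFin allWC (specEsc specDiff) specVBi specM3 specMC (specWu specVBi specM3) specGen specInv

theorem allLim : SpecLim := specLim specNext

namespace Main

variable {H : Type} [Group H]

theorem countable_of_tree {G : Type} [Group G] (t : TreeGroup G) : Countable G := by
  have h : (Set.univ : Set G) = ⋃ n : ℕ, {g | (t.w g).norm ≤ n} := by
    ext g
    simp only [Set.mem_univ, Set.mem_iUnion, Set.mem_ofPred_eq, true_iff]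
    exact ⟨_, le_rfl⟩
  rw [← Set.countable_univ_iff, h]
  exact Set.countable_iUnion fun n => (t.proper n).countable

theorem countable_of_tower (T : Tower H) : Countable H := by
  have h : (Set.univ : Set H) = ⋃ k : ℕ, (T.Hk k : Set H) := by
    ext g
    simp only [Set.mem_univ, Set.mem_iUnion, SetLike.mem_coe, true_iff]
    exact T.exh g
  rw [← Set.countable_univ_iff, h]
  refine Set.countable_iUnion fun k => ?_
  have := countable_of_tree (T.tree k)
  exact Set.countable_coe_iff.1 (inferInstanceAs (Countable (T.Hk k)))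

theorem infinite_of_tower (T : Tower H) : Infinite H := by
  obtain ⟨f, hf⟩ := T.free
  haveI : Infinite (FreeGroup Bool) := by
    apply Infinite.of_injective (fun n : ℤ => (FreeGroup.of true) ^ n)
    intro m n hmn
    have h := congrArg (FreeGroup.lift (fun _ : Bool => Multiplicative.ofAdd (1 : ℤ))) hmn
    simp only [map_zpow, FreeGroup.lift_apply_of] at h
    have h2 := congrArg Multiplicative.toAdd h
    simpa using h2
  exact Infinite.of_injective f hf

/-- the multipliers and the fields of vectors -/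
theorem exists_cmap (T : Tower H) : ∃ c : CMAP H, ∀ n, BiFor H (c.m n).supp := by
  haveI := countable_of_tower T
  obtain ⟨e, he⟩ := exists_surjective_nat H
  have hk : ∀ n : ℕ, ∃ k, ∀ i ≤ n, e i ∈ T.Hk k := by
    intro n
    induction n with
    | zero =>
      obtain ⟨k, hk⟩ := T.exh (e 0)
      exact ⟨k, fun i hi => by rwa [Nat.le_zero.1 hi]⟩
    | succ n ih =>
      obtain ⟨k, hk⟩ := ih
      obtain ⟨k', hk'⟩ := T.exh (e (n + 1))
      refine ⟨max k k', fun i hi => ?_⟩
      rcases Nat.le_succ_iff.1 hi with h | h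
      · exact T.mono (le_max_left k k') (hk i h)
      · rw [h]; exact T.mono (le_max_right k k') hk'
  choose k hk using hk
  have hm : ∀ n : ℕ, ∃ m : Multiplier H, m.φ 1 = 1 ∧ m.C ≤ 1 + 1 / ((n : ℝ) + 1) ∧
      (∀ i ≤ n, |m.φ (e i) - 1| ≤ 1 / ((n : ℝ) + 1)) ∧ ∀ g ∈ m.supp, g ∈ T.Hk (k n) := by
    intro n
    obtain ⟨m, h1, h2, h3, h4⟩ := specMT H (T.Hk (k n)) (T.tree (k n))
      ((Finset.range (n + 1)).image e) (by
        intro g hg
        obtain ⟨i, hi, rfl⟩ := Finset.mem_image.1 hg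
        exact hk n i (Nat.lt_succ_iff.1 (Finset.mem_range.1 hi))) (1 / ((n : ℝ) + 1))
      (by positivity)
    refine ⟨m, h1, h2, fun i hi => h3 _ (Finset.mem_image.2 ⟨i, ?_, rfl⟩), h4⟩
    exact Finset.mem_range.2 (Nat.lt_succ_iff.2 hi)
  choose m hm1 hm2 hm3 hm4 using hm
  have hδ : Tendsto (fun n : ℕ => 1 / ((n : ℝ) + 1)) atTop (𝓝 0) :=
    tendsto_one_div_add_atTop_nhds_zero_nat
  have hC1 : ∀ n, 1 ≤ (m n).C := by
    intro n
    have h1 := WC.C_ge_one (m n) (hm1 n)
    have h2 := (m n).hα.1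
    nlinarith
  refine ⟨⟨m, ?_, ?_, hm1⟩, ?_⟩
  · have h1 := hδ.const_add 1
    rw [add_zero] at h1
    exact tendsto_of_tendsto_of_tendsto_of_le_of_le tendsto_const_nhds h1 hC1 hm2
  · intro g
    obtain ⟨i, rfl⟩ := he g
    rw [tendsto_iff_norm_sub_tendsto_zero]
    refine squeeze_zero' (Eventually.of_forall fun n => norm_nonneg _) ?_ hδ
    filter_upwards [eventually_ge_atTop i] with n hn
    exact hm3 n i hn
  · intro n
    obtain ⟨ζ, hζ, hζ2⟩ := specBI H (T.Hk (k n)) (T.tree (k n)) (T.mal (k n))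
    refine ⟨ζ, hζ, fun s hs t ht => ⟨?_, ?_⟩⟩
    · exact hζ2 s (hm4 n s hs) t (hm4 n t ht)
    · exact hζ2 s (hm4 n s hs) t⁻¹ (inv_mem (hm4 n t ht))

theorem separable_L2 (X : Type) [Countable X] : TopologicalSpace.SeparableSpace (L2 X) := by
  have h1 : TopologicalSpace.IsSeparable
      (Submodule.span ℂ (Set.range (dl : X → L2 X)) : Set (L2 X)) :=
    (Set.countable_range _).isSeparable.span
  have h2 := h1.closure
  rw [dense_span_dl.closure_eq] at h2
  exact TopologicalSpace.isSeparable_univ_iff.1 h2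

instance countable_lamp [Countable H] : Countable (Lamp H) := by
  have h : Function.Injective (fun a : Lamp H => (a.lamp, a.pos)) := by
    rintro ⟨a, b⟩ ⟨c, d⟩ h
    simp only [Prod.mk.injEq] at h
    rw [h.1, h.2]
  exact h.countable

end Main

/-- the main theorem in terms of groups -/
theorem main_group : ∃ (H : Type) (_ : Group H), Countable H ∧
    IsII1Factor (LGt H) ∧ ¬ Amenable (LGt H) (LGt H).alg ∧ StronglySolid (LGt H) ∧
    (∃ A, IsCartan (LGt (Lamp H)) A) ∧
    ∃ ι : (LGt H).El →⋆ₐ[ℂ] (LGt (Lamp H)).El,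
      (∀ x : (LGt H).El, (LGt (Lamp H)).τ (ι x : Op (Lamp H)) = (LGt H).τ (x : Op H)) ∧
      ∀ U : Ultrafilter ℕ, (U : Filter ℕ) ≤ atTop →
        ExistentialLift (LGt H) (LGt (Lamp H)) ι U := by
  obtain ⟨H, hH, ⟨T⟩⟩ := allLim
  haveI := Main.countable_of_tower T
  haveI := Main.infinite_of_tower T
  obtain ⟨c, hc⟩ := Main.exists_cmap T
  obtain ⟨ι, hι, hex⟩ := specExi H T.β ⟨T.β_add, T.β_conj, T.β_ne⟩
  exact ⟨H, hH, inferInstance, specFac H T.icc inferInstance, specNA H T.free,
    allFin H c hc, specCar H, ι, hι, hex⟩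

end

end MP7e
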