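import Pool.Agent.Lib.MP_7e9852_an.Spec

/-!
# NEXT: definitions (graph of configurations, paths, the new group)
-/

set_option autoImplicit false

namespace MP7e.Next

open Classical

noncomputable section

/-! ### free groups -/

theorem isReduced_map {α β : Type*} {f : α → β} (hf : Function.Injective f)
    {L : List (α × Bool)} (h : FreeGroup.IsReduced L) :
    FreeGroup.IsReduced (L.map fun x => (f x.1, x.2)) := by
  unfold FreeGroup.IsReduced at *
  rw [List.isChain_map]
  refine h.imp ?_
  intro a b hab he
  exact hab (hf he)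

theorem toWord_map {α β : Type*} [DecidableEq α] [DecidableEq β] {f : α → β}
    (hf : Function.Injective f) (x : FreeGroup α) :
    (FreeGroup.map f x).toWord = x.toWord.map fun y => (f y.1, y.2) := by
  conv_lhs => rw [← FreeGroup.mk_toWord (x := x)]
  rw [FreeGroup.map.mk, FreeGroup.toWord_mk]
  exact (isReduced_map hf FreeGroup.isReduced_toWord).reduce_eq

theorem norm_map {α β : Type*} [DecidableEq α] [DecidableEq β] {f : α → β}
    (hf : Function.Injective f) (x : FreeGroup α) :
    (FreeGroup.map f x).norm = x.norm := by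
  unfold FreeGroup.norm
  rw [toWord_map hf, List.length_map]

/-! ### configurations -/

set_option linter.unusedSectionVars false

variable {Γ : Type} [Group Γ]

/-- restriction of a configuration to the complement of `A` -/
def off (A : Set Γ) (k : Γ →₀ ZMod 2) : Γ →₀ ZMod 2 := k.filter (fun h => h ∉ A)

theorem off_apply (A : Set Γ) (k : Γ →₀ ZMod 2) (h : Γ) :
    off A k h = if h ∈ A then 0 else k h := by
  unfold off
  rw [Finsupp.filter_apply]
  by_cases hA : h ∈ A <;> simp [hA]

theorem off_zero (A : Set Γ) : off A 0 = 0 := by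
  ext h; simp [off_apply]

theorem off_add (A : Set Γ) (k l : Γ →₀ ZMod 2) : off A (k + l) = off A k + off A l := by
  ext h
  rw [Finsupp.add_apply, off_apply, off_apply, off_apply, Finsupp.add_apply]
  split_ifs <;> simp

theorem off_off {A B : Set Γ} (h : A ⊆ B) (k : Γ →₀ ZMod 2) : off B (off A k) = off B k := by
  ext x
  rw [off_apply, off_apply, off_apply]
  by_cases hB : x ∈ B
  · simp [hB]
  · have hA : x ∉ A := fun hx => hB (h hx)
    simp [hB, hA]

theorem off_off' {A B : Set Γ} (h : A ⊆ B) (k : Γ →₀ ZMod 2) : off A (off B k) = off B k := by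
  ext x
  rw [off_apply, off_apply]
  by_cases hA : x ∈ A
  · simp [hA, h hA]
  · simp [hA]

theorem off_shift {g : Γ} {A B : Set Γ} (hAB : ∀ h, g * h ∈ B ↔ h ∈ A) (k : Γ →₀ ZMod 2) :
    off B (shift g k) = shift g (off A k) := by
  ext x
  rw [off_apply, shift_apply, shift_apply, off_apply]
  have : x ∈ B ↔ g⁻¹ * x ∈ A := by
    rw [← hAB]; simp
  by_cases hx : x ∈ B
  · rw [if_pos hx, if_pos (this.1 hx)]
  · rw [if_neg hx, if_neg (fun h => hx (this.2 h))]

/-- a configuration modulo its values on `S z` at a place `z` -/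
structure Cfg {Z : Type} (S : Z → Set Γ) where
  k : Γ →₀ ZMod 2
  z : Z
  hk : off (S z) k = k

theorem Cfg.ext' {Z : Type} {S : Z → Set Γ} {a b : Cfg S} (hz : a.z = b.z) (hk : a.k = b.k) :
    a = b := by
  cases a; cases b
  cases hz
  cases hk
  rfl

section act

variable {Z : Type} (σ : Γ →* Equiv.Perm Z) (S : Z → Set Γ)
  (hS : ∀ g z h, g * h ∈ S (σ g z) ↔ h ∈ S z)

/-- the action of the lamplighter group on configurations -/
def cmap (a : Lamp Γ) (c : Cfg S) : Cfg S :=
  ⟨off (S (σ a.pos c.z)) (a.lamp + shift a.pos c.k), σ a.pos c.z, off_off (le_refl _) _⟩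

include hS in
theorem cmap_one (c : Cfg S) : cmap σ S 1 c = c := by
  refine Cfg.ext' ?_ ?_
  · show σ 1 c.z = c.z
    rw [map_one]; rfl
  · show off (S (σ 1 c.z)) (0 + shift 1 c.k) = c.k
    rw [map_one, zero_add, shift_one]
    exact c.hk

include hS in
theorem cmap_mul (a b : Lamp Γ) (c : Cfg S) :
    cmap σ S (a * b) c = cmap σ S a (cmap σ S b c) := by
  refine Cfg.ext' ?_ ?_
  · show σ (a * b).pos c.z = σ a.pos (σ b.pos c.z)
    rw [Lamp.mul_pos, map_mul]; rfl
  · show off (S (σ (a * b).pos c.z)) ((a * b).lamp + shift (a * b).pos c.k) =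
      off (S (σ a.pos (σ b.pos c.z))) (a.lamp + shift a.pos
        (off (S (σ b.pos c.z)) (b.lamp + shift b.pos c.k)))
    have e : σ (a * b).pos c.z = σ a.pos (σ b.pos c.z) := by
      rw [Lamp.mul_pos, map_mul]; rfl
    rw [e, off_add, off_add (S (σ a.pos (σ b.pos c.z))) a.lamp,
      ← off_shift (fun h => hS a.pos (σ b.pos c.z) h), off_off (le_refl _), Lamp.mul_lamp,
      Lamp.mul_pos, shift_mul, off_add, shift_add, off_add, add_assoc]

/-- the action on configurations as a homomorphism -/
def cperm : Lamp Γ →* Equiv.Perm (Cfg S) where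
  toFun a :=
    { toFun := cmap σ S a
      invFun := cmap σ S a⁻¹
      left_inv := fun c => by
        rw [← cmap_mul σ S hS, inv_mul_cancel, cmap_one σ S hS]
      right_inv := fun c => by
        rw [← cmap_mul σ S hS, mul_inv_cancel, cmap_one σ S hS] }
  map_one' := Equiv.ext fun c => cmap_one σ S hS c
  map_mul' a b := Equiv.ext fun c => cmap_mul σ S hS a b c

theorem cperm_apply (a : Lamp Γ) (c : Cfg S) : cperm σ S hS a c = cmap σ S a c := rfl

end act

/-! ### the tree of `F(E)` -/

variable (t : TreeGroup Γ) (r : ℕ)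

theorem w_one : t.w 1 = 1 := by
  have h := t.cocycle 1 1
  rw [mul_one, map_one] at h
  have h2 : FreeGroup.map (⇑(1 : Equiv.Perm t.E)) (t.w 1) = t.w 1 := FreeGroup.map.id _
  rw [h2] at h
  exact left_eq_mul.1 h

/-- `g ⋆ v = w(g) g(v)` -/
def star (g : Γ) (v : FreeGroup t.E) : FreeGroup t.E := t.w g * FreeGroup.map (t.act g) v

theorem star_one (v : FreeGroup t.E) : star t 1 v = v := by
  unfold star
  rw [w_one, one_mul, map_one]
  exact FreeGroup.map.id _

theorem star_mul (g h : Γ) (v : FreeGroup t.E) : star t (g * h) v = star t g (star t h v) := by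
  unfold star
  rw [t.cocycle, map_mul (FreeGroup.map (t.act g)), FreeGroup.map.comp, map_mul, mul_assoc]
  rfl

theorem star_w (g h : Γ) : star t g (t.w h) = t.w (g * h) := (t.cocycle g h).symm

theorem star_mul_of (g : Γ) (v : FreeGroup t.E) (e : t.E) :
    star t g (v * FreeGroup.of e) = star t g v * FreeGroup.of (t.act g e) := by
  unfold star
  rw [map_mul, FreeGroup.map.of, mul_assoc]

/-- distance in the tree -/
def dist (u v : FreeGroup t.E) : ℕ := (u⁻¹ * v).norm

theorem dist_star (g : Γ) (u v : FreeGroup t.E) : dist t (star t g u) (star t g v) = dist t u v := by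
  unfold dist star
  have : (t.w g * FreeGroup.map (t.act g) u)⁻¹ * (t.w g * FreeGroup.map (t.act g) v) =
      FreeGroup.map (t.act g) (u⁻¹ * v) := by
    rw [map_mul, map_inv]; group
  rw [this, norm_map (t.act g).injective]

theorem dist_w (g h : Γ) : dist t (t.w g) (t.w h) = t.len (g⁻¹ * h) := by
  have h1 := dist_star t g⁻¹ (t.w g) (t.w h)
  rw [star_w, star_w, inv_mul_cancel, w_one] at h1
  rw [← h1]
  unfold dist TreeGroup.len
  rw [inv_one, one_mul]

theorem dist_comm (u v : FreeGroup t.E) : dist t u v = dist t v u := by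
  unfold dist
  rw [← FreeGroup.norm_inv_eq]
  congr 1
  group

/-- `Γ` acting on the vertices of the tree -/
def sigV : Γ →* Equiv.Perm (FreeGroup t.E) where
  toFun g :=
    { toFun := star t g
      invFun := star t g⁻¹
      left_inv := fun v => by rw [← star_mul, inv_mul_cancel, star_one]
      right_inv := fun v => by rw [← star_mul, mul_inv_cancel, star_one] }
  map_one' := Equiv.ext fun v => star_one t v
  map_mul' g h := Equiv.ext fun v => star_mul t g h v

theorem sigV_apply (g : Γ) (v : FreeGroup t.E) : sigV t g v = star t g v := rfl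

/-- `Γ` acting on the edges of the tree -/
def sigE : Γ →* Equiv.Perm (FreeGroup t.E × t.E) where
  toFun g :=
    { toFun := fun ε => (star t g ε.1, t.act g ε.2)
      invFun := fun ε => (star t g⁻¹ ε.1, t.act g⁻¹ ε.2)
      left_inv := fun ε => by
        refine Prod.ext ?_ ?_
        · show star t g⁻¹ (star t g ε.1) = ε.1
          rw [← star_mul, inv_mul_cancel, star_one]
        · show t.act g⁻¹ (t.act g ε.2) = ε.2
          rw [map_inv]; exact Equiv.symm_apply_apply _ _
      right_inv := fun ε => by
        refine Prod.ext ?_ ?_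
        · show star t g (star t g⁻¹ ε.1) = ε.1
          rw [← star_mul, mul_inv_cancel, star_one]
        · show t.act g (t.act g⁻¹ ε.2) = ε.2
          rw [map_inv]; exact Equiv.apply_symm_apply _ _ }
  map_one' := Equiv.ext fun ε => by
    refine Prod.ext ?_ ?_
    · exact star_one t _
    · show t.act 1 ε.2 = ε.2
      rw [map_one]; rfl
  map_mul' g h := Equiv.ext fun ε => by
    refine Prod.ext ?_ ?_
    · exact star_mul t _ _ _
    · show t.act (g * h) ε.2 = t.act g (t.act h ε.2)
      rw [map_mul]; rfl

theorem sigE_apply (g : Γ) (ε : FreeGroup t.E × t.E) :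
    sigE t g ε = (star t g ε.1, t.act g ε.2) := rfl

/-- the elements near the vertex `u` -/
def SV (u : FreeGroup t.E) : Set Γ := {h | dist t (t.w h) u ≤ r}

/-- the elements near the edge `ε` -/
def SE (ε : FreeGroup t.E × t.E) : Set Γ := SV t r ε.1 ∩ SV t r (ε.1 * FreeGroup.of ε.2)

theorem mem_SV (u : FreeGroup t.E) (h : Γ) : h ∈ SV t r u ↔ dist t (t.w h) u ≤ r := Iff.rfl

theorem hSV (g : Γ) (u : FreeGroup t.E) (h : Γ) :
    g * h ∈ SV t r (sigV t g u) ↔ h ∈ SV t r u := by
  rw [mem_SV, mem_SV, sigV_apply, ← star_w, dist_star]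

theorem hSE (g : Γ) (ε : FreeGroup t.E × t.E) (h : Γ) :
    g * h ∈ SE t r (sigE t g ε) ↔ h ∈ SE t r ε := by
  have h1 := hSV t r g ε.1 h
  have h2 := hSV t r g (ε.1 * FreeGroup.of ε.2) h
  have h3 : sigV t g (ε.1 * FreeGroup.of ε.2) = (sigE t g ε).1 * FreeGroup.of (sigE t g ε).2 :=
    star_mul_of t g ε.1 ε.2
  rw [h3] at h2
  exact and_congr h1 h2

/-- the vertices of the graph of configurations -/
abbrev V' := Cfg (SV t r)

/-- the edges of the graph of configurations -/
abbrev E' := Cfg (SE t r)

/-- origin of an edge -/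
def src (a : E' t r) : V' t r := ⟨off (SV t r a.z.1) a.k, a.z.1, off_off (le_refl _) _⟩

/-- end of an edge -/
def tgt (a : E' t r) : V' t r :=
  ⟨off (SV t r (a.z.1 * FreeGroup.of a.z.2)) a.k, a.z.1 * FreeGroup.of a.z.2,
    off_off (le_refl _) _⟩

/-- the action of the lamplighter group on the vertices -/
def actV : Lamp Γ →* Equiv.Perm (V' t r) := cperm (sigV t) (SV t r) (hSV t r)

/-- the action of the lamplighter group on the edges -/
def actE : Lamp Γ →* Equiv.Perm (E' t r) := cperm (sigE t) (SE t r) (hSE t r)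

theorem actV_z (a : Lamp Γ) (c : V' t r) : (actV t r a c).z = star t a.pos c.z := rfl

theorem actV_k (a : Lamp Γ) (c : V' t r) :
    (actV t r a c).k = off (SV t r (star t a.pos c.z)) (a.lamp + shift a.pos c.k) := rfl

theorem actE_z (a : Lamp Γ) (c : E' t r) :
    (actE t r a c).z = (star t a.pos c.z.1, t.act a.pos c.z.2) := rfl

theorem actE_k (a : Lamp Γ) (c : E' t r) :
    (actE t r a c).k = off (SE t r (star t a.pos c.z.1, t.act a.pos c.z.2))
      (a.lamp + shift a.pos c.k) := rfl

theorem SE_sub_src (ε : FreeGroup t.E × t.E) : SE t r ε ⊆ SV t r ε.1 := fun _ h => h.1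

theorem SE_sub_tgt (ε : FreeGroup t.E × t.E) :
    SE t r ε ⊆ SV t r (ε.1 * FreeGroup.of ε.2) := fun _ h => h.2

theorem src_act (a : Lamp Γ) (c : E' t r) :
    src t r (actE t r a c) = actV t r a (src t r c) := by
  refine Cfg.ext' rfl ?_
  show off (SV t r (star t a.pos c.z.1)) (off (SE t r (star t a.pos c.z.1, t.act a.pos c.z.2))
      (a.lamp + shift a.pos c.k)) =
    off (SV t r (star t a.pos c.z.1)) (a.lamp + shift a.pos (off (SV t r c.z.1) c.k))
  rw [off_off (SE_sub_src t r (star t a.pos c.z.1, t.act a.pos c.z.2)), off_add, off_add,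
    ← off_shift (fun h => hSV t r a.pos c.z.1 h), sigV_apply, off_off (le_refl _)]

theorem tgt_act (a : Lamp Γ) (c : E' t r) :
    tgt t r (actE t r a c) = actV t r a (tgt t r c) := by
  have hz : star t a.pos c.z.1 * FreeGroup.of (t.act a.pos c.z.2) =
      star t a.pos (c.z.1 * FreeGroup.of c.z.2) := (star_mul_of t _ _ _).symm
  refine Cfg.ext' hz ?_
  show off (SV t r (star t a.pos c.z.1 * FreeGroup.of (t.act a.pos c.z.2)))
      (off (SE t r (star t a.pos c.z.1, t.act a.pos c.z.2)) (a.lamp + shift a.pos c.k)) =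
    off (SV t r (star t a.pos (c.z.1 * FreeGroup.of c.z.2)))
      (a.lamp + shift a.pos (off (SV t r (c.z.1 * FreeGroup.of c.z.2)) c.k))
  rw [off_off (SE_sub_tgt t r (star t a.pos c.z.1, t.act a.pos c.z.2)), hz, off_add, off_add,
    ← off_shift (fun h => hSV t r a.pos (c.z.1 * FreeGroup.of c.z.2) h), sigV_apply,
    off_off (le_refl _)]

/-! ### paths -/

/-- start of a letter -/
def st (x : E' t r × Bool) : V' t r := if x.2 then src t r x.1 else tgt t r x.1

/-- end of a letter -/
def en (x : E' t r × Bool) : V' t r := if x.2 then tgt t r x.1 else src t r x.1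

/-- the vertex lies over the orbit `w(Γ)` -/
def Over (v : V' t r) : Prop := v.z ∈ Set.range t.w

/-- words which are edge paths from `v` to `v'` through vertices over `w(Γ)` -/
def Path : List (E' t r × Bool) → V' t r → V' t r → Prop
  | [], v, v' => v = v'
  | x :: L, v, v' => st t r x = v ∧ Over t r (st t r x) ∧ Over t r (en t r x) ∧
      Path L (en t r x) v'

theorem path_nil (v v' : V' t r) : Path t r [] v v' ↔ v = v' := Iff.rfl

theorem path_cons (x : E' t r × Bool) (L : List (E' t r × Bool)) (v v' : V' t r) :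
    Path t r (x :: L) v v' ↔ st t r x = v ∧ Over t r (st t r x) ∧ Over t r (en t r x) ∧
      Path t r L (en t r x) v' := Iff.rfl

theorem path_append (L L' : List (E' t r × Bool)) (v v'' : V' t r) :
    Path t r (L ++ L') v v'' ↔ ∃ v', Path t r L v v' ∧ Path t r L' v' v'' := by
  induction L generalizing v with
  | nil =>
    rw [List.nil_append]
    constructor
    · intro h; exact ⟨v, rfl, h⟩
    · rintro ⟨v', h, h'⟩
      rw [path_nil] at h
      rw [h]; exact h'
  | cons x L ih =>
    rw [List.cons_append, path_cons, ih]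
    constructor
    · rintro ⟨h1, h2, h3, v', h4, h5⟩
      exact ⟨v', ⟨h1, h2, h3, h4⟩, h5⟩
    · rintro ⟨v', ⟨h1, h2, h3, h4⟩, h5⟩
      exact ⟨h1, h2, h3, v', h4, h5⟩

theorem path_det {L : List (E' t r × Bool)} {v v' v'' : V' t r} (h : Path t r L v v')
    (h' : Path t r L v v'') : v' = v'' := by
  induction L generalizing v with
  | nil =>
    rw [path_nil] at h h'
    rw [← h, ← h']
  | cons x L ih => exact ih h.2.2.2 h'.2.2.2

theorem path_over {L : List (E' t r × Bool)} {v v' : V' t r} (h : Path t r L v v')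
    (hv : Over t r v) : Over t r v' := by
  induction L generalizing v with
  | nil => rw [path_nil] at h; rw [← h]; exact hv
  | cons x L ih => exact ih h.2.2.2 h.2.2.1

theorem st_not (a : E' t r) (b : Bool) : st t r (a, !b) = en t r (a, b) := by
  cases b <;> rfl

theorem en_not (a : E' t r) (b : Bool) : en t r (a, !b) = st t r (a, b) := by
  cases b <;> rfl

theorem path_step {L L' : List (E' t r × Bool)} (h : FreeGroup.Red.Step L L') {v v' : V' t r}
    (hp : Path t r L v v') : Path t r L' v v' := by
  cases h with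
  | @not L₁ L₂ x b =>
    rw [path_append] at hp ⊢
    obtain ⟨v1, h1, h2⟩ := hp
    rw [path_cons, path_cons] at h2
    obtain ⟨h3, -, -, h4, -, -, h5⟩ := h2
    rw [en_not, h3] at h5
    exact ⟨v1, h1, h5⟩

theorem path_red {L L' : List (E' t r × Bool)} (h : FreeGroup.Red L L') {v v' : V' t r}
    (hp : Path t r L v v') : Path t r L' v v' := by
  induction h with
  | refl => exact hp
  | tail _ h2 ih => exact path_step t r h2 ih

theorem path_reduce {L : List (E' t r × Bool)} {v v' : V' t r}
    (hp : Path t r L v v') : Path t r (FreeGroup.reduce L) v v' :=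
  path_red t r FreeGroup.reduce.red hp

theorem path_mul {x y : FreeGroup (E' t r)} {v v' v'' : V' t r}
    (hx : Path t r x.toWord v v') (hy : Path t r y.toWord v' v'') :
    Path t r (x * y).toWord v v'' := by
  rw [FreeGroup.toWord_mul]
  exact path_reduce t r ((path_append t r _ _ _ _).2 ⟨v', hx, hy⟩)

theorem path_invRev {L : List (E' t r × Bool)} {v v' : V' t r}
    (h : Path t r L v v') : Path t r (FreeGroup.invRev L) v' v := by
  induction L generalizing v with
  | nil =>
    rw [path_nil] at h
    rw [FreeGroup.invRev_empty, path_nil, h]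
  | cons x L ih =>
    rw [path_cons] at h
    obtain ⟨h1, h2, h3, h4⟩ := h
    rw [FreeGroup.invRev_cons, path_append]
    refine ⟨en t r x, ih h4, ?_⟩
    have e : FreeGroup.invRev [x] = [(x.1, !x.2)] := by simp [FreeGroup.invRev]
    rw [e, path_cons, path_nil, st_not, en_not]
    exact ⟨rfl, h3, h2, h1⟩

theorem path_inv {x : FreeGroup (E' t r)} {v v' : V' t r}
    (hx : Path t r x.toWord v v') : Path t r x⁻¹.toWord v' v := by
  rw [FreeGroup.toWord_inv]
  exact path_invRev t r hx

theorem over_act (a : Lamp Γ) {v : V' t r} (h : Over t r v) : Over t r (actV t r a v) := by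
  obtain ⟨g, hg⟩ := h
  refine ⟨a.pos * g, ?_⟩
  rw [actV_z, ← hg, star_w]

theorem st_act (a : Lamp Γ) (x : E' t r × Bool) :
    st t r (actE t r a x.1, x.2) = actV t r a (st t r x) := by
  obtain ⟨c, b⟩ := x
  cases b
  · exact tgt_act t r a c
  · exact src_act t r a c

theorem en_act (a : Lamp Γ) (x : E' t r × Bool) :
    en t r (actE t r a x.1, x.2) = actV t r a (en t r x) := by
  obtain ⟨c, b⟩ := x
  cases b
  · exact src_act t r a c
  · exact tgt_act t r a c

theorem path_map (a : Lamp Γ) {L : List (E' t r × Bool)} {v v' : V' t r}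
    (h : Path t r L v v') :
    Path t r (L.map fun y => (actE t r a y.1, y.2)) (actV t r a v) (actV t r a v') := by
  induction L generalizing v with
  | nil =>
    rw [path_nil] at h
    rw [List.map_nil, path_nil, h]
  | cons x L ih =>
    rw [path_cons] at h
    obtain ⟨h1, h2, h3, h4⟩ := h
    rw [List.map_cons, path_cons, st_act, en_act, h1]
    exact ⟨rfl, h1 ▸ over_act t r a h2, over_act t r a h3, ih h4⟩

/-! ### the new group -/

/-- the action of the lamplighter group on the free group on the edges -/
def phi : Lamp Γ →* MulAut (FreeGroup (E' t r)) where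
  toFun a := FreeGroup.freeGroupCongr (actE t r a)
  map_one' := by
    ext x
    show FreeGroup.map (⇑(actE t r 1)) x = x
    rw [map_one]
    exact FreeGroup.map.id x
  map_mul' a b := by
    ext x
    show FreeGroup.map (⇑(actE t r (a * b))) x =
      FreeGroup.map (actE t r a) (FreeGroup.map (actE t r b) x)
    rw [FreeGroup.map.comp, map_mul]
    rfl

theorem phi_apply (a : Lamp Γ) (x : FreeGroup (E' t r)) :
    phi t r a x = FreeGroup.map (actE t r a) x := rfl

theorem toWord_phi (a : Lamp Γ) (x : FreeGroup (E' t r)) :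
    (phi t r a x).toWord = x.toWord.map fun y => (actE t r a y.1, y.2) := by
  rw [phi_apply, toWord_map (actE t r a).injective]

theorem path_phi (a : Lamp Γ) {x : FreeGroup (E' t r)} {v v' : V' t r}
    (h : Path t r x.toWord v v') :
    Path t r (phi t r a x).toWord (actV t r a v) (actV t r a v') := by
  rw [toWord_phi]
  exact path_map t r a h

/-- the semidirect product of the free group on the edges and the lamplighter group -/
abbrev BigG := FreeGroup (E' t r) ⋊[phi t r] Lamp Γ

/-- the base vertex -/
def v0 : V' t r := ⟨0, 1, off_zero _⟩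

theorem over_v0 : Over t r (v0 t r) := ⟨1, w_one t⟩

/-- the new group: pairs of `g'` and a path (up to homotopy) from `v0` to `g' v0` -/
def Gn : Subgroup (BigG t r) where
  carrier := {p | Path t r p.left.toWord (v0 t r) (actV t r p.right (v0 t r))}
  mul_mem' {p q} hp hq := by
    show Path t r (p * q).left.toWord (v0 t r) (actV t r (p * q).right (v0 t r))
    rw [SemidirectProduct.mul_left, SemidirectProduct.mul_right, map_mul]
    exact path_mul t r hp (path_phi t r p.right hq)
  one_mem' := by
    show Path t r (1 : BigG t r).left.toWord (v0 t r) (actV t r (1 : BigG t r).right (v0 t r))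
    rw [SemidirectProduct.one_left, SemidirectProduct.one_right, map_one, FreeGroup.toWord_one]
    exact rfl
  inv_mem' {p} hp := by
    show Path t r (p⁻¹).left.toWord (v0 t r) (actV t r (p⁻¹).right (v0 t r))
    rw [SemidirectProduct.inv_left, SemidirectProduct.inv_right]
    have h1 := path_phi t r p.right⁻¹ (path_inv t r hp)
    rw [← Equiv.Perm.mul_apply, ← map_mul, inv_mul_cancel, map_one] at h1
    exact h1

theorem mem_Gn (p : BigG t r) :
    p ∈ Gn t r ↔ Path t r p.left.toWord (v0 t r) (actV t r p.right (v0 t r)) := Iff.rfl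

end

end MP7e.Next
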