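import Pool.Agent.Lib.MP_7e9852_an.GVN
import Pool.Agent.Lib.MP_7e9852_an.Defs

/-!
Specifications of the modules of the project. Every module proves
`theorem specXxx (hyps : other Specs) : SpecXxx`.
-/

namespace MP7e

open scoped InnerProductSpace TensorProduct ENNReal
open Filter Topology Classical

noncomputable section

/-! ### The tracial von Neumann algebra of a group -/

/-- `L(G)` as a tracial von Neumann algebra -/
def LGt (G : Type*) [Group G] : TracialVNA (L2 G) where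
  alg := LG G
  Ω := dl 1
  norm_Ω := norm_dl 1
  trace_comm x hx y hy := by
    have h := tr_mul_comm hx hy
    rwa [tr_eq_inner, tr_eq_inner] at h
  cyclic := by
    have h := dense_span_dl (X := G)
    refine h.mono ?_
    intro v hv
    refine Submodule.span_induction ?_ ?_ ?_ ?_ hv
    · rintro _ ⟨g, rfl⟩
      exact ⟨lam g, lam_mem g, by simp⟩
    · exact ⟨0, zero_mem _, by simp⟩
    · rintro a b - - ⟨x, hx, rfl⟩ ⟨y, hy, rfl⟩
      exact ⟨x + y, add_mem hx hy, rfl⟩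
    · rintro c a - ⟨x, hx, rfl⟩
      refine ⟨c • x, ?_, rfl⟩
      exact (LG G).toStarSubalgebra.toSubalgebra.smul_mem hx c

theorem LGt_τ (G : Type*) [Group G] (x : Op G) : (LGt G).τ x = tr x := (tr_eq_inner x).symm

/-! ### Multipliers -/

/-- A finitely supported Herz-Schur multiplier of `Γ` with an explicit factorization
`φ(s⁻¹ t) = ⟪β s, α t⟫`, `‖α t‖, ‖β s‖ ≤ C` -/
structure Multiplier (Γ : Type) [Group Γ] where
  φ : Γ → ℝ
  supp : Finset Γ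
  hsupp : ∀ g, g ∉ supp → φ g = 0
  C : ℝ
  Y : Type
  α : Γ → L2 Y
  β : Γ → L2 Y
  hα : BddBy α C
  hβ : BddBy β C
  fact : ∀ s t, ⟪β s, α t⟫_ℂ = (φ (s⁻¹ * t) : ℂ)

/-- a sequence of finitely supported multipliers with constants tending to `1` -/
structure CMAP (Γ : Type) [Group Γ] where
  m : ℕ → Multiplier Γ
  hC : Tendsto (fun n => (m n).C) atTop (𝓝 1)
  hφ : ∀ g, Tendsto (fun n => (m n).φ g) atTop (𝓝 1)
  h1 : ∀ n, (m n).φ 1 = 1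

/-- left translations by elements of `S` and right translations by elements of `S` are
asymptotically intertwined by a field of unit vectors -/
def BiFor (Γ : Type) [Group Γ] (S : Finset Γ) : Prop :=
  ∃ ζ : Γ → L2 Γ, (∀ g, ‖ζ g‖ = 1) ∧ ∀ s ∈ S, ∀ t ∈ S,
    Tendsto (fun g => ‖lam s (ζ g) - ζ (s * g * t)‖) cofinite (𝓝 0) ∧
    Tendsto (fun g => ‖lam s (ζ g) - ζ (s * g * t⁻¹)‖) cofinite (𝓝 0)

/-! ### Trees -/

/-- A proper action on a tree in terms of a cocycle with values in a free group `F(E)` on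
which `Γ` acts by permuting the generators: `Γ` acts on the Cayley tree of `F(E)` by
`g ⋆ v = w(g) g(v)`; `|w(g)|` is the distance from `1` to `g ⋆ 1`. -/
structure TreeGroup (Γ : Type) [Group Γ] where
  E : Type
  act : Γ →* Equiv.Perm E
  w : Γ → FreeGroup E
  cocycle : ∀ g h, w (g * h) = w g * FreeGroup.map (act g) (w h)
  proper : ∀ n : ℕ, {g | (w g).norm ≤ n}.Finite
  pref : ∀ g (L : List (E × Bool)), L <+: (w g).toWord → ∃ h, (w h).toWord = L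

/-- the length of `g` in the tree -/
def TreeGroup.len {Γ : Type} [Group Γ] (t : TreeGroup Γ) (g : Γ) : ℕ := (t.w g).norm

/-! ### Lamps -/

/-- translation of a finitely supported lamp configuration: `(shift h κ)(x) = κ(h⁻¹ x)` -/
def shift {H : Type} [Group H] (h : H) (κ : H →₀ ZMod 2) : H →₀ ZMod 2 :=
  Finsupp.equivMapDomain (Equiv.mulLeft h) κ

theorem shift_apply {H : Type} [Group H] (h : H) (κ : H →₀ ZMod 2) (x : H) :
    shift h κ x = κ (h⁻¹ * x) := by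
  unfold shift
  rw [Finsupp.equivMapDomain_apply]
  simp

theorem shift_one {H : Type} [Group H] (κ : H →₀ ZMod 2) : shift 1 κ = κ := by
  ext x; rw [shift_apply]; simp

theorem shift_mul {H : Type} [Group H] (g h : H) (κ : H →₀ ZMod 2) :
    shift (g * h) κ = shift g (shift h κ) := by
  ext x; rw [shift_apply, shift_apply, shift_apply]; simp [mul_assoc]

theorem shift_add {H : Type} [Group H] (h : H) (κ κ' : H →₀ ZMod 2) :
    shift h (κ + κ') = shift h κ + shift h κ' := by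
  ext x; simp [shift_apply]

theorem shift_zero {H : Type} [Group H] (h : H) : shift h (0 : H →₀ ZMod 2) = 0 := by
  ext x; simp [shift_apply]

theorem shift_neg {H : Type} [Group H] (h : H) (κ : H →₀ ZMod 2) :
    shift h (-κ) = -shift h κ := by
  ext x; simp [shift_apply]

/-- the lamplighter group `(⊕_H Z/2) ⋊ H` -/
@[ext] structure Lamp (H : Type) where
  lamp : H →₀ ZMod 2
  pos : H

instance (H : Type) [Group H] : Group (Lamp H) where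
  mul a b := ⟨a.lamp + shift a.pos b.lamp, a.pos * b.pos⟩
  one := ⟨0, 1⟩
  inv a := ⟨-shift a.pos⁻¹ a.lamp, a.pos⁻¹⟩
  mul_assoc a b c := by
    apply Lamp.ext
    · show (a.lamp + shift a.pos b.lamp) + shift (a.pos * b.pos) c.lamp =
        a.lamp + shift a.pos (b.lamp + shift b.pos c.lamp)
      rw [shift_add, shift_mul, add_assoc]
    · exact mul_assoc _ _ _
  one_mul a := by
    apply Lamp.ext
    · show 0 + shift 1 a.lamp = a.lamp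
      rw [shift_one, zero_add]
    · exact one_mul _
  mul_one a := by
    apply Lamp.ext
    · show a.lamp + shift a.pos 0 = a.lamp
      rw [shift_zero, add_zero]
    · exact mul_one _
  inv_mul_cancel a := by
    apply Lamp.ext
    · show -shift a.pos⁻¹ a.lamp + shift a.pos⁻¹ a.lamp = 0
      exact neg_add_cancel _
    · exact inv_mul_cancel _

theorem Lamp.mul_lamp {H : Type} [Group H] (a b : Lamp H) :
    (a * b).lamp = a.lamp + shift a.pos b.lamp := rfl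

theorem Lamp.mul_pos {H : Type} [Group H] (a b : Lamp H) : (a * b).pos = a.pos * b.pos := rfl

theorem Lamp.one_lamp {H : Type} [Group H] : (1 : Lamp H).lamp = 0 := rfl

theorem Lamp.one_pos {H : Type} [Group H] : (1 : Lamp H).pos = 1 := rfl

/-! ### The specifications: functional analysis -/

/-- SD (Hahn-Banach and Powers-Stormer): almost central Hilbert-Schmidt vectors -/
def SpecSD : Prop :=
  ∀ (X : Type) (φ : Op X →ₗ[ℂ] ℂ), IsState φ → ∀ (us xs : Finset (Op X)),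
    (∀ u ∈ us, u ∈ unitary (Op X) ∧ ∀ T, φ (u * T * star u) = φ T) → ∀ ε : ℝ, 0 < ε →
    ∃ t : L2 (X × X), ‖t‖ = 1 ∧
      (∀ u ∈ us, ‖op2 u (cjOp u) t - t‖ ≤ ε) ∧
      ∀ x ∈ xs, ‖⟪t, opL X X x t⟫_ℂ - φ x‖ ≤ ε

/-- DIFF: a diffuse von Neumann algebra has finite partitions of unity of small trace -/
def SpecDiff : Prop :=
  ∀ (K : Type) [NormedAddCommGroup K] [InnerProductSpace ℂ K] [CompleteSpace K]
    (N : TracialVNA K) (A : VonNeumannAlgebra K), A ≤ N.alg → Diffuse A → ∀ ε : ℝ, 0 < ε →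
    ∃ (m : ℕ) (p : Fin m → K →L[ℂ] K), (∀ i, p i ∈ A ∧ IsProj (p i)) ∧
      (∀ i j, i ≠ j → p i * p j = 0) ∧ ∑ i, p i = 1 ∧ ∀ i, ‖p i N.Ω‖ ^ 2 ≤ ε

/-- the operator `ξ ↦ u ξ u*` -/
def adOp {G : Type*} [Group G] (u : Op G) : Op G := u * rgt (star u)

/-- GEN: a state extending the trace which is central for a set is central for the von Neumann
algebra it generates -/
def SpecGen : Prop :=
  ∀ (K : Type) [NormedAddCommGroup K] [InnerProductSpace ℂ K] [CompleteSpace K]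
    (N : TracialVNA K) (φ : (K →L[ℂ] K) →ₗ[ℂ] ℂ), IsState φ → (∀ x ∈ N.alg, φ x = N.τ x) →
    ∀ S : Set (K →L[ℂ] K), (∀ s ∈ S, s ∈ N.alg) →
    (∀ s ∈ S, ∀ T, φ (s * T) = φ (T * s)) → (∀ s ∈ S, ∀ T, φ (star s * T) = φ (T * star s)) →
    vnGen S ≤ N.alg ∧ ∀ x ∈ vnGen S, ∀ T, φ (x * T) = φ (T * x)

/-- AU: adding a normalizing unitary keeps amenability -/
def SpecAU : Prop :=
  ∀ (K : Type) [NormedAddCommGroup K] [InnerProductSpace ℂ K] [CompleteSpace K]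
    (N : TracialVNA K) (A : VonNeumannAlgebra K), A ≤ N.alg → Amenable N A →
    ∀ u ∈ normalizer N.alg A, Amenable N (vnGen ((A : Set (K →L[ℂ] K)) ∪ {u}))

/-- the C*-algebra generated by the operators `x ⊗ b̄`, `x ∈ L(Γ)`, `b ∈ Q` -/
def TA (Γ : Type) [Group Γ] (Q : VonNeumannAlgebra (L2 Γ)) : StarSubalgebra ℂ (Op (Γ × Γ)) :=
  (StarAlgebra.adjoin ℂ
    {T : Op (Γ × Γ) | ∃ x ∈ LG Γ, ∃ b ∈ Q, T = op2 x (cjOp b)}).topologicalClosure

/-- the trace functional on operators of `ℓ²(Γ × Γ)` -/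
def tr2 {Γ : Type} [Group Γ] (z : Op (Γ × Γ)) : ℂ := ⟪dl (1, 1), z (dl (1, 1))⟫_ℂ

/-- the diagonal functional `z ↦ ∑_g φ(g) z(g, g)` of a multiplier -/
def Dm {Γ : Type} [Group Γ] (m : Multiplier Γ) (z : Op (Γ × Γ)) : ℂ :=
  ∑ g ∈ m.supp, (m.φ g : ℂ) * (z (dl (1, 1)) : Γ × Γ → ℂ) (g, g)

/-- W1: the diagonal functional is bounded by the multiplier constant on `C*(L(Γ) ⊗ Q̄)` for
amenable `Q` -/
def SpecW1 : Prop :=
  ∀ (Γ : Type) [Group Γ] (m : Multiplier Γ) (Q : VonNeumannAlgebra (L2 Γ)), Q ≤ LG Γ →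
    Amenable (LGt Γ) Q → ∀ z ∈ TA Γ Q, ‖Dm m z‖ ≤ m.C ^ 2 * ‖z‖

/-- INV: an almost-state which is almost `1` at a unitary is almost invariant -/
def SpecInv : Prop :=
  ∀ (K : Type) [NormedAddCommGroup K] [InnerProductSpace ℂ K] [CompleteSpace K]
    (B : StarSubalgebra ℂ (K →L[ℂ] K)) (D : (K →L[ℂ] K) →ₗ[ℂ] ℂ) (ε : ℝ), 0 < ε → ε ≤ 1 →
    (∀ z ∈ B, ‖D z‖ ≤ (1 + ε) * ‖z‖) → ‖D 1 - 1‖ ≤ ε →
    ∀ W ∈ B, W ∈ unitary (K →L[ℂ] K) → ‖D W - 1‖ ≤ ε →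
    ∀ z ∈ B, ‖D (W * z) - D z‖ ≤ 20 * Real.sqrt ε * ‖z‖ ∧
      ‖D (z * W) - D z‖ ≤ 20 * Real.sqrt ε * ‖z‖

/-- PS1: from an almost positive `y` in a C*-algebra with trace to a positive square root -/
def SpecPS1 : Prop :=
  ∀ (K : Type) [NormedAddCommGroup K] [InnerProductSpace ℂ K] [CompleteSpace K]
    (B : StarSubalgebra ℂ (K →L[ℂ] K)) (Ω : K), IsClosed (B : Set (K →L[ℂ] K)) → ‖Ω‖ = 1 →
    (∀ x ∈ B, ∀ y ∈ B, ⟪Ω, (x * y) Ω⟫_ℂ = ⟪Ω, (y * x) Ω⟫_ℂ) →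
    ∀ y ∈ B, ∀ ε : ℝ, 0 < ε → ε ≤ 1 →
    (∀ z ∈ B, ‖⟪Ω, (z * star y) Ω⟫_ℂ‖ ≤ (1 + ε) * ‖z‖) → ‖⟪Ω, (star y) Ω⟫_ℂ - 1‖ ≤ ε →
    ∃ ξ ∈ B, ξ.IsPositive ∧ |‖ξ Ω‖ ^ 2 - 1| ≤ 2 * ε ∧
      ∀ z ∈ B, ‖⟪Ω, (z * star y) Ω⟫_ℂ - ⟪Ω, (z * (ξ * ξ)) Ω⟫_ℂ‖ ≤ 8 * Real.sqrt ε * ‖z‖

/-- PS2: the Powers-Stormer inequality in a C*-algebra with trace -/
def SpecPS2 : Prop :=
  ∀ (K : Type) [NormedAddCommGroup K] [InnerProductSpace ℂ K] [CompleteSpace K]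
    (B : StarSubalgebra ℂ (K →L[ℂ] K)) (Ω : K), IsClosed (B : Set (K →L[ℂ] K)) →
    (∀ x ∈ B, ∀ y ∈ B, ⟪Ω, (x * y) Ω⟫_ℂ = ⟪Ω, (y * x) Ω⟫_ℂ) →
    ∀ c ∈ B, ∀ d ∈ B, c.IsPositive → d.IsPositive → ∀ η : ℝ, 0 ≤ η →
    (∀ z ∈ B, ‖⟪Ω, (z * (c * c)) Ω⟫_ℂ - ⟪Ω, (z * (d * d)) Ω⟫_ℂ‖ ≤ η * ‖z‖) →
    ‖c Ω - d Ω‖ ^ 2 ≤ η

/-- WC: weak compactness (Ozawa-Popa) -/
def SpecWC : Prop :=
  ∀ (Γ : Type) [Group Γ], CMAP Γ → ∀ A : VonNeumannAlgebra (L2 Γ), A ≤ LG Γ →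
    Amenable (LGt Γ) A → ∃ ξ : ℕ → L2 (Γ × Γ),
      Tendsto (fun n => ‖ξ n‖) atTop (𝓝 1) ∧
      (∀ a ∈ A, a ∈ unitary (Op Γ) →
        Tendsto (fun n => ‖op2 a (cjOp a) (ξ n) - ξ n‖) atTop (𝓝 0)) ∧
      (∀ u ∈ normalizer (LG Γ) A,
        Tendsto (fun n => ‖op2 (adOp u) (adOp (cjOp u)) (ξ n) - ξ n‖) atTop (𝓝 0)) ∧
      (∀ x ∈ LG Γ, Tendsto (fun n => ⟪ξ n, opL Γ Γ x (ξ n)⟫_ℂ) atTop (𝓝 (tr x)) ∧
        Tendsto (fun n => ⟪ξ n, opL Γ Γ (rgt x) (ξ n)⟫_ℂ) atTop (𝓝 (tr x)))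

/-- FIN: the final argument -/
def SpecFin : Prop :=
  ∀ (Γ : Type) [Group Γ] (c : CMAP Γ), (∀ n, BiFor Γ (c.m n).supp) → StronglySolid (LGt Γ)

/-! ### The specifications: groups -/

/-- MT: multipliers of an overgroup of a tree group -/
def SpecMT : Prop :=
  ∀ (H : Type) [Group H] (K : Subgroup H), TreeGroup K → ∀ F : Finset H, (∀ g ∈ F, g ∈ K) →
    ∀ ε : ℝ, 0 < ε → ∃ m : Multiplier H, m.φ 1 = 1 ∧ m.C ≤ 1 + ε ∧
      (∀ g ∈ F, |m.φ g - 1| ≤ ε) ∧ ∀ g ∈ m.supp, g ∈ K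

/-- BI: the field of unit vectors for an almost malnormal tree subgroup -/
def SpecBI : Prop :=
  ∀ (H : Type) [Group H] (K : Subgroup H), TreeGroup K →
    (∀ x, x ∉ K → {g | g ∈ K ∧ x⁻¹ * g * x ∈ K}.Finite) →
    ∃ ζ : H → L2 H, (∀ g, ‖ζ g‖ = 1) ∧ ∀ s ∈ K, ∀ t ∈ K,
      Tendsto (fun g => ‖lam s (ζ g) - ζ (s * g * t)‖) cofinite (𝓝 0)

/-- one step of the construction of the group -/
structure Step {Γ Γ' : Type} [Group Γ] [Group Γ'] (t : TreeGroup Γ) (t' : TreeGroup Γ')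
    (r : ℕ) where
  ι : Γ →* Γ'
  inj : Function.Injective ι
  len_eq : ∀ g, t'.len (ι g) = t.len g
  mal : ∀ x, x ∉ Set.range ι → {g : Γ | ∃ g', ι g * x = x * ι g'}.Finite
  β : (Γ →₀ ZMod 2) → Γ'
  β_add : ∀ κ κ' : Γ →₀ ZMod 2, (∀ s ∈ κ.support, t.len s ≤ r) →
    (∀ s ∈ κ'.support, t.len s ≤ r) → β (κ + κ') = β κ * β κ'
  β_conj : ∀ (h : Γ) (κ : Γ →₀ ZMod 2), (∀ s ∈ κ.support, t.len h + t.len s ≤ r) →
    ι h * β κ * (ι h)⁻¹ = β (shift h κ)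
  β_ne : ∀ κ : Γ →₀ ZMod 2, κ ≠ 0 → (∀ s ∈ κ.support, t.len s ≤ r) → β κ ∉ Set.range ι
  esc : ∀ g, g ≠ 1 → β (Finsupp.single 1 1) * ι g * (β (Finsupp.single 1 1))⁻¹ ∉ Set.range ι

/-- NEXT: existence of the next group -/
def SpecNext : Prop :=
  ∀ (Γ : Type) [Group Γ] (t : TreeGroup Γ) (r : ℕ),
    ∃ (Γ' : Type) (_ : Group Γ') (t' : TreeGroup Γ'), Nonempty (Step t t' r)

/-- the properties of the limit group -/
structure Tower (H : Type) [Group H] where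
  Hk : ℕ → Subgroup H
  mono : Monotone Hk
  exh : ∀ g, ∃ k, g ∈ Hk k
  tree : ∀ k, TreeGroup (Hk k)
  mal : ∀ k x, x ∉ Hk k → {g | g ∈ Hk k ∧ x⁻¹ * g * x ∈ Hk k}.Finite
  β : ℕ → (H →₀ ZMod 2) → H
  β_add : ∀ κ κ' : H →₀ ZMod 2, ∀ᶠ k in atTop, β k (κ + κ') = β k κ * β k κ'
  β_conj : ∀ (h : H) (κ : H →₀ ZMod 2), ∀ᶠ k in atTop, h * β k κ * h⁻¹ = β k (shift h κ)
  β_ne : ∀ κ : H →₀ ZMod 2, κ ≠ 0 → ∀ h : H, ∀ᶠ k in atTop, β k κ ≠ h
  icc : ∀ g : H, g ≠ 1 → {x | ∃ y : H, x = y * g * y⁻¹}.Infinite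
  free : ∃ f : FreeGroup Bool →* H, Function.Injective f

/-- LIM: the limit group exists -/
def SpecLim : Prop := ∃ (H : Type) (_ : Group H), Nonempty (Tower H)

/-! ### The specifications: the extension -/

/-- the properties of `β` needed for the existential embedding -/
def LampApprox (H : Type) [Group H] (β : ℕ → (H →₀ ZMod 2) → H) : Prop :=
  (∀ κ κ' : H →₀ ZMod 2, ∀ᶠ k in atTop, β k (κ + κ') = β k κ * β k κ') ∧
  (∀ (h : H) (κ : H →₀ ZMod 2), ∀ᶠ k in atTop, h * β k κ * h⁻¹ = β k (shift h κ)) ∧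
  (∀ κ : H →₀ ZMod 2, κ ≠ 0 → ∀ h : H, ∀ᶠ k in atTop, β k κ ≠ h)

/-- EXI: `L(H) ⊂ L(Z/2 ≀ H)` is existential -/
def SpecExi : Prop :=
  ∀ (H : Type) [Group H] (β : ℕ → (H →₀ ZMod 2) → H), LampApprox H β →
    ∃ ι : (LGt H).El →⋆ₐ[ℂ] (LGt (Lamp H)).El,
      (∀ x : (LGt H).El, (LGt (Lamp H)).τ (ι x : Op (Lamp H)) = (LGt H).τ (x : Op H)) ∧
      ∀ U : Ultrafilter ℕ, (U : Filter ℕ) ≤ atTop → ExistentialLift (LGt H) (LGt (Lamp H)) ι U

/-- CAR: `L(⊕_H Z/2)` is a Cartan subalgebra of `L(Z/2 ≀ H)` -/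
def SpecCar : Prop :=
  ∀ (H : Type) [Group H] [Infinite H], ∃ A, IsCartan (LGt (Lamp H)) A

/-- FAC: group factors -/
def SpecFac : Prop :=
  ∀ (G : Type) [Group G], (∀ g : G, g ≠ 1 → {x | ∃ y : G, x = y * g * y⁻¹}.Infinite) →
    Infinite G → IsII1Factor (LGt G)

/-- NA: groups containing a free group have nonamenable von Neumann algebras -/
def SpecNA : Prop :=
  ∀ (G : Type) [Group G], (∃ f : FreeGroup Bool →* G, Function.Injective f) →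
    ¬ Amenable (LGt G) (LG G)

end

end MP7e
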