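import Pool.Agent.Lib.MP_7e9852_an.Inv

/-!
Specifications of the pieces of the final argument.
-/

namespace MP7e

open scoped InnerProductSpace TensorProduct ENNReal
open Filter Topology Classical

noncomputable section

/-- ESC: escape of mass -/
def SpecEsc : Prop :=
  ∀ (Γ : Type) [Group Γ] (A : VonNeumannAlgebra (L2 Γ)), A ≤ LG Γ → Diffuse A →
    ∀ ξ : ℕ → L2 (Γ × Γ), Tendsto (fun n => ‖ξ n‖) atTop (𝓝 1) →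
    (∀ a ∈ A, a ∈ unitary (Op Γ) →
      Tendsto (fun n => ‖op2 a (cjOp a) (ξ n) - ξ n‖) atTop (𝓝 0)) →
    ∀ g : Γ, Tendsto (fun n => ∑' z : Γ, ‖(ξ n : Γ × Γ → ℂ) (g, z)‖ ^ 2) atTop (𝓝 0)

/-- MASS: a block operator with coefficients tending to zero kills an escaping sequence -/
def SpecMass : Prop :=
  ∀ (Γ Y : Type) (ξ : ℕ → L2 (Γ × Γ)), Tendsto (fun n => ‖ξ n‖) atTop (𝓝 1) →
    (∀ g : Γ, Tendsto (fun n => ∑' z : Γ, ‖(ξ n : Γ × Γ → ℂ) (g, z)‖ ^ 2) atTop (𝓝 0)) →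
    ∀ (α : Γ × Γ → L2 Y) (C : ℝ) (hα : BddBy α C) (c : Γ → ℝ),
      (∀ g z, ‖α (g, z)‖ ≤ c g) → Tendsto c cofinite (𝓝 0) →
      Tendsto (fun n => ‖vop α hα (ξ n)‖) atTop (𝓝 0)

/-- a field of unit vectors -/
def UnitField {Γ : Type} (ζ : Γ → L2 Γ) : Prop := ∀ g, ‖ζ g‖ = 1

theorem UnitField.bdd {Γ : Type} {ζ : Γ → L2 Γ} (hζ : UnitField ζ) :
    BddBy (fun p : Γ × Γ => ζ p.1) 1 := ⟨zero_le_one, fun p => (hζ p.1).le⟩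

/-- the bijection `(x, (g, z)) ↦ (x, (x⁻¹ g, z))` -/
def eBi (Γ : Type) [Group Γ] : Γ × (Γ × Γ) ≃ Γ × (Γ × Γ) where
  toFun p := (p.1, (p.1⁻¹ * p.2.1, p.2.2))
  invFun p := (p.1, (p.1 * p.2.1, p.2.2))
  left_inv p := by
    obtain ⟨x, g, z⟩ := p
    simp
  right_inv p := by
    obtain ⟨x, g, z⟩ := p
    simp

/-- the isometry `(V ξ)(x, x', z) = ζ_{x x'}(x) ξ(x x', z)` -/
def VBi {Γ : Type} [Group Γ] {ζ : Γ → L2 Γ} (hζ : UnitField ζ) :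
    L2 (Γ × Γ) →L[ℂ] L2 (Γ × (Γ × Γ)) :=
  perm (eBi Γ) ∘L vop (fun p : Γ × Γ => ζ p.1) hζ.bdd

/-- VBI: `V` is an isometry commuting with operators on the last leg, and it asymptotically
intertwines left and right translations (uses MASS) -/
def SpecVBi : Prop :=
  ∀ (Γ : Type) [Group Γ] (ζ : Γ → L2 Γ) (hζ : UnitField ζ),
    (∀ f, ‖VBi hζ f‖ = ‖f‖) ∧
    (∀ S : Op Γ, opR Γ (Γ × Γ) (opR Γ Γ S) ∘L VBi hζ = VBi hζ ∘L opR Γ Γ S) ∧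
    ∀ ξ : ℕ → L2 (Γ × Γ), Tendsto (fun n => ‖ξ n‖) atTop (𝓝 1) →
    (∀ g : Γ, Tendsto (fun n => ∑' z : Γ, ‖(ξ n : Γ × Γ → ℂ) (g, z)‖ ^ 2) atTop (𝓝 0)) →
    ∀ s t : Γ, Tendsto (fun g => ‖lam s (ζ g) - ζ (s * g * t⁻¹)‖) cofinite (𝓝 0) →
    Tendsto (fun n => ‖op2 (lam s) (op2 (rho t) (1 : Op Γ)) (VBi hζ (ξ n)) -
      VBi hζ (op2 (lam s * rho t) (1 : Op Γ) (ξ n))‖) atTop (𝓝 0)

/-- the element `∑ φ(g) x(g) λ_g` of the group algebra -/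
def mulBy {Γ : Type} [Group Γ] (m : Multiplier Γ) (x : Op Γ) : Op Γ :=
  ∑ g ∈ m.supp, ((m.φ g : ℂ) * (x (dl 1) : Γ → ℂ) g) • lam g

/-- the left vectors of the two-leg multiplier -/
def α3 {Γ : Type} [Group Γ] (m : Multiplier Γ) (p : Γ × (Γ × Γ)) : L2 (m.Y × m.Y) :=
  tens (m.α p.1⁻¹) (m.α p.2.1)

/-- the right vectors of the two-leg multiplier -/
def β3 {Γ : Type} [Group Γ] (m : Multiplier Γ) (p : Γ × (Γ × Γ)) : L2 (m.Y × m.Y) :=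
  tens (m.β p.1⁻¹) (m.β p.2.1)

theorem α3_bdd {Γ : Type} [Group Γ] (m : Multiplier Γ) : BddBy (α3 m) (m.C ^ 2) := by
  refine ⟨by positivity, fun p => ?_⟩
  unfold α3
  rw [norm_tens, sq]
  exact mul_le_mul (m.hα.2 _) (m.hα.2 _) (norm_nonneg _) m.hα.1

theorem β3_bdd {Γ : Type} [Group Γ] (m : Multiplier Γ) : BddBy (β3 m) (m.C ^ 2) := by
  refine ⟨by positivity, fun p => ?_⟩
  unfold β3
  rw [norm_tens, sq]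
  exact mul_le_mul (m.hβ.2 _) (m.hβ.2 _) (norm_nonneg _) m.hβ.1

/-- the two-leg multiplier on operators of `ℓ²(Γ × Γ × Γ)` -/
def m3 {Γ : Type} [Group Γ] (m : Multiplier Γ) (T : Op (Γ × (Γ × Γ))) : Op (Γ × (Γ × Γ)) :=
  schur (α3 m) (β3 m) (α3_bdd m) (β3_bdd m) T

/-- M3: the two-leg multiplier on elementary tensors; properties of `mulBy` -/
def SpecM3 : Prop :=
  ∀ (Γ : Type) [Group Γ] (m : Multiplier Γ),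
    (∀ x ∈ LG Γ, ∀ y ∈ LG Γ, ∀ S : Op Γ,
      m3 m (op2 x (op2 (rgt (star y)) S)) = op2 (mulBy m x) (op2 (rgt (star (mulBy m y))) S)) ∧
    (∀ x ∈ LG Γ, ‖mulBy m x‖ ≤ m.C ^ 2 * ‖x‖) ∧
    (∀ x, mulBy m x ∈ LG Γ)

/-- MC: convergence of multipliers in 2-norm -/
def SpecMC : Prop :=
  ∀ (Γ : Type) [Group Γ] (c : CMAP Γ) (x : Op Γ), x ∈ LG Γ →
    Tendsto (fun n => ‖(mulBy (c.m n) x - x) (dl 1)‖) atTop (𝓝 0) ∧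
    Tendsto (fun n => ∑ g ∈ (c.m n).supp, (c.m n).φ g * ‖(x (dl 1) : Γ → ℂ) g‖ ^ 2) atTop
      (𝓝 (‖x (dl 1)‖ ^ 2))

/-- WU: the value of the two-leg functional at `W_u`, in the limit `n → ∞` -/
def SpecWu : Prop :=
  ∀ (Γ : Type) [Group Γ] (m : Multiplier Γ) (ζ : Γ → L2 Γ) (hζ : UnitField ζ),
    (∀ s ∈ m.supp, ∀ t ∈ m.supp,
      Tendsto (fun g => ‖lam s (ζ g) - ζ (s * g * t⁻¹)‖) cofinite (𝓝 0)) →
    ∀ ξ : ℕ → L2 (Γ × Γ), Tendsto (fun n => ‖ξ n‖) atTop (𝓝 1) →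
    (∀ g : Γ, Tendsto (fun n => ∑' z : Γ, ‖(ξ n : Γ × Γ → ℂ) (g, z)‖ ^ 2) atTop (𝓝 0)) →
    ∀ x ∈ LG Γ, ∀ y ∈ LG Γ, ∀ S : Op Γ,
      Tendsto (fun n => ⟪VBi hζ (ξ n), m3 m (op2 x (op2 (rgt (star y)) S)) (VBi hζ (ξ n))⟫_ℂ -
        ⟪ξ n, op2 (mulBy m x * rgt (star (mulBy m y))) S (ξ n)⟫_ℂ) atTop (𝓝 0)

end

end MP7e
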