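import Pool.Agent.Lib.MP_7e9852_an.Defs

/-!
Embeddings of tracial von Neumann algebras, the tracial ultrapower `N^U` as the quotient of
the bounded sequences, and existential embeddings.
-/

namespace MP7e

open scoped InnerProductSpace
open Filter Topology

noncomputable section

/-- A unital `*`-homomorphism of complex `*`-algebras. -/
structure IsStarHom {A B : Type} [One A] [Add A] [Mul A] [SMul ℂ A] [Star A]
    [One B] [Add B] [Mul B] [SMul ℂ B] [Star B] (f : A → B) : Prop where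
  map_one : f 1 = 1
  map_add : ∀ x y, f (x + y) = f x + f y
  map_mul : ∀ x y, f (x * y) = f x * f y
  map_smul : ∀ (c : ℂ) (x : A), f (c • x) = c • f x
  map_star : ∀ x, f (star x) = star (f x)

/-- A tracial von Neumann algebra in its standard representation, together with its Hilbert
space `K = L²(N, τ)`. -/
structure TVN where
  /-- the Hilbert space -/
  K : Type
  [instGroup : NormedAddCommGroup K]
  [instInner : InnerProductSpace ℂ K]
  [instComplete : CompleteSpace K]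
  /-- the tracial von Neumann algebra -/
  vna : TracialVNA K

attribute [instance] TVN.instGroup TVN.instInner TVN.instComplete

namespace TVN

variable {N : TVN}

/-- the bounded operators on the Hilbert space -/
abbrev B (N : TVN) : Type := N.K →L[ℂ] N.K

theorem smul_mem (c : ℂ) {x : N.B} (hx : x ∈ N.vna.alg) : c • x ∈ N.vna.alg :=
  N.vna.alg.toStarSubalgebra.toSubalgebra.smul_mem hx c

/-- the elements of the von Neumann algebra -/
def El (N : TVN) : Type := {x : N.B // x ∈ N.vna.alg}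

/-- an element as an operator -/
def El.op (x : N.El) : N.B := x.1

instance : One N.El := ⟨⟨1, one_mem _⟩⟩

instance : Add N.El := ⟨fun x y => ⟨x.op + y.op, add_mem x.2 y.2⟩⟩

instance : Mul N.El := ⟨fun x y => ⟨x.op * y.op, mul_mem x.2 y.2⟩⟩

instance : SMul ℂ N.El := ⟨fun c x => ⟨c • x.op, smul_mem c x.2⟩⟩

instance : Star N.El := ⟨fun x => ⟨star x.op, star_mem x.2⟩⟩

/-- the trace `τ` -/
def El.tr (x : N.El) : ℂ := N.vna.τ x.op

/-- the bounded sequences of elements of `N` -/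
def BddSeq (N : TVN) : Type := {x : ℕ → N.El // ∃ C : ℝ, ∀ n, ‖(x n).op‖ ≤ C}

/-- the sequence of an element of `BddSeq` -/
def BddSeq.seq (x : N.BddSeq) : ℕ → N.El := x.1

theorem BddSeq.bdd (x : N.BddSeq) : ∃ C : ℝ, ∀ n, ‖(x.seq n).op‖ ≤ C := x.2

instance : One N.BddSeq := ⟨⟨fun _ => 1, ‖(1 : N.El).op‖, fun _ => le_rfl⟩⟩

instance : Add N.BddSeq := ⟨fun x y => ⟨fun n => x.seq n + y.seq n, by
  obtain ⟨C, hC⟩ := x.bdd
  obtain ⟨D, hD⟩ := y.bdd
  exact ⟨C + D, fun n => (norm_add_le _ _).trans (add_le_add (hC n) (hD n))⟩⟩⟩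

instance : Mul N.BddSeq := ⟨fun x y => ⟨fun n => x.seq n * y.seq n, by
  obtain ⟨C, hC⟩ := x.bdd
  obtain ⟨D, hD⟩ := y.bdd
  exact ⟨C * D, fun n => (norm_mul_le _ _).trans (mul_le_mul (hC n) (hD n)
      (norm_nonneg _) ((norm_nonneg _).trans (hC n)))⟩⟩⟩

instance : SMul ℂ N.BddSeq := ⟨fun c x => ⟨fun n => c • x.seq n, by
  obtain ⟨C, hC⟩ := x.bdd
  exact ⟨‖c‖ * C, fun n => (norm_smul_le c (x.seq n).op).trans
    (mul_le_mul_of_nonneg_left (hC n) (norm_nonneg _))⟩⟩⟩

instance : Star N.BddSeq := ⟨fun x => ⟨fun n => star (x.seq n), by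
  obtain ⟨C, hC⟩ := x.bdd
  exact ⟨C, fun n => (norm_star (x.seq n).op).le.trans (hC n)⟩⟩⟩

/-- the `2`-norm `‖T‖₂ = ‖T Ω‖`, which is `τ(T* T)^(1/2)` -/
def nrm2 (N : TVN) (T : N.B) : ℝ := ‖T N.vna.Ω‖

theorem nrm2_nonneg (T : N.B) : 0 ≤ N.nrm2 T := norm_nonneg _

theorem nrm2_add_le (S T : N.B) : N.nrm2 (S + T) ≤ N.nrm2 S + N.nrm2 T :=
  norm_add_le (S N.vna.Ω) (T N.vna.Ω)

theorem nrm2_zero : N.nrm2 0 = 0 := norm_zero

theorem nrm2_smul (c : ℂ) (T : N.B) : N.nrm2 (c • T) = ‖c‖ * N.nrm2 T :=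
  norm_smul c (T N.vna.Ω)

theorem nrm2_neg (T : N.B) : N.nrm2 (-T) = N.nrm2 T := norm_neg (T N.vna.Ω)

theorem nrm2_mul_le (S T : N.B) : N.nrm2 (S * T) ≤ ‖S‖ * N.nrm2 T := S.le_opNorm (T N.vna.Ω)

theorem nrm2_sq (T : N.B) : ((N.nrm2 T ^ 2 : ℝ) : ℂ) = N.vna.τ (star T * T) := by
  have h1 : N.vna.τ (star T * T) = ⟪N.vna.Ω, (star T) (T N.vna.Ω)⟫_ℂ := rfl
  rw [h1, ContinuousLinearMap.star_eq_adjoint, ContinuousLinearMap.adjoint_inner_right,
    inner_self_eq_norm_sq_to_K]
  unfold nrm2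
  push_cast
  rfl

theorem nrm2_star {T : N.B} (hT : T ∈ N.vna.alg) : N.nrm2 (star T) = N.nrm2 T := by
  have h1 := nrm2_sq T
  have h2 := nrm2_sq (star T)
  have h3 : N.vna.τ (T * star T) = N.vna.τ (star T * T) :=
    N.vna.trace_comm T hT (star T) (star_mem hT)
  rw [star_star, h3, ← h1] at h2
  have h4 : N.nrm2 (star T) ^ 2 = N.nrm2 T ^ 2 := by exact_mod_cast h2
  exact (sq_eq_sq₀ (nrm2_nonneg _) (nrm2_nonneg _)).1 h4

theorem nrm2_mul_le' {S T : N.B} (hS : S ∈ N.vna.alg) (hT : T ∈ N.vna.alg) :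
    N.nrm2 (S * T) ≤ ‖T‖ * N.nrm2 S := by
  rw [← nrm2_star (mul_mem hS hT), star_mul, ← nrm2_star hS]
  have h : ‖T‖ = ‖star T‖ := (norm_star T).symm
  rw [h]
  exact nrm2_mul_le _ _

theorem norm_τ_le (T : N.B) : ‖N.vna.τ T‖ ≤ N.nrm2 T := by
  refine (norm_inner_le_norm _ _).trans ?_
  rw [N.vna.norm_Ω, one_mul]
  exact le_rfl

theorem nrm2_le (T : N.B) : N.nrm2 T ≤ ‖T‖ := by
  have h := T.le_opNorm N.vna.Ω
  rw [N.vna.norm_Ω, mul_one] at h
  exact h

/-- `‖x_n - y_n‖₂ → 0` along the ultrafilter `U` -/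
def UEqv (U : Ultrafilter ℕ) (x y : N.BddSeq) : Prop :=
  Tendsto (fun n => N.nrm2 ((x.seq n).op - (y.seq n).op)) U (𝓝 0)

theorem UEqv.refl {U : Ultrafilter ℕ} (x : N.BddSeq) : UEqv U x x := by
  refine tendsto_const_nhds.congr fun n => ?_
  rw [sub_self, nrm2_zero]

theorem UEqv.symm {U : Ultrafilter ℕ} {x y : N.BddSeq} (h : UEqv U x y) : UEqv U y x := by
  refine Tendsto.congr (fun n => ?_) h
  rw [← neg_sub, nrm2_neg]

theorem UEqv.trans {U : Ultrafilter ℕ} {x y z : N.BddSeq} (h : UEqv U x y) (h' : UEqv U y z) :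
    UEqv U x z := by
  have h1 := Tendsto.add h h'
  rw [add_zero] at h1
  refine squeeze_zero (fun n => nrm2_nonneg _) (fun n => ?_) h1
  have e : (x.seq n).op - (z.seq n).op =
    ((x.seq n).op - (y.seq n).op) + ((y.seq n).op - (z.seq n).op) := by abel
  rw [e]
  exact nrm2_add_le _ _

theorem UEqv.add {U : Ultrafilter ℕ} {x x' y y' : N.BddSeq} (h : UEqv U x x')
    (h' : UEqv U y y') : UEqv U (x + y) (x' + y') := by
  have h1 := Tendsto.add h h'
  rw [add_zero] at h1
  refine squeeze_zero (fun n => nrm2_nonneg _) (fun n => ?_) h1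
  have e : ((x + y).seq n).op - ((x' + y').seq n).op =
    ((x.seq n).op - (x'.seq n).op) + ((y.seq n).op - (y'.seq n).op) :=
    add_sub_add_comm _ _ _ _
  rw [e]
  exact nrm2_add_le _ _

theorem UEqv.mul {U : Ultrafilter ℕ} {x x' y y' : N.BddSeq} (h : UEqv U x x')
    (h' : UEqv U y y') : UEqv U (x * y) (x' * y') := by
  obtain ⟨C, hC⟩ := x'.bdd
  obtain ⟨D, hD⟩ := y.bdd
  have h1 := Tendsto.add (Tendsto.const_mul D h) (Tendsto.const_mul C h')
  rw [mul_zero, mul_zero, add_zero] at h1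
  refine squeeze_zero (fun n => nrm2_nonneg _) (fun n => ?_) h1
  have e : ((x * y).seq n).op - ((x' * y').seq n).op =
      ((x.seq n).op - (x'.seq n).op) * (y.seq n).op +
      (x'.seq n).op * ((y.seq n).op - (y'.seq n).op) := by
    have e1 : ((x * y).seq n).op = (x.seq n).op * (y.seq n).op := rfl
    have e2 : ((x' * y').seq n).op = (x'.seq n).op * (y'.seq n).op := rfl
    rw [e1, e2, sub_mul, mul_sub]
    abel
  rw [e]
  refine (nrm2_add_le _ _).trans (add_le_add ?_ ?_)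
  · exact (nrm2_mul_le' (sub_mem (x.seq n).2 (x'.seq n).2) (y.seq n).2).trans
      (mul_le_mul_of_nonneg_right (hD n) (nrm2_nonneg _))
  · exact (nrm2_mul_le _ _).trans (mul_le_mul_of_nonneg_right (hC n) (nrm2_nonneg _))

theorem UEqv.smul {U : Ultrafilter ℕ} (c : ℂ) {x x' : N.BddSeq} (h : UEqv U x x') :
    UEqv U (c • x) (c • x') := by
  have h1 := Tendsto.const_mul ‖c‖ h
  rw [mul_zero] at h1
  refine Tendsto.congr (fun n => ?_) h1
  have e : ((c • x).seq n).op - ((c • x').seq n).op = c • ((x.seq n).op - (x'.seq n).op) :=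
    (smul_sub c (x.seq n).op (x'.seq n).op).symm
  rw [e, nrm2_smul]

theorem UEqv.star {U : Ultrafilter ℕ} {x x' : N.BddSeq} (h : UEqv U x x') :
    UEqv U (star x) (star x') := by
  refine Tendsto.congr (fun n => ?_) h
  have e : ((Star.star x).seq n).op - ((Star.star x').seq n).op =
      Star.star ((x.seq n).op - (x'.seq n).op) := (star_sub (x.seq n).op (x'.seq n).op).symm
  rw [e]
  exact (nrm2_star (sub_mem (x.seq n).2 (x'.seq n).2)).symm

/-- equality in the ultrapower -/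
def ultraSetoid (N : TVN) (U : Ultrafilter ℕ) : Setoid N.BddSeq :=
  ⟨UEqv U, UEqv.refl, UEqv.symm, UEqv.trans⟩

/-- the tracial ultrapower `N^U`: bounded sequences modulo the sequences tending to `0` in
`2`-norm along `U` -/
def Ultrapower (N : TVN) (U : Ultrafilter ℕ) : Type := Quotient (N.ultraSetoid U)

/-- the class `[x_n]` of a bounded sequence -/
def cls (U : Ultrafilter ℕ) (x : N.BddSeq) : N.Ultrapower U := Quotient.mk (N.ultraSetoid U) x

theorem cls_eq {U : Ultrafilter ℕ} {x y : N.BddSeq} (h : UEqv U x y) : cls U x = cls U y :=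
  Quotient.sound h

variable {U : Ultrafilter ℕ}

instance : One (N.Ultrapower U) := ⟨cls U 1⟩

instance : Add (N.Ultrapower U) := ⟨Quotient.map₂ (fun x y => x + y)
  fun _ _ h _ _ h' => UEqv.add h h'⟩

instance : Mul (N.Ultrapower U) := ⟨Quotient.map₂ (fun x y => x * y)
  fun _ _ h _ _ h' => UEqv.mul h h'⟩

instance : SMul ℂ (N.Ultrapower U) := ⟨fun c => Quotient.map (fun x => c • x)
  fun _ _ h => UEqv.smul c h⟩

instance : Star (N.Ultrapower U) := ⟨Quotient.map (fun x => star x)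
  fun _ _ h => UEqv.star h⟩

theorem exists_lim_tr (U : Ultrafilter ℕ) (x : N.BddSeq) :
    ∃ l, Tendsto (fun n => (x.seq n).tr) U (𝓝 l) := by
  obtain ⟨C, hC⟩ := x.bdd
  have hc : IsCompact (Metric.closedBall (0 : ℂ) C) := isCompact_closedBall _ _
  obtain ⟨l, -, hl⟩ := hc.ultrafilter_le_nhds (U.map fun n => (x.seq n).tr) (by
    rw [Ultrafilter.coe_map]
    apply le_principal_iff.2
    refine mem_map.2 (Filter.univ_mem' fun n => ?_)
    simp only [Set.mem_preimage, mem_closedBall_zero_iff]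
    exact (norm_τ_le _).trans ((nrm2_le _).trans (hC n)))
  exact ⟨l, hl⟩

theorem lim_tr_congr {x y : N.BddSeq} (h : UEqv U x y)
    {l : ℂ} (hx : Tendsto (fun n => (x.seq n).tr) U (𝓝 l)) :
    Tendsto (fun n => (y.seq n).tr) U (𝓝 l) := by
  have h1 : Tendsto (fun n => (x.seq n).tr - (y.seq n).tr) U (𝓝 0) := by
    rw [tendsto_zero_iff_norm_tendsto_zero]
    refine squeeze_zero (fun n => norm_nonneg _) (fun n => ?_) h
    have e : (x.seq n).tr - (y.seq n).tr = N.vna.τ ((x.seq n).op - (y.seq n).op) :=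
      (inner_sub_right N.vna.Ω ((x.seq n).op N.vna.Ω) ((y.seq n).op N.vna.Ω)).symm
    rw [e]
    exact norm_τ_le _
  have h2 := hx.sub h1
  rw [sub_zero] at h2
  exact h2.congr fun n => by ring

theorem limUnder_congr {x y : N.BddSeq} (h : UEqv U x y) :
    limUnder (U : Filter ℕ) (fun n => (x.seq n).tr) =
      limUnder (U : Filter ℕ) (fun n => (y.seq n).tr) := by
  obtain ⟨l, hl⟩ := exists_lim_tr U x
  exact hl.limUnder_eq.trans (lim_tr_congr h hl).limUnder_eq.symm

/-- the trace of the ultrapower, `τ([x_n]) = lim_U τ(x_n)` -/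
def Ultrapower.tr (z : N.Ultrapower U) : ℂ :=
  Quotient.lift (fun x : N.BddSeq => limUnder (U : Filter ℕ) (fun n => (x.seq n).tr))
    (fun _ _ h => limUnder_congr h) z

theorem tr_cls (x : N.BddSeq) {l : ℂ}
    (hl : Tendsto (fun n => (x.seq n).tr) U (𝓝 l)) : (cls U x).tr = l := hl.limUnder_eq

/-- a constant sequence -/
def constSeq (x : N.El) : N.BddSeq := ⟨fun _ => x, ‖x.op‖, fun _ => le_rfl⟩

/-- the diagonal embedding of `N` in its ultrapower, `x ↦ [x, x, x, …]` -/
def diag (N : TVN) (U : Ultrafilter ℕ) (x : N.El) : N.Ultrapower U := cls U (constSeq x)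

end TVN

/-- An embedding of tracial von Neumann algebras: a unital `*`-homomorphism preserving the
traces. (It is isometric for the `2`-norms, hence automatically injective and normal.) -/
def IsEmbedding (N M : TVN) (ι : N.El → M.El) : Prop :=
  IsStarHom ι ∧ ∀ x : N.El, (ι x).tr = x.tr

/-- An embedding of a tracial von Neumann algebra `M` in the ultrapower `N^U`. -/
def IsEmbeddingU (M N : TVN) (U : Ultrafilter ℕ) (θ : M.El → N.Ultrapower U) : Prop :=
  IsStarHom θ ∧ ∀ z : M.El, (θ z).tr = z.tr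

/-- An embedding `ι : N → M` is existential (along `U`) if there is an embedding `θ` of `M` in
the ultrapower `N^U` such that `θ ∘ ι` is the diagonal embedding of `N`. -/
def IsExistential {N M : TVN} (ι : N.El → M.El) (U : Ultrafilter ℕ) : Prop :=
  ∃ θ : M.El → N.Ultrapower U, IsEmbeddingU M N U θ ∧ ∀ x : N.El, θ (ι x) = N.diag U x

end

end MP7e
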